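import Pool.Agent.EscV.FnDefs

set_option autoImplicit false

/-!
# EscG geometry, module Fn0: uniform constants of a Finsler metric
-/

noncomputable section

namespace Pool.Agent.EscV

open Pool.Agent.EscG

open MeasureTheory Set Filter Topology Esc EscF _root_.EscG
open scoped ContDiff

set_option linter.unusedSectionVars false

variable {E : Type*} [NormedAddCommGroup E] [InnerProductSpace ℝ E] [FiniteDimensional ℝ E]
  {β : Module.Basis (Fin 2) ℝ E} {F : E → E → ℝ}

/-- a periodic property which holds on a large ball holds everywhere -/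
theorem Fn0_per (β : Module.Basis (Fin 2) ℝ E) : ∃ r : ℝ, 0 ≤ r ∧ ∀ P : E → Prop,
    (∀ i x, P (x + β i) ↔ P x) → (∀ x, ‖x‖ ≤ r → P x) → ∀ x, P x := by
  obtain ⟨r, hr⟩ := (ZSpan.fundamentalDomain_isBounded β).subset_closedBall 0
  refine ⟨max r 0, le_max_right _ _, fun P hP hb x => ?_⟩
  have hsp : ∀ y ∈ Submodule.span ℤ (Set.range β), ∀ x, P (x + y) ↔ P x := by
    intro y hy
    induction hy using Submodule.span_induction with
    | mem y hy =>
      obtain ⟨i, rfl⟩ := hy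
      exact hP i
    | zero => intro x; rw [add_zero]
    | add y z _ _ h1 h2 => intro x; rw [← add_assoc, h2, h1]
    | smul n y _ h1 =>
      intro x
      induction n using Int.induction_on generalizing x with
      | zero => rw [zero_smul, add_zero]
      | succ k ih => rw [add_smul, one_smul, ← add_assoc, h1, ih]
      | pred k ih =>
        rw [sub_smul, one_smul]
        have := h1 (x + (-(k : ℤ) • y - y))
        rw [add_assoc, sub_add_cancel] at this
        rw [← this, ih]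
  have h1 : ZSpan.fract β x ∈ ZSpan.fundamentalDomain β := ZSpan.fract_mem_fundamentalDomain β x
  have h2 := hr h1
  rw [Metric.mem_closedBall, dist_zero_right] at h2
  have h3 := hb _ (h2.trans (le_max_left r 0))
  have h4 : ZSpan.fract β x = x - (ZSpan.floor β x : E) := ZSpan.fract_apply β x
  have h5 := hsp (ZSpan.floor β x : E) (ZSpan.floor β x).2 (ZSpan.fract β x)
  rw [h4, sub_add_cancel] at h5
  rw [h4] at h3
  exact h5.2 h3

theorem Fn0_open : IsOpen {p : E × E | p.2 ≠ 0} :=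
  isOpen_ne.preimage continuous_snd

/-- unit vectors -/
theorem Fn0_unit (v : E) (hv : v ≠ 0) : ∃ u : E, ‖u‖ = 1 ∧ v = ‖v‖ • u := by
  have h : ‖v‖ ≠ 0 := norm_ne_zero_iff.2 hv
  refine ⟨‖v‖⁻¹ • v, ?_, ?_⟩
  · rw [norm_smul, norm_inv, norm_norm, inv_mul_cancel₀ h]
  · rw [smul_smul, mul_inv_cancel₀ h, one_smul]

theorem Fn0_zero (h : IsFins2 β F) (x : E) : F x 0 = 0 := by
  have := h.hom x 0 0 le_rfl
  rw [zero_smul, zero_mul] at this
  exact this

theorem Fn0_bounds (h : IsFins2 β F) : ∃ mF MF : ℝ, 0 < mF ∧ mF ≤ MF ∧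
    ∀ x v, mF * ‖v‖ ≤ F x v ∧ F x v ≤ MF * ‖v‖ := by
  obtain ⟨r, hr0, hr⟩ := Fn0_per β
  have hK : IsCompact (Metric.closedBall (0 : E) r ×ˢ Metric.sphere (0 : E) 1) :=
    (isCompact_closedBall _ _).prod (isCompact_sphere _ _)
  have hc : ContinuousOn (fun p : E × E => F p.1 p.2)
      (Metric.closedBall (0 : E) r ×ˢ Metric.sphere (0 : E) 1) := by
    refine h.smooth.continuousOn.mono fun p hp => ?_
    have h1 : ‖p.2‖ = 1 := mem_sphere_zero_iff_norm.1 hp.2
    show p.2 ≠ 0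
    intro h2
    rw [h2, norm_zero] at h1
    exact one_ne_zero h1.symm
  have hne : (Metric.closedBall (0 : E) r ×ˢ Metric.sphere (0 : E) 1).Nonempty := by
    obtain ⟨u, hu, -⟩ := Fn0_unit (β 0) (β.ne_zero 0)
    exact ⟨(0, u), Metric.mem_closedBall_self hr0, mem_sphere_zero_iff_norm.2 hu⟩
  obtain ⟨p, hp, hmin⟩ := hK.exists_isMinOn hne hc
  obtain ⟨q, hq, hmax⟩ := hK.exists_isMaxOn hne hc
  have hp0 : 0 < F p.1 p.2 := by
    apply h.pos
    have h1 : ‖p.2‖ = 1 := mem_sphere_zero_iff_norm.1 hp.2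
    intro h2
    rw [h2, norm_zero] at h1
    exact one_ne_zero h1.symm
  refine ⟨F p.1 p.2, F q.1 q.2, hp0, hmin hq, ?_⟩
  refine hr _ (fun i x => ?_) (fun x hx v => ?_)
  · simp only [h.per]
  · by_cases hv : v = 0
    · rw [hv, Fn0_zero h, norm_zero, mul_zero, mul_zero]
      exact ⟨le_rfl, le_rfl⟩
    · obtain ⟨u, hu, huv⟩ := Fn0_unit v hv
      have hv0 : 0 ≤ ‖v‖ := norm_nonneg v
      have h1 : F x v = ‖v‖ * F x u := by
        conv_lhs => rw [huv]
        rw [h.hom _ _ _ hv0]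
      have hmem : (x, u) ∈ Metric.closedBall (0 : E) r ×ˢ Metric.sphere (0 : E) 1 :=
        ⟨by rw [Metric.mem_closedBall, dist_zero_right]; exact hx, mem_sphere_zero_iff_norm.2 hu⟩
      have h2 : F p.1 p.2 ≤ F x u := hmin hmem
      have h3 : F x u ≤ F q.1 q.2 := hmax hmem
      rw [h1, mul_comm (F p.1 p.2), mul_comm (F q.1 q.2)]
      exact ⟨mul_le_mul_of_nonneg_left h2 hv0, mul_le_mul_of_nonneg_left h3 hv0⟩

theorem Fn0_cont (h : IsFins2 β F) : Continuous (fun p : E × E => F p.1 p.2) := by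
  obtain ⟨mF, MF, hm, hmM, hb⟩ := Fn0_bounds h
  rw [continuous_iff_continuousAt]
  rintro ⟨x, v⟩
  by_cases hv : v = 0
  · subst hv
    unfold ContinuousAt
    show Tendsto (fun p : E × E => F p.1 p.2) (𝓝 (x, 0)) (𝓝 (F x 0))
    rw [Fn0_zero h]
    have h1 : Tendsto (fun p : E × E => MF * ‖p.2‖) (𝓝 (x, 0)) (𝓝 0) := by
      have h2 : Continuous (fun p : E × E => MF * ‖p.2‖) := by fun_prop
      have h3 := h2.tendsto (x, 0)
      simpa using h3
    refine squeeze_zero (fun p => ?_) (fun p => (hb p.1 p.2).2) h1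
    exact le_trans (mul_nonneg hm.le (norm_nonneg _)) (hb p.1 p.2).1
  · exact h.smooth.continuousOn.continuousAt (Fn0_open.mem_nhds hv)

/-- second derivatives in the second variable are second derivatives on `E × E` -/
theorem Fn0_hess {G : E × E → ℝ} (hG : ContDiffOn ℝ 2 G {p | p.2 ≠ 0}) (x v w w' : E)
    (hv : v ≠ 0) : fderiv ℝ (fderiv ℝ (fun z => G (x, z))) v w w' =
      fderiv ℝ (fderiv ℝ G) (x, v) (0, w) (0, w') := by
  have hG1 : ContDiffOn ℝ 1 (fderiv ℝ G) {p | p.2 ≠ 0} :=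
    hG.fderiv_of_isOpen Fn0_open (by norm_num)
  have hin : ∀ z : E, HasFDerivAt (fun z : E => (x, z)) (ContinuousLinearMap.inr ℝ E E) z := by
    intro z
    exact hasFDerivAt_prodMk_right x z
  have h1 : ∀ z : E, z ≠ 0 → fderiv ℝ (fun z => G (x, z)) z =
      (fderiv ℝ G (x, z)).comp (ContinuousLinearMap.inr ℝ E E) := by
    intro z hz
    have h2 : DifferentiableAt ℝ G (x, z) :=
      (hG.contDiffAt (Fn0_open.mem_nhds hz)).differentiableAt (by norm_num)
    exact (h2.hasFDerivAt.comp z (hin z)).fderiv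
  have h3 : fderiv ℝ (fun z => G (x, z)) =ᶠ[𝓝 v] fun z =>
      (fderiv ℝ G (x, z)).comp (ContinuousLinearMap.inr ℝ E E) := by
    filter_upwards [isOpen_ne.mem_nhds hv] with z hz
    exact h1 z hz
  rw [h3.fderiv_eq]
  have h4 : DifferentiableAt ℝ (fderiv ℝ G) (x, v) :=
    (hG1.contDiffAt (Fn0_open.mem_nhds hv)).differentiableAt (by norm_num)
  have h5 : HasFDerivAt (fun z => fderiv ℝ G (x, z))
      ((fderiv ℝ (fderiv ℝ G) (x, v)).comp (ContinuousLinearMap.inr ℝ E E)) v :=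
    HasFDerivAt.comp (g := fderiv ℝ G) (f := fun z : E => (x, z)) v h4.hasFDerivAt (hin v)
  have h6 := h5.clm_comp (hasFDerivAt_const (ContinuousLinearMap.inr ℝ E E) v)
  rw [h6.fderiv]
  simp

/-- the second derivative of a function which is homogeneous of degree two is homogeneous of degree zero -/
theorem Fn0_scale {f : E → ℝ} {c : ℝ} (hc : c ≠ 0) (hf : ∀ z, f (c • z) = c ^ 2 * f z) (v : E) :
    fderiv ℝ (fderiv ℝ f) (c • v) = fderiv ℝ (fderiv ℝ f) v := by
  have h1 : (fun z => f (c • z)) = (c ^ 2) • f := funext hf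
  have h2 : ∀ z, c • fderiv ℝ f (c • z) = (c ^ 2) • fderiv ℝ f z := by
    intro z
    rw [← fderiv_comp_smul, h1, fderiv_const_smul_field]
    rfl
  have h3 : (fun z => fderiv ℝ f (c • z)) = c • fderiv ℝ f := by
    funext z
    apply smul_right_injective _ hc
    show c • fderiv ℝ f (c • z) = c • (c • fderiv ℝ f z)
    rw [h2, smul_smul, sq]
  apply smul_right_injective _ hc
  show c • fderiv ℝ (fderiv ℝ f) (c • v) = c • fderiv ℝ (fderiv ℝ f) v
  rw [← fderiv_comp_smul, h3]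
  exact congrFun (fderiv_const_smul_field (𝕜 := ℝ) (f := fderiv ℝ f) c) v

/-- the second derivative of `F²` is bounded below -/
theorem Fn0_min (h : IsFins2 β F) : ∃ m : ℝ, 0 < m ∧ ∀ x v w, v ≠ 0 →
    m * ‖w‖ ^ 2 ≤ fderiv ℝ (fderiv ℝ (fun z => F x z ^ 2)) v w w := by
  obtain ⟨r, hr0, hr⟩ := Fn0_per β
  have hG : ContDiffOn ℝ 2 (fun p : E × E => F p.1 p.2 ^ 2) {p | p.2 ≠ 0} := h.smooth.pow 2
  have hG1 : ContDiffOn ℝ 1 (fderiv ℝ (fun p : E × E => F p.1 p.2 ^ 2)) {p | p.2 ≠ 0} :=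
    hG.fderiv_of_isOpen Fn0_open (by norm_num)
  have hG2 : ContinuousOn (fderiv ℝ (fderiv ℝ (fun p : E × E => F p.1 p.2 ^ 2)))
      {p | p.2 ≠ 0} := (hG1.fderiv_of_isOpen (m := 0) Fn0_open (by norm_num)).continuousOn
  set S : Set E := Metric.sphere (0 : E) 1 with hS
  set K : Set (E × E × E) := Metric.closedBall (0 : E) r ×ˢ (S ×ˢ S) with hK
  have hKc : IsCompact K :=
    (isCompact_closedBall _ _).prod ((isCompact_sphere _ _).prod (isCompact_sphere _ _))
  have hSne : ∀ u ∈ S, u ≠ 0 := by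
    intro u hu h2
    have h1 : ‖u‖ = 1 := mem_sphere_zero_iff_norm.1 hu
    rw [h2, norm_zero] at h1
    exact one_ne_zero h1.symm
  have hc : ContinuousOn (fun p : E × E × E =>
      fderiv ℝ (fderiv ℝ (fun z => F p.1 z ^ 2)) p.2.1 p.2.2 p.2.2) K := by
    have h1 : ContinuousOn (fun p : E × E × E =>
        fderiv ℝ (fderiv ℝ (fun p : E × E => F p.1 p.2 ^ 2)) (p.1, p.2.1) ((0 : E), p.2.2)
          ((0 : E), p.2.2)) K := by
      have h2 : ContinuousOn (fun p : E × E × E =>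
          fderiv ℝ (fderiv ℝ (fun p : E × E => F p.1 p.2 ^ 2)) (p.1, p.2.1)) K := by
        refine hG2.comp (by fun_prop) fun p hp => ?_
        exact hSne _ hp.2.1
      have h3 : ContinuousOn (fun p : E × E × E => ((0 : E), p.2.2)) K := by fun_prop
      exact (h2.clm_apply h3).clm_apply h3
    refine h1.congr fun p hp => ?_
    exact Fn0_hess hG p.1 p.2.1 p.2.2 p.2.2 (hSne _ hp.2.1)
  have hne : K.Nonempty := by
    obtain ⟨u, hu, -⟩ := Fn0_unit (β 0) (β.ne_zero 0)
    exact ⟨(0, u, u), Metric.mem_closedBall_self hr0, mem_sphere_zero_iff_norm.2 hu,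
      mem_sphere_zero_iff_norm.2 hu⟩
  obtain ⟨p, hp, hmin⟩ := hKc.exists_isMinOn hne hc
  have hpos := h.conv p.1 p.2.1 p.2.2 (hSne _ hp.2.1) (hSne _ hp.2.2)
  refine ⟨_, hpos, ?_⟩
  refine hr _ (fun i x => ?_) (fun x hx v w hv => ?_)
  · simp only [h.per]
  · by_cases hw : w = 0
    · rw [hw]
      simp
    · obtain ⟨u, hu, huv⟩ := Fn0_unit v hv
      obtain ⟨o, ho, how⟩ := Fn0_unit w hw
      have h1 : fderiv ℝ (fderiv ℝ (fun z => F x z ^ 2)) v =
          fderiv ℝ (fderiv ℝ (fun z => F x z ^ 2)) u := by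
        conv_lhs => rw [huv]
        refine Fn0_scale (norm_ne_zero_iff.2 hv) (fun z => ?_) u
        show F x (‖v‖ • z) ^ 2 = ‖v‖ ^ 2 * F x z ^ 2
        rw [h.hom _ _ _ (norm_nonneg v)]
        ring
      have h2 : fderiv ℝ (fderiv ℝ (fun z => F x z ^ 2)) v w w =
          fderiv ℝ (fderiv ℝ (fun z => F x z ^ 2)) u o o * ‖w‖ ^ 2 := by
        rw [h1]
        obtain ⟨a, ha⟩ : ∃ a : ℝ, a = ‖w‖ := ⟨_, rfl⟩
        rw [← ha] at how ⊢
        rw [how]
        simp only [map_smul, ContinuousLinearMap.coe_smul', Pi.smul_apply, smul_eq_mul]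
        ring
      rw [h2]
      refine mul_le_mul_of_nonneg_right ?_ (by positivity)
      have hmem : (x, u, o) ∈ K :=
        ⟨by rw [Metric.mem_closedBall, dist_zero_right]; exact hx, mem_sphere_zero_iff_norm.2 hu,
          mem_sphere_zero_iff_norm.2 ho⟩
      exact hmin hmem

theorem IsFins2.rfins (h : IsFins2 β F) : ∃ mF MF m : ℝ, NFins β F mF MF m := by
  obtain ⟨mF, MF, h1, h2, h3⟩ := Fn0_bounds h
  obtain ⟨m, hm, hmin⟩ := Fn0_min h
  refine ⟨mF, MF, m / 2, ?_⟩
  exact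
    { fins :=
        { mF_pos := h1
          mF_le := h2
          cont := Fn0_cont h
          per := h.per
          hom := h.hom
          low := fun x v => (h3 x v).1
          upp := fun x v => (h3 x v).2 }
      m_pos := by linarith
      smooth := h.smooth
      hess := fun x v w hv => by
        have e1 : (fun z => F x z ^ 2 / 2) = (1 / 2 : ℝ) • fun z => F x z ^ 2 := by
          funext z
          show F x z ^ 2 / 2 = 1 / 2 * F x z ^ 2
          ring
        have h4 := hmin x v w hv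
        have e2 : fderiv ℝ (fderiv ℝ (fun z => F x z ^ 2 / 2)) =
            (1 / 2 : ℝ) • fderiv ℝ (fderiv ℝ (fun z => F x z ^ 2)) := by
          rw [e1, fderiv_const_smul_field]
          exact fderiv_const_smul_field (𝕜 := ℝ) (f := fderiv ℝ (fun z => F x z ^ 2)) (1 / 2 : ℝ)
        rw [e2]
        show m / 2 * ‖w‖ ^ 2 ≤ 1 / 2 * fderiv ℝ (fderiv ℝ (fun z => F x z ^ 2)) v w w
        linarith }

end Pool.Agent.EscV
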