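import Pool.Agent.EscV.FnDefs

set_option autoImplicit false
set_option linter.unusedSectionVars false

/-!
# EscG geometry, module Fn1: the norms `F x`, uniform continuity, short segments
-/

noncomputable section

namespace Pool.Agent.EscV

open Pool.Agent.EscG

open MeasureTheory Set Filter Topology Esc EscF _root_.EscG
open scoped ContDiff

variable {E : Type*} [NormedAddCommGroup E] [InnerProductSpace ℝ E] [FiniteDimensional ℝ E]
  {β : Module.Basis (Fin 2) ℝ E} {F : E → E → ℝ} {mF MF m : ℝ}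

/-! ### the norms -/

theorem Fn1_zero (h : NFins β F mF MF m) (x : E) : F x 0 = 0 := by
  have h1 := h.fins.low x 0
  have h2 := h.fins.upp x 0
  rw [norm_zero, mul_zero] at h1 h2
  exact le_antisymm h2 h1

theorem Fn1_nn (h : NFins β F mF MF m) (x v : E) : 0 ≤ F x v :=
  (mul_nonneg h.fins.mF_pos.le (norm_nonneg v)).trans (h.fins.low x v)

theorem Fn1_pos (h : NFins β F mF MF m) (x : E) {v : E} (hv : v ≠ 0) : 0 < F x v :=
  (mul_pos h.fins.mF_pos (norm_pos_iff.2 hv)).trans_le (h.fins.low x v)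

theorem Fn1_q (h : NFins β F mF MF m) (x : E) :
    ContDiffOn ℝ 2 (fun z => F x z ^ 2 / 2) {z | z ≠ 0} := by
  have h1 : ContDiffOn ℝ 2 (fun z => F x z) {z | z ≠ 0} :=
    h.smooth.comp (f := fun z => (x, z)) (contDiff_const.prodMk contDiff_id).contDiffOn
      (fun z hz => hz)
  exact (h1.pow 2).div_const 2

theorem Fn1_qa (h : NFins β F mF MF m) (x : E) {z : E} (hz : z ≠ 0) :
    ContDiffAt ℝ 2 (fun z => F x z ^ 2 / 2) z :=
  (Fn1_q h x).contDiffAt (isOpen_ne.mem_nhds hz)

theorem Fn1_line {v d : E} (s : ℝ) : HasDerivAt (fun s : ℝ => v + s • d) d s := by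
  have h1 := ((hasDerivAt_id s).smul_const d).const_add v
  simpa using h1

/-- `F x ^ 2 / 2` is convex on segments which do not meet `0` -/
theorem Fn1_conv (h : NFins β F mF MF m) (x : E) {v d : E} (h0 : ∀ s ∈ Icc (0 : ℝ) 1, v + s • d ≠ 0) :
    ConvexOn ℝ (Icc (0 : ℝ) 1) (fun s => F x (v + s • d) ^ 2 / 2) := by
  have hI : interior (Icc (0 : ℝ) 1) ⊆ Icc (0 : ℝ) 1 := interior_subset
  refine convexOn_of_hasDerivWithinAt2_nonneg (convex_Icc 0 1)
    (f' := fun s => fderiv ℝ (fun z => F x z ^ 2 / 2) (v + s • d) d)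
    (f'' := fun s => fderiv ℝ (fderiv ℝ (fun z => F x z ^ 2 / 2)) (v + s • d) d d) ?_ ?_ ?_ ?_
  · have h1 : Continuous fun s : ℝ => F x (v + s • d) ^ 2 / 2 := by
      have h2 : Continuous fun s : ℝ => F x (v + s • d) :=
        h.fins.cont.comp (continuous_const.prodMk (by fun_prop))
      exact (h2.pow 2).div_const 2
    exact h1.continuousOn
  · intro s hs
    have h1 := ((Fn1_qa h x (h0 s (hI hs))).differentiableAt (by norm_num)).hasFDerivAt
    exact (h1.comp_hasDerivAt s (Fn1_line s)).hasDerivWithinAt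
  · intro s hs
    have h1 : DifferentiableAt ℝ (fderiv ℝ (fun z => F x z ^ 2 / 2)) (v + s • d) :=
      ((Fn1_qa h x (h0 s (hI hs))).fderiv_right (m := 1) (by norm_num)).differentiableAt (by norm_num)
    have h2 := h1.hasFDerivAt.comp_hasDerivAt s (Fn1_line (v := v) (d := d) s)
    have h3 := h2.clm_apply (hasDerivAt_const s d)
    simp only [map_zero, add_zero] at h3
    exact h3.hasDerivWithinAt
  · intro s hs
    have h1 := h.hess x (v + s • d) d (h0 s (hI hs))
    have h2 : 0 ≤ m * ‖d‖ ^ 2 := mul_nonneg h.m_pos.le (by positivity)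
    linarith

theorem NFins.norm_add (h : NFins β F mF MF m) (x v w : E) : F x (v + w) ≤ F x v + F x w := by
  by_cases hv : v = 0
  · subst hv; rw [zero_add, Fn1_zero h, zero_add]
  by_cases hw : w = 0
  · subst hw; rw [add_zero, Fn1_zero h, add_zero]
  have ha := Fn1_pos h x hv
  have hb := Fn1_pos h x hw
  obtain ⟨a, hae⟩ : ∃ a, a = F x v := ⟨_, rfl⟩
  obtain ⟨b, hbe⟩ : ∃ b, b = F x w := ⟨_, rfl⟩
  rw [← hae, ← hbe]
  rw [← hae] at ha
  rw [← hbe] at hb
  obtain ⟨v', hv'⟩ : ∃ v', v' = a⁻¹ • v := ⟨_, rfl⟩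
  obtain ⟨w', hw'⟩ : ∃ w', w' = b⁻¹ • w := ⟨_, rfl⟩
  have ev : v = a • v' := by rw [hv', smul_smul, mul_inv_cancel₀ ha.ne', one_smul]
  have ew : w = b • w' := by rw [hw', smul_smul, mul_inv_cancel₀ hb.ne', one_smul]
  have fv : F x v' = 1 := by
    rw [hv', h.fins.hom x v a⁻¹ (by positivity), ← hae, inv_mul_cancel₀ ha.ne']
  have fw : F x w' = 1 := by
    rw [hw', h.fins.hom x w b⁻¹ (by positivity), ← hbe, inv_mul_cancel₀ hb.ne']
  by_cases h0 : ∀ s ∈ Icc (0 : ℝ) 1, v' + s • (w' - v') ≠ 0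
  · have hc := (Fn1_conv h x h0).2 (show (0 : ℝ) ∈ Icc (0 : ℝ) 1 by simp)
      (show (1 : ℝ) ∈ Icc (0 : ℝ) 1 by simp) (show 0 ≤ a / (a + b) by positivity)
      (show 0 ≤ b / (a + b) by positivity) (by field_simp)
    simp only [smul_eq_mul, mul_zero, mul_one, zero_add, zero_smul, add_zero, one_smul] at hc
    rw [add_sub_cancel, fv, fw] at hc
    have e1 : a / (a + b) * (1 ^ 2 / 2) + b / (a + b) * (1 ^ 2 / 2) = (1 : ℝ) / 2 := by
      field_simp
    rw [e1] at hc
    have e2 : v' + (b / (a + b)) • (w' - v') = (a + b)⁻¹ • (v + w) := by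
      rw [ev, ew]
      have e3 : (a + b)⁻¹ • (a • v' + b • w') = (a / (a + b)) • v' + (b / (a + b)) • w' := by
        rw [smul_add, smul_smul, smul_smul, div_eq_inv_mul, div_eq_inv_mul]
      have e4 : a / (a + b) = 1 - b / (a + b) := by field_simp; ring
      rw [e3, e4, smul_sub, sub_smul, one_smul]
      abel
    rw [e2, h.fins.hom x _ _ (by positivity)] at hc
    have h5 : (a + b)⁻¹ * F x (v + w) ≤ 1 := by
      have h6 : ((a + b)⁻¹ * F x (v + w)) ^ 2 ≤ 1 ^ 2 := by linarith
      exact le_of_sq_le_sq h6 (by norm_num)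
    rw [inv_mul_le_iff₀ (by positivity), mul_one] at h5
    exact h5
  · push Not at h0
    obtain ⟨s, hs, he⟩ := h0
    have e1 : (1 - s) • v' = -(s • w') := by
      have : v' + s • (w' - v') = (1 - s) • v' + s • w' := by
        rw [smul_sub, sub_smul, one_smul]; abel
      rw [this] at he
      exact eq_neg_of_add_eq_zero_left he
    have nv : v' ≠ 0 := fun e => by rw [e, Fn1_zero h] at fv; exact one_ne_zero fv.symm
    have nw : w' ≠ 0 := fun e => by rw [e, Fn1_zero h] at fw; exact one_ne_zero fw.symm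
    have hs0 : 0 < s := by
      refine lt_of_le_of_ne hs.1 fun e => nv ?_
      rw [← e, sub_zero, one_smul, zero_smul, neg_zero] at e1
      exact e1
    have hs1 : 0 < 1 - s := by
      refine lt_of_le_of_ne (by linarith [hs.2]) fun e => nw ?_
      have e' : s = 1 := by linarith
      rw [e', sub_self, zero_smul, one_smul] at e1
      exact neg_eq_zero.1 e1.symm
    rcases le_total 0 (a - b * ((1 - s) / s)) with hk | hk
    · have e2 : w' = -(((1 - s) / s) • v') := by
        have e3 : s • w' = -((1 - s) • v') := by rw [e1, neg_neg]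
        have e4 : w' = s⁻¹ • (s • w') := by rw [smul_smul, inv_mul_cancel₀ hs0.ne', one_smul]
        rw [e4, e3, smul_neg, smul_smul, div_eq_inv_mul]
      have e5 : v + w = (a - b * ((1 - s) / s)) • v' := by
        rw [ev, ew, e2, sub_smul, smul_neg, smul_smul]
        abel
      rw [e5, h.fins.hom x _ _ hk, fv, mul_one]
      have : 0 ≤ b * ((1 - s) / s) := by positivity
      linarith
    · have e2 : v' = -((s / (1 - s)) • w') := by
        have e4 : v' = (1 - s)⁻¹ • ((1 - s) • v') := by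
          rw [smul_smul, inv_mul_cancel₀ hs1.ne', one_smul]
        rw [e4, e1, smul_neg, smul_smul, div_eq_inv_mul]
      have e5 : v + w = (b - a * (s / (1 - s))) • w' := by
        rw [ev, ew, e2, sub_smul, smul_neg, smul_smul]
        abel
      have hk2 : 0 ≤ b - a * (s / (1 - s)) := by
        have h7 : a ≤ b * ((1 - s) / s) := by linarith
        have h8 : a * (s / (1 - s)) ≤ b * ((1 - s) / s) * (s / (1 - s)) :=
          mul_le_mul_of_nonneg_right h7 (by positivity)
        have h9 : b * ((1 - s) / s) * (s / (1 - s)) = b := by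
          field_simp
        linarith
      rw [e5, h.fins.hom x _ _ hk2, fw, mul_one]
      have : 0 ≤ a * (s / (1 - s)) := by positivity
      linarith

/-! ### Jensen -/

theorem Fn1_cont (h : NFins β F mF MF m) (x : E) : Continuous (F x) :=
  h.fins.cont.comp (continuous_const.prodMk continuous_id)

theorem Fn1_convexOn (h : NFins β F mF MF m) (x : E) : ConvexOn ℝ univ (F x) := by
  refine ⟨convex_univ, fun v _ w _ a b ha hb _ => ?_⟩
  have h1 := h.norm_add x (a • v) (b • w)
  rw [h.fins.hom x v a ha, h.fins.hom x w b hb] at h1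
  exact h1

theorem Fn1_ii (h : NFins β F mF MF m) (x : E) {u : ℝ → E} (hu : Adm u) (a b : ℝ) :
    IntervalIntegrable (fun t => F x (u t)) volume a b := by
  obtain ⟨hm, C, hC⟩ := hu
  rw [intervalIntegrable_iff]
  have hMF : 0 ≤ MF := h.fins.mF_pos.le.trans h.fins.mF_le
  refine Measure.integrableOn_of_bounded (M := MF * C) (by simp)
    ((Fn1_cont h x).comp_stronglyMeasurable hm).aestronglyMeasurable (ae_of_all _ fun t => ?_)
  rw [Real.norm_of_nonneg (Fn1_nn h x _)]
  exact (h.fins.upp x _).trans (mul_le_mul_of_nonneg_left (hC t) hMF)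

theorem NFins.jensen (h : NFins β F mF MF m) (x : E) {u : ℝ → E} (hu : Adm u) {a b : ℝ} (hab : a ≤ b) :
    F x (∫ t in a..b, u t) ≤ ∫ t in a..b, F x (u t) := by
  rcases eq_or_lt_of_le hab with rfl | hlt
  · rw [intervalIntegral.integral_same, intervalIntegral.integral_same, Fn1_zero h]
  have h0 : volume (Ioc a b) ≠ 0 := by
    rw [Real.volume_Ioc]
    simp [hlt]
  have h1 := (Fn1_convexOn h x).map_set_average_le (μ := volume) (t := Ioc a b) (f := u)
    (Fn1_cont h x).continuousOn isClosed_univ h0 (by simp) (by simp)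
    ((intervalIntegrable_iff_integrableOn_Ioc_of_le hab).1 (hu.ii a b))
    ((intervalIntegrable_iff_integrableOn_Ioc_of_le hab).1 (Fn1_ii h x hu a b))
  rw [setAverage_eq, setAverage_eq, h.fins.hom x _ _ (by positivity), smul_eq_mul] at h1
  have h2 : 0 < (volume.real (Ioc a b))⁻¹ := by
    rw [Real.volume_real_Ioc_of_le hab]
    exact inv_pos.2 (by linarith)
  rw [intervalIntegral.integral_of_le hab, intervalIntegral.integral_of_le hab]
  exact le_of_mul_le_mul_left h1 h2

/-! ### uniform continuity -/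

theorem Fn1_per (h : NFins β F mF MF m) {y : E} (hy : y ∈ Submodule.span ℤ (Set.range β)) (x v : E) :
    F (x + y) v = F x v := by
  induction hy using Submodule.span_induction generalizing x with
  | mem y hy =>
    obtain ⟨i, rfl⟩ := hy
    exact h.fins.per i x v
  | zero => rw [add_zero]
  | add y z _ _ h1 h2 => rw [← add_assoc, h2, h1]
  | smul n y _ h1 =>
    induction n using Int.induction_on generalizing x with
    | zero => rw [zero_smul, add_zero]
    | succ k ih => rw [add_smul, one_smul, ← add_assoc, h1, ih]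
    | pred k ih =>
      rw [sub_smul, one_smul]
      have := h1 (x + (-(k : ℤ) • y - y))
      rw [add_assoc, sub_add_cancel] at this
      rw [← this, ih]

theorem NFins.uc (h : NFins β F mF MF m) {ε : ℝ} (hε : 0 < ε) :
    ∃ δ : ℝ, 0 < δ ∧ ∀ x y v : E, ‖y - x‖ ≤ δ → F y v ≤ F x v + ε * ‖v‖ := by
  obtain ⟨r, hr⟩ := (ZSpan.fundamentalDomain_isBounded β).subset_closedBall 0
  have hK : IsCompact (Metric.closedBall (0 : E) (r + 1) ×ˢ Metric.closedBall (0 : E) 1) :=
    (isCompact_closedBall _ _).prod (isCompact_closedBall _ _)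
  have hU := hK.uniformContinuousOn_of_continuous h.fins.cont.continuousOn
  rw [Metric.uniformContinuousOn_iff] at hU
  obtain ⟨δ, hδ, hU⟩ := hU ε hε
  refine ⟨min (δ / 2) 1, by positivity, ?_⟩
  -- unit vectors, points of the cell
  have key : ∀ x y v : E, ‖x‖ ≤ r → ‖y - x‖ ≤ min (δ / 2) 1 → ‖v‖ = 1 → F y v ≤ F x v + ε := by
    intro x y v hx hxy hv
    have h1 : ‖y - x‖ ≤ δ / 2 := hxy.trans (min_le_left _ _)
    have h2 : ‖y - x‖ ≤ 1 := hxy.trans (min_le_right _ _)
    have h3 : ‖y‖ ≤ r + 1 := by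
      have : y = x + (y - x) := by abel
      rw [this]
      exact (_root_.norm_add_le _ _).trans (by linarith)
    have h4 := hU (y, v) ⟨by simpa using h3, by simp [hv]⟩ (x, v)
      ⟨by simp only [Metric.mem_closedBall, dist_zero_right]; linarith, by simp [hv]⟩ (by
        rw [Prod.dist_eq, dist_self, dist_eq_norm]
        refine max_lt ?_ hδ
        linarith)
    rw [Real.dist_eq] at h4
    have := (abs_lt.1 h4).2
    linarith
  intro x y v hxy
  by_cases hv : v = 0
  · subst hv; rw [Fn1_zero h, Fn1_zero h, norm_zero]; linarith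
  have hn : 0 < ‖v‖ := norm_pos_iff.2 hv
  -- reduction to the cell
  have hf : ‖ZSpan.fract β x‖ ≤ r := by
    have := hr (ZSpan.fract_mem_fundamentalDomain β x)
    simpa using this
  have e1 : ZSpan.fract β x + (ZSpan.floor β x : E) = x := by
    rw [ZSpan.fract_apply, sub_add_cancel]
  have e2 : y - (ZSpan.floor β x : E) - ZSpan.fract β x = y - x := by
    rw [ZSpan.fract_apply]; abel
  have h1 := key (ZSpan.fract β x) (y - (ZSpan.floor β x : E)) (‖v‖⁻¹ • v) hf (by rw [e2]; exact hxy)
    (by rw [norm_smul, norm_inv, norm_norm, inv_mul_cancel₀ hn.ne'])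
  have h2 := Fn1_per h (ZSpan.floor β x).2 (ZSpan.fract β x) (‖v‖⁻¹ • v)
  have h3 := Fn1_per h (ZSpan.floor β x).2 (y - (ZSpan.floor β x : E)) (‖v‖⁻¹ • v)
  rw [e1] at h2
  rw [sub_add_cancel] at h3
  rw [← h2, ← h3, h.fins.hom _ _ _ (by positivity), h.fins.hom _ _ _ (by positivity)] at h1
  have h4 := mul_le_mul_of_nonneg_left h1 hn.le
  rw [mul_add, ← mul_assoc, ← mul_assoc, mul_inv_cancel₀ hn.ne', one_mul, one_mul] at h4
  linarith

theorem NFins.fd_loc (h : NFins β F mF MF m) {ε : ℝ} (hε : 0 < ε) :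
    ∃ δ : ℝ, 0 < δ ∧ ∀ x y : E, ‖y - x‖ ≤ δ → fd F x y ≤ F x (y - x) + ε * ‖y - x‖ := by
  obtain ⟨δ, hδ, hu⟩ := h.uc hε
  refine ⟨δ, hδ, fun x y hxy => ?_⟩
  have h1 : traj 0 x (fun _ => y - x) 1 = y := by simp [traj]
  have h2 := fd_sq_le h.fins one_pos x (Adm.const (y - x))
  rw [h1] at h2
  have h3 : (∫ r in (0:ℝ)..1, F (traj 0 x (fun _ => y - x) r) (y - x) ^ 2) ≤
      ∫ _r in (0:ℝ)..1, (F x (y - x) + ε * ‖y - x‖) ^ 2 := by
    refine intervalIntegral.integral_mono_on zero_le_one ?_ (by simp) fun r hr => ?_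
    · have := (A5a_iiQ h.fins 0 (Adm.const (y - x)) 0 x 0 1).const_mul 2
      refine this.congr fun r _ => ?_
      ring
    · refine pow_le_pow_left₀ (Fn1_nn h _ _) (hu _ _ _ ?_) 2
      have e1 : traj 0 x (fun _ => y - x) r - x = r • (y - x) := by simp [traj, smul_sub]
      rw [e1, norm_smul, Real.norm_of_nonneg hr.1]
      exact (mul_le_of_le_one_left (norm_nonneg _) hr.2).trans hxy
  rw [intervalIntegral.integral_const, sub_zero, one_smul] at h3
  rw [sub_zero, one_mul] at h2
  refine le_of_sq_le_sq (h2.trans h3) ?_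
  have := Fn1_nn h x (y - x)
  positivity

/-! ### symmetry, kernels -/

theorem Fn1_adm {u : ℝ → E} (hu : Adm u) (c d : ℝ) : Adm (fun s => c • u (c * s + d)) := by
  obtain ⟨hm, C, hC⟩ := hu
  refine ⟨(hm.comp_measurable (by fun_prop)).const_smul c, |c| * C, fun t => ?_⟩
  rw [norm_smul, Real.norm_eq_abs]
  exact mul_le_mul_of_nonneg_left (hC _) (abs_nonneg c)

theorem Fn1_traj (a c d : ℝ) (z : E) (u : ℝ → E) (t : ℝ) :
    traj a z (fun s => c • u (c * s + d)) t = traj (c * a + d) z u (c * t + d) := by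
  unfold traj
  rw [intervalIntegral.integral_smul, intervalIntegral.smul_integral_comp_mul_add]

theorem NFins.kerl_eq (h : NFins β F mF MF m) {a b : ℝ} (hab : a < b) (x y : E) :
    kerl (C1_e F) a b x y = fd F x y ^ 2 / (2 * (b - a)) := by
  have hba : 0 < b - a := by linarith
  rw [eq_div_iff (by positivity)]
  apply le_antisymm
  · have := C1_scale h.fins hab x y
    linarith
  · rw [← div_le_iff₀ (by positivity)]
    apply le_kerl hab
    intro u hu hz
    rw [div_le_iff₀ (by positivity)]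
    have h1 := fd_sq_le h.fins hab x hu
    rw [hz] at h1
    have h4 : actl (C1_e F) a b x u = (∫ r in a..b, F (traj a x u r) (u r) ^ 2) / 2 := by
      unfold actl C1_e
      rw [intervalIntegral.integral_div]
    rw [h4]
    linarith

end Pool.Agent.EscV
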