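import Pool.Agent.EscV.Fn2b
import Pool.Agent.EscG.A2b

set_option autoImplicit false

/-!
# EscG geometry, module Fn2c: the regularised energy is strongly convex

Fix `x`; let `S z = F x z ^ 2 / 2`, `N z = ‖z‖²/2`, `G = fun z => rg φ χ δ F x z t = φ ∘ S + δ (χ ∘ S) N`.
`rg_hess`. For `v = 0` or `S v < 1/32` (open set): `G = φ 0 + δ N` near `v`, `G'' (w,w) = δ ‖w‖²`. For `v ≠ 0`:
`(φ ∘ S)'' (w,w) = φ'(S) S''(w,w) + φ''(S) (S' w)^2 ≥ φ'(S) m ‖w‖²` (`Cuts.d1`, `d2`, `h.hess`). If `S v < 1/16`: near `v`, `χ ∘ S = 1`, so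
`G'' (w,w) ≥ δ ‖w‖²`. If `S v > 1/8`: near `v` `G = S`, `G'' ≥ m ‖w‖²`. For `1/16 ≤ S v ≤ 1/8`: `φ'(S) ≥ c`, and
`|((χ ∘ S) N)'' (w,w)| ≤ C ‖w‖²` with `C` independent of `x, v`: the function `(x,v,w) ↦ ((χ ∘ S) N)''(v) (w,w)` is continuous, because
`(x,v) ↦ χ (F x v ^2 / 2) ‖v‖²/2` is `C^2` on `E × E` (proof of Fn2b with `φ = 0`; the partial second derivatives in `v` are full second
derivatives on vectors `(0,w)`), periodic in `x`, `v` in the compact set `‖v‖ ≤ 1/mF`, `w` in the unit sphere (`A2b.per_bdd` or `R1a_bdd`).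
So `G'' ≥ (c m - δ C) ‖w‖² ≥ (c m / 2) ‖w‖²` for `δ = c m / (2 C + 2)`. `m' = min δ (min m (c m / 2))`.
`rg_conv`: one variable Taylor for `g s = G (v + s (u - v))`, `g'' ≥ m' ‖u - v‖²` (`G` is `C^2` by Fn2b):
`g 1 ≥ g 0 + g' 0 + m'/2 ‖u-v‖²`, `g' 0 = inner (gradient G v) (u - v)`, `gu l x v t = gradient (fun w => l x w t) v`.
-/

noncomputable section

namespace Pool.Agent.EscV

open Pool.Agent.EscG

open MeasureTheory Set Filter Topology Esc EscF _root_.EscG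
open scoped ContDiff

section Fn2c_gen

variable {E : Type*} [NormedAddCommGroup E] [InnerProductSpace ℝ E]

theorem Fn2c_congr {f g : E → ℝ} {v : E} (h : f =ᶠ[𝓝 v] g) (w : E) :
    fderiv ℝ (fderiv ℝ f) v w w = fderiv ℝ (fderiv ℝ g) v w w := by
  have h1 : fderiv ℝ f =ᶠ[𝓝 v] fderiv ℝ g := h.fderiv
  rw [h1.fderiv_eq]

theorem Fn2c_diff {f : E → ℝ} (hf : ContDiff ℝ 2 f) : Differentiable ℝ (fderiv ℝ f) :=
  (hf.fderiv_right (m := 1) (by norm_num)).differentiable (by norm_num)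

theorem Fn2c_dir {f : E → ℝ} {v : E} (hf : DifferentiableAt ℝ (fderiv ℝ f) v) (w : E) :
    fderiv ℝ (fderiv ℝ f) v w w = fderiv ℝ (fun z => fderiv ℝ f z w) v w := by
  have h1 := hf.hasFDerivAt.clm_apply (hasFDerivAt_const w v)
  rw [h1.fderiv]
  simp

theorem Fn2c_add {f g : E → ℝ} (hf : ContDiff ℝ 2 f) (hg : ContDiff ℝ 2 g) (c : ℝ) (v w : E) :
    fderiv ℝ (fderiv ℝ (fun z => f z + c * g z)) v w w =
      fderiv ℝ (fderiv ℝ f) v w w + c * fderiv ℝ (fderiv ℝ g) v w w := by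
  have h1 : fderiv ℝ (fun z => f z + c * g z) = fun z => fderiv ℝ f z + c • fderiv ℝ g z := by
    funext z
    exact ((hf.differentiable (by norm_num) z).hasFDerivAt.add
      ((hg.differentiable (by norm_num) z).hasFDerivAt.const_mul c)).fderiv
  rw [h1]
  have h2 := ((Fn2c_diff hf v).hasFDerivAt.add ((Fn2c_diff hg v).hasFDerivAt.const_smul c)).fderiv
  have h3 : fderiv ℝ (fun z => fderiv ℝ f z + c • fderiv ℝ g z) v =
      fderiv ℝ (fderiv ℝ f) v + c • fderiv ℝ (fderiv ℝ g) v := h2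
  rw [h3]
  simp

theorem Fn2c_sq (v w : E) : fderiv ℝ (fderiv ℝ (fun z : E => ‖z‖ ^ 2 / 2)) v w w = ‖w‖ ^ 2 := by
  have h0 : ContDiff ℝ 2 (fun z : E => ‖z‖ ^ 2 / 2) := (contDiff_norm_sq ℝ).div_const 2
  rw [Fn2c_dir (Fn2c_diff h0 v)]
  have h1 : (fun z : E => fderiv ℝ (fun z : E => ‖z‖ ^ 2 / 2) z w) = fun z => (innerSL ℝ w) z := by
    funext z
    have h2 : HasFDerivAt (fun z : E => (1 / 2 : ℝ) * ‖z‖ ^ 2) ((1 / 2 : ℝ) • (2 • innerSL ℝ z)) z :=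
      (hasStrictFDerivAt_norm_sq z).hasFDerivAt.const_mul (1 / 2 : ℝ)
    have h3 : (fun z : E => ‖z‖ ^ 2 / 2) = fun z : E => (1 / 2 : ℝ) * ‖z‖ ^ 2 := by
      funext z
      ring
    rw [h3, h2.fderiv]
    simp [real_inner_comm]
  rw [h1, ContinuousLinearMap.fderiv]
  simp

theorem Fn2c_comp {S : E → ℝ} {φ : ℝ → ℝ} {v : E} (hS : ContDiffAt ℝ 2 S v) (hφ : ContDiff ℝ 2 φ)
    (w : E) :
    fderiv ℝ (fderiv ℝ (fun z => φ (S z))) v w w =
      deriv φ (S v) * fderiv ℝ (fderiv ℝ S) v w w +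
        deriv (deriv φ) (S v) * (fderiv ℝ S v w) ^ 2 := by
  have hev : ∀ᶠ z in 𝓝 v, ContDiffAt ℝ 2 S z := hS.eventually (by simp)
  have h1 : fderiv ℝ (fun z => φ (S z)) =ᶠ[𝓝 v] fun z => deriv φ (S z) • fderiv ℝ S z := by
    filter_upwards [hev] with z hz
    have h2 := (hφ.differentiable (by norm_num) (S z)).hasDerivAt.comp_hasFDerivAt z
      (hz.differentiableAt (by norm_num)).hasFDerivAt
    exact h2.fderiv
  rw [h1.fderiv_eq]
  have hd : Differentiable ℝ (deriv φ) := by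
    have h3 : ContDiff ℝ 1 (deriv φ) := by
      have h4 : ContDiff ℝ (1 + 1) φ := by
        norm_num
        exact hφ
      exact (contDiff_succ_iff_deriv.mp h4).2.2
    exact h3.differentiable (by norm_num)
  have h2 : HasFDerivAt (fun z => deriv φ (S z)) (deriv (deriv φ) (S v) • fderiv ℝ S v) v :=
    (hd (S v)).hasDerivAt.comp_hasFDerivAt v (hS.differentiableAt (by norm_num)).hasFDerivAt
  have h3 : HasFDerivAt (fderiv ℝ S) (fderiv ℝ (fderiv ℝ S) v) v :=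
    ((hS.fderiv_right (m := 1) (by norm_num)).differentiableAt (by norm_num)).hasFDerivAt
  have h4 : fderiv ℝ (fun z => deriv φ (S z) • fderiv ℝ S z) v = _ := (h2.smul h3).fderiv
  rw [h4]
  simp
  ring

theorem Fn2c_part {g : E × E × ℝ → ℝ} (hg : ContDiff ℝ 2 g) (x v w : E) (t : ℝ) :
    fderiv ℝ (fderiv ℝ (fun z => g (x, z, t))) v w w =
      fderiv ℝ (fderiv ℝ g) (x, v, t) (0, w, 0) (0, w, 0) := by
  have hι : ∀ z : E, HasFDerivAt (fun z : E => ((x, z, t) : E × E × ℝ))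
      ((0 : E →L[ℝ] E).prod ((ContinuousLinearMap.id ℝ E).prod (0 : E →L[ℝ] ℝ))) z := fun z =>
    (hasFDerivAt_const x z).prodMk ((hasFDerivAt_id z).prodMk (hasFDerivAt_const t z))
  have hc : ContDiff ℝ 2 (fun z : E => g (x, z, t)) :=
    hg.comp (contDiff_const.prodMk (contDiff_id.prodMk contDiff_const))
  rw [Fn2c_dir (Fn2c_diff hc v)]
  have h1 : (fun z : E => fderiv ℝ (fun z => g (x, z, t)) z w) =
      fun z => fderiv ℝ g (x, z, t) (0, w, 0) := by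
    funext z
    have h2 := ((hg.differentiable (by norm_num) (x, z, t)).hasFDerivAt.comp z (hι z)).fderiv
    have h3 : fderiv ℝ (fun z => g (x, z, t)) z = (fderiv ℝ g (x, z, t)).comp
      ((0 : E →L[ℝ] E).prod ((ContinuousLinearMap.id ℝ E).prod (0 : E →L[ℝ] ℝ))) := h2
    rw [h3]
    simp
  rw [h1]
  have hd : Differentiable ℝ (fderiv ℝ g) :=
    (hg.fderiv_right (m := 1) (by norm_num)).differentiable (by norm_num)
  have h5 : HasFDerivAt (fun z => fderiv ℝ g (x, z, t)) ((fderiv ℝ (fderiv ℝ g) (x, v, t)).comp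
      ((0 : E →L[ℝ] E).prod ((ContinuousLinearMap.id ℝ E).prod (0 : E →L[ℝ] ℝ)))) v :=
    HasFDerivAt.comp (g := fderiv ℝ g) (f := fun z : E => ((x, z, t) : E × E × ℝ)) v
      (hd (x, v, t)).hasFDerivAt (hι v)
  have h2 := h5.clm_apply (hasFDerivAt_const ((0, w, 0) : E × E × ℝ) v)
  rw [h2.fderiv]
  simp

/-- the second derivative of a periodic function of class `C^2` is bounded for bounded velocities -/
theorem Fn2c_per {g : E × E × ℝ → ℝ} {a : E × E × ℝ} (h : ∀ p, g (p + a) = g p)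
    (p : E × E × ℝ) : fderiv ℝ (fderiv ℝ g) (p + a) = fderiv ℝ (fderiv ℝ g) p := by
  have h1 : ∀ p, fderiv ℝ g (p + a) = fderiv ℝ g p := by
    intro p
    have h3 := fderiv_comp_add_right (𝕜 := ℝ) (f := g) (x := p) a
    have h4 : (fun p => g (p + a)) = g := funext h
    rw [h4] at h3
    exact h3.symm
  have h3 := fderiv_comp_add_right (𝕜 := ℝ) (f := fderiv ℝ g) (x := p) a
  have h4 : (fun p => fderiv ℝ g (p + a)) = fderiv ℝ g := funext h1
  rw [h4] at h3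
  exact h3.symm

/-- one variable Taylor formula -/
theorem Fn2c_taylor {G : E → ℝ} (hG : ContDiff ℝ 2 G) {m' : ℝ}
    (hh : ∀ v w : E, m' * ‖w‖ ^ 2 ≤ fderiv ℝ (fderiv ℝ G) v w w) (v w : E) :
    G v + fderiv ℝ G v w + m' / 2 * ‖w‖ ^ 2 ≤ G (v + w) := by
  have hl : ∀ s : ℝ, HasDerivAt (fun s : ℝ => v + s • w) w s := by
    intro s
    have := ((hasDerivAt_id s).smul_const w).const_add v
    simpa using this
  have h1 : ∀ s : ℝ, HasDerivAt (fun s : ℝ => G (v + s • w)) (fderiv ℝ G (v + s • w) w) s := by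
    intro s
    exact (hG.differentiable (by norm_num) _).hasFDerivAt.comp_hasDerivAt s (hl s)
  have h2 : ∀ s : ℝ, HasDerivAt (fun s : ℝ => fderiv ℝ G (v + s • w) w)
      (fderiv ℝ (fderiv ℝ G) (v + s • w) w w) s := by
    intro s
    have h3 := ((Fn2c_diff hG _).hasFDerivAt.comp_hasDerivAt s (hl s)).clm_apply
      (hasDerivAt_const s w)
    simpa using h3
  -- the derivative of `k s = G (v + s w) - m' ‖w‖² s² / 2` is monotone
  set k' : ℝ → ℝ := fun s => fderiv ℝ G (v + s • w) w - m' * ‖w‖ ^ 2 * s with hk'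
  have hmono : Monotone k' := by
    refine monotone_of_deriv_nonneg ?_ ?_
    · intro s
      exact ((h2 s).sub ((hasDerivAt_id s).const_mul (m' * ‖w‖ ^ 2))).differentiableAt
    · intro s
      have h3 := ((h2 s).sub ((hasDerivAt_id s).const_mul (m' * ‖w‖ ^ 2))).deriv
      have h4 : deriv k' s = fderiv ℝ (fderiv ℝ G) (v + s • w) w w - m' * ‖w‖ ^ 2 * 1 := h3
      rw [h4, mul_one, sub_nonneg]
      exact hh _ _
  have h3 : ∀ s : ℝ, HasDerivAt (fun s : ℝ => G (v + s • w) - m' * ‖w‖ ^ 2 * (s ^ 2 / 2)) (k' s) s := by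
    intro s
    have h4 : HasDerivAt (fun s : ℝ => s ^ 2 / 2) s s := by
      have := ((hasDerivAt_pow 2 s).div_const 2)
      simpa using this
    exact (h1 s).sub (h4.const_mul (m' * ‖w‖ ^ 2))
  obtain ⟨ξ, hξ, he⟩ := exists_hasDerivAt_eq_slope
    (fun s : ℝ => G (v + s • w) - m' * ‖w‖ ^ 2 * (s ^ 2 / 2)) k' (zero_lt_one)
    (fun s _ => (h3 s).continuousAt.continuousWithinAt) (fun s _ => h3 s)
  have h5 : k' 0 ≤ k' ξ := hmono hξ.1.le
  rw [he] at h5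
  simp only [hk', zero_smul, add_zero, mul_zero, sub_zero, one_smul] at h5
  norm_num at h5
  linarith

end Fn2c_gen

variable {E : Type*} [NormedAddCommGroup E] [InnerProductSpace ℝ E] [FiniteDimensional ℝ E]
  {β : Module.Basis (Fin 2) ℝ E} {F : E → E → ℝ} {mF MF m : ℝ}

theorem Fn2c_S_diff (h : NFins β F mF MF m) (x : E) {v : E} (hv : v ≠ 0) :
    ContDiffAt ℝ 2 (fun z => F x z ^ 2 / 2) v := by
  have ho : IsOpen {p : E × E | p.2 ≠ 0} := isOpen_ne.preimage continuous_snd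
  have h1 : ContDiffAt ℝ 2 (fun p : E × E => F p.1 p.2) (x, v) :=
    h.smooth.contDiffAt (ho.mem_nhds hv)
  have h2 : ContDiffAt ℝ 2 (fun z : E => ((x, z) : E × E)) v :=
    contDiffAt_const.prodMk contDiffAt_id
  have h3 : ContDiffAt ℝ 2 (fun z => F x z) v :=
    ContDiffAt.comp (g := fun p : E × E => F p.1 p.2) (f := fun z : E => ((x, z) : E × E)) v h1 h2
  exact (h3.pow 2).div_const 2

theorem Fn2c_S_cont (h : NFins β F mF MF m) (x : E) : Continuous (fun z => F x z ^ 2 / 2) := by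
  have h1 : Continuous (fun z : E => F x z) :=
    h.fins.cont.comp (continuous_const.prodMk continuous_id)
  exact (h1.pow 2).div_const 2

theorem Fn2c_S_zero (h : NFins β F mF MF m) (x : E) : F x 0 ^ 2 / 2 = 0 := by
  have h1 := h.fins.upp x 0
  have h2 := h.fins.low x 0
  rw [norm_zero, mul_zero] at h1 h2
  have h3 : F x 0 = 0 := le_antisymm h1 h2
  rw [h3]
  norm_num

theorem Fn2c_smH (h : NFins β F mF MF m) {φ χ : ℝ → ℝ} {c : ℝ} (hc : Cuts φ χ c) :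
    ContDiff ℝ 2 (fun p : E × E × ℝ => χ (F p.1 p.2.1 ^ 2 / 2) * (‖p.2.1‖ ^ 2 / 2)) := by
  have h1 := (h.rg_smooth hc 1).sub (h.rg_smooth hc 0)
  have h2 : (fun p : E × E × ℝ => χ (F p.1 p.2.1 ^ 2 / 2) * (‖p.2.1‖ ^ 2 / 2)) =
      fun p : E × E × ℝ => rg φ χ 1 F p.1 p.2.1 p.2.2 - rg φ χ 0 F p.1 p.2.1 p.2.2 := by
    funext p
    unfold rg
    ring
  rw [h2]
  exact h1

theorem Fn2c_smΦ (h : NFins β F mF MF m) {φ χ : ℝ → ℝ} {c : ℝ} (hc : Cuts φ χ c) (x : E) :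
    ContDiff ℝ 2 (fun z : E => φ (F x z ^ 2 / 2)) := by
  have h1 : ContDiff ℝ 2 (fun z : E => ((x, z, 0) : E × E × ℝ)) :=
    contDiff_const.prodMk (contDiff_id.prodMk contDiff_const)
  have h2 := (h.rg_smooth hc 0).comp h1
  have h3 : (fun z : E => φ (F x z ^ 2 / 2)) =
      (fun p : E × E × ℝ => rg φ χ 0 F p.1 p.2.1 p.2.2) ∘ fun z : E => ((x, z, 0) : E × E × ℝ) := by
    funext z
    simp [rg]
  rw [h3]
  exact h2

set_option maxSynthPendingDepth 3 in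
theorem Fn2c_bound (h : NFins β F mF MF m) {φ χ : ℝ → ℝ} {c : ℝ} (hc : Cuts φ χ c) (R : ℝ) :
    ∃ C : ℝ, 0 ≤ C ∧ ∀ x v w : E, ‖v‖ ≤ R →
      |fderiv ℝ (fderiv ℝ (fun z => χ (F x z ^ 2 / 2) * (‖z‖ ^ 2 / 2))) v w w| ≤ C * ‖w‖ ^ 2 := by
  set g : E × E × ℝ → ℝ := fun p => χ (F p.1 p.2.1 ^ 2 / 2) * (‖p.2.1‖ ^ 2 / 2) with hgdef
  have hg : ContDiff ℝ 2 g := Fn2c_smH h hc
  have hcont : Continuous (fderiv ℝ (fderiv ℝ g)) :=
    (hg.fderiv_right (m := 1) (by norm_num)).continuous_fderiv (by norm_num)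
  obtain ⟨C, hC0, hC⟩ := _root_.EscG.per_bdd (W := ℝ) β
    (Φ := fun p => ‖fderiv ℝ (fderiv ℝ g) p‖) hcont.norm
    (fun i x v t => by
      have h1 := Fn2c_per (g := g) (a := (β i, 0, 0)) (fun p => by simp [hgdef, h.fins.per]) (x, v, t)
      have h2 : ((x, v, t) : E × E × ℝ) + (β i, 0, 0) = (x + β i, v, t) := by simp
      rw [h2] at h1
      show ‖fderiv ℝ (fderiv ℝ g) (x + β i, v, t)‖ = ‖fderiv ℝ (fderiv ℝ g) (x, v, t)‖
      rw [h1])
    (fun x v t => by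
      have h1 := Fn2c_per (g := g) (a := (0, 0, 1)) (fun p => by simp [hgdef]) (x, v, t)
      have h2 : ((x, v, t) : E × E × ℝ) + (0, 0, 1) = (x, v, t + 1) := by simp
      rw [h2] at h1
      show ‖fderiv ℝ (fderiv ℝ g) (x, v, t + 1)‖ = ‖fderiv ℝ (fderiv ℝ g) (x, v, t)‖
      rw [h1]) R
  refine ⟨C, hC0, fun x v w hv => ?_⟩
  have h1 := Fn2c_part hg x v w 0
  have h2 : fderiv ℝ (fderiv ℝ (fun z => χ (F x z ^ 2 / 2) * (‖z‖ ^ 2 / 2))) v w w =
      fderiv ℝ (fderiv ℝ g) (x, v, 0) (0, w, 0) (0, w, 0) := h1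
  rw [h2]
  have h3 := (fderiv ℝ (fderiv ℝ g) (x, v, 0)).le_opNorm₂ (0, w, 0) (0, w, 0)
  have h4 : ‖((0, w, 0) : E × E × ℝ)‖ = ‖w‖ := by
    simp [Prod.norm_mk]
  rw [h4, Real.norm_eq_abs] at h3
  refine h3.trans ?_
  have h5 : ‖fderiv ℝ (fderiv ℝ g) (x, v, 0)‖ ≤ C := by
    have := hC x v 0 hv
    rwa [norm_norm] at this
  calc ‖fderiv ℝ (fderiv ℝ g) (x, v, 0)‖ * ‖w‖ * ‖w‖ ≤ C * ‖w‖ * ‖w‖ := by gcongr
    _ = C * ‖w‖ ^ 2 := by ring

theorem Fn2c_Φ_low (h : NFins β F mF MF m) {φ χ : ℝ → ℝ} {c : ℝ} (hc : Cuts φ χ c) (x : E) {v : E}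
    (hv : v ≠ 0) (w : E) : deriv φ (F x v ^ 2 / 2) * (m * ‖w‖ ^ 2) ≤
      fderiv ℝ (fderiv ℝ (fun z => φ (F x z ^ 2 / 2))) v w w := by
  have h1 := Fn2c_comp (S := fun z => F x z ^ 2 / 2) (φ := φ) (Fn2c_S_diff h x hv)
    (by exact_mod_cast (contDiff_infty.mp hc.sφ 2)) w
  rw [h1]
  have h2 := mul_le_mul_of_nonneg_left (h.hess x v w hv) (hc.d1 (F x v ^ 2 / 2))
  have h3 : 0 ≤ deriv (deriv φ) (F x v ^ 2 / 2) * (fderiv ℝ (fun z => F x z ^ 2 / 2) v w) ^ 2 :=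
    mul_nonneg (hc.d2 _) (sq_nonneg _)
  linarith

theorem NFins.rg_hess (h : NFins β F mF MF m) {φ χ : ℝ → ℝ} {c : ℝ} (hc : Cuts φ χ c) :
    ∃ δ m' : ℝ, 0 < δ ∧ 0 < m' ∧ ∀ (x v w : E) (t : ℝ),
      m' * ‖w‖ ^ 2 ≤ fderiv ℝ (fderiv ℝ (fun z => rg φ χ δ F x z t)) v w w := by
  obtain ⟨C, hC0, hC⟩ := Fn2c_bound h hc (1 / (2 * mF))
  have hmF := h.fins.mF_pos
  have hm := h.m_pos
  have hcp := hc.c_pos
  have hcm : 0 < c * m := mul_pos hcp hm
  have hδ : 0 < c * m / (2 * C + 2) := div_pos hcm (by linarith)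
  have hδC : c * m / (2 * C + 2) * C ≤ c * m / 2 := by
    rw [div_mul_eq_mul_div, div_le_div_iff₀ (by linarith) (by norm_num)]
    nlinarith
  refine ⟨c * m / (2 * C + 2), min (c * m / (2 * C + 2)) (c * m / 2), hδ,
    lt_min hδ (by linarith), fun x v w t => ?_⟩
  set δ := c * m / (2 * C + 2) with hδdef
  have hw : 0 ≤ ‖w‖ ^ 2 := sq_nonneg _
  have hsm : ContDiff ℝ 2 (fun z : E => χ (F x z ^ 2 / 2) * (‖z‖ ^ 2 / 2)) :=
    (Fn2c_smH h hc).comp (contDiff_const.prodMk (contDiff_id.prodMk contDiff_const) :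
      ContDiff ℝ 2 (fun z : E => ((x, z, 0) : E × E × ℝ)))
  have hadd := Fn2c_add (Fn2c_smΦ h hc x) hsm δ v w
  have he : fderiv ℝ (fderiv ℝ (fun z => rg φ χ δ F x z t)) v w w =
      fderiv ℝ (fderiv ℝ (fun z => φ (F x z ^ 2 / 2))) v w w +
        δ * fderiv ℝ (fderiv ℝ (fun z => χ (F x z ^ 2 / 2) * (‖z‖ ^ 2 / 2))) v w w := hadd
  rw [he]
  have hScont := (Fn2c_S_cont h x).continuousAt (x := v)
  rcases lt_or_ge (F x v ^ 2 / 2) (1 / 16) with hs | hs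
  · -- `χ = 1` near `v`
    have hχ : (fun z => χ (F x z ^ 2 / 2) * (‖z‖ ^ 2 / 2)) =ᶠ[𝓝 v] fun z => ‖z‖ ^ 2 / 2 := by
      filter_upwards [hScont.eventually_lt_const hs] with z hz
      rw [hc.χ1 _ hz.le, one_mul]
    rw [Fn2c_congr hχ w, Fn2c_sq]
    have hΦ : 0 ≤ fderiv ℝ (fderiv ℝ (fun z => φ (F x z ^ 2 / 2))) v w w := by
      rcases eq_or_ne v 0 with hv | hv
      · have h0 : F x v ^ 2 / 2 < 1 / 32 := by
          rw [hv, Fn2c_S_zero h x]
          norm_num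
        have h1 : (fun z => φ (F x z ^ 2 / 2)) =ᶠ[𝓝 v] fun _ => φ 0 := by
          filter_upwards [hScont.eventually_lt_const h0] with z hz
          exact hc.const _ hz.le
        rw [Fn2c_congr h1 w]
        simp
      · refine le_trans ?_ (Fn2c_Φ_low h hc x hv w)
        exact mul_nonneg (hc.d1 _) (mul_nonneg hm.le hw)
    have h2 : min δ (c * m / 2) * ‖w‖ ^ 2 ≤ δ * ‖w‖ ^ 2 :=
      mul_le_mul_of_nonneg_right (min_le_left _ _) hw
    linarith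
  · have hv : v ≠ 0 := by
      rintro rfl
      rw [Fn2c_S_zero h x] at hs
      norm_num at hs
    have h1 := Fn2c_Φ_low h hc x hv w
    have h2 : c * (m * ‖w‖ ^ 2) ≤ deriv φ (F x v ^ 2 / 2) * (m * ‖w‖ ^ 2) :=
      mul_le_mul_of_nonneg_right (hc.d1c _ hs) (mul_nonneg hm.le hw)
    have h3 : -(C * ‖w‖ ^ 2) ≤
        fderiv ℝ (fderiv ℝ (fun z => χ (F x z ^ 2 / 2) * (‖z‖ ^ 2 / 2))) v w w := by
      rcases lt_or_ge (1 / 8) (F x v ^ 2 / 2) with hs8 | hs8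
      · have h4 : (fun z => χ (F x z ^ 2 / 2) * (‖z‖ ^ 2 / 2)) =ᶠ[𝓝 v] fun _ => (0 : ℝ) := by
          filter_upwards [hScont.eventually_const_lt hs8] with z hz
          rw [hc.χ0 _ hz.le, zero_mul]
        rw [Fn2c_congr h4 w]
        simp only [fderiv_fun_const, Pi.zero_apply, fderiv_zero]
        have := mul_nonneg hC0 hw
        simpa using this
      · refine (abs_le.mp (hC x v w ?_)).1
        have h5 := h.fins.low x v
        have h6 : 0 ≤ mF * ‖v‖ := mul_nonneg hmF.le (norm_nonneg v)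
        have h7 : F x v ≤ 1 / 2 := by
          by_contra hcon
          push Not at hcon
          nlinarith
        rw [le_div_iff₀ (by linarith)]
        linarith
    have h4 : δ * -(C * ‖w‖ ^ 2) ≤
        δ * fderiv ℝ (fderiv ℝ (fun z => χ (F x z ^ 2 / 2) * (‖z‖ ^ 2 / 2))) v w w :=
      mul_le_mul_of_nonneg_left h3 hδ.le
    have h5 : δ * C * ‖w‖ ^ 2 ≤ c * m / 2 * ‖w‖ ^ 2 := mul_le_mul_of_nonneg_right hδC hw
    have h6 : min δ (c * m / 2) * ‖w‖ ^ 2 ≤ c * m / 2 * ‖w‖ ^ 2 :=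
      mul_le_mul_of_nonneg_right (min_le_right _ _) hw
    nlinarith

theorem NFins.rg_conv (h : NFins β F mF MF m) {φ χ : ℝ → ℝ} {c : ℝ} (hc : Cuts φ χ c) {δ m' : ℝ}
    (hh : ∀ (x v w : E) (t : ℝ), m' * ‖w‖ ^ 2 ≤ fderiv ℝ (fderiv ℝ (fun z => rg φ χ δ F x z t)) v w w)
    (x u v : E) (t : ℝ) :
    rg φ χ δ F x v t + inner ℝ (gu (rg φ χ δ F) x v t) (u - v) + m' / 2 * ‖u - v‖ ^ 2 ≤
      rg φ χ δ F x u t := by
  have hG : ContDiff ℝ 2 (fun z : E => rg φ χ δ F x z t) :=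
    (h.rg_smooth hc δ).comp (contDiff_const.prodMk (contDiff_id.prodMk contDiff_const) :
      ContDiff ℝ 2 (fun z : E => ((x, z, t) : E × E × ℝ)))
  have h1 := Fn2c_taylor hG (m' := m') (fun v w => hh x v w t) v (u - v)
  have h2 : inner ℝ (gu (rg φ χ δ F) x v t) (u - v) =
      fderiv ℝ (fun z : E => rg φ χ δ F x z t) v (u - v) := by
    unfold gu gradient
    rw [InnerProductSpace.toDual_symm_apply]
  rw [h2]
  rw [add_sub_cancel] at h1
  exact h1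

end Pool.Agent.EscV
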