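import Pool.Agent.EscG.Fn2a
import Pool.Agent.EscV.Fn2c

set_option autoImplicit false

/-!
# EscG geometry, module Fn2: existence of the regularised energy

`l = rg φ χ δ F` from `exists_cuts`, `rg_hess`, `rg_conv`, `rg_smooth`. `l - F²/2 = 0` for `F²/2 ≥ 1/8`, i.e. `F ≥ 1/2`
(`Cuts.id`, `χ0`); for `F < 1/2`: `0 ≤ φ (F²/2) ≤ 1/8` (monotone: `Cuts.d1`, value at `1/8`), `0 ≤ F²/2 ≤ 1/8`,
`0 ≤ δ χ ‖v‖²/2 ≤ δ / (8 mF²)` (`‖v‖ ≤ F / mF`); `M` accordingly. `ge`, `gt`: for `F ≥ 1/2`: `F²/2 - F + 1/2 = (F-1)²/2`; for `F < 1/2`: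
`l ≥ 0 > F - 1/2`. `per`, `pert`, `l_t` (`l` does not depend on `t`) clear.
-/

noncomputable section

namespace Pool.Agent.EscV

open Pool.Agent.EscG

open MeasureTheory Set Filter Topology Esc EscF _root_.EscG
open scoped ContDiff

variable {E : Type*} [NormedAddCommGroup E] [InnerProductSpace ℝ E] [FiniteDimensional ℝ E]
  {β : Module.Basis (Fin 2) ℝ E} {F : E → E → ℝ} {mF MF m : ℝ}

theorem Fn2_F_nonneg (h : NFins β F mF MF m) (x v : E) : 0 ≤ F x v :=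
  le_trans (mul_nonneg h.fins.mF_pos.le (norm_nonneg v)) (h.fins.low x v)

/-- for `F ≥ 1/2` the regularised energy is `F²/2` -/
theorem Fn2_eq {φ χ : ℝ → ℝ} {c : ℝ} (hc : Cuts φ χ c) (δ : ℝ) (x v : E) (t : ℝ)
    (hF : 1 / 2 ≤ F x v) : rg φ χ δ F x v t = F x v ^ 2 / 2 := by
  have h8 : (1 : ℝ) / 8 ≤ F x v ^ 2 / 2 := by nlinarith
  unfold rg
  rw [hc.id _ h8, hc.χ0 _ h8]
  ring

theorem Fn2_nonneg {φ χ : ℝ → ℝ} {c : ℝ} (hc : Cuts φ χ c) {δ : ℝ} (hδ : 0 ≤ δ) (x v : E) (t : ℝ) :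
    0 ≤ rg φ χ δ F x v t := by
  unfold rg
  have h1 := hc.nn (F x v ^ 2 / 2)
  have h2 := (hc.χn (F x v ^ 2 / 2)).1
  have h3 : 0 ≤ δ * (χ (F x v ^ 2 / 2) * (‖v‖ ^ 2 / 2)) := by positivity
  linarith

theorem Fn2_mono {φ χ : ℝ → ℝ} {c : ℝ} (hc : Cuts φ χ c) : Monotone φ :=
  monotone_of_deriv_nonneg (hc.sφ.differentiable (by simp)) hc.d1

theorem Fn2_bd (h : NFins β F mF MF m) {φ χ : ℝ → ℝ} {c : ℝ} (hc : Cuts φ χ c) {δ : ℝ} (hδ : 0 ≤ δ)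
    (x v : E) (t : ℝ) : |rg φ χ δ F x v t - F x v ^ 2 / 2| ≤ 1 / 8 + δ * (1 / (8 * mF ^ 2)) := by
  have hm := h.fins.mF_pos
  have hpos : 0 ≤ 1 / 8 + δ * (1 / (8 * mF ^ 2)) := by positivity
  rcases le_or_gt (1 / 2) (F x v) with hF | hF
  · rw [Fn2_eq hc δ x v t hF, sub_self, abs_zero]
    exact hpos
  · have h0 := Fn2_F_nonneg h x v
    have hs : F x v ^ 2 / 2 ≤ 1 / 8 := by nlinarith
    have hs0 : 0 ≤ F x v ^ 2 / 2 := by positivity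
    have h1 : φ (F x v ^ 2 / 2) ≤ 1 / 8 := by
      have := Fn2_mono hc hs
      rwa [hc.id _ le_rfl] at this
    have h1' := hc.nn (F x v ^ 2 / 2)
    have hv : mF * ‖v‖ ≤ 1 / 2 := (h.fins.low x v).trans hF.le
    have hv0 : 0 ≤ mF * ‖v‖ := mul_nonneg hm.le (norm_nonneg v)
    have hv2 : ‖v‖ ^ 2 / 2 ≤ 1 / (8 * mF ^ 2) := by
      rw [le_div_iff₀ (by positivity)]
      have : (mF * ‖v‖) ^ 2 ≤ (1 / 2) ^ 2 := pow_le_pow_left₀ hv0 hv 2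
      nlinarith
    obtain ⟨hχ0, hχ1⟩ := hc.χn (F x v ^ 2 / 2)
    have h2 : χ (F x v ^ 2 / 2) * (‖v‖ ^ 2 / 2) ≤ 1 / (8 * mF ^ 2) := by
      calc χ (F x v ^ 2 / 2) * (‖v‖ ^ 2 / 2) ≤ 1 * (‖v‖ ^ 2 / 2) :=
            mul_le_mul_of_nonneg_right hχ1 (by positivity)
        _ = ‖v‖ ^ 2 / 2 := one_mul _
        _ ≤ _ := hv2
    have h2' : 0 ≤ χ (F x v ^ 2 / 2) * (‖v‖ ^ 2 / 2) := by positivity
    have h3 : δ * (χ (F x v ^ 2 / 2) * (‖v‖ ^ 2 / 2)) ≤ δ * (1 / (8 * mF ^ 2)) :=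
      mul_le_mul_of_nonneg_left h2 hδ
    have h3' : 0 ≤ δ * (χ (F x v ^ 2 / 2) * (‖v‖ ^ 2 / 2)) := mul_nonneg hδ h2'
    unfold rg
    rw [abs_le]
    constructor
    · have : 0 ≤ δ * (1 / (8 * mF ^ 2)) := by positivity
      linarith
    · linarith

theorem NFins.exists_reg (h : NFins β F mF MF m) :
    ∃ (m' M : ℝ) (l : E → E → ℝ → ℝ), Reg β F mF MF m' M l := by
  obtain ⟨φ, χ, c, hc⟩ := exists_cuts
  obtain ⟨δ, m', hδ, hm', hh⟩ := h.rg_hess hc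
  have hm := h.fins.mF_pos
  have hM : 0 ≤ 1 / 8 + δ * (1 / (8 * mF ^ 2)) := by positivity
  refine ⟨m', 1 / 8 + δ * (1 / (8 * mF ^ 2)), rg φ χ δ F, ⟨⟨h.fins, hm', hM, h.rg_smooth hc δ, ?_, ?_, ?_, ?_, ?_⟩,
    ?_, ?_, ?_⟩⟩
  · intro i x v t
    unfold rg
    rw [h.fins.per]
  · intro x v t
    rfl
  · intro x u v t
    exact h.rg_conv hc hh x u v t
  · intro x v t t'
    have : rg φ χ δ F x v t - rg φ χ δ F x v t' = 0 := sub_self _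
    rw [this, abs_zero]
    positivity
  · intro x v t
    exact Fn2_bd h hc hδ.le x v t
  · intro x v t hF
    exact Fn2_eq hc δ x v t hF
  · intro x v t
    rcases le_or_gt (1 / 2) (F x v) with hF | hF
    · rw [Fn2_eq hc δ x v t hF]
      nlinarith [sq_nonneg (F x v - 1)]
    · have := Fn2_nonneg (F := F) hc hδ.le x v t
      linarith
  · intro x v t hne
    rcases le_or_gt (1 / 2) (F x v) with hF | hF
    · rw [Fn2_eq hc δ x v t hF]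
      have : 0 < (F x v - 1) ^ 2 := by
        have : F x v - 1 ≠ 0 := sub_ne_zero.mpr hne
        positivity
      nlinarith
    · have := Fn2_nonneg (F := F) hc hδ.le x v t
      linarith

end Pool.Agent.EscV
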