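import Pool.Agent.EscV.FnDefs

set_option autoImplicit false

/-!
# EscG geometry, module Fn2b: the regularised energy is of class `C^2`

`rg φ χ δ F x v t = φ (F²/2) + δ χ (F²/2) ‖v‖²/2`. Off the zero section: composition of smooth functions (`h.smooth`). Near `(x0, 0)`:
`F x v ≤ MF ‖v‖`, so `F x v ^ 2 / 2 ≤ 1/32` on the open set `{MF ‖v‖ < 1/4}`, where `rg = φ 0 + δ ‖v‖²/2`
(`Cuts.const`, `Cuts.χ1`).
-/

noncomputable section

namespace Pool.Agent.EscV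

open Pool.Agent.EscG

open MeasureTheory Set Filter Topology Esc EscF _root_.EscG
open scoped ContDiff

variable {E : Type*} [NormedAddCommGroup E] [InnerProductSpace ℝ E] [FiniteDimensional ℝ E]
  {β : Module.Basis (Fin 2) ℝ E} {F : E → E → ℝ} {mF MF m : ℝ}

omit [FiniteDimensional ℝ E] in
/-- near the zero section the regularised energy is a constant plus `δ ‖v‖²/2` -/
theorem Fn2b_near (h : NFins β F mF MF m) {φ χ : ℝ → ℝ} {c : ℝ} (hc : Cuts φ χ c) (δ : ℝ)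
    (x v : E) (t : ℝ) (hv : MF * ‖v‖ < 1 / 4) :
    rg φ χ δ F x v t = φ 0 + δ * (‖v‖ ^ 2 / 2) := by
  have h0 : 0 ≤ F x v :=
    le_trans (mul_nonneg h.fins.mF_pos.le (norm_nonneg v)) (h.fins.low x v)
  have h1 : F x v < 1 / 4 := lt_of_le_of_lt (h.fins.upp x v) hv
  have h2 : F x v ^ 2 / 2 ≤ 1 / 32 := by nlinarith
  simp only [rg]
  rw [hc.const _ h2, hc.χ1 _ (by linarith), one_mul]

theorem NFins.rg_smooth (h : NFins β F mF MF m) {φ χ : ℝ → ℝ} {c : ℝ} (hc : Cuts φ χ c) (δ : ℝ) :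
    ContDiff ℝ 2 (fun p : E × E × ℝ => rg φ χ δ F p.1 p.2.1 p.2.2) := by
  rw [contDiff_iff_contDiffAt]
  rintro ⟨x0, v0, t0⟩
  have hπ : ContDiff ℝ 2 (fun p : E × E × ℝ => (p.1, p.2.1)) :=
    contDiff_fst.prodMk (contDiff_fst.comp contDiff_snd)
  have hn : ContDiff ℝ 2 (fun p : E × E × ℝ => ‖p.2.1‖ ^ 2 / 2) :=
    ((contDiff_norm_sq ℝ).comp (contDiff_fst.comp contDiff_snd)).div_const 2
  by_cases hv : v0 = 0
  · have hcont : Continuous (fun p : E × E × ℝ => MF * ‖p.2.1‖) := by fun_prop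
    have hlt : ∀ᶠ p : E × E × ℝ in 𝓝 (x0, v0, t0), MF * ‖p.2.1‖ < 1 / 4 := by
      refine hcont.continuousAt.eventually_lt continuousAt_const ?_
      simp [hv]
    have hev : (fun p : E × E × ℝ => rg φ χ δ F p.1 p.2.1 p.2.2) =ᶠ[𝓝 (x0, v0, t0)]
        fun p => φ 0 + δ * (‖p.2.1‖ ^ 2 / 2) := by
      filter_upwards [hlt] with p hp
      exact Fn2b_near h hc δ p.1 p.2.1 p.2.2 hp
    exact (contDiffAt_const.add (contDiffAt_const.mul hn.contDiffAt)).congr_of_eventuallyEq hev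
  · have hop : IsOpen {p : E × E | p.2 ≠ 0} := isOpen_ne_fun continuous_snd continuous_const
    have hF : ContDiffAt ℝ 2 (fun p : E × E => F p.1 p.2) (x0, v0) :=
      h.smooth.contDiffAt (hop.mem_nhds hv)
    have hF' : ContDiffAt ℝ 2 (fun p : E × E × ℝ => F p.1 p.2.1) (x0, v0, t0) :=
      ContDiffAt.comp (g := fun p : E × E => F p.1 p.2)
        (f := fun p : E × E × ℝ => (p.1, p.2.1)) (x0, v0, t0) hF hπ.contDiffAt
    have hF2 : ContDiffAt ℝ 2 (fun p : E × E × ℝ => F p.1 p.2.1 ^ 2 / 2) (x0, v0, t0) :=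
      (hF'.pow 2).div_const 2
    have hφ : ContDiff ℝ 2 φ := contDiff_infty.1 hc.sφ 2
    have hχ : ContDiff ℝ 2 χ := contDiff_infty.1 hc.sχ 2
    have e1 : ContDiffAt ℝ 2 (fun p : E × E × ℝ => φ (F p.1 p.2.1 ^ 2 / 2)) (x0, v0, t0) :=
      hφ.contDiffAt.comp (x0, v0, t0) hF2
    have e2 : ContDiffAt ℝ 2 (fun p : E × E × ℝ => χ (F p.1 p.2.1 ^ 2 / 2)) (x0, v0, t0) :=
      hχ.contDiffAt.comp (x0, v0, t0) hF2
    exact e1.add (contDiffAt_const.mul (e2.mul hn.contDiffAt))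

end Pool.Agent.EscV
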