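import Pool.Agent.EscV.Fn4
import Pool.Agent.EscG.R2

set_option autoImplicit false

/-!
# EscG geometry, module Fn5: uniqueness of geodesics, the plane `Pl` of the metric

`fgeo_unique`: let `R` bound the speeds of `v, v'` on `[a,c]` and let `l'` be a cut-off (`TL.exists_cut hr.tl R`: `CL l' lx' lu' 0 (m'/4) Λ`, on main in
A2c.lean; fields of `CL`, `CK` in EscF/CDefs.lean). Put `P t = lu' (Z t) (v t) t = gu l (Z t) (v t) t` (`Cut.equ`), the same for `Z', v'`. `Z' = v`-type equations: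
`Z` has derivative `v`, `P` has derivative `lx' (Z t) (v t) t` (`FGeo.pos`, `FGeo.el`, continuity, `R1b_ftc`). Strong convexity (`CK.low` twice) gives
`(m'/4) ‖v - v'‖² ≤ inner (lu' x v t - lu' x v' t) (v - v')`, so `‖v - v'‖ ≤ (4/m') (‖P - P'‖ + Λ ‖Z - Z'‖)` and `‖lx'.. - lx'..‖ ≤ Λ (‖Z - Z'‖ + ‖v - v'‖)`
(`lx_lip`, `lu_lip`). So `f t = (Z t - Z' t, P t - P' t)` satisfies `‖f'‖ ≤ K ‖f‖`, `f t0 = 0`: Gronwall
(`norm_le_gronwallBound_of_norm_deriv_right_le`) forwards, and backwards for `f (-t)`.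
`nb`: as `Conf.nb` in R2.lean. `exists_pl`: as `Conf.exists_pl` in R2.lean (`fd_shift`, `le_fd`, `fd_le`, `fd_tri` of C1.lean, `fd_symm`).
`fiso_univ`: as `Conf.iso_gode_univ` in R2.lean (velocities on `[t-1,t+1]`, `deriv Z`; continuity of `deriv Z` on `(t-1,t+1)` from `FGeo.lip`).
-/

noncomputable section

namespace Pool.Agent.EscV

open Pool.Agent.EscG

open MeasureTheory Set Filter Topology Esc EscF _root_.EscG
open scoped ContDiff

variable {E : Type*} [NormedAddCommGroup E] [InnerProductSpace ℝ E] [FiniteDimensional ℝ E]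
  {β : Module.Basis (Fin 2) ℝ E} {F : E → E → ℝ} {mF MF m m' M : ℝ} {l : E → E → ℝ → ℝ}

/-- uniqueness for the zero solution, in both directions -/
theorem Fn5_gron {X : Type*} [NormedAddCommGroup X] [NormedSpace ℝ X] {f f' : ℝ → X} {a c t0 K : ℝ}
    (hf : ∀ t ∈ Icc a c, HasDerivWithinAt f (f' t) (Icc a c) t)
    (hb : ∀ t ∈ Icc a c, ‖f' t‖ ≤ K * ‖f t‖) (ht0 : t0 ∈ Icc a c) (h0 : f t0 = 0) :
    ∀ t ∈ Icc a c, f t = 0 := by
  have hc : ContinuousOn f (Icc a c) := fun t ht => (hf t ht).continuousWithinAt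
  have r1 : ∀ t ∈ Icc t0 c, f t = 0 := by
    refine eq_zero_of_abs_deriv_le_mul_abs_self_of_eq_zero_right (f' := f') (K := K)
      (hc.mono (Icc_subset_Icc_left ht0.1)) (fun t ht => ?_) h0 (fun t ht => ?_)
    · exact (hf t ⟨ht0.1.trans ht.1, ht.2.le⟩).mono_of_mem_nhdsWithin
        (Icc_mem_nhdsGE_of_mem ⟨ht0.1.trans ht.1, ht.2⟩)
    · exact hb t ⟨ht0.1.trans ht.1, ht.2.le⟩
  have r2 : ∀ s ∈ Icc (-t0) (-a), f (-s) = 0 := by
    refine eq_zero_of_abs_deriv_le_mul_abs_self_of_eq_zero_right (f := fun s => f (-s))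
      (f' := fun s => (-1 : ℝ) • f' (-s)) (K := K) ?_ (fun s hs => ?_) (by simp [h0])
      (fun s hs => ?_)
    · refine hc.comp continuous_neg.continuousOn fun s hs => ?_
      exact ⟨by linarith [hs.2], by linarith [hs.1, ht0.2]⟩
    · have h1 : HasDerivWithinAt f (f' (-s)) (Iic (-s)) (-s) :=
        (hf (-s) ⟨by linarith [hs.2], by linarith [hs.1, ht0.2]⟩).mono_of_mem_nhdsWithin
          (Icc_mem_nhdsLE_of_mem ⟨by linarith [hs.2], by linarith [hs.1, ht0.2]⟩)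
      exact h1.scomp s ((hasDerivAt_neg s).hasDerivWithinAt (s := Ici s))
        (fun r hr => mem_Iic.2 (neg_le_neg (mem_Ici.1 hr)))
    · have h1 := hb (-s) ⟨by linarith [hs.2], by linarith [hs.1, ht0.2]⟩
      rw [neg_smul, one_smul, norm_neg]
      exact h1
  intro t ht
  rcases le_total t t0 with h2 | h2
  · have h3 := r2 (-t) ⟨neg_le_neg h2, neg_le_neg ht.1⟩
    rwa [neg_neg] at h3
  · exact r1 t ⟨h2, ht.2⟩

theorem Fn5_vb (h : NFins β F mF MF m) {Z v : ℝ → E} {a c : ℝ} (hZ : FGeo F l Z v a c) :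
    ∀ t ∈ Icc a c, ‖v t‖ ≤ 1 / mF := by
  intro t ht
  have h1 := h.fins.low (Z t) (v t)
  rw [hZ.unit t ht] at h1
  rw [le_div_iff₀ h.fins.mF_pos]
  linarith

theorem Fn5_dZ {Z v : ℝ → E} {a c : ℝ} (hac : a ≤ c) (hZ : FGeo F l Z v a c) :
    ∀ t ∈ Icc a c, HasDerivWithinAt Z (v t) (Icc a c) t := by
  obtain ⟨C, hC⟩ := hZ.lip
  exact R1b_ftc hac (R1b_cont hC) fun t ht => hZ.pos a ⟨le_rfl, hac⟩ t ht

theorem Fn5_dP (hr : Reg β F mF MF m' M l) {Z v : ℝ → E} {a c : ℝ} (hac : a ≤ c)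
    (hZ : FGeo F l Z v a c) : ∀ t ∈ Icc a c,
    HasDerivWithinAt (fun r => gu l (Z r) (v r) r) (gx l (Z t) (v t) t) (Icc a c) t := by
  obtain ⟨C, hC⟩ := hZ.lip
  have hZc : ContinuousOn Z (Icc a c) := fun t ht => (Fn5_dZ hac hZ t ht).continuousWithinAt
  exact R1b_ftc hac (R1b_comp hr.tl.gx_cont hZc (R1b_cont hC))
    fun t ht => hZ.el a ⟨le_rfl, hac⟩ t ht

/-- strong convexity -/
theorem Fn5_mono (hr : Reg β F mF MF m' M l) (x u v : E) (t : ℝ) :
    m' * ‖u - v‖ ≤ ‖gu l x u t - gu l x v t‖ := by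
  have h1 := hr.tl.conv x u v t
  have h2 := hr.tl.conv x v u t
  have h3 : inner ℝ (gu l x u t) (v - u) = - inner ℝ (gu l x u t) (u - v) := by
    rw [← inner_neg_right, neg_sub]
  have h4 : ‖v - u‖ = ‖u - v‖ := norm_sub_rev _ _
  rw [h3, h4] at h2
  have h5 : m' * ‖u - v‖ ^ 2 ≤ inner ℝ (gu l x u t - gu l x v t) (u - v) := by
    rw [inner_sub_left]
    linarith
  have h6 : inner ℝ (gu l x u t - gu l x v t) (u - v) ≤
      ‖gu l x u t - gu l x v t‖ * ‖u - v‖ := real_inner_le_norm _ _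
  rcases (norm_nonneg (u - v)).eq_or_lt with h7 | h7
  · rw [← h7, mul_zero]
    exact norm_nonneg _
  · have h8 : m' * ‖u - v‖ * ‖u - v‖ ≤ ‖gu l x u t - gu l x v t‖ * ‖u - v‖ := by
      rw [mul_assoc, ← sq]
      exact h5.trans h6
    exact le_of_mul_le_mul_right h8 h7

theorem NFins.fgeo_unique (h : NFins β F mF MF m) (hr : Reg β F mF MF m' M l) {Z Z' v v' : ℝ → E}
    {a c t0 : ℝ} (hZ : FGeo F l Z v a c) (hZ' : FGeo F l Z' v' a c) (ht0 : t0 ∈ Icc a c)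
    (h0 : Z t0 = Z' t0) (h1 : v t0 = v' t0) : ∀ t ∈ Icc a c, Z t = Z' t := by
  have hac : a ≤ c := ht0.1.trans ht0.2
  have hmF := h.fins.mF_pos
  have hm' := hr.tl.m_pos
  obtain ⟨l', lx', lu', Λ, hc⟩ := hr.tl.exists_cut (1 / mF)
  have hΛ : 1 ≤ Λ := hc.cl.Λ_ge
  have hv := Fn5_vb h hZ
  have hv' := Fn5_vb h hZ'
  have dZ := Fn5_dZ hac hZ
  have dZ' := Fn5_dZ hac hZ'
  have dP := Fn5_dP hr hac hZ
  have dP' := Fn5_dP hr hac hZ'
  set f : ℝ → E × E := fun t => (Z t - Z' t, gu l (Z t) (v t) t - gu l (Z' t) (v' t) t) with hf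
  set f' : ℝ → E × E := fun t => (v t - v' t, gx l (Z t) (v t) t - gx l (Z' t) (v' t) t) with hf'
  have d : ∀ t ∈ Icc a c, HasDerivWithinAt f (f' t) (Icc a c) t := fun t ht =>
    ((dZ t ht).sub (dZ' t ht)).prodMk ((dP t ht).sub (dP' t ht))
  have hb : ∀ t ∈ Icc a c, ‖f' t‖ ≤ ((1 + Λ) / m' + Λ * (1 + (1 + Λ) / m')) * ‖f t‖ := by
    intro t ht
    have n1 : ‖Z t - Z' t‖ ≤ ‖f t‖ := norm_fst_le (f t)
    have n2 : ‖gu l (Z t) (v t) t - gu l (Z' t) (v' t) t‖ ≤ ‖f t‖ := norm_snd_le (f t)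
    have e1 : gu l (Z t) (v' t) t = lu' (Z t) (v' t) t := (hc.equ _ _ _ (hv' t ht)).symm
    have e2 : gu l (Z' t) (v' t) t = lu' (Z' t) (v' t) t := (hc.equ _ _ _ (hv' t ht)).symm
    have k1 : ‖gu l (Z' t) (v' t) t - gu l (Z t) (v' t) t‖ ≤ Λ * ‖Z t - Z' t‖ := by
      rw [e1, e2]
      have := hc.cl.lu_lip (Z' t) (v' t) t (Z t) (v' t) t
      rw [sub_self, sub_self, norm_zero, abs_zero, add_zero, add_zero, norm_sub_rev (Z' t)] at this
      exact this
    have k2 := Fn5_mono hr (Z t) (v t) (v' t) t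
    have k3 : ‖gu l (Z t) (v t) t - gu l (Z t) (v' t) t‖ ≤ (1 + Λ) * ‖f t‖ := by
      have e3 : gu l (Z t) (v t) t - gu l (Z t) (v' t) t =
          (gu l (Z t) (v t) t - gu l (Z' t) (v' t) t) +
            (gu l (Z' t) (v' t) t - gu l (Z t) (v' t) t) := by abel
      rw [e3]
      refine (norm_add_le _ _).trans ?_
      have k4 : Λ * ‖Z t - Z' t‖ ≤ Λ * ‖f t‖ := mul_le_mul_of_nonneg_left n1 (by linarith)
      linarith
    have k5 : ‖v t - v' t‖ ≤ (1 + Λ) / m' * ‖f t‖ := by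
      rw [div_mul_eq_mul_div, le_div_iff₀ hm', mul_comm]
      exact k2.trans k3
    have k6 : ‖gx l (Z t) (v t) t - gx l (Z' t) (v' t) t‖ ≤ Λ * (1 + (1 + Λ) / m') * ‖f t‖ := by
      rw [← hc.eqx _ _ _ (hv t ht), ← hc.eqx _ _ _ (hv' t ht)]
      have := hc.cl.lx_lip (Z t) (v t) t (Z' t) (v' t) t
      rw [sub_self, abs_zero, add_zero] at this
      refine this.trans ?_
      rw [mul_assoc]
      refine mul_le_mul_of_nonneg_left ?_ (by linarith)
      rw [add_mul, one_mul]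
      exact add_le_add n1 k5
    have hn := norm_nonneg (f t)
    have p1 : 0 ≤ (1 + Λ) / m' := by positivity
    have p2 : 0 ≤ Λ * (1 + (1 + Λ) / m') := by positivity
    refine (norm_prod_le_iff (x := f' t)).2 ⟨k5.trans ?_, k6.trans ?_⟩
    · exact mul_le_mul_of_nonneg_right (by linarith) hn
    · exact mul_le_mul_of_nonneg_right (by linarith) hn
  have hf0 : f t0 = 0 := by
    simp only [hf, h0, h1, sub_self]
    rfl
  intro t ht
  have h3 := Fn5_gron d hb ht0 hf0 t ht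
  exact sub_eq_zero.1 (congrArg Prod.fst h3)

theorem NFins.nb (h : NFins β F mF MF m) {Z Z' : ℝ → E} {a b c : ℝ} (hab : a < b) (hbc : b ≤ c)
    (hZ : FIso F Z a c) (hZ' : FIso F Z' a c) (he : ∀ t ∈ Icc a b, Z t = Z' t) :
    ∀ t ∈ Icc a c, Z t = Z' t := by
  have hac : a < c := hab.trans_le hbc
  obtain ⟨m', M, l, hr⟩ := h.exists_reg
  obtain ⟨v, hv⟩ := h.fiso_geo hr hac hZ
  obtain ⟨v', hv'⟩ := h.fiso_geo hr hac hZ'
  have ha : a ∈ Icc a c := left_mem_Icc.2 hac.le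
  have ha' : a ∈ Icc a b := left_mem_Icc.2 hab.le
  refine h.fgeo_unique hr hv hv' ha (he a ha') ?_
  have d1 : HasDerivWithinAt Z (v a) (Icc a b) a :=
    (Fn5_dZ hac.le hv a ha).mono (Icc_subset_Icc_right hbc)
  have d2 : HasDerivWithinAt Z' (v' a) (Icc a b) a :=
    (Fn5_dZ hac.le hv' a ha).mono (Icc_subset_Icc_right hbc)
  have d3 : HasDerivWithinAt Z (v' a) (Icc a b) a := d2.congr he (he a ha')
  exact (uniqueDiffOn_Icc hab a ha').eq_deriv _ d1 d3

/-- non-branching backwards -/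
theorem NFins.nb' (h : NFins β F mF MF m) {Z Z' : ℝ → E} {a b c : ℝ} (hab : a ≤ b) (hbc : b < c)
    (hZ : FIso F Z a c) (hZ' : FIso F Z' a c) (he : ∀ t ∈ Icc b c, Z t = Z' t) :
    ∀ t ∈ Icc a c, Z t = Z' t := by
  have hac : a < c := hab.trans_lt hbc
  obtain ⟨m', M, l, hr⟩ := h.exists_reg
  obtain ⟨v, hv⟩ := h.fiso_geo hr hac hZ
  obtain ⟨v', hv'⟩ := h.fiso_geo hr hac hZ'
  have hc : c ∈ Icc a c := right_mem_Icc.2 hac.le
  have hc' : c ∈ Icc b c := right_mem_Icc.2 hbc.le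
  refine h.fgeo_unique hr hv hv' hc (he c hc') ?_
  have d1 : HasDerivWithinAt Z (v c) (Icc b c) c :=
    (Fn5_dZ hac.le hv c hc).mono (Icc_subset_Icc_left hab)
  have d2 : HasDerivWithinAt Z' (v' c) (Icc b c) c :=
    (Fn5_dZ hac.le hv' c hc).mono (Icc_subset_Icc_left hab)
  have d3 : HasDerivWithinAt Z (v' c) (Icc b c) c := d2.congr he (he c hc')
  exact (uniqueDiffOn_Icc hbc c hc').eq_deriv _ d1 d3

omit [FiniteDimensional ℝ E] in
theorem Fn5_per (h : NFins β F mF MF m) (i : Fin 2) (n : ℤ) (x v : E) :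
    F (x + (n : ℝ) • β i) v = F x v := by
  induction n using Int.induction_on generalizing x with
  | zero => simp
  | succ n ih =>
    have e : x + (((n : ℤ) + 1 : ℤ) : ℝ) • β i = x + ((n : ℤ) : ℝ) • β i + β i := by
      push_cast
      rw [add_smul, one_smul, add_assoc]
    rw [e, h.fins.per, ih]
  | pred n ih =>
    have e : x + ((-(n : ℤ) - 1 : ℤ) : ℝ) • β i + β i = x + ((-(n : ℤ) : ℤ) : ℝ) • β i := by
      push_cast
      rw [sub_smul, one_smul, add_assoc, sub_add_cancel]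
    rw [← h.fins.per i, e, ih]

theorem NFins.exists_pl (h : NFins β F mF MF m) :
    ∃ T : Pl, ∀ x y, T.d x y = fd F (co β x) (co β y) := by
  obtain ⟨c, C, hc, hC, hcC⟩ := co_bd β
  have hMF : 0 ≤ MF := h.fins.mF_pos.le.trans h.fins.mF_le
  refine ⟨{
    d := fun x y => fd F (co β x) (co β y)
    m := mF * c
    M := MF * C
    m_pos := mul_pos h.fins.mF_pos hc
    tri := fun x y z => fd_tri h.fins _ _ _
    low := fun x y => ?_
    upp := fun x y => ?_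
    per := fun i j x y => ?_
    geo := fun x y => ?_
    nb := fun γ γ' a m c ham hmc hγ hγ' he t ht => ?_
    nb' := fun γ γ' a m c ham hmc hγ hγ' he t ht => ?_ }, fun x y => rfl⟩
  · refine le_trans ?_ (le_fd h.fins _ _)
    rw [mul_assoc, norm_sub_rev (co β y)]
    exact mul_le_mul_of_nonneg_left (hcC x y).1 h.fins.mF_pos.le
  · refine (fd_le h.fins _ _).trans ?_
    rw [mul_assoc, norm_sub_rev (co β y)]
    exact mul_le_mul_of_nonneg_left (hcC x y).2 hMF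
  · rw [R2_co_add, R2_co_add, fd_shift _ (fun x u => Fn5_per h 1 j x u),
      fd_shift _ (fun x u => Fn5_per h 0 i x u)]
  · obtain ⟨Z, h1, h2, h3⟩ := h.exists_fiso (co β x) (co β y)
    have e : ∀ t, co β ((R2_co β).symm (Z t)) = Z t := fun t => (R2_co β).apply_symm_apply _
    refine ⟨fun t => (R2_co β).symm (Z t), co_inj β ?_, co_inj β ?_, fun s hs t ht hst => ?_⟩
    · rw [e, h1]
    · rw [e, h2]
    · change fd F (co β ((R2_co β).symm (Z s))) (co β ((R2_co β).symm (Z t))) = t - s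
      rw [e, e]
      exact h3 s hs t ht hst
  · exact co_inj β (h.nb (Z := fun t => co β (γ t)) (Z' := fun t => co β (γ' t)) ham hmc hγ hγ'
      (fun t ht => congrArg (co β) (he t ht)) t ht)
  · exact co_inj β (h.nb' (Z := fun t => co β (γ t)) (Z' := fun t => co β (γ' t)) ham hmc hγ hγ'
      (fun t ht => congrArg (co β) (he t ht)) t ht)

theorem NFins.fiso_univ (h : NFins β F mF MF m) {Z : ℝ → E} (hZ : ∀ s t, s ≤ t → fd F (Z s) (Z t) = t - s) :
    ∃ v : ℝ → E, Continuous v ∧ ∀ t, HasDerivAt Z (v t) t ∧ F (Z t) (v t) = 1 := by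
  obtain ⟨m', M, l, hr⟩ := h.exists_reg
  have key : ∀ t : ℝ, HasDerivAt Z (deriv Z t) t ∧ F (Z t) (deriv Z t) = 1 ∧
      ContinuousAt (deriv Z) t := by
    intro t
    obtain ⟨v, hv⟩ := h.fiso_geo hr (a := t - 1) (c := t + 1) (by linarith)
      (Z := Z) (fun s _ t _ hst => hZ s t hst)
    have hd : ∀ s ∈ Ioo (t - 1) (t + 1), HasDerivAt Z (v s) s := fun s hs =>
      (Fn5_dZ (by linarith) hv s ⟨hs.1.le, hs.2.le⟩).hasDerivAt (Icc_mem_nhds hs.1 hs.2)
    have he : ∀ s ∈ Ioo (t - 1) (t + 1), deriv Z s = v s := fun s hs => (hd s hs).deriv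
    have ht : t ∈ Ioo (t - 1) (t + 1) := ⟨by linarith, by linarith⟩
    obtain ⟨C, hC⟩ := hv.lip
    have hvc : ContinuousAt v t := (R1b_cont hC).continuousAt (Icc_mem_nhds ht.1 ht.2)
    rw [he t ht]
    refine ⟨hd t ht, hv.unit t ⟨ht.1.le, ht.2.le⟩, ?_⟩
    refine hvc.congr ?_
    filter_upwards [Ioo_mem_nhds ht.1 ht.2] with s hs
    rw [he s hs]
  exact ⟨deriv Z, continuous_iff_continuousAt.2 fun t => (key t).2.2,
    fun t => ⟨(key t).1, (key t).2.1⟩⟩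

end Pool.Agent.EscV
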