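import Pool.Agent.EscG.Fn8
import Pool.Agent.EscV.Fn0
import Pool.Agent.EscV.Fn6
import Pool.Agent.EscV.Fn7

set_option autoImplicit false

/-!
# Project EscV, module Fn8: gap data in the plane `Vec 2` for a Finsler metric on `𝕋²` which need not be reversible
-/

noncomputable section

namespace EscG.X

open MeasureTheory Set Filter Topology Esc EscF EscF.T EscG.T
open scoped ContDiff

/-- Finsler metrics on `𝕋² = ℝ²/ℤ²`, of class `C^2` off the zero section, positively homogeneous (not reversible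
in general), with positive definite second derivative of `F²` in the velocity -/
structure IsFinsler2 (F : Vec 2 → Vec 2 → ℝ) : Prop where
  smooth : ContDiffOn ℝ 2 (fun p : Vec 2 × Vec 2 => F p.1 p.2) {p | p.2 ≠ 0}
  pos : ∀ x v, v ≠ 0 → 0 < F x v
  hom : ∀ x v (c : ℝ), 0 ≤ c → F x (c • v) = c * F x v
  per : ∀ (n : Fin 2 → ℤ) x v, F (x + vz n) v = F x v
  conv : ∀ x v w, v ≠ 0 → w ≠ 0 → 0 < fderiv ℝ (fderiv ℝ (fun z => F x z ^ 2)) v w w

theorem Fn8_fins {F2 : Vec 2 → Vec 2 → ℝ} (hF : IsFinsler2 F2) :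
    Pool.Agent.EscV.IsFins2 Fn8_β F2 := by
  refine ⟨hF.smooth, hF.pos, hF.hom, fun i x v => ?_, hF.conv⟩
  rw [Fn8_β_apply]
  exact hF.per _ x v

/-- such a Finsler metric is continuous, also at the zero section -/
theorem IsFinsler2.isFinsler {F2 : Vec 2 → Vec 2 → ℝ} (hF : IsFinsler2 F2) :
    EscG.T.IsFinsler F2 := by
  obtain ⟨mF, MF, m, hR⟩ := (Fn8_fins hF).rfins
  exact ⟨hR.fins.cont, fun n x v => hF.per n x v, hF.hom, hF.pos⟩

/-- positively homogeneous Finsler metrics with non constant displacement have a gap -/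
theorem exists_gap2N {F2 : Vec 2 → Vec 2 → ℝ} (hF : IsFinsler2 F2)
    (hd : ∃ (n : Fin 2 → ℤ) (x y : Vec 2),
      Pool.Agent.EscG.cdist F2 x (x + vz n) ≠ Pool.Agent.EscG.cdist F2 y (y + vz n)) :
    ∃ (bv gv : Vec 2) (B y : Vec 2 → ℝ) (l a τ : ℝ) (c0 c1 : ℝ → Vec 2), ZB bv gv ∧
      Gap2 F2 bv gv B y l a τ c0 c1 := by
  obtain ⟨mF, MF, m, hR⟩ := (Fn8_fins hF).rfins
  obtain ⟨n, x, y, hne⟩ := hd
  have hv : vz n = Pool.Agent.EscG.vk Fn8_β (n 0, n 1) := Fn8_vz n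
  rw [hR.cdist_eq, hR.cdist_eq, hv] at hne
  obtain ⟨β', hs, B, y', l, a, τ, c0, c1, hG⟩ := hR.main ⟨x, y, hne⟩
  exact ⟨β' 0, β' 1, B, y', l, a, τ, c0, c1, Fn8_zb hs, Fn8_gap2 hG⟩

end EscG.X
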