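import Pool.Agent.EscV.GAdj

set_option autoImplicit false

/-!
# EscG geometry: the function `y`

`H := G0 + (0,1)`. By `Adj.all` and `Cl.lt_up`: `range G1 = range H` or `Lt G1 H`.
For two lines `P, Q` with `Lt P Q` let `φ x = dist (x, A) / (dist (x, A) + dist (x, B))` with
`A = {x | ¬ Up (range P) x}`, `B = {x | ¬ Lo (range Q) x}`: continuous, with values in `[0,1]`,
`= 0` iff `¬ Up P x`, `= 1` iff `¬ Lo Q x`.
Case `range G1 = range H`: `τ = 1`, `y x = j + φ_(G0 + (0,j), G0 + (0,j+1)) x` when `x` is between these two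
lines. Case `Lt G1 H`: `τ = 1/2` and `φ` is replaced by the average of `φ_(G0, G1)` and `φ_(G1, H)`.
-/

noncomputable section

open Set Filter Topology

namespace Pool.Agent.EscV

open Pool.Agent.EscG

namespace Pl

variable {T : Pl} {G0 G1 : ℝ → ℝ × ℝ} {p : ℝ × ℝ}

/-! ### Interpolation between two closed sets -/

/-- interpolation between two closed sets -/
def GYphi (A B : Set (ℝ × ℝ)) (x : ℝ × ℝ) : ℝ :=
  Metric.infDist x A / (Metric.infDist x A + Metric.infDist x B)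

section phi

variable {A B : Set (ℝ × ℝ)}

theorem GYphi_den (hA : IsClosed A) (hB : IsClosed B) (hA' : A.Nonempty) (hB' : B.Nonempty)
    (hd : ∀ x ∈ A, x ∉ B) (x : ℝ × ℝ) : 0 < Metric.infDist x A + Metric.infDist x B := by
  by_cases hx : x ∈ A
  · have h1 := (hB.notMem_iff_infDist_pos hB').1 (hd x hx)
    have h2 := Metric.infDist_nonneg (x := x) (s := A)
    linarith
  · have h1 := (hA.notMem_iff_infDist_pos hA').1 hx
    have h2 := Metric.infDist_nonneg (x := x) (s := B)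
    linarith

theorem GYphi_cont (hA : IsClosed A) (hB : IsClosed B) (hA' : A.Nonempty) (hB' : B.Nonempty)
    (hd : ∀ x ∈ A, x ∉ B) : Continuous (GYphi A B) :=
  (Metric.continuous_infDist_pt A).div
    ((Metric.continuous_infDist_pt A).add (Metric.continuous_infDist_pt B))
    fun x => (GYphi_den hA hB hA' hB' hd x).ne'

theorem GYphi_nonneg (x : ℝ × ℝ) : 0 ≤ GYphi A B x :=
  div_nonneg Metric.infDist_nonneg (add_nonneg Metric.infDist_nonneg Metric.infDist_nonneg)

theorem GYphi_le_one (x : ℝ × ℝ) : GYphi A B x ≤ 1 :=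
  div_le_one_of_le₀ (le_add_of_nonneg_right Metric.infDist_nonneg)
    (add_nonneg Metric.infDist_nonneg Metric.infDist_nonneg)

theorem GYphi_zero (hA : IsClosed A) (hB : IsClosed B) (hA' : A.Nonempty) (hB' : B.Nonempty)
    (hd : ∀ x ∈ A, x ∉ B) (x : ℝ × ℝ) : GYphi A B x = 0 ↔ x ∈ A := by
  rw [GYphi, div_eq_zero_iff, or_iff_left (GYphi_den hA hB hA' hB' hd x).ne',
    hA.mem_iff_infDist_zero hA']

theorem GYphi_one (hA : IsClosed A) (hB : IsClosed B) (hA' : A.Nonempty) (hB' : B.Nonempty)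
    (hd : ∀ x ∈ A, x ∉ B) (x : ℝ × ℝ) : GYphi A B x = 1 ↔ x ∈ B := by
  rw [GYphi, div_eq_one_iff_eq (GYphi_den hA hB hA' hB' hd x).ne',
    hB.mem_iff_infDist_zero hB']
  constructor
  · intro h
    linarith
  · intro h
    rw [h, add_zero]

theorem GYphi_shift {v : ℝ × ℝ} (hA : (fun z => z + v) '' A = A) (hB : (fun z => z + v) '' B = B)
    (x : ℝ × ℝ) : GYphi A B (x + v) = GYphi A B x := by
  have hiso : Isometry fun z : ℝ × ℝ => z + v := isometry_add_right v
  have h1 : Metric.infDist (x + v) A = Metric.infDist x A := by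
    conv_lhs => rw [← hA]
    exact Metric.infDist_image hiso
  have h2 : Metric.infDist (x + v) B = Metric.infDist x B := by
    conv_lhs => rw [← hB]
    exact Metric.infDist_image hiso
  rw [GYphi, GYphi, h1, h2]

end phi

/-! ### Translates of a closed line -/

theorem GY_range_b (h : T.Cl G0) : (fun z => z + ((1 : ℝ), (0 : ℝ))) '' range G0 = range G0 := by
  ext x
  constructor
  · rintro ⟨_, ⟨t, rfl⟩, rfl⟩
    exact ⟨t + T.l, h.2 t⟩
  · rintro ⟨t, rfl⟩
    refine ⟨G0 (t - T.l), ⟨_, rfl⟩, ?_⟩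
    show G0 (t - T.l) + (1, 0) = G0 t
    rw [← h.2, sub_add_cancel]

theorem GY_lo_b (h : T.Cl G0) (x : ℝ × ℝ) :
    Lo (range G0) (x + (1, 0)) ↔ Lo (range G0) x := by
  conv_lhs => rw [← GY_range_b h]
  exact lo_shift

theorem GY_up_b (h : T.Cl G0) (x : ℝ × ℝ) :
    Up (range G0) (x + (1, 0)) ↔ Up (range G0) x := by
  conv_lhs => rw [← GY_range_b h]
  exact up_shift

theorem GY_range_tr (G : ℝ → ℝ × ℝ) (v : ℝ × ℝ) :
    range (fun t => G t + v) = (fun z => z + v) '' range G := by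
  ext x
  constructor
  · rintro ⟨t, rfl⟩
    exact ⟨_, ⟨t, rfl⟩, rfl⟩
  · rintro ⟨_, ⟨t, rfl⟩, rfl⟩
    exact ⟨t, rfl⟩

theorem GY_lo_tr (G : ℝ → ℝ × ℝ) (v x : ℝ × ℝ) :
    Lo (range fun t => G t + v) x ↔ Lo (range G) (x - v) := by
  rw [GY_range_tr, ← lo_shift (S := range G) (x := x - v) (v := v), sub_add_cancel]

theorem GY_up_tr (G : ℝ → ℝ × ℝ) (v x : ℝ × ℝ) :
    Up (range fun t => G t + v) x ↔ Up (range G) (x - v) := by
  rw [GY_range_tr, ← up_shift (S := range G) (x := x - v) (v := v), sub_add_cancel]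

theorem GY_cl (h : T.Cl G0) (j : ℤ) : T.Cl fun t => G0 t + ((0 : ℝ), (j : ℝ)) := by
  have := h.translate 0 j
  rwa [Int.cast_zero] at this

theorem GY_mono (h : T.Cl G0) {j k : ℤ} (hjk : j ≤ k) {x : ℝ × ℝ}
    (hx : Lo (range fun t => G0 t + ((0 : ℝ), (j : ℝ))) x) :
    Lo (range fun t => G0 t + ((0 : ℝ), (k : ℝ))) x := by
  rcases hjk.eq_or_lt with rfl | hlt
  · exact hx
  · exact Lt.lo (GY_cl h j).isLine (GY_cl h k).isLine (h.lt_up_nat hlt) hx

/-- the strip of a point -/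
theorem GY_exists_j (h : T.Cl G0) (x : ℝ × ℝ) : ∃ j : ℤ,
    ¬ Lo (range fun t => G0 t + ((0 : ℝ), (j : ℝ))) x ∧
      Lo (range fun t => G0 t + ((0 : ℝ), ((j + 1 : ℤ) : ℝ))) x := by
  obtain ⟨C, hC⟩ := GTopo_snd_bound h.isLine
  -- far up
  obtain ⟨N, hN⟩ := exists_int_gt (x.2 + C)
  obtain ⟨N', hN'⟩ := exists_int_lt (x.2 - C)
  have hup : Lo (range fun t => G0 t + ((0 : ℝ), (N : ℝ))) x := by
    refine lo_far ?_
    rintro _ ⟨t, rfl⟩
    have := (abs_le.1 (hC _ ⟨t, rfl⟩)).1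
    show x.2 < (G0 t).2 + (N : ℝ)
    linarith
  have hlo : Up (range fun t => G0 t + ((0 : ℝ), (N' : ℝ))) x := by
    refine up_far ?_
    rintro _ ⟨t, rfl⟩
    have := (abs_le.1 (hC _ ⟨t, rfl⟩)).2
    show (G0 t).2 + (N' : ℝ) < x.2
    linarith
  have hlo' : ¬ Lo (range fun t => G0 t + ((0 : ℝ), (N' : ℝ))) x := fun hh =>
    (GY_cl h N').isLine.not_lo_up hh hlo
  obtain ⟨j, hj, hmax⟩ := Int.exists_greatest_of_bdd
    (P := fun j : ℤ => ¬ Lo (range fun t => G0 t + ((0 : ℝ), (j : ℝ))) x)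
    ⟨N, fun z hz => by
      by_contra hcon
      exact hz (GY_mono h (not_le.1 hcon).le hup)⟩ ⟨N', hlo'⟩
  refine ⟨j, hj, ?_⟩
  by_contra hcon
  have := hmax (j + 1) hcon
  omega

theorem GY_unique_j (h : T.Cl G0) (x : ℝ × ℝ) {j k : ℤ}
    (hj : ¬ Lo (range fun t => G0 t + ((0 : ℝ), (j : ℝ))) x)
    (hj' : Lo (range fun t => G0 t + ((0 : ℝ), ((j + 1 : ℤ) : ℝ))) x)
    (hk : ¬ Lo (range fun t => G0 t + ((0 : ℝ), (k : ℝ))) x)
    (hk' : Lo (range fun t => G0 t + ((0 : ℝ), ((k + 1 : ℤ) : ℝ))) x) : j = k := by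
  rcases lt_trichotomy j k with hlt | heq | hgt
  · exact absurd (GY_mono h (show j + 1 ≤ k by omega) hj') hk
  · exact heq
  · exact absurd (GY_mono h (show k + 1 ≤ j by omega) hk') hj

/-- gluing a strip function -/
theorem GY_glue (h : T.Cl G0) (ψ : ℝ × ℝ → ℝ) (hc : Continuous ψ)
    (h0 : ∀ x, ψ x = 0 ↔ ¬ Up (range G0) x)
    (h1 : ∀ x, ψ x = 1 ↔ ¬ Lo (range fun t => G0 t + ((0 : ℝ), (1 : ℝ))) x)
    (hb : ∀ x, ψ (x + (1, 0)) = ψ x) : ∃ y : ℝ × ℝ → ℝ, Continuous y ∧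
      (∀ x, y (x + (1, 0)) = y x) ∧ (∀ x, y (x + (0, 1)) = y x + 1) ∧
      ∀ x, ∃ j : ℤ, y x = j + ψ (x - (0, (j : ℝ))) ∧ ¬ Lo (range G0) (x - (0, (j : ℝ))) ∧
        Lo (range fun t => G0 t + ((0 : ℝ), (1 : ℝ))) (x - (0, (j : ℝ))) := by
  choose j hj1 hj2 using GY_exists_j h
  have hH : ∀ (i : ℤ) (x : ℝ × ℝ), Lo (range fun t => G0 t + ((0 : ℝ), ((i + 1 : ℤ) : ℝ))) x ↔
      Lo (range fun t => G0 t + ((0 : ℝ), (1 : ℝ))) (x - (0, (i : ℝ))) := by
    intro i x
    rw [GY_lo_tr, GY_lo_tr]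
    have : x - ((0 : ℝ), ((i + 1 : ℤ) : ℝ)) = x - (0, (i : ℝ)) - (0, 1) := by
      apply Prod.ext
      · simp
      · push_cast
        simp only [Prod.snd_sub]
        ring
    rw [this]
  have hP : ∀ (i : ℤ) (x : ℝ × ℝ), Lo (range fun t => G0 t + ((0 : ℝ), (i : ℝ))) x ↔
      Lo (range G0) (x - (0, (i : ℝ))) := fun i x => GY_lo_tr _ _ _
  have hPu : ∀ (i : ℤ) (x : ℝ × ℝ), Up (range fun t => G0 t + ((0 : ℝ), (i : ℝ))) x ↔
      Up (range G0) (x - (0, (i : ℝ))) := fun i x => GY_up_tr _ _ _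
  refine ⟨fun x => j x + ψ (x - (0, (j x : ℝ))), ?_, ?_, ?_, ?_⟩
  · rw [continuous_iff_continuousAt]
    intro x0
    have hcont : ContinuousAt (fun x => ((j x0 : ℝ) - 1) +
        ψ (x - (0, ((j x0 - 1 : ℤ) : ℝ))) + ψ (x - (0, (j x0 : ℝ)))) x0 := by
      refine Continuous.continuousAt ?_
      exact (continuous_const.add (hc.comp (continuous_id.sub continuous_const))).add
        (hc.comp (continuous_id.sub continuous_const))
    refine hcont.congr ?_
    have ho1 : IsOpen {x | Lo (range fun t => G0 t + ((0 : ℝ), ((j x0 + 1 : ℤ) : ℝ))) x} :=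
      isOpen_lo (isClosed_range (GY_cl h _).isLine)
    have ho2 : IsOpen {x | Up (range fun t => G0 t + ((0 : ℝ), ((j x0 - 1 : ℤ) : ℝ))) x} :=
      isOpen_up (isClosed_range (GY_cl h _).isLine)
    have hx2 : Up (range fun t => G0 t + ((0 : ℝ), ((j x0 - 1 : ℤ) : ℝ))) x0 := by
      have hlt : Lt (fun t => G0 t + ((0 : ℝ), ((j x0 - 1 : ℤ) : ℝ)))
          (fun t => G0 t + ((0 : ℝ), (j x0 : ℝ))) := h.lt_up_nat (by omega)
      rcases (GY_cl h (j x0)).all.tri x0 with hh | hh | hh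
      · obtain ⟨t, ht⟩ := hh
        have h9 := hlt.1 t
        rwa [ht] at h9
      · exact absurd hh (hj1 x0)
      · exact Lt.up (GY_cl h _).isLine (GY_cl h _).isLine hlt hh
    filter_upwards [ho1.mem_nhds (hj2 x0), ho2.mem_nhds hx2] with x hx1 hx2
    have hnot : ¬ Lo (range fun t => G0 t + ((0 : ℝ), ((j x0 - 1 : ℤ) : ℝ))) x := fun hh =>
      (GY_cl h _).isLine.not_lo_up hh hx2
    by_cases hx3 : Lo (range fun t => G0 t + ((0 : ℝ), (j x0 : ℝ))) x
    · have hjx : j x = j x0 - 1 := GY_unique_j h x (hj1 x) (hj2 x) hnot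
        (by rw [sub_add_cancel]; exact hx3)
      have hz : ψ (x - (0, (j x0 : ℝ))) = 0 := by
        rw [h0, ← hPu]
        exact fun hh => (GY_cl h _).isLine.not_lo_up hx3 hh
      rw [hz, hjx]
      push_cast
      ring
    · have hjx : j x = j x0 := GY_unique_j h x (hj1 x) (hj2 x) hx3 hx1
      have hz : ψ (x - (0, ((j x0 - 1 : ℤ) : ℝ))) = 1 := by
        rw [h1, ← hH, sub_add_cancel]
        exact hx3
      rw [hz, hjx]
      ring
  · intro x
    have hjx : j (x + (1, 0)) = j x := by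
      refine GY_unique_j h x ?_ ?_ (hj1 x) (hj2 x)
      · have := hj1 (x + (1, 0))
        rwa [GY_lo_b (GY_cl h _)] at this
      · have := hj2 (x + (1, 0))
        rwa [GY_lo_b (GY_cl h _)] at this
    show (j (x + (1, 0)) : ℝ) + ψ (x + (1, 0) - (0, (j (x + (1, 0)) : ℝ))) = _
    rw [hjx, add_sub_right_comm, hb]
  · intro x
    have hjx : j (x + (0, 1)) = j x + 1 := by
      have e : ∀ i : ℤ, x + (0, 1) - ((0 : ℝ), (i : ℝ)) = x - (0, ((i - 1 : ℤ) : ℝ)) := by
        intro i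
        apply Prod.ext
        · simp
        · push_cast
          simp only [Prod.snd_sub, Prod.snd_add]
          ring
      have h3 : j (x + (0, 1)) - 1 = j x := by
        refine GY_unique_j h x ?_ ?_ (hj1 x) (hj2 x)
        · have := hj1 (x + (0, 1))
          rwa [hP, e, ← hP] at this
        · have := hj2 (x + (0, 1))
          rwa [hH, e, ← hH] at this
      omega
    show (j (x + (0, 1)) : ℝ) + ψ (x + (0, 1) - (0, (j (x + (0, 1)) : ℝ))) = _
    have e2 : x + (0, 1) - ((0 : ℝ), ((j x + 1 : ℤ) : ℝ)) = x - (0, (j x : ℝ)) := by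
      apply Prod.ext
      · simp
      · push_cast
        simp only [Prod.snd_sub, Prod.snd_add]
        ring
    rw [hjx, e2]
    push_cast
    ring
  · intro x
    exact ⟨j x, rfl, by rw [← hP]; exact hj1 x, by rw [← hH]; exact hj2 x⟩

/-- the strip function between two ordered closed lines -/
theorem GY_strip {P Q : ℝ → ℝ × ℝ} (hP : T.Cl P) (hQ : T.Cl Q) (hlt : Lt P Q) :
    ∃ φ : ℝ × ℝ → ℝ, Continuous φ ∧ (∀ x, φ x = 0 ↔ ¬ Up (range P) x) ∧
      (∀ x, φ x = 1 ↔ ¬ Lo (range Q) x) ∧ (∀ x, 0 ≤ φ x) ∧ (∀ x, φ x ≤ 1) ∧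
      ∀ x, φ (x + (1, 0)) = φ x := by
  set A : Set (ℝ × ℝ) := {x | ¬ Up (range P) x} with hA
  set B : Set (ℝ × ℝ) := {x | ¬ Lo (range Q) x} with hB
  have hAc : IsClosed A := by
    have := (isOpen_up (isClosed_range hP.isLine)).isClosed_compl
    exact this
  have hBc : IsClosed B := by
    have := (isOpen_lo (isClosed_range hQ.isLine)).isClosed_compl
    exact this
  have hAn : A.Nonempty := ⟨P 0, fun hh => hh.notMem (mem_range_self 0)⟩
  have hBn : B.Nonempty := ⟨Q 0, fun hh => hh.notMem (mem_range_self 0)⟩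
  have hd : ∀ x ∈ A, x ∉ B := by
    intro x hxA hxB
    rcases hQ.all.tri x with hh | hh | hh
    · obtain ⟨t, rfl⟩ := hh
      exact hxA (hlt.1 t)
    · exact hxB hh
    · exact hxA (Lt.up hP.isLine hQ.isLine hlt hh)
  have hAs : (fun z => z + ((1 : ℝ), (0 : ℝ))) '' A = A := by
    ext x
    constructor
    · rintro ⟨z, hz, rfl⟩
      exact fun hh => hz ((GY_up_b hP z).1 hh)
    · intro hx
      refine ⟨x - (1, 0), ?_, sub_add_cancel _ _⟩
      intro hh
      have := (GY_up_b hP (x - (1, 0))).2 hh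
      rw [sub_add_cancel] at this
      exact hx this
  have hBs : (fun z => z + ((1 : ℝ), (0 : ℝ))) '' B = B := by
    ext x
    constructor
    · rintro ⟨z, hz, rfl⟩
      exact fun hh => hz ((GY_lo_b hQ z).1 hh)
    · intro hx
      refine ⟨x - (1, 0), ?_, sub_add_cancel _ _⟩
      intro hh
      have := (GY_lo_b hQ (x - (1, 0))).2 hh
      rw [sub_add_cancel] at this
      exact hx this
  exact ⟨GYphi A B, GYphi_cont hAc hBc hAn hBn hd, GYphi_zero hAc hBc hAn hBn hd,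
    GYphi_one hAc hBc hAn hBn hd, GYphi_nonneg, GYphi_le_one, GYphi_shift hAs hBs⟩

theorem GY_sub_zero (x : ℝ × ℝ) : x - ((0 : ℝ), ((0 : ℤ) : ℝ)) = x := by
  rw [Int.cast_zero]
  exact sub_zero x

/-- consequences of the gluing -/
theorem GY_level {y ψ : ℝ × ℝ → ℝ} (hψ0 : ∀ x, 0 ≤ ψ x) (hψ1 : ∀ x, ψ x ≤ 1)
    (h1 : ∀ x, ψ x = 1 ↔ ¬ Lo (range fun t => G0 t + ((0 : ℝ), (1 : ℝ))) x)
    (hy : ∀ x, ∃ j : ℤ, y x = j + ψ (x - (0, (j : ℝ))) ∧ ¬ Lo (range G0) (x - (0, (j : ℝ))) ∧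
        Lo (range fun t => G0 t + ((0 : ℝ), (1 : ℝ))) (x - (0, (j : ℝ)))) (x : ℝ × ℝ) :
    ((0 ≤ y x ∧ y x < 1) → y x = ψ x ∧ ¬ Lo (range G0) x ∧
      Lo (range fun t => G0 t + ((0 : ℝ), (1 : ℝ))) x) := by
  rintro ⟨ha, hb⟩
  obtain ⟨j, h2, h3, h4⟩ := hy x
  have h5 : ψ (x - (0, (j : ℝ))) < 1 :=
    lt_of_le_of_ne (hψ1 _) fun hh => (h1 _).1 hh h4
  have h6 := hψ0 (x - (0, (j : ℝ)))
  have hj : j = 0 := by
    have h7 : (-1 : ℝ) < j := by linarith
    have h8 : (j : ℝ) < 1 := by linarith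
    have h7' : (-1 : ℤ) < j := by exact_mod_cast h7
    have h8' : j < (1 : ℤ) := by exact_mod_cast h8
    omega
  subst hj
  rw [GY_sub_zero] at h2 h3 h4
  rw [Int.cast_zero, zero_add] at h2
  exact ⟨h2, h3, h4⟩

theorem GY_level' (h : T.Cl G0) {y ψ : ℝ × ℝ → ℝ}
    (hy : ∀ x, ∃ j : ℤ, y x = j + ψ (x - (0, (j : ℝ))) ∧ ¬ Lo (range G0) (x - (0, (j : ℝ))) ∧
        Lo (range fun t => G0 t + ((0 : ℝ), (1 : ℝ))) (x - (0, (j : ℝ)))) {x : ℝ × ℝ}
    (hx : ¬ Lo (range G0) x) (hx' : Lo (range fun t => G0 t + ((0 : ℝ), (1 : ℝ))) x) :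
    y x = ψ x := by
  obtain ⟨j, h2, h3, h4⟩ := hy x
  have hj : j = 0 := by
    refine GY_unique_j h x (by rwa [GY_lo_tr]) ?_ (by rwa [GY_lo_tr, GY_sub_zero]) ?_
    · rw [GY_lo_tr] at h4 ⊢
      have : x - ((0 : ℝ), ((j + 1 : ℤ) : ℝ)) = x - (0, (j : ℝ)) - (0, 1) := by
        apply Prod.ext
        · simp
        · push_cast
          simp only [Prod.snd_sub]
          ring
      rwa [this]
    · have : ((0 + 1 : ℤ) : ℝ) = 1 := by norm_num
      rwa [this]
  subst hj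
  rw [GY_sub_zero, Int.cast_zero, zero_add] at h2
  exact h2

theorem Adj.exists_y (h : T.Adj G0 G1 p) : ∃ (y : ℝ × ℝ → ℝ) (τ : ℝ), 0 < τ ∧ τ ≤ 1 ∧
    Continuous y ∧ (∀ x, y (x + (1, 0)) = y x) ∧ (∀ x, y (x + (0, 1)) = y x + 1) ∧
    {x | y x = 0} = range G0 ∧ {x | y x = τ} = range G1 ∧
    ∀ x, (0 < y x ∧ y x < τ) → Up (range G0) x ∧ Lo (range G1) x := by
  have hH : T.Cl fun t => G0 t + ((0 : ℝ), (1 : ℝ)) := by
    have := GY_cl h.cl0 1
    rwa [Int.cast_one] at this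
  have hlt : Lt G0 fun t => G0 t + ((0 : ℝ), (1 : ℝ)) := h.cl0.lt_up
  have hcase : range G1 = range (fun t => G0 t + ((0 : ℝ), (1 : ℝ))) ∨
      Lt G1 (fun t => G0 t + ((0 : ℝ), (1 : ℝ))) := by
    rcases h.all _ hH with (hh | hh) | (hh | hh)
    · exfalso
      have := hlt.disjoint
      rw [hh] at this
      exact (disjoint_left.1 this) (mem_range_self 0) (mem_range_self 0)
    · exact absurd hh (Lt.asymm h.cl0.isLine hlt)
    · exact Or.inl hh.symm
    · exact Or.inr hh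
  rcases hcase with hcase | hcase
  · obtain ⟨ψ, hψc, hψ0, hψ1, hψn, hψl, hψb⟩ := GY_strip h.cl0 hH hlt
    obtain ⟨y, hyc, hyb, hyg, hyj⟩ := GY_glue h.cl0 ψ hψc hψ0 hψ1 hψb
    have hlev := fun x => GY_level (y := y) hψn hψl hψ1 hyj x
    have hzero : {x | y x = 0} = range G0 := by
      ext x
      constructor
      · intro hx
        have hx' : y x = 0 := hx
        obtain ⟨h2, h3, h4⟩ := hlev x ⟨hx'.ge, by rw [hx']; exact one_pos⟩
        rcases h.cl0.all.tri x with hh | hh | hh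
        · exact hh
        · exact absurd hh h3
        · exact absurd hh ((hψ0 x).1 (h2.symm.trans hx'))
      · rintro ⟨t, rfl⟩
        show y (G0 t) = 0
        rw [GY_level' h.cl0 hyj (fun hh => hh.notMem (mem_range_self t)) (hlt.2 t), hψ0]
        exact fun hh => hh.notMem (mem_range_self t)
    refine ⟨y, 1, one_pos, le_rfl, hyc, hyb, hyg, hzero, ?_, ?_⟩
    · rw [hcase, GY_range_tr, ← hzero]
      ext x
      constructor
      · intro hx
        have hx' : y x = 1 := hx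
        refine ⟨x - (0, 1), ?_, sub_add_cancel _ _⟩
        have := hyg (x - (0, 1))
        rw [sub_add_cancel, hx'] at this
        show y (x - (0, 1)) = 0
        linarith
      · rintro ⟨z, hz, rfl⟩
        have hz' : y z = 0 := hz
        show y (z + (0, 1)) = 1
        rw [hyg, hz', zero_add]
    · rintro x ⟨ha, hb⟩
      obtain ⟨h2, h3, h4⟩ := hlev x ⟨ha.le, hb⟩
      refine ⟨?_, by rw [hcase]; exact h4⟩
      by_contra hcon
      rw [(hψ0 x).2 hcon] at h2
      linarith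
  · obtain ⟨φ, hφc, hφ0, hφ1, hφn, hφl, hφb⟩ := GY_strip h.cl0 h.cl1 h.lt
    obtain ⟨χ, hχc, hχ0, hχ1, hχn, hχl, hχb⟩ := GY_strip h.cl1 hH hcase
    set ψ : ℝ × ℝ → ℝ := fun x => (φ x + χ x) / 2 with hψ
    have hψc : Continuous ψ := (hφc.add hχc).div_const 2
    have hψ0 : ∀ x, ψ x = 0 ↔ ¬ Up (range G0) x := by
      intro x
      have hn := hφn x
      have hn' := hχn x
      constructor
      · intro hx
        rw [← hφ0]
        simp only [hψ] at hx
        linarith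
      · intro hx
        have h2 : ¬ Up (range G1) x := fun hh => hx (Lt.up h.cl0.isLine h.cl1.isLine h.lt hh)
        simp only [hψ]
        rw [(hφ0 x).2 hx, (hχ0 x).2 h2]
        norm_num
    have hψ1 : ∀ x, ψ x = 1 ↔ ¬ Lo (range fun t => G0 t + ((0 : ℝ), (1 : ℝ))) x := by
      intro x
      have hn := hφl x
      have hn' := hχl x
      constructor
      · intro hx
        rw [← hχ1]
        simp only [hψ] at hx
        linarith
      · intro hx
        have h2 : ¬ Lo (range G1) x := fun hh => hx (Lt.lo h.cl1.isLine hH.isLine hcase hh)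
        simp only [hψ]
        rw [(hφ1 x).2 h2, (hχ1 x).2 hx]
        norm_num
    have hψn : ∀ x, 0 ≤ ψ x := fun x => by
      have hn := hφn x
      have hn' := hχn x
      simp only [hψ]
      linarith
    have hψl : ∀ x, ψ x ≤ 1 := fun x => by
      have hn := hφl x
      have hn' := hχl x
      simp only [hψ]
      linarith
    have hψb : ∀ x, ψ (x + (1, 0)) = ψ x := fun x => by
      simp only [hψ]
      rw [hφb, hχb]
    obtain ⟨y, hyc, hyb, hyg, hyj⟩ := GY_glue h.cl0 ψ hψc hψ0 hψ1 hψb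
    have hlev := fun x => GY_level (y := y) hψn hψl hψ1 hyj x
    -- comparison with one half
    have hhalf_lo : ∀ x, Lo (range G1) x → ψ x < 1 / 2 := by
      intro x hx
      have h2 : ¬ Up (range G1) x := fun hh => h.cl1.isLine.not_lo_up hx hh
      have h3 : φ x < 1 := lt_of_le_of_ne (hφl x) fun hh => (hφ1 x).1 hh hx
      simp only [hψ]
      rw [(hχ0 x).2 h2]
      linarith
    have hhalf_up : ∀ x, Up (range G1) x → 1 / 2 < ψ x := by
      intro x hx
      have h2 : ¬ Lo (range G1) x := fun hh => h.cl1.isLine.not_lo_up hh hx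
      have h3 : 0 < χ x := lt_of_le_of_ne (hχn x) fun hh => (hχ0 x).1 hh.symm hx
      simp only [hψ]
      rw [(hφ1 x).2 h2]
      linarith
    refine ⟨y, 1 / 2, by norm_num, by norm_num, hyc, hyb, hyg, ?_, ?_, ?_⟩
    · ext x
      constructor
      · intro hx
        have hx' : y x = 0 := hx
        obtain ⟨h2, h3, h4⟩ := hlev x ⟨hx'.ge, by rw [hx']; exact one_pos⟩
        rcases h.cl0.all.tri x with hh | hh | hh
        · exact hh
        · exact absurd hh h3
        · exact absurd hh ((hψ0 x).1 (h2.symm.trans hx'))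
      · rintro ⟨t, rfl⟩
        show y (G0 t) = 0
        rw [GY_level' h.cl0 hyj (fun hh => hh.notMem (mem_range_self t)) (hlt.2 t), hψ0]
        exact fun hh => hh.notMem (mem_range_self t)
    · ext x
      constructor
      · intro hx
        have hx' : y x = 1 / 2 := hx
        obtain ⟨h2, h3, h4⟩ := hlev x ⟨by rw [hx']; norm_num, by rw [hx']; norm_num⟩
        rcases h.cl1.all.tri x with hh | hh | hh
        · exact hh
        · have := hhalf_lo x hh
          linarith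
        · have := hhalf_up x hh
          linarith
      · rintro ⟨t, rfl⟩
        have hU : Up (range G0) (G1 t) := h.lt.1 t
        have h3 : ¬ Lo (range G0) (G1 t) := fun hh => h.cl0.isLine.not_lo_up hh hU
        show y (G1 t) = 1 / 2
        rw [GY_level' h.cl0 hyj h3 (hcase.2 t)]
        simp only [hψ]
        rw [(hφ1 _).2 (fun hh => hh.notMem (mem_range_self t)),
          (hχ0 _).2 (fun hh => hh.notMem (mem_range_self t)), add_zero]
    · rintro x ⟨ha, hb⟩
      obtain ⟨h2, h3, h4⟩ := hlev x ⟨ha.le, by linarith⟩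
      constructor
      · by_contra hcon
        rw [(hψ0 x).2 hcon] at h2
        linarith
      · rcases h.cl1.all.tri x with hh | hh | hh
        · obtain ⟨t, rfl⟩ := hh
          exfalso
          have h5 : ψ (G1 t) = 1 / 2 := by
            simp only [hψ]
            rw [(hφ1 _).2 (fun hh => hh.notMem (mem_range_self t)),
              (hχ0 _).2 (fun hh => hh.notMem (mem_range_self t)), add_zero]
          linarith
        · exact hh
        · have := hhalf_up x hh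
          linarith

end Pl

end Pool.Agent.EscV
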