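import Pool.Agent.EscG.FnDefs
import Pool.Agent.EscV.GOut

set_option autoImplicit false

/-!
# Project EscV: Finsler metrics on a lattice plane which need not be reversible, definitions

After `Pool.Agent.EscG.FnDefs`; `Cuts`, `rg`, `cdist`, `Reg`, `FGeo`, `GapF` are those of `Pool.Agent.EscG`.
-/

noncomputable section

namespace Pool.Agent.EscV

open MeasureTheory Set Filter Topology Esc EscF _root_.EscG
open Pool.Agent.EscG
open scoped ContDiff

variable {E : Type*} [NormedAddCommGroup E] [InnerProductSpace ℝ E]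

/-- Finsler metrics of class `C^2` off the zero section, not reversible in general: positively homogeneous, positive,
periodic under the lattice with basis `β`, and `F²` has positive definite second derivative in the velocity -/
structure IsFins2 (β : Module.Basis (Fin 2) ℝ E) (F : E → E → ℝ) : Prop where
  smooth : ContDiffOn ℝ 2 (fun p : E × E => F p.1 p.2) {p | p.2 ≠ 0}
  pos : ∀ x v, v ≠ 0 → 0 < F x v
  hom : ∀ x v (c : ℝ), 0 ≤ c → F x (c • v) = c * F x v
  per : ∀ i x v, F (x + β i) v = F x v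
  conv : ∀ x v w, v ≠ 0 → w ≠ 0 → 0 < fderiv ℝ (fderiv ℝ (fun z => F x z ^ 2)) v w w

/-- quantitative form of `IsFins2` -/
structure NFins (β : Module.Basis (Fin 2) ℝ E) (F : E → E → ℝ) (mF MF m : ℝ) : Prop where
  fins : Fins β F mF MF
  m_pos : 0 < m
  smooth : ContDiffOn ℝ 2 (fun p : E × E => F p.1 p.2) {p | p.2 ≠ 0}
  hess : ∀ x v w, v ≠ 0 → m * ‖w‖ ^ 2 ≤ fderiv ℝ (fderiv ℝ (fun z => F x z ^ 2 / 2)) v w w

/-- `Z` is a minimal segment on `[a,c]` for the energy distance of `F` -/
def FIso (F : E → E → ℝ) (Z : ℝ → E) (a c : ℝ) : Prop :=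
  ∀ s ∈ Icc a c, ∀ t ∈ Icc a c, s ≤ t → fd F (Z s) (Z t) = t - s

end Pool.Agent.EscV
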