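import Pool.Agent.EscV.GBus

set_option autoImplicit false

/-!
# EscG geometry: lines calibrated by all subsolutions
-/

noncomputable section

open Set Filter Topology

namespace Pool.Agent.EscV

open Pool.Agent.EscG

namespace Pl

variable {T : Pl}

theorem exists_sub (T : Pl) : ∃ G, T.Cl G := by
  obtain ⟨x, hx⟩ := T.l_att
  obtain ⟨G, hG, -⟩ := T.exists_cl (x := x) hx
  exact ⟨G, hG⟩

/-- a minimal segment which meets a calibrated line twice, in increasing order, is contained in it -/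
theorem GAll_hit {B : ℝ × ℝ → ℝ} (hB : ∀ x y, B y - B x ≤ T.d x y) {P σ : ℝ → ℝ × ℝ}
    (hP : T.CalOn B P univ) {a c t1 t2 s1 s2 : ℝ} (hσ : IsoOn T.d σ (Icc a c))
    (h1 : t1 ∈ Icc a c) (h2 : t2 ∈ Icc a c) (h12 : t1 < t2) (m1 : σ t1 = P s1) (m2 : σ t2 = P s2)
    (hs : s1 < s2) : ∀ t ∈ Icc a c, σ t = P (s1 - t1 + t) := by
  have hPi : IsoOn T.d P univ := CalOn.iso hB hP
  have e1 : t2 - t1 = s2 - s1 := by
    have a1 := hσ t1 h1 t2 h2 h12.le
    have a2 := hPi s1 (mem_univ _) s2 (mem_univ _) hs.le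
    rw [m1, m2, a2] at a1
    linarith
  have hcal : T.CalOn B (fun t => σ (t1 + t)) (Icc 0 (t2 - t1)) := by
    have hin : ∀ t ∈ Icc 0 (t2 - t1), t1 + t ∈ Icc a c := fun t ht =>
      ⟨by linarith [h1.1, ht.1], by linarith [h2.2, ht.2]⟩
    have hval : ∀ t ∈ Icc 0 (t2 - t1), B (σ (t1 + t)) = B (P s1) + t := by
      intro t ht
      have b1 : B (σ (t1 + t)) - B (P s1) ≤ t := by
        have c1 := hB (σ t1) (σ (t1 + t))
        rw [hσ t1 h1 (t1 + t) (hin t ht) (by linarith [ht.1]), m1] at c1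
        linarith
      have b2 : B (P s2) - B (σ (t1 + t)) ≤ t2 - t1 - t := by
        have c1 := hB (σ (t1 + t)) (σ t2)
        rw [hσ (t1 + t) (hin t ht) t2 h2 (by linarith [ht.2]), m2] at c1
        linarith
      have b3 : B (P s2) - B (P s1) = s2 - s1 := hP.2 s2 (mem_univ _) s1 (mem_univ _)
      linarith
    refine ⟨?_, ?_⟩
    · intro t ht u hu htu
      have c1 := hσ (t1 + t) (hin t ht) (t1 + u) (hin u hu) (by linarith)
      rw [show t1 + u - (t1 + t) = u - t by ring] at c1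
      exact c1.le
    · intro t ht u hu
      show B (σ (t1 + t)) - B (σ (t1 + u)) = t - u
      rw [hval t ht, hval u hu]
      ring
  have hfw : ∀ t ∈ Icc 0 (t2 - t1), σ (t1 + t) = P (s1 + t) :=
    nb_fwd hB (by linarith) hP hcal (by
      show σ (t1 + 0) = P s1
      rw [add_zero]
      exact m1)
  have hmid : ∀ t ∈ Icc t1 t2, σ t = P (s1 - t1 + t) := by
    intro t ht
    have c1 := hfw (t - t1) ⟨by linarith [ht.1], by linarith [ht.2]⟩
    rw [show t1 + (t - t1) = t by ring, show s1 + (t - t1) = s1 - t1 + t by ring] at c1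
    exact c1
  have hright : ∀ t ∈ Icc t1 c, σ t = P (s1 - t1 + t) := by
    refine T.nb σ (fun t => P (s1 - t1 + t)) t1 t2 c h12 h2.2 ?_ ?_ hmid
    · intro t ht u hu htu
      exact hσ t ⟨le_trans h1.1 ht.1, ht.2⟩ u ⟨le_trans h1.1 hu.1, hu.2⟩ htu
    · intro t _ u _ htu
      show T.d (P (s1 - t1 + t)) (P (s1 - t1 + u)) = u - t
      rw [hPi _ (mem_univ _) _ (mem_univ _) (by linarith)]
      ring
  have hleft : ∀ t ∈ Icc a t2, σ t = P (s1 - t1 + t) := by
    refine T.nb' σ (fun t => P (s1 - t1 + t)) a t1 t2 h1.1 h12 ?_ ?_ hmid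
    · intro t ht u hu htu
      exact hσ t ⟨ht.1, le_trans ht.2 h2.2⟩ u ⟨hu.1, le_trans hu.2 h2.2⟩ htu
    · intro t _ u _ htu
      show T.d (P (s1 - t1 + t)) (P (s1 - t1 + u)) = u - t
      rw [hPi _ (mem_univ _) _ (mem_univ _) (by linarith)]
      ring
  intro t ht
  rcases le_total t1 t with h | h
  · exact hright t ⟨h, ht.2⟩
  · exact hleft t ⟨ht.1, by linarith⟩

/-- a calibrated curve is continuous -/
theorem CalOn.GAll_continuousOn {B : ℝ × ℝ → ℝ} {P : ℝ → ℝ × ℝ} {s : Set ℝ}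
    (h : T.CalOn B P s) : ContinuousOn P s := by
  have hm : 0 ≤ T.m⁻¹ := inv_nonneg.2 T.m_pos.le
  refine LipschitzOnWith.continuousOn (K := ⟨T.m⁻¹, hm⟩) ?_
  refine LipschitzOnWith.of_dist_le_mul ?_
  intro x hx y hy
  rw [dist_eq_norm, Real.dist_eq]
  show ‖P x - P y‖ ≤ T.m⁻¹ * |x - y|
  rcases le_total x y with hxy | hxy
  · rw [abs_sub_comm, abs_of_nonneg (sub_nonneg.2 hxy)]
    exact T.lip_of (h.1 x hx y hy hxy)
  · rw [norm_sub_rev, abs_of_nonneg (sub_nonneg.2 hxy)]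
    exact T.lip_of (h.1 y hy x hx hxy)

/-- translates upwards are above: they are disjoint (otherwise equal by `cal_meet` with `B = bus G`,
impossible since `G` stays at bounded height) and `lt_translate` applies -/
theorem Cl.lt_up {G : ℝ → ℝ × ℝ} (h : T.Cl G) : Lt G (fun t => G t + (0, 1)) := by
  refine lt_translate h.isLine T.l_pos h.2 ?_
  by_contra hd
  have hsub := h.bus_sub
  have hcal := h.all _ hsub
  have hcl' : T.Cl (fun t => G t + ((0 : ℝ), (1 : ℝ))) := by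
    have a1 := h.translate 0 1
    simpa using a1
  have hcal' := hcl'.all _ hsub
  rw [Set.not_disjoint_iff] at hd
  obtain ⟨z, ⟨s, hs⟩, ⟨s', hs'⟩⟩ := hd
  have hm := cal_meet hsub.1 hcal hcal' (s := s) (s' := s') (by rw [hs]; exact hs')
  have hm2 : ∀ u, G (u + (s - s')) = G u + (0, 1) := by
    intro u
    have a1 := hm (u - s')
    have a2 : G (s' + (u - s')) + ((0 : ℝ), (1 : ℝ)) = G (s + (u - s')) := a1
    rw [show s' + (u - s') = u by ring, show s + (u - s') = u + (s - s') by ring] at a2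
    exact a2.symm
  have hm3 : ∀ n : ℕ, (G (n * (s - s'))).2 = (G 0).2 + n := by
    intro n
    induction n with
    | zero => simp
    | succ n ih =>
      have a1 := hm2 (n * (s - s'))
      rw [show ((n + 1 : ℕ) : ℝ) * (s - s') = n * (s - s') + (s - s') by push_cast; ring, a1,
        Prod.snd_add, ih]
      push_cast
      ring
  obtain ⟨C, -, hC⟩ := h.ul
  obtain ⟨n, hn⟩ := exists_nat_gt (C - (G 0).2)
  have a1 := (hC (n * (s - s'))).2
  rw [hm3 n] at a1
  have a2 := le_abs_self ((G 0).2 + n)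
  linarith

theorem GAll_cl_j {G : ℝ → ℝ × ℝ} (h : T.Cl G) (j : ℤ) :
    T.Cl (fun t => G t + ((0 : ℝ), (j : ℝ))) := by
  have a1 := h.translate 0 j
  simpa using a1

theorem Cl.lt_up_nat {G : ℝ → ℝ × ℝ} (h : T.Cl G) {j k : ℤ} (hjk : j < k) :
    Lt (fun t => G t + ((0 : ℝ), (j : ℝ))) (fun t => G t + ((0 : ℝ), (k : ℝ))) := by
  have key : ∀ n : ℕ, Lt (fun t => G t + ((0 : ℝ), (j : ℝ)))
      (fun t => G t + ((0 : ℝ), ((j + (n + 1 : ℕ) : ℤ) : ℝ))) := by
    have step : ∀ i : ℤ, Lt (fun t => G t + ((0 : ℝ), (i : ℝ)))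
        (fun t => G t + ((0 : ℝ), ((i + 1 : ℤ) : ℝ))) := by
      intro i
      have a1 := (GAll_cl_j h i).lt_up
      have a2 : (fun t => G t + ((0 : ℝ), (i : ℝ)) + ((0 : ℝ), (1 : ℝ))) =
          (fun t => G t + ((0 : ℝ), ((i + 1 : ℤ) : ℝ))) := by
        funext t
        refine Prod.ext ?_ ?_
        · simp
        · simp only [Prod.snd_add]
          push_cast
          ring
      rw [a2] at a1
      exact a1
    intro n
    induction n with
    | zero => simpa using step j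
    | succ n ih =>
      have a1 := step (j + (n + 1 : ℕ))
      have a2 : (j + (n + 1 : ℕ) : ℤ) + 1 = j + (n + 1 + 1 : ℕ) := by
        push_cast
        ring
      rw [a2] at a1
      exact Lt.trans (GAll_cl_j h _).isLine (GAll_cl_j h _).isLine (GAll_cl_j h _).isLine ih a1
  obtain ⟨n, hn⟩ : ∃ n : ℕ, k = j + (n + 1 : ℕ) := by
    refine ⟨(k - j - 1).toNat, ?_⟩
    have : ((k - j - 1).toNat : ℤ) = k - j - 1 := Int.toNat_of_nonneg (by omega)
    push_cast
    omega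
  rw [hn]
  exact key n

theorem cal_ul_aux (T : Pl) (K : ℝ) : ∃ C : ℝ, ∀ B, T.Sub B →
    (∀ R : ℝ → ℝ × ℝ, T.CalOn B R (Iic 0) → ‖R 0‖ ≤ K →
      ∀ t ≤ 0, |(R t).1 - 1 / T.l * t| ≤ C ∧ |(R t).2| ≤ C) ∧
    (∀ R : ℝ → ℝ × ℝ, T.CalOn B R (Ici 0) → ‖R 0‖ ≤ K →
      ∀ t, 0 ≤ t → |(R t).1 - 1 / T.l * t| ≤ C ∧ |(R t).2| ≤ C) := by
  obtain ⟨G, hG⟩ := exists_sub T
  obtain ⟨CG, -, hCG⟩ := hG.ul
  obtain ⟨J, hJ⟩ := exists_nat_gt (CG + |K| + 1)
  have hl := T.l_pos
  have hM := T.M_pos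
  have hK := le_abs_self K
  have hK0 := abs_nonneg K
  have hCG0 : 0 ≤ CG := le_trans (abs_nonneg _) (hCG 0).2
  set H : ℝ := CG + J with hH
  have hHpos : 0 ≤ H := by
    have : (0 : ℝ) ≤ J := Nat.cast_nonneg J
    linarith
  -- the final constant
  set E : ℝ := T.M * (H + 1) + T.l + T.M * |K| with hE
  have hE0 : 0 ≤ E := by positivity
  refine ⟨E / T.l + H, ?_⟩
  intro B hB
  -- from the height to the bounds
  have fin : ∀ x0 x : ℝ × ℝ, ∀ t : ℝ, ‖x0‖ ≤ K → B x - B x0 = t → |x.2| ≤ H →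
      |x.1 - 1 / T.l * t| ≤ E / T.l + H ∧ |x.2| ≤ E / T.l + H := by
    intro x0 x t h0 ht hx
    have hdiv : 0 ≤ E / T.l := div_nonneg hE0 hl.le
    refine ⟨?_, by linarith⟩
    have a1 := hB.growth T x
    have a2 : |B x0 - B 0| ≤ T.M * |K| := by
      have b1 := T.abs_sub_le hB.1 0 x0
      rw [zero_sub, norm_neg] at b1
      have b3 : T.M * ‖x0‖ ≤ T.M * |K| := mul_le_mul_of_nonneg_left (by linarith) hM.le
      linarith
    have a3 : T.M * (|x.2| + 1) ≤ T.M * (H + 1) :=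
      mul_le_mul_of_nonneg_left (by linarith) hM.le
    have a4 : |T.l * x.1 - t| ≤ E := by
      rw [abs_le] at a1 a2 ⊢
      constructor
      · linarith [a1.1, a1.2, a2.1, a2.2]
      · linarith [a1.1, a1.2, a2.1, a2.2]
    have a5 : x.1 - 1 / T.l * t = (T.l * x.1 - t) / T.l := by
      field_simp
    rw [a5, abs_div, abs_of_pos hl]
    have a6 : |T.l * x.1 - t| / T.l ≤ E / T.l := div_le_div_of_nonneg_right a4 hl.le
    linarith
  -- position of the initial point and of high points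
  have hx2 : ∀ x : ℝ × ℝ, |x.2| ≤ ‖x‖ := fun x => norm_snd_le x
  have low : ∀ x : ℝ × ℝ, ‖x‖ ≤ K → Lo (range fun t => G t + ((0 : ℝ), ((J : ℤ) : ℝ))) x := by
    intro x hx
    refine lo_far ?_
    rintro z ⟨t, rfl⟩
    have b1 := abs_le.1 (hCG t).2
    have b2 := abs_le.1 (le_trans (hx2 x) hx)
    show x.2 < (G t).2 + ((J : ℤ) : ℝ)
    push_cast
    linarith [b1.1, b2.2]
  have upp : ∀ x : ℝ × ℝ, ‖x‖ ≤ K → Up (range fun t => G t + ((0 : ℝ), ((-(J : ℤ) : ℤ) : ℝ))) x := by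
    intro x hx
    refine up_far ?_
    rintro z ⟨t, rfl⟩
    have b1 := abs_le.1 (hCG t).2
    have b2 := abs_le.1 (le_trans (hx2 x) hx)
    show (G t).2 + ((-(J : ℤ) : ℤ) : ℝ) < x.2
    push_cast
    linarith [b1.2, b2.1]
  have low' : ∀ x : ℝ × ℝ, x.2 < -H → Lo (range fun t => G t + ((0 : ℝ), ((-(J : ℤ) : ℤ) : ℝ))) x := by
    intro x hx
    refine lo_far ?_
    rintro z ⟨t, rfl⟩
    have b1 := abs_le.1 (hCG t).2
    show x.2 < (G t).2 + ((-(J : ℤ) : ℤ) : ℝ)
    push_cast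
    linarith [b1.1]
  have upp' : ∀ x : ℝ × ℝ, H < x.2 → Up (range fun t => G t + ((0 : ℝ), ((J : ℤ) : ℝ))) x := by
    intro x hx
    refine up_far ?_
    rintro z ⟨t, rfl⟩
    have b1 := abs_le.1 (hCG t).2
    show (G t).2 + ((J : ℤ) : ℝ) < x.2
    push_cast
    linarith [b1.2]
  have cJ := GAll_cl_j hG (J : ℤ)
  have cJ' := GAll_cl_j hG (-(J : ℤ))
  refine ⟨?_, ?_⟩
  · intro R hR h0 t ht
    refine fin (R 0) (R t) t h0 ?_ ?_
    · have b1 := hR.2 t ht 0 (mem_Iic.2 le_rfl)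
      linarith
    · have hcont : ContinuousOn R (Icc t 0) :=
        hR.GAll_continuousOn.mono fun u hu => hu.2
      rw [abs_le]
      constructor
      · by_contra hcon
        obtain ⟨u, hu, hu'⟩ := curve_meets cJ'.isLine ht hcont (low' (R t) (not_le.1 hcon))
          (upp (R 0) h0)
        exact (upp (R 0) h0).notMem (ray_avoid hB.1 hu.2 (cJ'.all B hB) hR hu')
      · by_contra hcon
        obtain ⟨u, hu, hu'⟩ := curve_meets' cJ.isLine ht hcont (upp' (R t) (not_le.1 hcon))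
          (low (R 0) h0)
        exact (low (R 0) h0).notMem (ray_avoid hB.1 hu.2 (cJ.all B hB) hR hu')
  · intro R hR h0 t ht
    refine fin (R 0) (R t) t h0 ?_ ?_
    · have b1 := hR.2 t ht 0 (mem_Ici.2 le_rfl)
      linarith
    · have hcont : ContinuousOn R (Icc 0 t) :=
        hR.GAll_continuousOn.mono fun u hu => hu.1
      rw [abs_le]
      constructor
      · by_contra hcon
        obtain ⟨u, hu, hu'⟩ := curve_meets' cJ'.isLine ht hcont (upp (R 0) h0)
          (low' (R t) (not_le.1 hcon))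
        exact (upp (R 0) h0).notMem (ray_avoid' hB.1 hu.1 (cJ'.all B hB) hR hu')
      · by_contra hcon
        obtain ⟨u, hu, hu'⟩ := curve_meets cJ.isLine ht hcont (low (R 0) h0)
          (upp' (R t) (not_le.1 hcon))
        exact (low (R 0) h0).notMem (ray_avoid' hB.1 hu.1 (cJ.all B hB) hR hu')

theorem CalOn.GAll_mono {B : ℝ × ℝ → ℝ} {P : ℝ → ℝ × ℝ} {s s' : Set ℝ} (h : T.CalOn B P s)
    (hs : s' ⊆ s) : T.CalOn B P s' :=
  ⟨fun t ht u hu htu => h.1 t (hs ht) u (hs hu) htu, fun t ht u hu => h.2 t (hs ht) u (hs hu)⟩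

/-- a line calibrated by one `B` with `Sub B`, which avoids all translates `G + (0, j)` of a closed
line, or is one of them, stays at bounded height, uniformly. Proof: if it meets `G + (0,j)` it has the
same range (`cal_meet_range`); otherwise it is trapped between two translates (`curve_meets`), chosen
with `P 0` in between: `j` large depending only on the bound of `P 0`. The first coordinate is
controlled by `Sub.growth` for `B`. -/
theorem cal_ul (T : Pl) (K : ℝ) : ∃ C, ∀ B, T.Sub B → ∀ P : ℝ → ℝ × ℝ, T.CalOn B P univ →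
    ‖P 0‖ ≤ K → UL (1 / T.l) C P := by
  obtain ⟨C, hC⟩ := cal_ul_aux T K
  refine ⟨C, ?_⟩
  intro B hB P hP h0
  refine ⟨continuousOn_univ.1 hP.GAll_continuousOn, ?_⟩
  intro t
  rcases le_total t 0 with ht | ht
  · exact (hC B hB).1 P (hP.GAll_mono (subset_univ _)) h0 t ht
  · exact (hC B hB).2 P (hP.GAll_mono (subset_univ _)) h0 t ht

theorem cal_isLine {B : ℝ × ℝ → ℝ} (hB : T.Sub B) {P : ℝ → ℝ × ℝ} (hP : T.CalOn B P univ) :
    IsLine P := by
  obtain ⟨C, hC⟩ := cal_ul T ‖P 0‖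
  exact ⟨1 / T.l, C, one_div_pos.2 T.l_pos, hC B hB P hP le_rfl⟩

/-- the same for half lines: with `R 0 = x`, there is `C` with the bounds of `UL` on `Iic 0` -/
theorem ray_ul {B : ℝ × ℝ → ℝ} (hB : T.Sub B) {R : ℝ → ℝ × ℝ} (hR : T.CalOn B R (Iic 0)) :
    ∃ C, ∀ t ≤ 0, |(R t).1 - 1 / T.l * t| ≤ C ∧ |(R t).2| ≤ C := by
  obtain ⟨C, hC⟩ := cal_ul_aux T ‖R 0‖
  exact ⟨C, (hC B hB).1 R hR le_rfl⟩

theorem ray_ul' {B : ℝ × ℝ → ℝ} (hB : T.Sub B) {R : ℝ → ℝ × ℝ} (hR : T.CalOn B R (Ici 0)) :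
    ∃ C, ∀ t, 0 ≤ t → |(R t).1 - 1 / T.l * t| ≤ C ∧ |(R t).2| ≤ C := by
  obtain ⟨C, hC⟩ := cal_ul_aux T ‖R 0‖
  exact ⟨C, (hC B hB).2 R hR le_rfl⟩

theorem GAll_cases {B : ℝ × ℝ → ℝ} (hB : T.Sub B) {P Q : ℝ → ℝ × ℝ} (hP : T.CalOn B P univ)
    (hQ : T.CalOn B Q univ) : range P = range Q ∨ Lt P Q ∨ Lt Q P := by
  by_cases hd : Disjoint (range P) (range Q)
  · exact Or.inr (lt_or_gt (cal_isLine hB hP) (cal_isLine hB hQ) hd)
  · exact Or.inl (cal_meet_range hB.1 hP hQ hd)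

/-- two closed lines coincide or are ordered -/
theorem Cl.cases {G H : ℝ → ℝ × ℝ} (h : T.Cl G) (h' : T.Cl H) :
    range G = range H ∨ Lt G H ∨ Lt H G :=
  GAll_cases h.bus_sub (h.all _ h.bus_sub) (h'.all _ h.bus_sub)

theorem All.isLine {P : ℝ → ℝ × ℝ} (hP : T.All P) : IsLine P := by
  obtain ⟨G, hG⟩ := exists_sub T
  exact cal_isLine hG.bus_sub (hP _ hG.bus_sub)

theorem All.ul (T : Pl) (K : ℝ) : ∃ C, ∀ P : ℝ → ℝ × ℝ, T.All P → ‖P 0‖ ≤ K →
    UL (1 / T.l) C P := by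
  obtain ⟨G, hG⟩ := exists_sub T
  obtain ⟨C, hC⟩ := cal_ul T K
  exact ⟨C, fun P hP h0 => hC _ hG.bus_sub P (hP _ hG.bus_sub) h0⟩

theorem All.shift {P : ℝ → ℝ × ℝ} (hP : T.All P) (s : ℝ) : T.All (fun t => P (t + s)) := by
  intro B hB
  refine ⟨?_, ?_⟩
  · intro t _ u _ htu
    have a1 := (hP B hB).1 (t + s) (mem_univ _) (u + s) (mem_univ _) (by linarith)
    rw [show u + s - (t + s) = u - t by ring] at a1
    exact a1
  · intro t _ u _
    have a1 := (hP B hB).2 (t + s) (mem_univ _) (u + s) (mem_univ _)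
    rw [show t + s - (u + s) = t - u by ring] at a1
    exact a1

theorem All.translate {P : ℝ → ℝ × ℝ} (hP : T.All P) (i : ℤ) :
    T.All (fun t => P t + ((i : ℝ), 0)) := by
  intro B hB
  refine ⟨?_, ?_⟩
  · intro t ht u hu htu
    have a1 := (hP B hB).1 t ht u hu htu
    have a2 := T.per i 0 (P t) (P u)
    rw [Int.cast_zero] at a2
    show T.d (P t + ((i : ℝ), 0)) (P u + ((i : ℝ), 0)) ≤ u - t
    rw [a2]
    exact a1
  · intro t ht u hu
    have a1 := (hP B hB).2 t ht u hu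
    show B (P t + ((i : ℝ), 0)) - B (P u + ((i : ℝ), 0)) = t - u
    rw [hB.int, hB.int]
    linarith

/-- two lines in `All` coincide or are ordered -/
theorem All.cases {P Q : ℝ → ℝ × ℝ} (h : T.All P) (h' : T.All Q) :
    range P = range Q ∨ Lt P Q ∨ Lt Q P := by
  obtain ⟨G, hG⟩ := exists_sub T
  exact GAll_cases hG.bus_sub (h _ hG.bus_sub) (h' _ hG.bus_sub)

/-- **trichotomy**. Let `x ∉ range P`, `G` a closed line. Let `R` be a backward ray from `x` for
`bus G` and `F` a forward ray for `fus G`; both avoid `P` (`ray_avoid`, `ray_avoid'`), and `R`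
followed by `F` is a line (`ray_ul`, `ray_ul'`), disjoint from `P`, through `x`; use `lt_or_gt`. -/
theorem All.tri {P : ℝ → ℝ × ℝ} (h : T.All P) (x : ℝ × ℝ) :
    x ∈ range P ∨ Lo (range P) x ∨ Up (range P) x := by
  obtain ⟨G, hG⟩ := exists_sub T
  by_cases hx : x ∈ range P
  · exact Or.inl hx
  right
  obtain ⟨R, hR0, hR⟩ := hG.bus_ray x
  obtain ⟨F, hF0, hF⟩ := hG.fus_ray x
  obtain ⟨C1, hC1⟩ := ray_ul hG.bus_sub hR
  obtain ⟨C2, hC2⟩ := ray_ul' hG.fus_sub hF
  have hlip := T.paste (P := R) (Q := F) (c := 0)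
    (fun s t hst ht => hR.1 s (mem_Iic.2 (le_trans hst ht)) t (mem_Iic.2 ht) hst)
    (fun s t hs hst => hF.1 s (mem_Ici.2 hs) t (mem_Ici.2 (le_trans hs hst)) hst) (by rw [hR0, hF0])
  have hW : IsLine (fun t => if t ≤ 0 then R t else F t) := by
    refine ⟨1 / T.l, max C1 C2, one_div_pos.2 T.l_pos, ?_, ?_⟩
    · exact hlip.cont
    · intro t
      by_cases ht : t ≤ 0
      · have a1 := hC1 t ht
        simp only [if_pos ht]
        exact ⟨le_trans a1.1 (le_max_left _ _), le_trans a1.2 (le_max_left _ _)⟩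
      · have a1 := hC2 t (not_le.1 ht).le
        simp only [if_neg ht]
        exact ⟨le_trans a1.1 (le_max_right _ _), le_trans a1.2 (le_max_right _ _)⟩
  have hdis : Disjoint (range P) (range fun t => if t ≤ 0 then R t else F t) := by
    rw [Set.disjoint_right]
    rintro z ⟨t, rfl⟩ hz
    by_cases ht : t ≤ 0
    · simp only [if_pos ht] at hz
      have a1 := ray_avoid hG.bus_sub.1 ht (h _ hG.bus_sub) hR hz
      rw [hR0] at a1
      exact hx a1
    · simp only [if_neg ht] at hz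
      have a1 := ray_avoid' hG.fus_sub.1 (not_le.1 ht).le (h _ hG.fus_sub) hF hz
      rw [hF0] at a1
      exact hx a1
  have hWx : (fun t : ℝ => if t ≤ 0 then R t else F t) 0 = x := by
    simp only [if_pos (le_refl (0 : ℝ))]
    exact hR0
  rcases lt_or_gt h.isLine hW hdis with hlt | hlt
  · right
    have a1 := hlt.1 0
    rw [hWx] at a1
    exact a1
  · left
    have a1 := hlt.2 0
    rw [hWx] at a1
    exact a1

end Pl

end Pool.Agent.EscV
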