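import Pool.Agent.EscV.GDefs

set_option autoImplicit false

/-!
# EscG geometry: elementary facts on a distance `Pl`
-/

noncomputable section

open Set Filter Topology

namespace Pool.Agent.EscV

open Pool.Agent.EscG

namespace Pl

variable (T : Pl)

theorem d_nonneg (x y : ℝ × ℝ) : 0 ≤ T.d x y :=
  (mul_nonneg T.m_pos.le (norm_nonneg _)).trans (T.low x y)

theorem d_self (x : ℝ × ℝ) : T.d x x = 0 := by
  refine le_antisymm ?_ (T.d_nonneg x x)
  simpa using T.upp x x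

theorem M_pos : 0 < T.M := by
  have h1 := T.low (1, 0) (0, 0)
  have h2 := T.upp (1, 0) (0, 0)
  have h3 : ‖((1, 0) : ℝ × ℝ) - (0, 0)‖ = 1 := by simp [Prod.norm_def]
  rw [h3, mul_one] at h1 h2
  linarith [T.m_pos]

theorem abs_d_sub_le (x y x' y' : ℝ × ℝ) :
    |T.d x y - T.d x' y'| ≤ T.M * ‖x - x'‖ + T.M * ‖y - y'‖ := by
  have h1 := T.upp x x'
  have h2 := T.upp y y'
  have h3 := T.upp x' x
  have h4 := T.upp y' y
  rw [norm_sub_rev] at h3 h4
  rw [abs_le]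
  constructor
  · have := T.tri x' x y'
    have := T.tri x y y'
    linarith
  · have := T.tri x x' y
    have := T.tri x' y' y
    linarith

theorem cont : Continuous fun p : (ℝ × ℝ) × (ℝ × ℝ) => T.d p.1 p.2 := by
  have hM := T.M_pos.le
  have : LipschitzWith (Real.toNNReal (2 * T.M)) fun p : (ℝ × ℝ) × (ℝ × ℝ) => T.d p.1 p.2 := by
    apply LipschitzWith.of_dist_le_mul
    intro p q
    rw [Real.coe_toNNReal _ (by positivity), Real.dist_eq]
    refine (T.abs_d_sub_le p.1 p.2 q.1 q.2).trans ?_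
    have h1 : ‖p.1 - q.1‖ ≤ dist p q := by
      rw [dist_eq_norm]; exact norm_fst_le (p - q)
    have h2 : ‖p.2 - q.2‖ ≤ dist p q := by
      rw [dist_eq_norm]; exact norm_snd_le (p - q)
    nlinarith
  exact this.continuous

theorem eq_of_d {x y : ℝ × ℝ} (h : T.d x y ≤ 0) : x = y := by
  have h1 := (T.low x y).trans h
  have h2 : ‖x - y‖ ≤ 0 := by
    by_contra hc
    push Not at hc
    nlinarith [T.m_pos, mul_pos T.m_pos hc]
  exact sub_eq_zero.1 (norm_le_zero_iff.1 h2)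

/-- 1-Lipschitz curves for `d` are Lipschitz -/
theorem lip_of {P : ℝ → ℝ × ℝ} {s t : ℝ} (h : T.d (P s) (P t) ≤ t - s) :
    ‖P s - P t‖ ≤ T.m⁻¹ * (t - s) := by
  rw [← div_eq_inv_mul, le_div_iff₀ T.m_pos, mul_comm]
  exact (T.low _ _).trans h

theorem Lp.lip {T : Pl} {P : ℝ → ℝ × ℝ} (h : T.Lp P) (s t : ℝ) : ‖P s - P t‖ ≤ T.m⁻¹ * |s - t| := by
  rcases le_total s t with hst | hst
  · rw [abs_sub_comm, abs_of_nonneg (by linarith)]
    exact T.lip_of (h s t hst)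
  · rw [norm_sub_rev, abs_of_nonneg (by linarith)]
    exact T.lip_of (h t s hst)

theorem Lp.cont {T : Pl} {P : ℝ → ℝ × ℝ} (h : T.Lp P) : Continuous P := by
  have hm : 0 < T.m⁻¹ := inv_pos.2 T.m_pos
  have : LipschitzWith (Real.toNNReal T.m⁻¹) P := by
    apply LipschitzWith.of_dist_le_mul
    intro x y
    rw [Real.coe_toNNReal _ hm.le, Real.dist_eq, dist_eq_norm]
    exact h.lip x y
  exact this.continuous

theorem l_le (x : ℝ × ℝ) : T.l ≤ T.d x (x + (1, 0)) :=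
  ciInf_le (f := fun x : ℝ × ℝ => T.d x (x + (1, 0)))
    ⟨0, by rintro _ ⟨y, rfl⟩; exact T.d_nonneg _ _⟩ x

theorem per_x (i j : ℤ) (x v : ℝ × ℝ) :
    T.d (x + ((i : ℝ), (j : ℝ))) (x + ((i : ℝ), (j : ℝ)) + v) = T.d x (x + v) := by
  rw [add_right_comm x _ v]
  exact T.per i j x (x + v)

/-- the minimum is attained (continuity, periodicity, compactness) -/
theorem l_att : ∃ x, T.d x (x + (1, 0)) = T.l := by
  have hc : Continuous fun x : ℝ × ℝ => T.d x (x + (1, 0)) :=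
    T.cont.comp (continuous_id.prodMk (continuous_id.add continuous_const))
  have hK : IsCompact (Icc (0 : ℝ × ℝ) 1) := isCompact_Icc
  obtain ⟨x0, _, hx0⟩ := hK.exists_isMinOn ⟨0, by simp⟩ hc.continuousOn
  refine ⟨x0, le_antisymm ?_ (T.l_le x0)⟩
  refine le_ciInf fun x => ?_
  let x' : ℝ × ℝ := (Int.fract x.1, Int.fract x.2)
  have hx' : x' ∈ Icc (0 : ℝ × ℝ) 1 :=
    ⟨⟨Int.fract_nonneg _, Int.fract_nonneg _⟩, ⟨(Int.fract_lt_one _).le, (Int.fract_lt_one _).le⟩⟩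
  have e : x = x' + (((⌊x.1⌋ : ℤ) : ℝ), ((⌊x.2⌋ : ℤ) : ℝ)) :=
    Prod.ext (Int.fract_add_floor x.1).symm (Int.fract_add_floor x.2).symm
  have h := hx0 hx'
  simp only [Set.mem_ofPred_eq] at h
  rw [e, T.per_x]
  exact h

theorem l_pos : 0 < T.l := by
  obtain ⟨x, hx⟩ := T.l_att
  rw [← hx]
  have h := T.low x (x + (1, 0))
  have h3 : ‖x - (x + ((1, 0) : ℝ × ℝ))‖ = 1 := by simp [Prod.norm_def]
  rw [h3, mul_one] at h
  linarith [T.m_pos]

theorem isClosed_D : IsClosed T.D := by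
  have hc : Continuous fun x : ℝ × ℝ => T.d x (x + (1, 0)) :=
    T.cont.comp (continuous_id.prodMk (continuous_id.add continuous_const))
  exact isClosed_eq hc continuous_const

theorem abs_sub_le {B : ℝ × ℝ → ℝ} (hB : ∀ x y, B y - B x ≤ T.d x y) (x y : ℝ × ℝ) :
    |B y - B x| ≤ T.M * ‖x - y‖ := by
  rw [abs_le]
  have h1 := (hB x y).trans (T.upp x y)
  have h2 := (hB y x).trans (T.upp y x)
  rw [norm_sub_rev] at h2
  constructor <;> linarith

theorem continuous_of {B : ℝ × ℝ → ℝ} (hB : ∀ x y, B y - B x ≤ T.d x y) : Continuous B := by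
  have : LipschitzWith (Real.toNNReal T.M) B := by
    apply LipschitzWith.of_dist_le_mul
    intro x y
    rw [Real.coe_toNNReal _ T.M_pos.le, Real.dist_eq, dist_eq_norm]
    rw [abs_sub_comm]
    exact T.abs_sub_le hB x y
  exact this.continuous

theorem Sub.int {B : ℝ × ℝ → ℝ} (hB : T.Sub B) (i : ℤ) (x : ℝ × ℝ) :
    B (x + ((i : ℝ), 0)) = B x + i * T.l := by
  induction i using Int.induction_on with
  | zero =>
    have e : ((((0 : ℤ) : ℝ), (0 : ℝ)) : ℝ × ℝ) = 0 := by ext <;> simp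
    rw [e]; simp
  | succ i ih =>
    have e : x + (((((i : ℤ) + 1 : ℤ) : ℤ) : ℝ), (0 : ℝ)) = (x + (((i : ℤ) : ℝ), 0)) + (1, 0) := by
      ext <;> simp [add_assoc]
    rw [e, hB.2, ih]
    push_cast
    ring
  | pred i ih =>
    have e : x + ((((-(i : ℤ) : ℤ)) : ℝ), (0 : ℝ)) =
        (x + (((-(i : ℤ) - 1 : ℤ) : ℝ), 0)) + (1, 0) := by
      ext
      · simp [add_assoc]
      · simp
    have h := hB.2 (x + (((-(i : ℤ) - 1 : ℤ) : ℝ), 0))
    rw [← e, ih] at h
    push_cast at h ⊢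
    linarith

/-- linear growth along `b`, uniformly -/
theorem Sub.growth {B : ℝ × ℝ → ℝ} (hB : T.Sub B) (x : ℝ × ℝ) :
    |B x - B 0 - T.l * x.1| ≤ T.M * (|x.2| + 1) + T.l := by
  let x' : ℝ × ℝ := (Int.fract x.1, x.2)
  have e : x = x' + (((⌊x.1⌋ : ℤ) : ℝ), 0) :=
    Prod.ext (Int.fract_add_floor x.1).symm (add_zero x.2).symm
  have h1 : B x = B x' + ⌊x.1⌋ * T.l := by
    conv_lhs => rw [e]
    exact Sub.int T hB _ _
  have h2 : |B x' - B 0| ≤ T.M * (|x.2| + 1) := by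
    refine (T.abs_sub_le hB.1 0 x').trans ?_
    refine mul_le_mul_of_nonneg_left ?_ T.M_pos.le
    rw [zero_sub, norm_neg, Prod.norm_def]
    refine max_le ?_ ?_
    · have h3 : ‖x'.1‖ ≤ 1 := by
        rw [Real.norm_eq_abs, abs_of_nonneg (Int.fract_nonneg x.1)]
        exact (Int.fract_lt_one x.1).le
      linarith [abs_nonneg x.2]
    · have h3 : ‖x'.2‖ = |x.2| := Real.norm_eq_abs _
      rw [h3]; linarith
  have h4 : |(⌊x.1⌋ : ℝ) * T.l - T.l * x.1| ≤ T.l := by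
    have h5 : (⌊x.1⌋ : ℝ) * T.l - T.l * x.1 = -(T.l * Int.fract x.1) := by
      rw [Int.fract]; ring
    rw [h5, abs_neg, abs_of_nonneg (mul_nonneg T.l_pos.le (Int.fract_nonneg _))]
    have := (Int.fract_lt_one x.1).le
    nlinarith [T.l_pos]
  have h6 : B x - B 0 - T.l * x.1 = (B x' - B 0) + ((⌊x.1⌋ : ℝ) * T.l - T.l * x.1) := by
    rw [h1]; ring
  rw [h6]
  exact (abs_add_le _ _).trans (add_le_add h2 h4)

/-- Arzela-Ascoli for curves that are `1`-Lipschitz for `d` -/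
theorem exists_lim {P : ℕ → ℝ → ℝ × ℝ} (h1 : ∀ n, T.Lp (P n)) {C : ℝ}
    (h0 : ∀ n, ‖P n 0‖ ≤ C) : ∃ φ : ℕ → ℕ, StrictMono φ ∧ ∃ Q : ℝ → ℝ × ℝ,
      (∀ t, Tendsto (fun n => P (φ n) t) atTop (𝓝 (Q t))) ∧ T.Lp Q := by
  have hlip : ∀ n s t, ‖P n s - P n t‖ ≤ T.m⁻¹ * |s - t| := fun n s t => (h1 n).lip s t
  have hm : 0 < T.m⁻¹ := inv_pos.2 T.m_pos
  have hbd : ∀ n (q : ℚ), P n q ∈ Metric.closedBall (0 : ℝ × ℝ) (C + T.m⁻¹ * |(q : ℝ)|) := by
    intro n q
    rw [mem_closedBall_zero_iff]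
    have := hlip n q 0
    rw [sub_zero] at this
    calc ‖P n q‖ = ‖P n 0 + (P n q - P n 0)‖ := by congr 1; abel
      _ ≤ ‖P n 0‖ + ‖P n q - P n 0‖ := norm_add_le _ _
      _ ≤ _ := add_le_add (h0 n) this
  have hK : IsCompact (Set.pi univ fun q : ℚ =>
      Metric.closedBall (0 : ℝ × ℝ) (C + T.m⁻¹ * |(q : ℝ)|)) :=
    isCompact_univ_pi fun q => isCompact_closedBall _ _
  obtain ⟨Q0, _, φ, hφ, hlim⟩ := hK.tendsto_subseq (x := fun n (q : ℚ) => P n q)
    (fun n q _ => hbd n q)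
  have hq : ∀ q : ℚ, Tendsto (fun n => P (φ n) q) atTop (𝓝 (Q0 q)) := fun q =>
    (tendsto_pi_nhds.1 hlim) q
  have hcau : ∀ t : ℝ, CauchySeq fun n => P (φ n) t := by
    intro t
    rw [Metric.cauchySeq_iff']
    intro ε hε
    obtain ⟨q, hq1⟩ : ∃ q : ℚ, |t - q| < ε / (4 * T.m⁻¹) := by
      obtain ⟨q, hq1, hq2⟩ := exists_rat_btwn (show t < t + ε / (4 * T.m⁻¹) by
        have : 0 < ε / (4 * T.m⁻¹) := by positivity
        linarith)
      refine ⟨q, ?_⟩
      rw [abs_sub_comm, abs_of_nonneg (by linarith)]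
      linarith
    have hq3 : T.m⁻¹ * |t - q| < ε / 4 := by
      rw [lt_div_iff₀ (by positivity)] at hq1
      linarith
    have hc := (hq q).cauchySeq
    rw [Metric.cauchySeq_iff'] at hc
    obtain ⟨N, hN⟩ := hc (ε / 4) (by positivity)
    refine ⟨N, fun n hn => ?_⟩
    have a1 := hlip (φ n) t q
    have a2 := hlip (φ N) q t
    have a3 := hN n hn
    rw [abs_sub_comm (q : ℝ) t] at a2
    rw [dist_eq_norm] at a3 ⊢
    have e : P (φ n) t - P (φ N) t = (P (φ n) t - P (φ n) q) + (P (φ n) q - P (φ N) q) +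
        (P (φ N) q - P (φ N) t) := by abel
    rw [e]
    refine lt_of_le_of_lt (norm_add₃_le) ?_
    linarith
  choose Q hQ using fun t => cauchySeq_tendsto_of_complete (hcau t)
  refine ⟨φ, hφ, Q, hQ, fun s t hst => ?_⟩
  have h2 : Tendsto (fun n => T.d (P (φ n) s) (P (φ n) t)) atTop (𝓝 (T.d (Q s) (Q t))) :=
    (T.cont.tendsto (Q s, Q t)).comp ((hQ s).prodMk_nhds (hQ t))
  exact le_of_tendsto h2 (Eventually.of_forall fun n => h1 _ _ _ hst)

/-- pasting of two `1`-Lipschitz curves at time `c` -/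
theorem paste {P Q : ℝ → ℝ × ℝ} {c : ℝ} (hP : ∀ s t, s ≤ t → t ≤ c → T.d (P s) (P t) ≤ t - s)
    (hQ : ∀ s t, c ≤ s → s ≤ t → T.d (Q s) (Q t) ≤ t - s) (h : P c = Q c) :
    T.Lp (fun t => if t ≤ c then P t else Q t) := by
  intro s t hst
  show T.d (if s ≤ c then P s else Q s) (if t ≤ c then P t else Q t) ≤ t - s
  split_ifs with h1 h2 h2
  · exact hP s t hst h2
  · push Not at h2
    have a := hP s c h1 le_rfl
    have b := hQ c t le_rfl h2.le
    have := T.tri (P s) (P c) (Q t)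
    rw [h] at this a
    linarith
  · push Not at h1
    linarith
  · push Not at h1 h2
    exact hQ s t h1.le hst

theorem per_n (v x y : ℝ × ℝ) (i j : ℤ) (hv : v = ((i : ℝ), (j : ℝ))) (n : ℤ) :
    T.d (x + (n : ℝ) • v) (y + (n : ℝ) • v) = T.d x y := by
  have e : (n : ℝ) • v = (((n * i : ℤ) : ℝ), ((n * j : ℤ) : ℝ)) := by
    rw [hv]; ext <;> simp
  rw [e]
  exact T.per _ _ x y

/-- periodic prolongation of a minimal segment from `x` to `x + (i, j)` -/
theorem ext (x : ℝ × ℝ) (i j : ℤ) (h : (i, j) ≠ (0, 0)) : ∃ P : ℝ → ℝ × ℝ, P 0 = x ∧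
    (∀ t, P (t + T.d x (x + ((i : ℝ), (j : ℝ)))) = P t + ((i : ℝ), (j : ℝ))) ∧
    (T.Lp P) ∧
    IsoOn T.d P (Icc 0 (T.d x (x + ((i : ℝ), (j : ℝ))))) := by
  obtain ⟨v, hv⟩ : ∃ v : ℝ × ℝ, v = ((i : ℝ), (j : ℝ)) := ⟨_, rfl⟩
  rw [← hv]
  obtain ⟨γ, h0, h1, hiso⟩ := T.geo x (x + v)
  obtain ⟨L, hL⟩ : ∃ L, L = T.d x (x + v) := ⟨_, rfl⟩
  rw [← hL] at h1 hiso ⊢
  have hLpos : 0 < L := by
    rcases (T.d_nonneg x (x + v)).lt_or_eq with h2 | h2
    · rw [hL]; exact h2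
    · exfalso
      have h3 := T.eq_of_d h2.ge
      have h4 : v = 0 := by
        have := congrArg (fun z => z - x) h3
        simpa using this.symm
      rw [hv] at h4
      apply h
      have h5 := congrArg Prod.fst h4
      have h6 := congrArg Prod.snd h4
      simp only [Prod.fst_zero, Prod.snd_zero, Int.cast_eq_zero] at h5 h6
      rw [h5, h6]
  let P : ℝ → ℝ × ℝ := fun t => γ (t - L * (⌊t / L⌋ : ℝ)) + ((⌊t / L⌋ : ℝ)) • v
  have hcell : ∀ (n : ℤ) (t : ℝ), (n : ℝ) * L ≤ t → t ≤ (n + 1) * L →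
      P t = γ (t - L * n) + (n : ℝ) • v := by
    intro n t ht1 ht2
    rcases ht2.lt_or_eq with ht | ht
    · have hf : ⌊t / L⌋ = n := by
        rw [Int.floor_eq_iff]
        constructor
        · rwa [le_div_iff₀ hLpos]
        · rwa [div_lt_iff₀ hLpos]
      simp only [P, hf]
    · have hf : ⌊t / L⌋ = n + 1 := by
        rw [ht, mul_div_assoc, div_self hLpos.ne', mul_one]
        exact_mod_cast Int.floor_intCast (n + 1)
      have e1 : t - L * ((n + 1 : ℤ) : ℝ) = 0 := by rw [ht]; push_cast; ring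
      have e2 : t - L * (n : ℝ) = L := by rw [ht]; ring
      simp only [P, hf]
      rw [e1, e2, h0, h1]
      push_cast
      rw [add_smul, one_smul]
      abel
  have hP0 : P 0 = x := by
    rw [hcell 0 0 (by simp) (by simpa using hLpos.le)]
    simp [h0]
  have hper : ∀ t, P (t + L) = P t + v := by
    intro t
    have hf : ⌊(t + L) / L⌋ = ⌊t / L⌋ + 1 := by
      rw [add_div, div_self hLpos.ne', Int.floor_add_one]
    simp only [P, hf]
    have e1 : t + L - L * ((⌊t / L⌋ + 1 : ℤ) : ℝ) = t - L * (⌊t / L⌋ : ℝ) := by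
      push_cast; ring
    rw [e1]
    push_cast
    rw [add_smul, one_smul, add_assoc]
  have hnode : ∀ n : ℤ, P (n * L) = x + (n : ℝ) • v := by
    intro n
    rw [hcell n _ le_rfl (by nlinarith)]
    have e : (n : ℝ) * L - L * n = 0 := by ring
    rw [e, h0]
  have hin : ∀ (n : ℤ) (s t : ℝ), (n : ℝ) * L ≤ s → s ≤ t → t ≤ (n + 1) * L →
      T.d (P s) (P t) ≤ t - s := by
    intro n s t hs hst ht
    rw [hcell n s hs (hst.trans ht), hcell n t (hs.trans hst) ht, T.per_n v _ _ i j hv]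
    rw [hiso (s - L * n) ⟨by linarith, by linarith⟩ (t - L * n) ⟨by linarith, by linarith⟩
      (by linarith)]
    linarith
  have hnodes : ∀ (n : ℤ) (r : ℕ), T.d (P (n * L)) (P (((n + r : ℤ) : ℝ) * L)) ≤ r * L := by
    intro n r
    induction r with
    | zero => simp [T.d_self]
    | succ r ih =>
      have a := T.tri (P (n * L)) (P (((n + r : ℤ) : ℝ) * L)) (P (((n + (r + 1 : ℕ) : ℤ) : ℝ) * L))
      have b := hin (n + r) (((n + r : ℤ) : ℝ) * L) (((n + (r + 1 : ℕ) : ℤ) : ℝ) * L) le_rfl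
        (by push_cast; nlinarith) (by push_cast; nlinarith)
      have e : (((n + (r + 1 : ℕ) : ℤ) : ℝ) * L) - (((n + r : ℤ) : ℝ) * L) = L := by
        push_cast; ring
      rw [e] at b
      push_cast at a b ih ⊢
      linarith
  have hle : ∀ s t : ℝ, s ≤ t → T.d (P s) (P t) ≤ t - s := by
    intro s t hst
    have hs1 : ((⌊s / L⌋ : ℤ) : ℝ) * L ≤ s := by
      have := Int.floor_le (s / L)
      rwa [le_div_iff₀ hLpos] at this
    have hs2 : s ≤ ((⌊s / L⌋ : ℤ) + 1 : ℝ) * L := by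
      have := (Int.lt_floor_add_one (s / L)).le
      rwa [div_le_iff₀ hLpos] at this
    have ht1 : ((⌊t / L⌋ : ℤ) : ℝ) * L ≤ t := by
      have := Int.floor_le (t / L)
      rwa [le_div_iff₀ hLpos] at this
    have ht2 : t ≤ ((⌊t / L⌋ : ℤ) + 1 : ℝ) * L := by
      have := (Int.lt_floor_add_one (t / L)).le
      rwa [div_le_iff₀ hLpos] at this
    have hmono : ⌊s / L⌋ ≤ ⌊t / L⌋ := Int.floor_le_floor (by gcongr)
    rcases hmono.eq_or_lt with he | hlt
    · rw [← he] at ht2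
      exact hin _ s t hs1 hst ht2
    · obtain ⟨r, hr⟩ := Int.eq_ofNat_of_zero_le (show 0 ≤ ⌊t / L⌋ - (⌊s / L⌋ + 1) by omega)
      have a1 := hin ⌊s / L⌋ s (((⌊s / L⌋ + 1 : ℤ) : ℝ) * L) hs1 (by push_cast; exact hs2)
        (by push_cast; exact le_rfl)
      have a2 := hnodes (⌊s / L⌋ + 1) r
      have a3 := hin ⌊t / L⌋ (((⌊t / L⌋ : ℤ) : ℝ) * L) t le_rfl ht1 ht2
      have e : ⌊s / L⌋ + 1 + (r : ℤ) = ⌊t / L⌋ := by omega
      rw [e] at a2
      have b1 := T.tri (P s) (P (((⌊s / L⌋ + 1 : ℤ) : ℝ) * L)) (P t)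
      have b2 := T.tri (P (((⌊s / L⌋ + 1 : ℤ) : ℝ) * L)) (P (((⌊t / L⌋ : ℤ) : ℝ) * L)) (P t)
      have e2 : (r : ℝ) = (⌊t / L⌋ : ℝ) - ((⌊s / L⌋ : ℝ) + 1) := by
        have := congrArg (fun z : ℤ => (z : ℝ)) hr
        push_cast at this
        linarith
      rw [e2] at a2
      push_cast at a1 a2 a3 b1 b2
      nlinarith
  refine ⟨P, hP0, hper, hle, ?_⟩
  intro s hs t ht hst
  have e : ∀ r ∈ Icc 0 L, P r = γ r := by
    intro r hr
    rw [hcell 0 r (by simpa using hr.1) (by simpa using hr.2)]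
    simp
  rw [e s hs, e t ht]
  exact hiso s hs t ht hst

theorem rf_rf (x : ℝ × ℝ) : rf (rf x) = x := by simp [rf]

theorem rf_inj {x y : ℝ × ℝ} (h : rf x = rf y) : x = y := by
  rw [← rf_rf x, h, rf_rf]

theorem rf_add (x y : ℝ × ℝ) : rf (x + y) = rf x + rf y := by
  simp [rf, add_comm]

theorem norm_rf (x y : ℝ × ℝ) : ‖rf x - rf y‖ = ‖x - y‖ := by
  have h : -x.2 - -y.2 = -(x.2 - y.2) := by ring
  simp only [rf, Prod.norm_def, Prod.fst_sub, Prod.snd_sub]
  rw [h, norm_neg]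

/-- the reflected distance -/
def refl : Pl where
  d x y := T.d (rf x) (rf y)
  m := T.m
  M := T.M
  m_pos := T.m_pos
  tri x y z := T.tri _ _ _
  low x y := by rw [← norm_rf]; exact T.low _ _
  upp x y := by rw [← norm_rf]; exact T.upp _ _
  per i j x y := by
    have e : rf ((i : ℝ), (j : ℝ)) = ((i : ℝ), ((-j : ℤ) : ℝ)) := by simp [rf]
    rw [rf_add, rf_add, e]
    exact T.per i (-j) _ _
  geo x y := by
    obtain ⟨γ, h0, h1, h2⟩ := T.geo (rf x) (rf y)
    refine ⟨fun t => rf (γ t), by show rf (γ 0) = x; rw [h0, rf_rf],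
      by show rf (γ (T.d (rf x) (rf y))) = y; rw [h1, rf_rf], fun t ht u hu htu => ?_⟩
    simp only [rf_rf]
    exact h2 t ht u hu htu
  nb := by
    intro γ γ' a m c ham hmc h1 h2 h3 t ht
    exact rf_inj (T.nb (fun t => rf (γ t)) (fun t => rf (γ' t)) a m c ham hmc h1 h2
      (fun t ht => by rw [h3 t ht]) t ht)
  nb' := by
    intro γ γ' a m c ham hmc h1 h2 h3 t ht
    exact rf_inj (T.nb' (fun t => rf (γ t)) (fun t => rf (γ' t)) a m c ham hmc h1 h2
      (fun t ht => by rw [h3 t ht]) t ht)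

/-- the reversed distance -/
def rev : Pl where
  d x y := T.d y x
  m := T.m
  M := T.M
  m_pos := T.m_pos
  tri x y z := by rw [add_comm]; exact T.tri _ _ _
  low x y := by rw [norm_sub_rev]; exact T.low _ _
  upp x y := by rw [norm_sub_rev]; exact T.upp _ _
  per i j x y := T.per i j _ _
  geo x y := by
    obtain ⟨γ, h0, h1, h2⟩ := T.geo y x
    refine ⟨fun t => γ (T.d y x - t), by simpa using h1, by simpa using h0, fun t ht u hu htu => ?_⟩
    have h3 := h2 (T.d y x - u) ⟨by linarith [hu.2], by linarith [hu.1]⟩ (T.d y x - t)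
      ⟨by linarith [ht.2], by linarith [ht.1]⟩ (by linarith)
    show T.d (γ (T.d y x - u)) (γ (T.d y x - t)) = u - t
    rw [h3]
    ring
  nb := by
    intro γ γ' a m c ham hmc h1 h2 h3 t ht
    have k1 : IsoOn T.d (fun t => γ (-t)) (Icc (-c) (-a)) := by
      intro s hs u hu hsu
      have := h1 (-u) ⟨by linarith [hu.2], by linarith [hu.1]⟩ (-s) ⟨by linarith [hs.2], by linarith [hs.1]⟩
        (by linarith)
      show T.d (γ (-s)) (γ (-u)) = u - s
      rw [show T.d (γ (-s)) (γ (-u)) = -s - -u from this]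
      ring
    have k2 : IsoOn T.d (fun t => γ' (-t)) (Icc (-c) (-a)) := by
      intro s hs u hu hsu
      have := h2 (-u) ⟨by linarith [hu.2], by linarith [hu.1]⟩ (-s) ⟨by linarith [hs.2], by linarith [hs.1]⟩
        (by linarith)
      show T.d (γ' (-s)) (γ' (-u)) = u - s
      rw [show T.d (γ' (-s)) (γ' (-u)) = -s - -u from this]
      ring
    have h4 := T.nb' (fun t => γ (-t)) (fun t => γ' (-t)) (-c) (-m) (-a) (by linarith) (by linarith) k1 k2
      (fun s hs => h3 (-s) ⟨by linarith [hs.2], by linarith [hs.1]⟩) (-t) ⟨by linarith [ht.2], by linarith [ht.1]⟩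
    simpa using h4
  nb' := by
    intro γ γ' a m c ham hmc h1 h2 h3 t ht
    have k1 : IsoOn T.d (fun t => γ (-t)) (Icc (-c) (-a)) := by
      intro s hs u hu hsu
      have := h1 (-u) ⟨by linarith [hu.2], by linarith [hu.1]⟩ (-s) ⟨by linarith [hs.2], by linarith [hs.1]⟩
        (by linarith)
      show T.d (γ (-s)) (γ (-u)) = u - s
      rw [show T.d (γ (-s)) (γ (-u)) = -s - -u from this]
      ring
    have k2 : IsoOn T.d (fun t => γ' (-t)) (Icc (-c) (-a)) := by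
      intro s hs u hu hsu
      have := h2 (-u) ⟨by linarith [hu.2], by linarith [hu.1]⟩ (-s) ⟨by linarith [hs.2], by linarith [hs.1]⟩
        (by linarith)
      show T.d (γ' (-s)) (γ' (-u)) = u - s
      rw [show T.d (γ' (-s)) (γ' (-u)) = -s - -u from this]
      ring
    have h4 := T.nb (fun t => γ (-t)) (fun t => γ' (-t)) (-c) (-m) (-a) (by linarith) (by linarith) k1 k2
      (fun s hs => h3 (-s) ⟨by linarith [hs.2], by linarith [hs.1]⟩) (-t) ⟨by linarith [ht.2], by linarith [ht.1]⟩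
    simpa using h4

theorem rev_d (x y : ℝ × ℝ) : T.rev.d x y = T.d y x := rfl


theorem refl_d (x y : ℝ × ℝ) : T.refl.d x y = T.d (rf x) (rf y) := rfl

theorem rf_b (x : ℝ × ℝ) : rf (x + (1, 0)) = rf x + (1, 0) := by
  rw [rf_add]; congr 1; simp [rf]

theorem refl_l : T.refl.l = T.l := by
  unfold l
  have hs : Function.Surjective rf := fun x => ⟨rf x, rf_rf x⟩
  rw [← hs.iInf_comp]
  refine congrArg _ (funext fun x => ?_)
  rw [refl_d, rf_b, rf_rf]

theorem refl_sub {B : ℝ × ℝ → ℝ} : T.refl.Sub (fun x => B (rf x)) ↔ T.Sub B := by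
  constructor
  · rintro ⟨h1, h2⟩
    refine ⟨fun x y => ?_, fun x => ?_⟩
    · have := h1 (rf x) (rf y)
      simpa only [refl_d, rf_rf] using this
    · have := h2 (rf x)
      simpa only [refl_l, rf_b, rf_rf] using this
  · rintro ⟨h1, h2⟩
    refine ⟨fun x y => h1 _ _, fun x => ?_⟩
    simp only [rf_b, refl_l]
    exact h2 _

theorem refl_cl {G : ℝ → ℝ × ℝ} : T.refl.Cl (fun t => rf (G t)) ↔ T.Cl G := by
  unfold Cl
  simp only [refl_d, rf_rf, refl_l]
  constructor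
  · rintro ⟨h1, h2⟩
    refine ⟨h1, fun t => rf_inj ?_⟩
    rw [h2, rf_b]
  · rintro ⟨h1, h2⟩
    refine ⟨h1, fun t => ?_⟩
    rw [h2, rf_b]

theorem refl_calOn {B : ℝ × ℝ → ℝ} {P : ℝ → ℝ × ℝ} {s : Set ℝ} :
    T.refl.CalOn (fun x => B (rf x)) (fun t => rf (P t)) s ↔ T.CalOn B P s := by
  unfold CalOn
  simp only [refl_d, rf_rf]

theorem refl_all {P : ℝ → ℝ × ℝ} : T.refl.All (fun t => rf (P t)) ↔ T.All P := by
  constructor
  · intro h B hB
    exact (T.refl_calOn).1 (h _ ((T.refl_sub).2 hB))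
  · intro h B hB
    have e : (fun x => (fun y => B (rf y)) (rf x)) = B := by
      funext x; simp only [rf_rf]
    have h1 : T.Sub (fun y => B (rf y)) := by
      rw [← T.refl_sub, e]; exact hB
    have h2 := (T.refl_calOn (P := P) (s := univ)).2 (h _ h1)
    rwa [e] at h2

theorem refl_En {G H : ℝ → ℝ × ℝ} :
    T.refl.En (fun t => rf (G t)) (fun t => rf (H t)) = T.En G H := by
  unfold En
  simp only [refl_d, rf_rf]

theorem refl_D {x : ℝ × ℝ} : rf x ∈ T.refl.D ↔ x ∈ T.D := by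
  unfold D
  simp only [Set.mem_ofPred_eq, refl_d, rf_rf, refl_l, rf_b]

end Pl

end Pool.Agent.EscV
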