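import Pool.Agent.EscV.GCl

set_option autoImplicit false

/-!
# EscG geometry: Busemann functions of closed lines and their rays

`s ↦ s + d (G s) x` is nondecreasing (`G` is 1-Lipschitz), bounded below by `- d (G 0) x`
(`d (G s) x ≥ |s| - d (G 0) x`), so `bus G x` is its limit as `s → -∞`. Rays: take the minimal segments
from `G (-n)` to `x`, parametrised on `[-d (G (-n)) x, 0]`, prolonged to the left by the constant
`G (-n)` (clamp the time) and to the right by the constant `x`: 1-Lipschitz curves `R_n` with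
`R_n 0 = x`; by `exists_lim` a subsequence converges to `R`. For `t ≤ 0` fixed and `n` large
`bus G (R_n t) ≤ -n + d (G (-n)) (R_n t) = -n + d (G (-n)) x + t → bus G x + t`, and
`bus G x ≤ bus G (R t) + d (R t) x ≤ bus G (R t) - t`. Calibration on `Iic 0` follows from
`bus G (R t) = bus G x + t`.
-/

noncomputable section

open Set Filter Topology

namespace Pool.Agent.EscV

open Pool.Agent.EscG

namespace Pl

variable {T : Pl} {G : ℝ → ℝ × ℝ}

theorem GBus_per (T : Pl) (x y : ℝ × ℝ) : T.d (x + (1, 0)) (y + (1, 0)) = T.d x y := by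
  have := T.per 1 0 x y
  rwa [Int.cast_one, Int.cast_zero] at this

theorem GBus_pred (h : T.Cl G) (s : ℝ) : G s = G (s - T.l) + (1, 0) := by
  rw [← h.2 (s - T.l), sub_add_cancel]

theorem GBus_low (h : T.Cl G) (x : ℝ × ℝ) (s : ℝ) : -s - T.d x (G 0) ≤ T.d (G s) x := by
  rcases le_total s 0 with hs | hs
  · have h1 := T.tri (G s) x (G 0)
    rw [h.1 s 0 hs] at h1
    linarith
  · have h1 := T.d_nonneg (G s) x
    have h2 := T.d_nonneg x (G 0)
    linarith

theorem Cl.bus_bdd (h : T.Cl G) (x : ℝ × ℝ) : BddBelow (range fun s : ℝ => s + T.d (G s) x) := by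
  refine ⟨-T.d x (G 0), ?_⟩
  rintro _ ⟨s, rfl⟩
  have h1 := GBus_low h x s
  show -T.d x (G 0) ≤ s + T.d (G s) x
  linarith

theorem Cl.bus_le (h : T.Cl G) (x : ℝ × ℝ) (s : ℝ) : T.bus G x ≤ s + T.d (G s) x :=
  ciInf_le (h.bus_bdd x) s

theorem Cl.bus_mono (h : T.Cl G) (x : ℝ × ℝ) : Monotone fun s : ℝ => s + T.d (G s) x := by
  intro s s' hs
  have h1 := T.tri (G s) (G s') x
  rw [h.1 s s' hs] at h1
  show s + T.d (G s) x ≤ s' + T.d (G s') x
  linarith

theorem Cl.bus_sub (h : T.Cl G) : T.Sub (T.bus G) := by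
  refine ⟨fun x y => ?_, fun x => ?_⟩
  · have h1 : T.bus G y - T.d x y ≤ T.bus G x := by
      refine le_ciInf fun s => ?_
      have h2 := h.bus_le y s
      have h3 := T.tri (G s) x y
      linarith
    linarith
  · apply le_antisymm
    · have h1 : T.bus G (x + (1, 0)) - T.l ≤ T.bus G x := by
        refine le_ciInf fun s => ?_
        have h2 := h.bus_le (x + (1, 0)) (s + T.l)
        rw [h.2 s, GBus_per] at h2
        linarith
      linarith
    · refine le_ciInf fun s => ?_
      rw [GBus_pred h s, GBus_per]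
      have h2 := h.bus_le x (s - T.l)
      linarith

theorem Cl.bus_self (h : T.Cl G) (t : ℝ) : T.bus G (G t) = t := by
  apply le_antisymm
  · have := h.bus_le (G t) t
    rw [T.d_self, add_zero] at this
    exact this
  · refine le_ciInf fun s => ?_
    rcases le_total s t with hs | hs
    · rw [h.1 s t hs]
      linarith
    · have := T.d_nonneg (G s) (G t)
      linarith

/-- backward ray for an arbitrary infimum of distances: if `U` is 1-Lipschitz and for every `N` and
`ε > 0` there is `z` with `U z + d z x < U x + ε` and `N ≤ d z x`, then there is a backward ray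
calibrated by `U` from `x` (same proof). -/
theorem ray_of {U : ℝ × ℝ → ℝ} (hU : ∀ x y, U y - U x ≤ T.d x y) {x : ℝ × ℝ}
    (h : ∀ N ε : ℝ, 0 < ε → ∃ z, N ≤ T.d z x ∧ U z + T.d z x < U x + ε) :
    ∃ R : ℝ → ℝ × ℝ, R 0 = x ∧ T.CalOn U R (Iic 0) := by
  have hz : ∀ n : ℕ, ∃ z, (n : ℝ) ≤ T.d z x ∧ U z + T.d z x < U x + 1 / ((n : ℝ) + 1) :=
    fun n => h n _ Nat.one_div_pos_of_nat
  choose z hz1 hz2 using hz
  choose γ hγ0 hγ1 hγ2 using fun n => T.geo (z n) x
  set D : ℕ → ℝ := fun n => T.d (z n) x with hD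
  have hD0 : ∀ n, 0 ≤ D n := fun n => (Nat.cast_nonneg n).trans (hz1 n)
  set c : ℕ → ℝ → ℝ := fun n t => max 0 (min (D n) (t + D n)) with hc
  have hcmem : ∀ n t, c n t ∈ Icc 0 (D n) := fun n t =>
    ⟨le_max_left _ _, max_le (hD0 n) (min_le_left _ _)⟩
  have hcmono : ∀ n s t, s ≤ t → c n s ≤ c n t := by
    intro n s t hst
    exact max_le_max le_rfl (min_le_min le_rfl (by linarith))
  have hclip : ∀ n s t, s ≤ t → c n t - c n s ≤ t - s := by
    intro n s t hst
    have h1 : c n t ≤ c n s + (t - s) := by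
      refine max_le ?_ ?_
      · have := (hcmem n s).1
        linarith
      · have h2 : min (D n) (s + D n) ≤ c n s := le_max_right _ _
        rcases le_total (D n) (s + D n) with h3 | h3
        · rw [min_eq_left h3] at h2
          have h4 : min (D n) (t + D n) ≤ D n := min_le_left _ _
          linarith
        · rw [min_eq_right h3] at h2
          have h4 : min (D n) (t + D n) ≤ t + D n := min_le_right _ _
          linarith
    linarith
  set P : ℕ → ℝ → ℝ × ℝ := fun n t => γ n (c n t) with hP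
  have hPlip : ∀ n, T.Lp (P n) := by
    intro n s t hst
    rw [hP]
    simp only
    rw [hγ2 n _ (hcmem n s) _ (hcmem n t) (hcmono n s t hst)]
    exact hclip n s t hst
  have hP0 : ∀ n, P n 0 = x := by
    intro n
    have : c n 0 = D n := by
      rw [hc]
      simp only
      rw [zero_add, min_self, max_eq_right (hD0 n)]
    rw [hP]
    simp only
    rw [this]
    exact hγ1 n
  obtain ⟨φ, hφ, Q, hQ, hQlip⟩ := T.exists_lim hPlip (C := ‖x‖) (fun n => by rw [hP0])
  have hUc : Continuous U := T.continuous_of hU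
  have hQ0 : Q 0 = x := by
    have h1 := hQ 0
    have h2 : (fun n => P (φ n) 0) = fun _ => x := funext fun n => hP0 _
    rw [h2] at h1
    exact (tendsto_nhds_unique h1 tendsto_const_nhds)
  have key : ∀ t ≤ 0, U (Q t) = U x + t := by
    intro t ht
    apply le_antisymm
    · have h1 : Tendsto (fun n => U (P (φ n) t)) atTop (𝓝 (U (Q t))) :=
        (hUc.tendsto _).comp (hQ t)
      have h2 : Tendsto (fun n : ℕ => U x + t + 1 / (((φ n : ℕ) : ℝ) + 1)) atTop
          (𝓝 (U x + t + 0)) := by
        refine Tendsto.const_add _ ?_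
        exact (tendsto_one_div_add_atTop_nhds_zero_nat (𝕜 := ℝ)).comp hφ.tendsto_atTop
      rw [add_zero] at h2
      refine le_of_tendsto_of_tendsto h1 h2 ?_
      have h3 : ∀ᶠ n : ℕ in atTop, -t ≤ ((φ n : ℕ) : ℝ) := by
        have : Tendsto (fun n : ℕ => ((φ n : ℕ) : ℝ)) atTop atTop :=
          tendsto_natCast_atTop_atTop.comp hφ.tendsto_atTop
        exact this.eventually_ge_atTop _
      filter_upwards [h3] with n hn
      have h4 : -t ≤ D (φ n) := hn.trans (hz1 _)
      have h5 : c (φ n) t = t + D (φ n) := by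
        rw [hc]
        simp only
        rw [min_eq_right (by linarith), max_eq_right (by linarith)]
      have h6 : T.d (z (φ n)) (P (φ n) t) = t + D (φ n) := by
        have h7 := hγ2 (φ n) 0 ⟨le_rfl, hD0 _⟩ _ (hcmem (φ n) t) (hcmem (φ n) t).1
        rw [hγ0, h5, sub_zero] at h7
        rw [hP]
        simp only
        rw [h5]
        exact h7
      have h8 := hU (z (φ n)) (P (φ n) t)
      have h9 := hz2 (φ n)
      rw [h6] at h8
      simp only [hD] at h8
      linarith
    · have h1 := hU (Q t) x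
      have h2 := hQlip t 0 ht
      rw [hQ0] at h2
      linarith
  refine ⟨Q, hQ0, fun t _ u _ htu => hQlip t u htu, fun t ht u hu => ?_⟩
  rw [key t ht, key u hu]
  ring

theorem Cl.bus_ray (h : T.Cl G) (x : ℝ × ℝ) :
    ∃ R : ℝ → ℝ × ℝ, R 0 = x ∧ T.CalOn (T.bus G) R (Iic 0) := by
  refine ray_of h.bus_sub.1 fun N ε hε => ?_
  have h1 : T.bus G x < T.bus G x + ε := by linarith
  obtain ⟨s0, hs0⟩ := exists_lt_of_ciInf_lt h1
  set s : ℝ := min s0 (-(|N| + T.d x (G 0))) with hs
  refine ⟨G s, ?_, ?_⟩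
  · have h2 := GBus_low h x s
    have h3 : s ≤ -(|N| + T.d x (G 0)) := min_le_right _ _
    have h5 := le_abs_self N
    linarith
  · rw [h.bus_self]
    exact (h.bus_mono x (min_le_left _ _)).trans_lt hs0

/-- forward ray for an arbitrary supremum -/
theorem GBus_ray_of' {U : ℝ × ℝ → ℝ} (hU : ∀ x y, U y - U x ≤ T.d x y) {x : ℝ × ℝ}
    (h : ∀ N ε : ℝ, 0 < ε → ∃ z, N ≤ T.d x z ∧ U x + T.d x z < U z + ε) :
    ∃ R : ℝ → ℝ × ℝ, R 0 = x ∧ T.CalOn U R (Ici 0) := by
  obtain ⟨R, hR0, hR1, hR2⟩ := ray_of (T := T.rev) (U := fun y => -U y) (x := x)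
    (fun a b => by
      have := hU b a
      show -U b - -U a ≤ T.d b a
      linarith)
    (fun N ε hε => by
      obtain ⟨z, h1, h2⟩ := h N ε hε
      refine ⟨z, h1, ?_⟩
      show -U z + T.d x z < -U x + ε
      linarith)
  refine ⟨fun t => R (-t), by simpa using hR0, fun t ht u hu htu => ?_, fun t ht u hu => ?_⟩
  · have h1 : T.d (R (-t)) (R (-u)) ≤ -t - -u :=
      hR1 (-u) (by simpa using hu) (-t) (by simpa using ht) (neg_le_neg htu)
    show T.d (R (-t)) (R (-u)) ≤ u - t
    linarith
  · have := hR2 (-t) (by simpa using ht) (-u) (by simpa using hu)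
    simp only at this
    show U (R (-t)) - U (R (-u)) = t - u
    linarith

theorem GBus_fus_bdd (h : T.Cl G) (x : ℝ × ℝ) : BddAbove (range fun s : ℝ => s - T.d x (G s)) := by
  refine ⟨T.d (G 0) x, ?_⟩
  rintro _ ⟨s, rfl⟩
  show s - T.d x (G s) ≤ T.d (G 0) x
  rcases le_total 0 s with hs | hs
  · have h1 := T.tri (G 0) x (G s)
    rw [h.1 0 s hs] at h1
    linarith
  · have h1 := T.d_nonneg (G 0) x
    have h2 := T.d_nonneg x (G s)
    linarith

theorem Cl.le_fus (h : T.Cl G) (x : ℝ × ℝ) (s : ℝ) : s - T.d x (G s) ≤ T.fus G x :=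
  le_ciSup (GBus_fus_bdd h x) s

theorem GBus_fus_mono (h : T.Cl G) (x : ℝ × ℝ) : Monotone fun s : ℝ => s - T.d x (G s) := by
  intro s s' hs
  have h1 := T.tri x (G s) (G s')
  rw [h.1 s s' hs] at h1
  show s - T.d x (G s) ≤ s' - T.d x (G s')
  linarith

theorem Cl.fus_sub (h : T.Cl G) : T.Sub (T.fus G) := by
  refine ⟨fun x y => ?_, fun x => ?_⟩
  · have h1 : T.fus G y ≤ T.fus G x + T.d x y := by
      refine ciSup_le fun s => ?_
      have h2 := h.le_fus x s
      have h3 := T.tri x y (G s)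
      linarith
    linarith
  · apply le_antisymm
    · refine ciSup_le fun s => ?_
      rw [GBus_pred h s, GBus_per]
      have h2 := h.le_fus x (s - T.l)
      linarith
    · have h1 : T.fus G x ≤ T.fus G (x + (1, 0)) - T.l := by
        refine ciSup_le fun s => ?_
        have h2 := h.le_fus (x + (1, 0)) (s + T.l)
        rw [h.2 s, GBus_per] at h2
        linarith
      linarith

theorem Cl.fus_self (h : T.Cl G) (t : ℝ) : T.fus G (G t) = t := by
  apply le_antisymm
  · refine ciSup_le fun s => ?_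
    rcases le_total t s with hs | hs
    · rw [h.1 t s hs]
      linarith
    · have := T.d_nonneg (G t) (G s)
      linarith
  · have := h.le_fus (G t) t
    rw [T.d_self, sub_zero] at this
    exact this

theorem Cl.fus_ray (h : T.Cl G) (x : ℝ × ℝ) :
    ∃ R : ℝ → ℝ × ℝ, R 0 = x ∧ T.CalOn (T.fus G) R (Ici 0) := by
  refine GBus_ray_of' h.fus_sub.1 fun N ε hε => ?_
  have h1 : T.fus G x - ε < T.fus G x := by linarith
  obtain ⟨s0, hs0⟩ := exists_lt_of_lt_ciSup h1
  set s : ℝ := max s0 (|N| + T.d (G 0) x) with hs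
  refine ⟨G s, ?_, ?_⟩
  · have h3 : |N| + T.d (G 0) x ≤ s := le_max_right _ _
    have h4 := T.d_nonneg (G 0) x
    have h5 := le_abs_self N
    have h6 := abs_nonneg N
    have h2 := T.tri (G 0) x (G s)
    rw [h.1 0 s (by linarith)] at h2
    linarith
  · rw [h.fus_self]
    have := hs0.trans_le (GBus_fus_mono h x (le_max_left s0 (|N| + T.d (G 0) x)))
    simp only at this
    linarith

end Pl

end Pool.Agent.EscV
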