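import Pool.Agent.EscG.GTopo2

set_option autoImplicit false

/-!
# Project EscV, geometry of the plane with a `Z^2`-invariant distance which need not be symmetric: definitions

After `Pool.Agent.EscG.GDefs`. `b = (1, 0)`, `g = (0, 1)`. The topological notions `Lo`, `Up`, `UL`, `IsLine`, `Lt`,
`rf`, `top` and the modules `GTopo`, `GTopo2` are those of `Pool.Agent.EscG`.
-/

noncomputable section

open Set Filter Topology

namespace Pool.Agent.EscV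

open Pool.Agent.EscG

/-- `γ` is a minimal segment on `s` -/
def IsoOn (d : ℝ × ℝ → ℝ × ℝ → ℝ) (γ : ℝ → ℝ × ℝ) (s : Set ℝ) : Prop :=
  ∀ t ∈ s, ∀ u ∈ s, t ≤ u → d (γ t) (γ u) = u - t

/-- a `Z^2`-invariant geodesic non-branching distance on the plane, not symmetric in general -/
structure Pl where
  d : ℝ × ℝ → ℝ × ℝ → ℝ
  m : ℝ
  M : ℝ
  m_pos : 0 < m
  tri : ∀ x y z, d x z ≤ d x y + d y z
  low : ∀ x y, m * ‖x - y‖ ≤ d x y
  upp : ∀ x y, d x y ≤ M * ‖x - y‖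
  per : ∀ (i j : ℤ) (x y : ℝ × ℝ), d (x + ((i : ℝ), (j : ℝ))) (y + ((i : ℝ), (j : ℝ))) = d x y
  geo : ∀ x y, ∃ γ : ℝ → ℝ × ℝ, γ 0 = x ∧ γ (d x y) = y ∧ IsoOn d γ (Icc 0 (d x y))
  nb : ∀ (γ γ' : ℝ → ℝ × ℝ) (a m c : ℝ), a < m → m ≤ c → IsoOn d γ (Icc a c) →
    IsoOn d γ' (Icc a c) → (∀ t ∈ Icc a m, γ t = γ' t) → ∀ t ∈ Icc a c, γ t = γ' t
  nb' : ∀ (γ γ' : ℝ → ℝ × ℝ) (a m c : ℝ), a ≤ m → m < c → IsoOn d γ (Icc a c) →
    IsoOn d γ' (Icc a c) → (∀ t ∈ Icc m c, γ t = γ' t) → ∀ t ∈ Icc a c, γ t = γ' t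

namespace Pl

variable (T : Pl)

/-- minimal length in the class `b` -/
def l : ℝ := ⨅ x : ℝ × ℝ, T.d x (x + (1, 0))

/-- `P` is `1`-Lipschitz (in the direction of time) -/
def Lp (P : ℝ → ℝ × ℝ) : Prop := ∀ s t, s ≤ t → T.d (P s) (P t) ≤ t - s

/-- `1`-Lipschitz functions with `B (x + b) = B x + l` -/
def Sub (B : ℝ × ℝ → ℝ) : Prop :=
  (∀ x y, B y - B x ≤ T.d x y) ∧ ∀ x, B (x + (1, 0)) = B x + T.l

/-- closed minimal lines of class `b` -/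
def Cl (G : ℝ → ℝ × ℝ) : Prop :=
  (∀ s t, s ≤ t → T.d (G s) (G t) = t - s) ∧ ∀ t, G (t + T.l) = G t + (1, 0)

/-- `P` is `1`-Lipschitz and calibrated by `B` on `s` -/
def CalOn (B : ℝ × ℝ → ℝ) (P : ℝ → ℝ × ℝ) (s : Set ℝ) : Prop :=
  (∀ t ∈ s, ∀ u ∈ s, t ≤ u → T.d (P t) (P u) ≤ u - t) ∧ ∀ t ∈ s, ∀ u ∈ s, B (P t) - B (P u) = t - u

/-- lines calibrated by all functions `B` with `Sub B` -/
def All (P : ℝ → ℝ × ℝ) : Prop := ∀ B, T.Sub B → T.CalOn B P univ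

/-- Busemann function of the closed line `G` from the left -/
def bus (G : ℝ → ℝ × ℝ) (x : ℝ × ℝ) : ℝ := ⨅ s : ℝ, (s + T.d (G s) x)

/-- Busemann function of the closed line `G` to the right -/
def fus (G : ℝ → ℝ × ℝ) (x : ℝ × ℝ) : ℝ := ⨆ s : ℝ, (s - T.d x (G s))

/-- relative cost from `G` to `H` -/
def En (G H : ℝ → ℝ × ℝ) : ℝ := ⨅ p : ℝ × ℝ, (T.d (G p.1) (H p.2) - (p.2 - p.1))

/-- points on closed minimal lines -/
def D : Set (ℝ × ℝ) := {x | T.d x (x + (1, 0)) = T.l}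

end Pl

end Pool.Agent.EscV
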