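import Pool.Agent.EscV.GBas
import Pool.Agent.EscG.GTopo

set_option autoImplicit false

/-!
# EscV geometry: `d x (x + m b) ≥ m l` (the distance is not symmetric)

Proof. (1) Self-crossing: `P` continuous with `P (t + τ) = P t + (m, 0)`, `m ≥ 1`. `P` is a line and
so is `P' = P + (1, 0)`. If they are disjoint they are ordered (`lt_or_gt`). If `P' ` is above `P`:
let `P t1` be a lowest point of `P` (periodicity); the vertical ray downwards from
`P' t1 = P t1 + (1,0)` (same height) avoids `P`, so `P' t1` is below `P`: contradiction with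
`not_lo_up`. The other case with the highest point. So `P t = P t' + (1, 0)` for some `t, t'`.
(2) Let `L m = min over x of d x (x + (m,0))` and `lam = inf over m >= 1 of L m / m > 0`.
Take for `P` the periodic prolongation of a minimal segment for `L m`, `τ = L m`. This gives
`L m >= F (1 - i m) + F (m - 1 + i m)` for some integer `i`, `F k = L k` for `k >= 0`, `F k = T.m |k|` for
`k < 0`. `i = 0`: `L m >= l + L (m-1)`; `i = -1`: `L m >= L (m+1) + T.m`; other `i`: `L m >= lam (2 m - 1)`,
excluded for all large `m`.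
-/

noncomputable section

open Set Filter Topology

namespace Pool.Agent.EscV

open Pool.Agent.EscG

/-- self-crossing -/
theorem self_cross {P : ℝ → ℝ × ℝ} (hc : Continuous P) {m : ℕ} (hm : 0 < m) {τ : ℝ} (hτ : 0 < τ)
    (hper : ∀ t, P (t + τ) = P t + ((m : ℝ), 0)) : ∃ t t' : ℝ, P t = P t' + (1, 0) := by
  by_contra hcon
  push Not at hcon
  have hm' : (0 : ℝ) < m := by exact_mod_cast hm
  set a : ℝ := m / τ with ha
  have haτ : a * τ = m := by rw [ha]; field_simp
  have ha0 : 0 < a := by positivity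
  -- the two periodic functions
  set u : ℝ → ℝ := fun t => (P t).1 - a * t with hu
  set v : ℝ → ℝ := fun t => (P t).2 with hv
  have hup : Function.Periodic u τ := by
    intro t
    simp only [hu, hper]
    show (P t).1 + m - a * (t + τ) = (P t).1 - a * t
    rw [← haτ]; ring
  have hvp : Function.Periodic v τ := by
    intro t
    simp only [hv, hper]
    show (P t).2 + 0 = (P t).2
    ring
  have huc : Continuous u := by fun_prop
  have hvc : Continuous v := by fun_prop
  have hur := hup.compact_of_continuous hτ.ne' huc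
  have hvr := hvp.compact_of_continuous hτ.ne' hvc
  obtain ⟨C1, hC1⟩ := hur.isBounded.exists_norm_le
  obtain ⟨C2, hC2⟩ := hvr.isBounded.exists_norm_le
  have hC1' : ∀ t, |(P t).1 - a * t| ≤ C1 := fun t => hC1 _ (mem_range_self t)
  have hC2' : ∀ t, |(P t).2| ≤ C2 := fun t => hC2 _ (mem_range_self t)
  have hC10 : 0 ≤ C1 := (abs_nonneg _).trans (hC1' 0)
  have hC20 : 0 ≤ C2 := (abs_nonneg _).trans (hC2' 0)
  set P' : ℝ → ℝ × ℝ := fun t => P t + (1, 0) with hP'
  have hL : IsLine P := by
    refine ⟨a, C1 + C2, ha0, hc, fun t => ⟨(hC1' t).trans (by linarith), (hC2' t).trans (by linarith)⟩⟩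
  have hL' : IsLine P' := by
    refine ⟨a, C1 + C2 + 1, ha0, by fun_prop, fun t => ⟨?_, ?_⟩⟩
    · show |(P t).1 + 1 - a * t| ≤ C1 + C2 + 1
      have := abs_le.1 (hC1' t)
      rw [abs_le]
      constructor <;> linarith [this.1, this.2]
    · show |(P t).2 + 0| ≤ C1 + C2 + 1
      rw [add_zero]
      linarith [hC2' t]
  have hdis : Disjoint (range P) (range P') := by
    rw [disjoint_left]
    rintro _ ⟨t, rfl⟩ ⟨t', ht'⟩
    exact hcon t t' ht'.symm
  have hnot : ∀ t, P' t ∉ range P := fun t ht => disjoint_left.1 hdis ht (mem_range_self t)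
  obtain ⟨_, ⟨t1, rfl⟩, hmin⟩ := hvr.exists_isLeast (range_nonempty v)
  obtain ⟨_, ⟨t2, rfl⟩, hmax⟩ := hvr.exists_isGreatest (range_nonempty v)
  have hmin' : ∀ t, (P t1).2 ≤ (P t).2 := fun t => hmin (mem_range_self t)
  have hmax' : ∀ t, (P t).2 ≤ (P t2).2 := fun t => hmax (mem_range_self t)
  rcases lt_or_gt hL hL' hdis with h | h
  · -- `P' t1` is below `P`
    refine hL.not_lo_up (x := P' t1) ?_ (h.1 t1)
    refine ⟨((P t1).1 + 1, (P t1).2 - 1), ?_, ?_⟩
    · rintro _ ⟨t, rfl⟩
      show (P t1).2 - 1 < (P t).2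
      linarith [hmin' t]
    · have e : P' t1 = ((P t1).1 + 1, (P t1).2) := by
        show P t1 + (1, 0) = _
        ext <;> simp
      rw [e]
      refine GTopo_vert fun y hy => ?_
      have hy1 : y ≤ (P t1).2 := by
        rcases hy with hy | hy
        · linarith [hy.2]
        · exact hy.2
      rintro ⟨t, ht⟩
      have h2 : (P t).2 = y := by rw [ht]
      have h3 : y = (P t1).2 := le_antisymm hy1 (by rw [← h2]; exact hmin' t)
      apply hnot t1
      rw [e, ← h3, ← ht]
      exact mem_range_self t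
  · refine hL.not_lo_up (x := P' t2) (h.2 t2) ?_
    refine ⟨((P t2).1 + 1, (P t2).2 + 1), ?_, ?_⟩
    · rintro _ ⟨t, rfl⟩
      show (P t).2 < (P t2).2 + 1
      linarith [hmax' t]
    · have e : P' t2 = ((P t2).1 + 1, (P t2).2) := by
        show P t2 + (1, 0) = _
        ext <;> simp
      rw [e]
      refine GTopo_vert fun y hy => ?_
      have hy1 : (P t2).2 ≤ y := by
        rcases hy with hy | hy
        · exact hy.1
        · linarith [hy.1]
      rintro ⟨t, ht⟩
      have h2 : (P t).2 = y := by rw [ht]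
      have h3 : y = (P t2).2 := le_antisymm (by rw [← h2]; exact hmax' t) hy1
      apply hnot t2
      rw [e, ← h3, ← ht]
      exact mem_range_self t

theorem GFact1_cast_nonneg {k : ℤ} (hk : 0 ≤ k) : ((k.natAbs : ℕ) : ℝ) = k := by
  rw [← Int.cast_natCast, Int.natAbs_of_nonneg hk]

theorem GFact1_cast_nonpos {k : ℤ} (hk : k ≤ 0) : ((k.natAbs : ℕ) : ℝ) = -(k : ℝ) := by
  rw [← Int.cast_natCast, Int.ofNat_natAbs_of_nonpos hk, Int.cast_neg]

namespace Pl

variable (T : Pl)

theorem GFact1_att (m : ℕ) : ∃ x : ℝ × ℝ, ∀ y : ℝ × ℝ,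
    T.d x (x + ((m : ℝ), 0)) ≤ T.d y (y + ((m : ℝ), 0)) := by
  have hcont : Continuous fun x : ℝ × ℝ => T.d x (x + ((m : ℝ), 0)) :=
    T.cont.comp (by fun_prop : Continuous fun x : ℝ × ℝ => (x, x + ((m : ℝ), (0 : ℝ))))
  have hK : IsCompact (Icc (0 : ℝ) 1 ×ˢ Icc (0 : ℝ) 1) := isCompact_Icc.prod isCompact_Icc
  have hne : (Icc (0 : ℝ) 1 ×ˢ Icc (0 : ℝ) 1).Nonempty := ⟨(0, 0), by simp, by simp⟩
  obtain ⟨x, -, hx⟩ := hK.exists_isMinOn hne hcont.continuousOn
  refine ⟨x, fun y => ?_⟩
  set y0 : ℝ × ℝ := (Int.fract y.1, Int.fract y.2) with hy0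
  have hmem : y0 ∈ Icc (0 : ℝ) 1 ×ˢ Icc (0 : ℝ) 1 :=
    ⟨⟨Int.fract_nonneg _, (Int.fract_lt_one _).le⟩, ⟨Int.fract_nonneg _, (Int.fract_lt_one _).le⟩⟩
  have h1 := hx hmem
  have h2 := T.per ⌊y.1⌋ ⌊y.2⌋ y0 (y0 + ((m : ℝ), 0))
  have e1 : y0 + (((⌊y.1⌋ : ℤ) : ℝ), ((⌊y.2⌋ : ℤ) : ℝ)) = y := by
    ext
    · exact Int.fract_add_floor y.1
    · exact Int.fract_add_floor y.2
  have e2 : y0 + ((m : ℝ), 0) + (((⌊y.1⌋ : ℤ) : ℝ), ((⌊y.2⌋ : ℤ) : ℝ)) = y + ((m : ℝ), 0) := by
    rw [add_right_comm, e1]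
  rw [e1, e2] at h2
  rw [h2]
  exact h1

/-- `d x (x + j v) ≤ j d x (x + v)` for integral `v = (m, 0)` -/
theorem GFact1_mul (x : ℝ × ℝ) (m j : ℕ) :
    T.d x (x + (((j * m : ℕ) : ℝ), 0)) ≤ j * T.d x (x + ((m : ℝ), 0)) := by
  induction j with
  | zero =>
    have e0 : x + ((0 : ℝ), (0 : ℝ)) = x := by ext <;> simp
    simp [e0, T.d_self]
  | succ j ih =>
    have h1 := T.tri x (x + (((j * m : ℕ) : ℝ), 0)) (x + ((((j + 1) * m : ℕ) : ℝ), 0))
    have h2 := T.per ((j * m : ℕ) : ℤ) 0 x (x + ((m : ℝ), 0))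
    have e1 : x + ((m : ℝ), 0) + ((((j * m : ℕ) : ℤ) : ℝ), ((0 : ℤ) : ℝ))
        = x + ((((j + 1) * m : ℕ) : ℝ), 0) := by
      ext
      · simp; ring
      · simp
    have e2 : x + ((((j * m : ℕ) : ℤ) : ℝ), ((0 : ℤ) : ℝ)) = x + (((j * m : ℕ) : ℝ), 0) := by
      ext <;> simp
    rw [e1, e2] at h2
    rw [h2] at h1
    push_cast at h1 ih ⊢
    linarith

theorem fact1 (m : ℕ) (x : ℝ × ℝ) : m * T.l ≤ T.d x (x + ((m : ℝ), 0)) := by
  choose X hX using T.GFact1_att
  set L : ℕ → ℝ := fun m => T.d (X m) (X m + ((m : ℝ), 0)) with hL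
  have L_le : ∀ (m : ℕ) (y : ℝ × ℝ), L m ≤ T.d y (y + ((m : ℝ), 0)) := fun m y => hX m y
  have L0 : L 0 = 0 := by
    have e0 : X 0 + ((0 : ℝ), (0 : ℝ)) = X 0 := by ext <;> simp
    simp [hL, e0, T.d_self]
  have L_nn : ∀ m, 0 ≤ L m := fun m => T.d_nonneg _ _
  have L_low : ∀ m : ℕ, T.m * m ≤ L m := by
    intro m
    have h1 := T.low (X m) (X m + ((m : ℝ), 0))
    have h2 : ‖X m - (X m + ((m : ℝ), 0))‖ = m := by
      have : X m - (X m + ((m : ℝ), 0)) = (-(m : ℝ), 0) := by ext <;> simp
      rw [this, Prod.norm_mk]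
      simp
    rwa [h2] at h1
  have L1 : L 1 = T.l := by
    apply le_antisymm
    · obtain ⟨y, hy⟩ := T.l_att
      rw [← hy]
      have := L_le 1 y
      simpa using this
    · have := T.l_le (X 1)
      simpa [hL] using this
  have l_pos := T.l_pos
  -- integers
  set F : ℤ → ℝ := fun k => if 0 ≤ k then L k.natAbs else T.m * |(k : ℝ)| with hF
  have F_int : ∀ (k : ℤ) (y : ℝ × ℝ), F k ≤ T.d y (y + ((k : ℝ), 0)) := by
    intro k y
    by_cases hk : 0 ≤ k
    · have h1 := L_le k.natAbs y
      have h2 : ((k.natAbs : ℕ) : ℝ) = (k : ℝ) := GFact1_cast_nonneg hk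
      rw [h2] at h1
      simp only [hF, if_pos hk]
      exact h1
    · have h1 := T.low y (y + ((k : ℝ), 0))
      have h2 : ‖y - (y + ((k : ℝ), 0))‖ = |(k : ℝ)| := by
        have : y - (y + ((k : ℝ), 0)) = (-(k : ℝ), 0) := by ext <;> simp
        rw [this, Prod.norm_mk]
        simp
      rw [h2] at h1
      simp only [hF, if_neg hk]
      exact h1
  have F_nn : ∀ k, 0 ≤ F k := by
    intro k
    by_cases hk : 0 ≤ k
    · simp only [hF, if_pos hk]
      exact L_nn _
    · simp only [hF, if_neg hk]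
      exact mul_nonneg T.m_pos.le (abs_nonneg _)
  -- the key inequality
  have key : ∀ m : ℕ, 0 < m → ∃ i : ℤ,
      F (1 - i * m) + F ((m : ℤ) - 1 + i * m) ≤ L m := by
    intro m hm
    have hm0 : (0 : ℝ) < m := by exact_mod_cast hm
    obtain ⟨P, hP0, hPper, hPlip, -⟩ := T.ext (X m) m 0 (by
      intro h
      have := congrArg Prod.fst h
      simp at this
      omega)
    have hτe : T.d (X m) (X m + ((((m : ℤ)) : ℝ), (((0 : ℤ)) : ℝ))) = L m := by
      simp [hL]
    rw [hτe] at hPper
    have hτ : 0 < L m := lt_of_lt_of_le (mul_pos T.m_pos hm0) (L_low m)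
    have hPc : Continuous P := Lp.cont hPlip
    have hper : ∀ t, P (t + L m) = P t + ((m : ℝ), 0) := by
      intro t
      rw [hPper]
      simp
    have hperZ : ∀ (i : ℤ) (t : ℝ), P (t + i * L m) = P t + ((i * m : ℝ), 0) := by
      have hnat : ∀ (n : ℕ) (t : ℝ), P (t + n * L m) = P t + ((n * m : ℝ), 0) := by
        intro n
        induction n with
        | zero => intro t; ext <;> simp
        | succ n ih =>
          intro t
          have e : t + ((n + 1 : ℕ) : ℝ) * L m = (t + n * L m) + L m := by push_cast; ring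
          rw [e, hper, ih]
          ext
          · simp; ring
          · simp
      intro i t
      rcases Int.eq_nat_or_neg i with ⟨n, rfl | rfl⟩
      · have := hnat n t
        simpa using this
      · have h1 := hnat n (t + ((-(n : ℤ) : ℤ) : ℝ) * L m)
        have e : t + ((-(n : ℤ) : ℤ) : ℝ) * L m + n * L m = t := by push_cast; ring
        rw [e] at h1
        rw [h1]
        ext
        · simp
        · simp
    obtain ⟨t, t', htt⟩ := self_cross hPc hm hτ hper
    set i : ℤ := ⌊(t - t') / L m⌋ with hi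
    refine ⟨i, ?_⟩
    set t0 : ℝ := t - i * L m with ht0
    have h1 : t' ≤ t0 := by
      have := Int.floor_le ((t - t') / L m)
      rw [← hi, le_div_iff₀ hτ] at this
      rw [ht0]; linarith
    have h2 : t0 ≤ t' + L m := by
      have := Int.lt_floor_add_one ((t - t') / L m)
      rw [← hi, div_lt_iff₀ hτ] at this
      rw [ht0]; linarith
    have hPt0 : P t0 = P t' + (((1 - i * m : ℤ) : ℝ), 0) := by
      have h3 := hperZ (-i) t
      have e : t + ((-i : ℤ) : ℝ) * L m = t0 := by rw [ht0]; push_cast; ring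
      rw [e, htt] at h3
      rw [h3]
      ext
      · simp; ring
      · simp
    have hPe : P (t' + L m) = P t0 + ((((m : ℤ) - 1 + i * m : ℤ) : ℝ), 0) := by
      rw [hper, hPt0]
      ext
      · simp; ring
      · simp
    have h4 := F_int (1 - i * m) (P t')
    have h5 := F_int ((m : ℤ) - 1 + i * m) (P t0)
    rw [← hPt0] at h4
    rw [← hPe] at h5
    have h6 := hPlip t' t0 h1
    have h7 := hPlip t0 (t' + L m) h2
    linarith
  -- the infimum of `L m / m`
  set lam : ℝ := ⨅ n : ℕ, L (n + 1) / (n + 1) with hlam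
  have hbdd : BddBelow (range fun n : ℕ => L (n + 1) / ((n : ℝ) + 1)) :=
    ⟨0, by rintro _ ⟨n, rfl⟩; exact div_nonneg (L_nn _) (by positivity)⟩
  have lam_pos : 0 < lam := by
    refine lt_of_lt_of_le T.m_pos (le_ciInf fun n => ?_)
    rw [le_div_iff₀ (by positivity)]
    have := L_low (n + 1)
    push_cast at this
    exact this
  have lam_le : ∀ n : ℕ, lam * n ≤ L n := by
    intro n
    rcases Nat.eq_zero_or_pos n with rfl | hn
    · simp [L0]
    · obtain ⟨k, rfl⟩ := Nat.exists_eq_succ_of_ne_zero hn.ne'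
      have h1 : lam ≤ L (k + 1) / ((k : ℝ) + 1) := ciInf_le hbdd k
      rw [le_div_iff₀ (by positivity)] at h1
      push_cast
      exact h1
  obtain ⟨k0, hk0⟩ : ∃ k : ℕ, L (k + 1) / ((k : ℝ) + 1) < lam + lam / 2 :=
    exists_lt_of_ciInf_lt (by linarith)
  set m0 : ℕ := k0 + 1 with hm0
  have hm0p : 0 < m0 := Nat.succ_pos _
  have hk0' : L m0 ≤ (3 / 2 * lam) * m0 := by
    rw [div_lt_iff₀ (by positivity)] at hk0
    have : ((m0 : ℕ) : ℝ) = (k0 : ℝ) + 1 := by rw [hm0]; push_cast; ring
    rw [this]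
    linarith
  have growth : ∀ n : ℕ, L n ≤ (3 / 2 * lam) * n + T.M * m0 := by
    intro n
    have h1 := L_le n (X m0)
    have hdiv : n = n / m0 * m0 + n % m0 := (Nat.div_add_mod' n m0).symm
    have h2 := T.GFact1_mul (X m0) m0 (n / m0)
    have h3 := T.tri (X m0) (X m0 + (((n / m0 * m0 : ℕ) : ℝ), 0)) (X m0 + ((n : ℝ), 0))
    have h4 := T.upp (X m0 + (((n / m0 * m0 : ℕ) : ℝ), 0)) (X m0 + ((n : ℝ), 0))
    have hn : (n : ℝ) = ((n / m0 * m0 : ℕ) : ℝ) + ((n % m0 : ℕ) : ℝ) := by
      exact_mod_cast hdiv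
    have h5 : ‖X m0 + (((n / m0 * m0 : ℕ) : ℝ), 0) - (X m0 + ((n : ℝ), 0))‖
        = ((n % m0 : ℕ) : ℝ) := by
      have e : X m0 + (((n / m0 * m0 : ℕ) : ℝ), (0 : ℝ)) - (X m0 + ((n : ℝ), 0))
          = (-(((n % m0 : ℕ)) : ℝ), 0) := by
        rw [hn]
        ext <;> simp
      rw [e, Prod.norm_mk]
      simp
    rw [h5] at h4
    have h6 : ((n % m0 : ℕ) : ℝ) ≤ m0 := by exact_mod_cast (Nat.mod_lt n hm0p).le
    have hM := T.M_pos
    have h7 : T.M * ((n % m0 : ℕ) : ℝ) ≤ T.M * m0 := mul_le_mul_of_nonneg_left h6 hM.le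
    have h8 : ((n / m0 : ℕ) : ℝ) * L m0 ≤ (3 / 2 * lam) * ((n / m0 * m0 : ℕ) : ℝ) := by
      have := mul_le_mul_of_nonneg_left hk0' (Nat.cast_nonneg (α := ℝ) (n / m0))
      push_cast
      linarith
    have h9 : (3 / 2 * lam) * ((n / m0 * m0 : ℕ) : ℝ) ≤ (3 / 2 * lam) * n := by
      apply mul_le_mul_of_nonneg_left _ (by positivity)
      rw [hn]
      have : (0 : ℝ) ≤ ((n % m0 : ℕ) : ℝ) := Nat.cast_nonneg _
      linarith
    have h10 : T.d (X m0) (X m0 + ((m0 : ℝ), 0)) = L m0 := rfl
    rw [h10] at h2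
    linarith
  -- large `m`
  obtain ⟨m1, hm1⟩ := exists_nat_gt ((T.M * m0 + lam) / (1 / 2 * lam))
  have hm1' : T.M * m0 + lam < (1 / 2 * lam) * m1 := by
    rw [div_lt_iff₀ (by positivity)] at hm1
    linarith
  have hm1pos : 0 < m1 := by
    rcases Nat.eq_zero_or_pos m1 with h | h
    · exfalso
      rw [h] at hm1'
      have hM := T.M_pos
      have : 0 ≤ T.M * m0 := by positivity
      simp at hm1'
      linarith
    · exact h
  have dich : ∀ m : ℕ, m1 ≤ m → T.l + L (m - 1) ≤ L m ∨ L (m + 1) + T.m ≤ L m := by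
    intro m hm
    have hmp : 0 < m := lt_of_lt_of_le hm1pos hm
    obtain ⟨i, hi⟩ := key m hmp
    have hmR : (m1 : ℝ) ≤ m := by exact_mod_cast hm
    have hbig : ¬ lam * (2 * m - 1) ≤ L m := by
      intro h
      have h1 := growth m
      have h2 : (1 / 2 * lam) * (m1 : ℝ) ≤ (1 / 2 * lam) * m :=
        mul_le_mul_of_nonneg_left hmR (by positivity)
      linarith
    have hcases : i = 0 ∨ i = -1 ∨ 1 ≤ i ∨ i ≤ -2 := by omega
    have hmZ : (1 : ℤ) ≤ m := by exact_mod_cast hmp
    have n1 := F_nn (1 - i * m)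
    have n2 := F_nn ((m : ℤ) - 1 + i * m)
    rcases hcases with h | h | h | h
    · left
      subst h
      have e1 : F (1 - (0 : ℤ) * m) = T.l := by
        have : (1 - (0 : ℤ) * m) = 1 := by ring
        rw [this]
        simp only [hF]
        rw [if_pos (by norm_num)]
        exact L1
      have e2 : F ((m : ℤ) - 1 + 0 * m) = L (m - 1) := by
        simp only [hF]
        rw [if_pos (by omega)]
        congr 1
        omega
      rw [e1, e2] at hi
      exact hi
    · right
      subst h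
      have e1 : F (1 - (-1 : ℤ) * m) = L (m + 1) := by
        simp only [hF]
        rw [if_pos (by omega)]
        congr 1
        omega
      have e2 : F ((m : ℤ) - 1 + (-1) * m) = T.m := by
        have : ((m : ℤ) - 1 + (-1) * m) = -1 := by ring
        rw [this]
        simp only [hF]
        rw [if_neg (by norm_num)]
        simp
      rw [e1, e2] at hi
      exact hi
    · exfalso
      apply hbig
      have hge : (m : ℤ) ≤ i * m := by nlinarith
      have h2 := lam_le ((m : ℤ) - 1 + i * m).natAbs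
      have e2 : ((((m : ℤ) - 1 + i * m).natAbs : ℕ) : ℝ) = (m - 1 + i * m : ℝ) := by
        rw [GFact1_cast_nonneg (by linarith)]; push_cast; ring
      have e3 : F ((m : ℤ) - 1 + i * m) = L ((m : ℤ) - 1 + i * m).natAbs := by
        simp only [hF]
        rw [if_pos (by linarith)]
      rw [e2] at h2
      have hgeR : (m : ℝ) ≤ i * m := by exact_mod_cast hge
      have h3 : lam * (2 * m - 1) ≤ lam * (m - 1 + i * m) := by
        apply mul_le_mul_of_nonneg_left _ lam_pos.le
        linarith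
      linarith
    · exfalso
      apply hbig
      have h1 := lam_le (1 - i * m).natAbs
      have hge : i * m ≤ -2 * m := by nlinarith
      have e1 : (((1 - i * m).natAbs : ℕ) : ℝ) = (1 - i * m : ℝ) := by
        rw [GFact1_cast_nonneg (by linarith)]; push_cast; ring
      have e3 : F (1 - i * m) = L (1 - i * m).natAbs := by
        simp only [hF]
        rw [if_pos (by linarith)]
      rw [e1] at h1
      have hgeR : (i : ℝ) * m ≤ -2 * m := by exact_mod_cast hge
      have h3 : lam * (2 * m - 1) ≤ lam * (1 - i * m) := by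
        apply mul_le_mul_of_nonneg_left _ lam_pos.le
        linarith
      linarith
  -- the second alternative is impossible
  have first : ∀ m : ℕ, m1 ≤ m → T.l + L (m - 1) ≤ L m := by
    intro m hm
    rcases dich m hm with h | h
    · exact h
    · exfalso
      have m_pos := T.m_pos
      have hall : ∀ j : ℕ, L (m + j + 1) + T.m ≤ L (m + j) := by
        intro j
        induction j with
        | zero => exact h
        | succ j ih =>
          rcases dich (m + (j + 1)) (by omega) with h' | h'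
          · exfalso
            have e : m + (j + 1) - 1 = m + j := by omega
            rw [e] at h'
            have e' : m + j + 1 = m + (j + 1) := by omega
            rw [e'] at ih
            linarith
          · exact h'
      have hsum : ∀ j : ℕ, L (m + j) + j * T.m ≤ L m := by
        intro j
        induction j with
        | zero => simp
        | succ j ih =>
          have := hall j
          have e' : m + j + 1 = m + (j + 1) := by omega
          rw [e'] at this
          push_cast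
          linarith
      obtain ⟨j, hj⟩ := exists_nat_gt (L m / T.m)
      rw [div_lt_iff₀ m_pos] at hj
      have := hsum j
      have h0 := L_nn (m + j)
      linarith
  have lin : ∀ i : ℕ, i * T.l ≤ L (m1 + i) := by
    intro i
    induction i with
    | zero => simpa using L_nn m1
    | succ i ih =>
      have := first (m1 + (i + 1)) (by omega)
      have e : m1 + (i + 1) - 1 = m1 + i := by omega
      rw [e] at this
      push_cast
      linarith
  -- conclusion
  rcases Nat.eq_zero_or_pos m with rfl | hm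
  · simpa using T.d_nonneg x _
  by_contra hcon
  push Not at hcon
  set D : ℝ := T.d x (x + ((m : ℝ), 0)) with hD
  obtain ⟨j, hj⟩ := exists_nat_gt (m1 * T.l / (m * T.l - D))
  rw [div_lt_iff₀ (by linarith)] at hj
  have hjp : 0 < j := by
    rcases Nat.eq_zero_or_pos j with h | h
    · exfalso
      rw [h] at hj
      simp at hj
      have : 0 ≤ m1 * T.l := by positivity
      linarith
    · exact h
  -- take `J = j + m1` to have `J m ≥ m1`
  have h1 := T.GFact1_mul x m (j + m1)
  have h2 := L_le ((j + m1) * m) x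
  have hge : m1 ≤ (j + m1) * m := by nlinarith
  obtain ⟨i, hi⟩ := Nat.exists_eq_add_of_le hge
  have h3 := lin i
  rw [← hi] at h3
  have hiR : (i : ℝ) = (j + m1) * m - m1 := by
    have : (((j + m1) * m : ℕ) : ℝ) = ((m1 + i : ℕ) : ℝ) := by rw [hi]
    push_cast at this
    linarith
  rw [hiR] at h3
  have h4 : ((j : ℝ) + m1) * D ≥ ((j + m1) * m - m1) * T.l := by
    have e : ((j + m1 : ℕ) : ℝ) = (j : ℝ) + m1 := by push_cast; ring
    rw [e] at h1
    linarith
  have h5 : (m1 : ℝ) * (m * T.l - D) ≥ 0 := mul_nonneg (Nat.cast_nonneg _) (by linarith)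
  nlinarith

end Pl

end Pool.Agent.EscV
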