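import Pool.Agent.EscV.GAdj
import Pool.Agent.EscV.GMax
import Pool.Agent.EscV.GStep3

set_option autoImplicit false

/-!
# EscG geometry: the points of the open gap are not static

`kappa_pos`: `step3` (with `p ∉ D`) gives `0 < En G0 G1 + En G1 G0`, and `UV.kappa_le`.
`am_lt_ap`: `G0 + (0,1)` is a closed line above `G0` (`Cl.lt_up`), so by `Adj.all` it is `G1` or above
`G1`, so `¬ Lo (range G1) (G0 0 + (0,1))` and `W (G1 0) ≤ W (G0 0 + (0,1)) = W (G0 0) + ap - am`.
`nonstatic`: let `a = (ap + am) / 2`. If there is no `r`, there are `(i_n, j_n) ≠ 0` with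
`D_n - i_n l - j_n a → 0`, `D_n = d x (x + (i_n, j_n))`. Let `P_n` be the periodic prolongation
(`Pl.ext`). The function `t - U (P_n t)` is monotone and grows by `D_n - (i_n l + j_n ap)` over one
period, in the same way for `V`; both numbers are `≥ 0` and their sum tends to `0`. As `D_n ≥ m`, the
limit `P` is calibrated by `U` and `V`. `UV.exists_above`: `G ≥ P`, closed, same `W`; by `Adj.all` `G`
is `G1` or above `G1`, so `W (G1 0) ≤ W (P 0)` (`ge_of`); in the same way `W (P 0) ≤ W (G0 0)`: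
contradiction with `kappa_pos`.
-/

noncomputable section

open Set Filter Topology

namespace Pool.Agent.EscV

open Pool.Agent.EscG

namespace Pl

variable {T : Pl} {U V : ℝ × ℝ → ℝ} {ap am : ℝ} {G0 G1 : ℝ → ℝ × ℝ} {p : ℝ × ℝ}

theorem Adj.kappa_pos (h : T.Adj G0 G1 p) (hUV : UV T U V ap am) :
    U (G0 0) - V (G0 0) < U (G1 0) - V (G1 0) := by
  have h1 := hUV.kappa_le h.cl0 h.cl1 h.lt
  by_contra hcon
  exact h.notMem (step3 h.cl0 h.cl1 h.lt (by linarith) h.up h.lo)

/-- a closed line which coincides with `G1` or is above `G1` -/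
theorem GStat_not_lo {G : ℝ → ℝ × ℝ} (h1 : T.Cl G1) (hG : range G = range G1 ∨ Lt G1 G) :
    ¬ Lo (range G1) (G 0) := by
  intro hlo
  rcases hG with hG | hG
  · exact hlo.notMem (hG ▸ mem_range_self 0)
  · exact h1.isLine.not_lo_up hlo (hG.1 0)

theorem GStat_not_up {G : ℝ → ℝ × ℝ} (h0 : T.Cl G0) (hG : range G = range G0 ∨ Lt G G0) :
    ¬ Up (range G0) (G 0) := by
  intro hup
  rcases hG with hG | hG
  · exact hup.notMem (hG ▸ mem_range_self 0)
  · exact h0.isLine.not_lo_up (hG.2 0) hup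

theorem Adj.am_lt_ap (h : T.Adj G0 G1 p) (hUV : UV T U V ap am) : am < ap := by
  have hcl : T.Cl (fun t => G0 t + (0, 1)) := by
    have := h.cl0.translate 0 1
    simpa using this
  have hlt := h.cl0.lt_up
  have h1 : range (fun t => G0 t + (0, 1)) = range G1 ∨ Lt G1 (fun t => G0 t + (0, 1)) := by
    rcases h.all _ hcl with (h2 | h2) | h2
    · exfalso
      have h3 := hlt.disjoint
      rw [h2] at h3
      exact disjoint_left.1 h3 (mem_range_self 0) (mem_range_self 0)
    · exact absurd h2 (Lt.asymm h.cl0.isLine hlt)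
    · exact h2
  have h2 := hUV.ge_of h.cl1 (GStat_not_lo h.cl1 h1)
  have h3 := h.kappa_pos hUV
  rw [hUV.gU, hUV.gV] at h2
  linarith

/-- growth by integer vectors -/
theorem GStat_int {B : ℝ × ℝ → ℝ} {a : ℝ} (hB : T.Sub B) (hg : ∀ x, B (x + (0, 1)) = B x + a)
    (x : ℝ × ℝ) (i j : ℤ) : B (x + ((i : ℝ), (j : ℝ))) = B x + (i * T.l + j * a) := by
  have h1 : ∀ j : ℤ, ∀ x, B (x + (0, (j : ℝ))) = B x + j * a := by
    intro j
    induction j using Int.induction_on with
    | zero =>
      intro x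
      have e : x + ((0 : ℝ), (((0 : ℤ)) : ℝ)) = x := by ext <;> simp
      rw [e]
      simp
    | succ i ih =>
      intro x
      have e : x + ((0 : ℝ), (((i : ℤ) + 1 : ℤ) : ℝ)) = (x + (0, ((i : ℤ) : ℝ))) + (0, 1) := by
        ext <;> push_cast <;> simp [add_assoc]
      rw [e, hg, ih]
      push_cast
      ring
    | pred i ih =>
      intro x
      have e : x + ((0 : ℝ), (((-(i : ℤ) : ℤ) : ℝ))) = (x + (0, ((-(i : ℤ) - 1 : ℤ) : ℝ))) + (0, 1) := by
        ext <;> push_cast <;> simp [add_assoc]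
      have h2 := ih x
      rw [e, hg] at h2
      push_cast at h2 ⊢
      linarith
  have e : x + ((i : ℝ), (j : ℝ)) = (x + ((i : ℝ), 0)) + (0, (j : ℝ)) := by
    ext <;> simp
  rw [e, h1, hB.int]
  ring

/-- a monotone function which grows by `e` over one period is nearly constant on bounded intervals -/
theorem GStat_mono {φ : ℝ → ℝ} (hφ : Monotone φ) {D e : ℝ} (hper : ∀ t, φ (t + D) = φ t + e)
    {m : ℝ} (hD : m ≤ D) (k : ℕ) {s t : ℝ} (hs : |s| ≤ k * m) (ht : |t| ≤ k * m) :
    |φ t - φ s| ≤ 2 * k * e := by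
  have h1 : ∀ (k : ℕ) (t : ℝ), φ (t + k * D) = φ t + k * e := by
    intro k
    induction k with
    | zero => intro t; simp
    | succ k ih =>
      intro t
      have : t + ((k + 1 : ℕ) : ℝ) * D = (t + k * D) + D := by push_cast; ring
      rw [this, hper, ih]
      push_cast
      ring
  have h2 : φ (k * D) = φ 0 + k * e := by have := h1 k 0; rwa [zero_add] at this
  have h3 : φ 0 = φ (-(k * D)) + k * e := by
    have := h1 k (-(k * D))
    rwa [neg_add_cancel] at this
  have hkD : (k : ℝ) * m ≤ k * D := mul_le_mul_of_nonneg_left hD (Nat.cast_nonneg k)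
  have h4 : ∀ u, |u| ≤ k * m → φ (-(k * D)) ≤ φ u ∧ φ u ≤ φ (k * D) := by
    intro u hu
    obtain ⟨hu1, hu2⟩ := abs_le.1 hu
    exact ⟨hφ (by linarith), hφ (by linarith)⟩
  obtain ⟨h5, h6⟩ := h4 s hs
  obtain ⟨h7, h8⟩ := h4 t ht
  rw [abs_le]
  constructor <;> linarith

/-- the sequence of nearly calibrated curves has a calibrated limit -/
theorem GStat_lim {B : ℝ × ℝ → ℝ} (hB : ∀ x y, B y - B x ≤ T.d x y) {P : ℕ → ℝ → ℝ × ℝ}
    {Q : ℝ → ℝ × ℝ} {D e : ℕ → ℝ}
    (hlip : ∀ n, T.Lp (P n))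
    (hper : ∀ n t, B (P n (t + D n)) = B (P n t) + (D n - e n)) (hD : ∀ n, T.m ≤ D n)
    (he : Tendsto e atTop (𝓝 0)) (hQ : ∀ t, Tendsto (fun n => P n t) atTop (𝓝 (Q t)))
    (hQl : T.Lp Q) : T.CalOn B Q univ := by
  refine ⟨fun t _ u _ => hQl t u, fun t _ u _ => ?_⟩
  have hBc := T.continuous_of hB
  have h1 : ∀ t, Tendsto (fun n => B (P n t)) atTop (𝓝 (B (Q t))) := fun t =>
    (hBc.tendsto _).comp (hQ t)
  obtain ⟨k, hk⟩ : ∃ k : ℕ, max |t| |u| / T.m ≤ k := exists_nat_ge _
  have hk' : max |t| |u| ≤ k * T.m := by rwa [div_le_iff₀ T.m_pos] at hk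
  have h2 : Tendsto (fun n => (t - B (P n t)) - (u - B (P n u))) atTop (𝓝 0) := by
    refine squeeze_zero_norm (a := fun n => 2 * k * e n) (fun n => ?_) ?_
    · rw [Real.norm_eq_abs]
      refine GStat_mono (φ := fun t => t - B (P n t)) (D := D n) ?_ ?_ (hD n) k
        ((le_max_right _ _).trans hk') ((le_max_left _ _).trans hk')
      · intro s t hst
        have h3 := hB (P n s) (P n t)
        have h4 := hlip n s t hst
        show s - B (P n s) ≤ t - B (P n t)
        linarith
      · intro t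
        show t + D n - B (P n (t + D n)) = t - B (P n t) + e n
        rw [hper]
        ring
    · have := he.const_mul (2 * (k : ℝ))
      rwa [mul_zero] at this
  have h3 : Tendsto (fun n => (t - B (P n t)) - (u - B (P n u))) atTop
      (𝓝 ((t - B (Q t)) - (u - B (Q u)))) :=
    (tendsto_const_nhds.sub (h1 t)).sub (tendsto_const_nhds.sub (h1 u))
  have h4 := tendsto_nhds_unique h2 h3
  linarith

theorem Adj.nonstatic (h : T.Adj G0 G1 p) (hUV : UV T U V ap am) {x : ℝ × ℝ}
    (hx0 : Up (range G0) x) (hx1 : Lo (range G1) x) : ∃ r > 0, ∀ i j : ℤ, (i, j) ≠ (0, 0) →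
      i * T.l + j * ((ap + am) / 2) + r ≤ T.d x (x + ((i : ℝ), (j : ℝ))) := by
  by_contra hcon
  push Not at hcon
  -- the sequence
  have hseq : ∀ n : ℕ, ∃ ij : ℤ × ℤ, ij ≠ (0, 0) ∧
      T.d x (x + ((ij.1 : ℝ), (ij.2 : ℝ))) < ij.1 * T.l + ij.2 * ((ap + am) / 2) + 1 / ((n : ℝ) + 1) := by
    intro n
    obtain ⟨i, j, hij, h1⟩ := hcon (1 / ((n : ℝ) + 1)) (by positivity)
    exact ⟨(i, j), hij, h1⟩
  choose c hc0 hc1 using hseq
  choose P hP0 hPper hPlip _ using fun n => T.ext x (c n).1 (c n).2 (hc0 n)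
  set D : ℕ → ℝ := fun n => T.d x (x + (((c n).1 : ℝ), ((c n).2 : ℝ))) with hD
  have hDm : ∀ n, T.m ≤ D n := by
    intro n
    have h1 := T.low x (x + (((c n).1 : ℝ), ((c n).2 : ℝ)))
    have h2 : (1 : ℝ) ≤ ‖x - (x + (((c n).1 : ℝ), ((c n).2 : ℝ)))‖ := by
      rw [sub_add_cancel_left, norm_neg, Prod.norm_def, le_max_iff]
      show (1 : ℝ) ≤ ‖((c n).1 : ℝ)‖ ∨ (1 : ℝ) ≤ ‖((c n).2 : ℝ)‖
      rw [Real.norm_eq_abs, Real.norm_eq_abs]
      by_cases h3 : (c n).1 = 0
      · right
        have h4 : (c n).2 ≠ 0 := fun h4 => hc0 n (Prod.ext h3 h4)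
        exact_mod_cast Int.one_le_abs h4
      · left
        exact_mod_cast Int.one_le_abs h3
    have h3 := T.m_pos
    have h4 : T.m * 1 ≤ T.m * ‖x - (x + (((c n).1 : ℝ), ((c n).2 : ℝ)))‖ :=
      mul_le_mul_of_nonneg_left h2 h3.le
    show T.m ≤ T.d x (x + (((c n).1 : ℝ), ((c n).2 : ℝ)))
    linarith
  have hlim0 : Tendsto (fun n : ℕ => 2 * (1 / ((n : ℝ) + 1))) atTop (𝓝 0) := by
    have := (tendsto_one_div_add_atTop_nhds_zero_nat (𝕜 := ℝ)).const_mul 2
    rwa [mul_zero] at this
  set eU : ℕ → ℝ := fun n => D n - ((c n).1 * T.l + (c n).2 * ap) with heU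
  set eV : ℕ → ℝ := fun n => D n - ((c n).1 * T.l + (c n).2 * am) with heV
  have heU0 : ∀ n, 0 ≤ eU n := by
    intro n
    have h1 := hUV.subU.1 x (x + (((c n).1 : ℝ), ((c n).2 : ℝ)))
    rw [GStat_int hUV.subU hUV.gU] at h1
    show 0 ≤ T.d x (x + (((c n).1 : ℝ), ((c n).2 : ℝ))) - ((c n).1 * T.l + (c n).2 * ap)
    linarith
  have heV0 : ∀ n, 0 ≤ eV n := by
    intro n
    have h1 := hUV.subV.1 x (x + (((c n).1 : ℝ), ((c n).2 : ℝ)))
    rw [GStat_int hUV.subV hUV.gV] at h1
    show 0 ≤ T.d x (x + (((c n).1 : ℝ), ((c n).2 : ℝ))) - ((c n).1 * T.l + (c n).2 * am)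
    linarith
  have hsum : ∀ n, eU n + eV n ≤ 2 * (1 / ((n : ℝ) + 1)) := by
    intro n
    have h1 := hc1 n
    show T.d x (x + (((c n).1 : ℝ), ((c n).2 : ℝ))) - ((c n).1 * T.l + (c n).2 * ap) +
      (T.d x (x + (((c n).1 : ℝ), ((c n).2 : ℝ))) - ((c n).1 * T.l + (c n).2 * am)) ≤ _
    linarith
  have heUt : Tendsto eU atTop (𝓝 0) :=
    squeeze_zero heU0 (fun n => by linarith [hsum n, heV0 n]) hlim0
  have heVt : Tendsto eV atTop (𝓝 0) :=
    squeeze_zero heV0 (fun n => by linarith [hsum n, heU0 n]) hlim0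
  -- the limit
  obtain ⟨φ, hφ, Q, hQ, hQl⟩ := T.exists_lim (P := P) hPlip (C := ‖x‖) (fun n => by rw [hP0])
  have hQ0 : Q 0 = x := by
    have h1 := hQ 0
    have h2 : (fun n => P (φ n) 0) = fun _ => x := by
      funext n
      exact hP0 _
    rw [h2] at h1
    exact (tendsto_nhds_unique h1 tendsto_const_nhds)
  have hU : T.CalOn U Q univ := by
    refine GStat_lim hUV.subU.1 (P := fun n => P (φ n)) (D := fun n => D (φ n))
      (e := fun n => eU (φ n)) (fun n => hPlip _) ?_ (fun n => hDm _)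
      (heUt.comp hφ.tendsto_atTop) hQ hQl
    intro n t
    show U (P (φ n) (t + T.d x (x + (((c (φ n)).1 : ℝ), ((c (φ n)).2 : ℝ))))) = _
    rw [hPper, GStat_int hUV.subU hUV.gU]
    simp only [heU]
    ring
  have hV : T.CalOn V Q univ := by
    refine GStat_lim hUV.subV.1 (P := fun n => P (φ n)) (D := fun n => D (φ n))
      (e := fun n => eV (φ n)) (fun n => hPlip _) ?_ (fun n => hDm _)
      (heVt.comp hφ.tendsto_atTop) hQ hQl
    intro n t
    show V (P (φ n) (t + T.d x (x + (((c (φ n)).1 : ℝ), ((c (φ n)).2 : ℝ))))) = _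
    rw [hPper, GStat_int hUV.subV hUV.gV]
    simp only [heV]
    ring
  have hpm := h.am_lt_ap hUV
  have hQline : IsLine Q := hUV.isLine hU
  -- above
  have habove : U (G1 0) - V (G1 0) ≤ U (Q 0) - V (Q 0) := by
    obtain ⟨G, hG, hGQ, hW⟩ := hUV.exists_above hpm hU hV
    have h1 : range G = range G1 ∨ Lt G1 G := by
      rcases h.all G hG with h2 | h2
      · exfalso
        have h3 : ¬ Up (range G0) x := by
          intro hup
          rcases h2 with h2 | h2
          · rcases hGQ with h4 | h4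
            · apply hup.notMem
              rw [← h2, h4, ← hQ0]
              exact mem_range_self 0
            · have h5 := h4.2 0
              rw [h2, hQ0] at h5
              exact h.cl0.isLine.not_lo_up h5 hup
          · rcases hGQ with h4 | h4
            · have h5 : x ∈ range G := by
                rw [h4, ← hQ0]
                exact mem_range_self 0
              obtain ⟨t, ht⟩ := h5
              have h6 := h2.2 t
              rw [ht] at h6
              exact h.cl0.isLine.not_lo_up h6 hup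
            · have h5 := (Lt.trans hQline hG.isLine h.cl0.isLine h4 h2).2 0
              rw [hQ0] at h5
              exact h.cl0.isLine.not_lo_up h5 hup
        exact h3 hx0
      · exact h2
    have h2 := hUV.ge_of h.cl1 (GStat_not_lo h.cl1 h1)
    rwa [hW] at h2
  have hunder : U (Q 0) - V (Q 0) ≤ U (G0 0) - V (G0 0) := by
    obtain ⟨G, hG, hGQ, hW⟩ := hUV.exists_under hpm hU hV
    have h1 : range G = range G0 ∨ Lt G G0 := by
      rcases h.all G hG with h2 | h2
      · exact h2
      · exfalso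
        have h3 : ¬ Lo (range G1) x := by
          intro hlo
          rcases h2 with h2 | h2
          · rcases hGQ with h4 | h4
            · apply hlo.notMem
              rw [← h2, h4, ← hQ0]
              exact mem_range_self 0
            · have h5 := h4.1 0
              rw [h2, hQ0] at h5
              exact h.cl1.isLine.not_lo_up hlo h5
          · rcases hGQ with h4 | h4
            · have h5 : x ∈ range G := by
                rw [h4, ← hQ0]
                exact mem_range_self 0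
              obtain ⟨t, ht⟩ := h5
              have h6 := h2.1 t
              rw [ht] at h6
              exact h.cl1.isLine.not_lo_up hlo h6
            · have h5 := (Lt.trans h.cl1.isLine hG.isLine hQline h2 h4).1 0
              rw [hQ0] at h5
              exact h.cl1.isLine.not_lo_up hlo h5
        exact h3 hx1
    have h2 := hUV.le_of h.cl0 (GStat_not_up h.cl0 h1)
    rwa [hW] at h2
  have h3 := h.kappa_pos hUV
  linarith

end Pl

end Pool.Agent.EscV
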