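import Pool.Agent.EscV.UDefs

/-!
Definition for the final statement of project EscV about Finsler metrics of `𝕋² × 𝕋ⁿ`: reduction to `𝕋²`.
-/

namespace EscG.U

open Filter Topology Set EscF.T EscG.T

variable {n : ℕ}

/-- `F₂` is the reduction to `𝕋²`, for the momentum `p ∈ ℝⁿ` of the fibre variable, of the Finsler metric `F` of
`𝕋² × 𝕋ⁿ`: for `x ∈ 𝕋² × 𝕋ⁿ` and a base velocity, `F₂` is a lower bound of `F x v - ⟪p, w⟫` over all `v` with this base
velocity and with fibre velocity `w`, it is attained at a point `w = ω` which does not depend on the fibre variable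
and is continuous, and the square of `F x v - ⟪p, w⟫` exceeds its minimum at most quadratically in `w - ω`. The momentum
is smaller than one in the dual norm of the fibres. (If `p = 0` and `F² = F₂² + h_x(w - A v, w - A v)`, where `h_x` is a
scalar product and `A` is linear in the base velocity `v`, then `ω = A v`.) -/
structure IsReduction (F₂ : Vec 2 → Vec 2 → ℝ) (p : Vec n) (F : Vec (2 + n) → Vec (2 + n) → ℝ) : Prop where
  small : ∀ x v : Vec (2 + n), base v = 0 → v ≠ 0 → inner ℝ p (fib v) < F x v
  low : ∀ x v : Vec (2 + n), F₂ (base x) (base v) ≤ F x v - inner ℝ p (fib v)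
  upp : ∃ (ω : Vec 2 → Vec 2 → Vec n) (C : ℝ), Continuous (fun q : Vec 2 × Vec 2 => ω q.1 q.2) ∧
    ∀ x v : Vec (2 + n), (F x v - inner ℝ p (fib v)) ^ 2 ≤
      F₂ (base x) (base v) ^ 2 + C * ‖fib v - ω (base x) (base v)‖ ^ 2

end EscG.U
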