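import Pool.Agent.EscV.Y7
import Pool.Agent.EscG.O8

set_option autoImplicit false

/-!
# Project EscV, module V13: Finsler metrics of `𝕋² × 𝕋ⁿ` over a Finsler metric of `𝕋²` with gap data, with momentum
-/

noncomputable section

namespace EscG.X

open MeasureTheory Set Filter Topology Esc EscF EscF.T EscG.T
open scoped ContDiff

variable {n : ℕ}

theorem V13_refl_bounds {N : ℕ} {F : Vec N → Vec N → ℝ} (hF : IsFinsler F) :
    ∃ a C : ℝ, 0 < a ∧ a ≤ C ∧ ∀ x v, a * ‖v‖ ≤ F x v ∧ F x v ≤ C * ‖v‖ := by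
  obtain ⟨a, C, h1, h2, h3⟩ := EscG.T.O1X.F_bounds (ContinuousLinearEquiv.refl ℝ (Vec N)) hF
  exact ⟨a, C, h1, h2, fun x v => h3 x v⟩

/-- `F - p` is a Finsler metric -/
theorem V13_sub {F : Vec (2 + n) → Vec (2 + n) → ℝ} (hF : IsFinsler F) {F2 : Vec 2 → Vec 2 → ℝ}
    (hF2 : IsFinsler F2) {p : Vec n} (hp : ∀ x w, w ≠ 0 → inner ℝ p w < F x (fb w))
    (hge : ∀ x v, F2 (base x) (base v) ≤ F x v - inner ℝ p (fib v)) :
    IsFinsler (fun x v => F x v - inner ℝ p (fib v)) := by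
  refine ⟨?_, fun m x v => ?_, fun x v c hc => ?_, fun x v hv => ?_⟩
  · exact hF.cont.sub (continuous_const.inner (continuous_fib.comp continuous_snd))
  · show F (x + vz m) v - _ = F x v - _
    rw [hF.periodic]
  · show F x (c • v) - inner ℝ p (fib (c • v)) = c * (F x v - inner ℝ p (fib v))
    rw [hF.hom x v c hc, fib_smul, real_inner_smul_right]
    ring
  · show 0 < F x v - inner ℝ p (fib v)
    by_cases hb : base v = 0
    · have hf : fib v ≠ 0 := fun hf => hv (X8_zero hb hf)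
      have h1 := hp x (fib v) hf
      have h2 : fb (fib v) = v := by
        have h3 := ib_base_add v
        rw [hb] at h3
        have h4 : ib n (0 : Vec 2) = 0 := by
          have := ib_smul (n := n) 0 0
          rwa [zero_smul, zero_smul] at this
        rwa [h4, zero_add] at h3
      rw [h2] at h1
      linarith
    · exact lt_of_lt_of_le (hF2.pos _ _ hb) (hge x v)

/-- residual set for a Finsler metric over a metric of the base with gap data -/
theorem V13_res {k : ℕ∞} (hk : 2 ≤ k) {F : Vec (2 + n) → Vec (2 + n) → ℝ} (hF : IsFinsler F)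
    {F2 : Vec 2 → Vec 2 → ℝ} (hF2 : IsFinsler F2) (hg : U.HasGap F2) {p : Vec n}
    (hp : ∀ x w, w ≠ 0 → inner ℝ p w < F x (fb w)) {om : Vec 2 → Vec 2 → Vec n}
    (hom : Continuous (fun q : Vec 2 × Vec 2 => om q.1 q.2))
    (hge : ∀ x v, F2 (base x) (base v) ≤ F x v - inner ℝ p (fib v)) {C : ℝ}
    (hle : ∀ x v, (F x v - inner ℝ p (fib v)) ^ 2 ≤
      F2 (base x) (base v) ^ 2 + C * ‖fib v - om (base x) (base v)‖ ^ 2)
    {L : Lag (2 + n)} (hL : IsNear (fun x v => F x v ^ 2 / 2) L) :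
    {f : Pot (2 + n) k | HasOrbitToInfinity (addPot L f.toFun)} ∈ residual (Pot (2 + n) k) := by
  obtain ⟨mF, MF, m, M, h1⟩ := tl_TL (ContinuousLinearEquiv.refl ℝ (Vec (2 + n))) hF hL
  obtain ⟨bv, gv, B, y, l, a, τ, c0, c1, hz, hgap⟩ := hg
  obtain ⟨β, h0, hb1, h2, hlat⟩ := exists_beta hz n
  have hfin := (h1 β hlat).fins
  obtain ⟨m2, M2, hm2, -, hb2⟩ := V13_refl_bounds hF2
  obtain ⟨a', C', ha', haC', hb'⟩ := V13_refl_bounds (V13_sub hF hF2 hp hge)
  obtain ⟨a'', C'', ha'', haC'', hb''⟩ := V13_refl_bounds hF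
  have hMF : 0 < C'' := ha''.trans_le haC''
  obtain ⟨sg, hsg⟩ : ∃ sg : ℝ, sg = min (a' / C'') 1 := ⟨_, rfl⟩
  have hsg0 : 0 < sg := by rw [hsg]; exact lt_min (div_pos ha' hMF) one_pos
  have hsg1 : sg ≤ 1 := by rw [hsg]; exact min_le_right _ _
  have hsg2 : ∀ x v, sg * F x v ≤ F x v - inner ℝ p (fib v) := by
    intro x v
    have e1 := (hb' x v).1
    have e2 := (hb'' x v).2
    have e3 : sg ≤ a' / C'' := by rw [hsg]; exact min_le_left _ _
    have e4 : 0 ≤ F x v := (mul_nonneg ha''.le (norm_nonneg v)).trans (hb'' x v).1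
    have e5 : sg * F x v ≤ a' / C'' * (C'' * ‖v‖) :=
      mul_le_mul e3 e2 e4 (div_pos ha' hMF).le
    have e6 : a' / C'' * (C'' * ‖v‖) = a' * ‖v‖ := by field_simp
    linarith
  obtain ⟨X, hX⟩ : ∃ X : YD n, X = ⟨β, F, mF, MF, F2, m2, om, p, sg, C, bv, gv, B, y, l, a, τ, c0, c1⟩ :=
    ⟨_, rfl⟩
  have hok : X.Ok := by
    rw [hX]
    refine ⟨hfin, h0, hb1, h2, hF2.cont, hF2.hom, hm2, fun x v => (hb2 x v).1, ?_, ?_, hsg0, hsg1, ?_,
      hge, hom, hle, hgap⟩
    · intro x v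
      obtain ⟨m, hm⟩ := hz.b
      show F2 (x + bv) v = F2 x v
      rw [hm]
      exact hF2.periodic m x v
    · intro x v
      obtain ⟨m, hm⟩ := hz.g
      show F2 (x + gv) v = F2 x v
      rw [hm]
      exact hF2.periodic m x v
    · intro x v
      show inner ℝ p (fib v) ≤ (1 - sg) * F x v
      have := hsg2 x v
      linarith
  have h3 := h1 β hlat
  have h4 : TL X.gd.β X.gd.F X.gd.mF X.gd.MF m M (tl (ContinuousLinearEquiv.refl ℝ (Vec (2 + n))) L) := by
    rw [hX]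
    exact h3
  have h5 : IsLatBasis (ContinuousLinearEquiv.refl ℝ (Vec (2 + n))) X.gd.β := by
    rw [hX]
    exact hlat
  exact residual_gd hk hok.ok h5 hL h4

end EscG.X
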