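import Pool.Agent.EscG.FnFinal
import Pool.Agent.EscV.Fn8
import Pool.Agent.EscV.RDefs
import Pool.Agent.EscV.V13

/-!
Project EscV: final theorem for Finsler metrics of `𝕋² × 𝕋ⁿ` with a reduction to a Finsler metric of `𝕋²` of non
constant displacement.
-/

namespace EscG.U

open Filter Topology Set EscF.T EscG.T

theorem base_gap {F : Vec 2 → Vec 2 → ℝ} (hF : IsCurvedFinslerBase F) : T.IsFinsler F ∧ HasGap F := by
  rcases hF with hF | ⟨hF, hd⟩
  · exact O8_conf hF
  · have h2 : EscG.X.IsFinsler2 F := ⟨hF.smooth, hF.pos, hF.hom, hF.periodic, hF.convex⟩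
    exact ⟨h2.isFinsler, EscG.X.exists_gap2N h2 hd⟩

theorem result_reduction {n : ℕ} {k : ℕ∞} (hk : 2 ≤ k) {F₂ : Vec 2 → Vec 2 → ℝ} (hF₂ : IsCurvedFinslerBase F₂)
    {F : Vec (2 + n) → Vec (2 + n) → ℝ} (hF : T.IsFinsler F) {p : Vec n} (hp : IsReduction F₂ p F)
    {L : Lag (2 + n)} (hL : IsNear (fun x v => F x v ^ 2 / 2) L) :
    {f : Pot (2 + n) k | HasOrbitToInfinity (addPot L f.toFun)} ∈ residual (Pot (2 + n) k) ∧
      Dense {f : Pot (2 + n) k | HasOrbitToInfinity (addPot L f.toFun)} := by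
  obtain ⟨h1, h2⟩ := base_gap hF₂
  obtain ⟨om, C, hom, hC⟩ := hp.upp
  have := baire (2 + n) k
  have h3 : {f : Pot (2 + n) k | HasOrbitToInfinity (addPot L f.toFun)} ∈ residual (Pot (2 + n) k) := by
    refine EscG.X.V13_res hk hF h1 h2 (p := p) (fun x w hw => ?_) hom hp.low hC hL
    have h4 : fib (EscG.X.fb (n := n) w) = w := EscG.X.fib_fb w
    have h5 := hp.small x (EscG.X.fb w) (EscG.X.base_fb w) (fun h => hw (by
      rw [← h4, h]
      have := EscG.X.fib_smul (n := n) 0 0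
      rwa [zero_smul, zero_smul] at this))
    rwa [h4] at h5
  exact ⟨h3, dense_of_mem_residual h3⟩

/-- the kinetic energy of a metric over a metric of the base -/
theorem kinetic_reduction {n : ℕ} {F : Vec 2 → Vec 2 → ℝ} (hF : T.IsFinsler F)
    {h : Vec (2 + n) → Vec n → Vec n → ℝ} (hh : EscG.U.IsFibreMetric h)
    {A : Vec 2 → Vec 2 → Vec n} (hA : EscG.U.IsConnection A) :
    T.IsFinsler (fun x v => √(2 * EscG.U.kinetic F h A x v)) ∧
      IsReduction F 0 (fun x v : Vec (2 + n) => √(2 * EscG.U.kinetic F h A x v)) := by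
  have h0 := O8_finsler hF hh hA
  obtain ⟨C, hC⟩ := EscG.X.exists_Cf (toH_fibre hh)
  have hk := O8_kin (F2 := F) hh hA
  have hfn : ∀ (x : Vec (2 + n)) (w : Vec n), 0 ≤ toH hh x w w := fun x w =>
    EscG.X.X8_nonneg ((toH_fibre hh).scalar x) w
  refine ⟨h0, fun x v hb hv => ?_, fun x v => ?_, fun x v => A x v, C, ?_, fun x v => ?_⟩
  · rw [inner_zero_left]
    exact h0.pos x v hv
  · rw [inner_zero_left, sub_zero]
    show F (base x) (base v) ≤ √(2 * U.kinetic F h A x v)
    rw [hk]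
    refine Real.le_sqrt_of_sq_le ?_
    linarith [hfn x (T.vert (toA hA) x v)]
  · have h1 : Continuous (fun q : Vec 2 × Vec 2 => toA hA q.1 q.2) :=
      ((toA_conn hA).cont.comp continuous_fst).clm_apply continuous_snd
    exact h1
  · rw [inner_zero_left, sub_zero]
    show √(2 * U.kinetic F h A x v) ^ 2 ≤ F (base x) (base v) ^ 2 +
      C * ‖fib v - toA hA (base x) (base v)‖ ^ 2
    rw [hk, Real.sq_sqrt (add_nonneg (sq_nonneg _) (hfn x _))]
    have e1 := hC x (T.vert (toA hA) x v)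
    have e2 : T.vert (toA hA) x v = fib v - toA hA (base x) (base v) := rfl
    rw [e2] at e1 ⊢
    linarith

end EscG.U
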