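import Pool.Agent.EscG.HUDefs

/-!
Definitions for the final statements of project EscV: Finsler metrics on `𝕋²` which need not be reversible.
-/

namespace EscG.U

open Filter Topology Set EscF.T EscG.T

/-- A Finsler metric on `𝕋²`, of class `C²` off the zero section, positively homogeneous (in general not
reversible: `F(x,-v)` need not be `F(x,v)`), such that the second derivative of its square in the velocity is
positive definite. -/
structure IsStrongFinsler (F : Vec 2 → Vec 2 → ℝ) : Prop where
  smooth : ContDiffOn ℝ 2 (fun p : Vec 2 × Vec 2 => F p.1 p.2) {p | p.2 ≠ 0}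
  pos : ∀ x v, v ≠ 0 → 0 < F x v
  hom : ∀ x v (c : ℝ), 0 ≤ c → F x (c • v) = c * F x v
  periodic : ∀ (m : Fin 2 → ℤ) x v, F (x + vz m) v = F x v
  convex : ∀ x v w, v ≠ 0 → w ≠ 0 → 0 < fderiv ℝ (fderiv ℝ (fun z => F x z ^ 2)) v w w

/-- The metric of the base: the norm of a conformally flat metric of `𝕋²` which is not flat, or any Finsler
metric of `𝕋²`, reversible or not, of non constant displacement. -/
def IsCurvedFinslerBase (F : Vec 2 → Vec 2 → ℝ) : Prop :=
  IsNonflatConformal F ∨ (IsStrongFinsler F ∧ HasNonconstantDisplacement F)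

end EscG.U
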