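import Pool.Agent.EscG.FnFinal
import Pool.Agent.EscV.Fn8
import Pool.Agent.EscV.UDefs

/-!
Project EscV: final theorem for Finsler metrics of non constant displacement which need not be reversible.
-/

namespace EscG.U

open Filter Topology Set EscF.T EscG.T

theorem result_finslerBase {n : ℕ} {k : ℕ∞} (hk : 2 ≤ k) {F : Vec 2 → Vec 2 → ℝ} (hF : IsCurvedFinslerBase F)
    {h : Vec (2 + n) → Vec n → Vec n → ℝ} (hh : EscG.U.IsFibreMetric h)
    {A : Vec 2 → Vec 2 → Vec n} (hA : EscG.U.IsConnection A) {L : Lag (2 + n)}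
    (hL : IsNear (EscG.U.kinetic F h A) L) :
    {f : Pot (2 + n) k | HasOrbitToInfinity (addPot L f.toFun)} ∈ residual (Pot (2 + n) k) ∧
      Dense {f : Pot (2 + n) k | HasOrbitToInfinity (addPot L f.toFun)} := by
  rcases hF with hF | ⟨hF, hd⟩
  · exact result_conf hk hF hh hA hL
  · have h2 : EscG.X.IsFinsler2 F := ⟨hF.smooth, hF.pos, hF.hom, hF.periodic, hF.convex⟩
    have := baire (2 + n) k
    have h1 := result_gap hk h2.isFinsler (EscG.X.exists_gap2N h2 hd) hh hA hL
    exact ⟨h1, dense_of_mem_residual h1⟩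

end EscG.U
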