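import Pool.Agent.EscG.TDefs

set_option autoImplicit false

/-!
# Project EscV, module V1: averages over closed lines determine a function on `𝕋²` up to a constant

Fourier coefficients on `𝕋²` (`UnitAddTorus (Fin 2)`): for `k ≠ 0` put `m = (-k 1, k 0) ≠ 0`; by invariance of the
integral over the torus under the translations `t • vz m` and Fubini,
`ĉ(k) = ∫_𝕋² e^(-2πi k·x) (∫_0^1 c (x + t • vz m) dt) dx` (`k·m = 0`), the inner integral does not depend on `x`, so
`ĉ(k) = 0`. Hence `c` is equal to its mean value.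
-/

noncomputable section

namespace EscG.U

open Filter Topology Set MeasureTheory EscF.T EscG.T

local instance V1_ms : MeasureSpace UnitAddCircle := ⟨AddCircle.haarAddCircle⟩

local instance V1_haar : Measure.IsAddHaarMeasure (volume : Measure UnitAddCircle) :=
  inferInstanceAs (Measure.IsAddHaarMeasure AddCircle.haarAddCircle)

local instance V1_prob : IsProbabilityMeasure (volume : Measure UnitAddCircle) :=
  inferInstanceAs (IsProbabilityMeasure AddCircle.haarAddCircle)

/-- the projection of `ℝ²` onto the torus -/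
def V1_pi (x : Vec 2) : UnitAddTorus (Fin 2) := fun i => ((x i : ℝ) : UnitAddCircle)

theorem V1_pi_quot : IsOpenQuotientMap V1_pi := by
  have h1 : IsOpenQuotientMap (Pi.map (fun _ : Fin 2 => (fun r : ℝ => (r : UnitAddCircle)))) :=
    IsOpenQuotientMap.piMap fun _ => QuotientAddGroup.isOpenQuotientMap_mk
  have h2 : IsOpenQuotientMap (fun x : Vec 2 => (fun i => x i : Fin 2 → ℝ)) :=
    (EuclideanSpace.equiv (Fin 2) ℝ).toHomeomorph.isOpenQuotientMap
  exact h1.comp h2

theorem V1_pi_add (x y : Vec 2) : V1_pi (x + y) = V1_pi x + V1_pi y := by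
  funext i
  simp [V1_pi]

theorem V1_exp (k : Fin 2 → ℤ) (x : Vec 2) : UnitAddTorus.mFourier k (V1_pi x) =
    Complex.exp (2 * Real.pi * Complex.I * ((k 0 : ℂ) * x 0 + (k 1 : ℂ) * x 1)) := by
  simp only [UnitAddTorus.mFourier, ContinuousMap.coe_mk, V1_pi, Fin.prod_univ_two]
  rw [fourier_coe_apply, fourier_coe_apply, ← Complex.exp_add]
  congr 1
  push_cast
  ring

theorem V1_mul (k : Fin 2 → ℤ) (z w : UnitAddTorus (Fin 2)) :
    UnitAddTorus.mFourier k (z + w) = UnitAddTorus.mFourier k z * UnitAddTorus.mFourier k w := by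
  obtain ⟨x, rfl⟩ := V1_pi_quot.surjective z
  obtain ⟨y, rfl⟩ := V1_pi_quot.surjective w
  rw [← V1_pi_add, V1_exp, V1_exp, V1_exp, ← Complex.exp_add]
  congr 1
  simp only [PiLp.add_apply]
  push_cast
  ring

theorem V1_trans (F : UnitAddTorus (Fin 2) → ℂ) (s : UnitAddTorus (Fin 2)) :
    ∫ z, F (z + s) = ∫ z, F z := by
  exact integral_add_right_eq_self F s

theorem V1_zero {k : Fin 2 → ℤ} (hk : k ≠ 0) : ∫ z, UnitAddTorus.mFourier k z = 0 := by
  obtain ⟨y, hy⟩ : ∃ y : Vec 2, (k 0 : ℝ) * y 0 + (k 1 : ℝ) * y 1 = 1 / 2 := by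
    by_cases h0 : k 0 = 0
    · have h1 : k 1 ≠ 0 := by
        intro h1
        apply hk
        funext i
        fin_cases i
        · exact h0
        · exact h1
      have h1' : (k 1 : ℝ) ≠ 0 := by exact_mod_cast h1
      refine ⟨WithLp.toLp 2 ![0, 1 / (2 * (k 1 : ℝ))], ?_⟩
      simp
      field_simp
    · have h0' : (k 0 : ℝ) ≠ 0 := by exact_mod_cast h0
      refine ⟨WithLp.toLp 2 ![1 / (2 * (k 0 : ℝ)), 0], ?_⟩
      simp
      field_simp
  have h1 : UnitAddTorus.mFourier k (V1_pi y) = -1 := by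
    rw [V1_exp]
    have h2 : (k 0 : ℂ) * y 0 + (k 1 : ℂ) * y 1 = 1 / 2 := by
      have := congrArg (fun r : ℝ => (r : ℂ)) hy
      push_cast at this
      exact this
    rw [h2]
    have h3 : 2 * (Real.pi : ℂ) * Complex.I * (1 / 2) = Real.pi * Complex.I := by ring
    rw [h3, Complex.exp_pi_mul_I]
  have h2 := V1_trans (fun z => UnitAddTorus.mFourier k z) (V1_pi y)
  simp only [V1_mul, h1] at h2
  rw [integral_mul_const] at h2
  have h3 : (2 : ℂ) * ∫ z, UnitAddTorus.mFourier k z = 0 := by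
    linear_combination -h2
  exact (mul_eq_zero.1 h3).resolve_left (by norm_num)

theorem V1_coeff (C : C(UnitAddTorus (Fin 2), ℂ)) (A : ℂ) {k m : Fin 2 → ℤ} (hk : k ≠ 0)
    (hkm : k 0 * m 0 + k 1 * m 1 = 0)
    (hA : ∀ z, ∫ t in (0:ℝ)..1, C (z + V1_pi (t • vz m)) = A) :
    ∫ z, UnitAddTorus.mFourier k z * C z = 0 := by
  have hinv : ∀ t : ℝ, UnitAddTorus.mFourier k (V1_pi (t • vz m)) = 1 := by
    intro t
    rw [V1_exp]
    have h1 : (k 0 : ℂ) * ((t • vz m : Vec 2) 0 : ℝ) + (k 1 : ℂ) * ((t • vz m : Vec 2) 1 : ℝ) = 0 := by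
      have h2 : ((k 0 : ℂ) * m 0 + (k 1 : ℂ) * m 1) = 0 := by exact_mod_cast hkm
      simp only [vz, PiLp.smul_apply, smul_eq_mul]
      push_cast
      linear_combination (t : ℂ) * h2
    rw [h1, mul_zero, Complex.exp_zero]
  have hcont : Continuous fun p : ℝ × UnitAddTorus (Fin 2) =>
      UnitAddTorus.mFourier k p.2 * C (p.2 + V1_pi (p.1 • vz m)) := by
    have h1 := V1_pi_quot.continuous
    fun_prop
  have hint : Integrable (Function.uncurry fun (t : ℝ) (z : UnitAddTorus (Fin 2)) =>
      UnitAddTorus.mFourier k z * C (z + V1_pi (t • vz m)))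
      ((volume.restrict (Set.Ioc (0:ℝ) 1)).prod volume) := by
    refine Integrable.of_bound (C := ‖UnitAddTorus.mFourier k‖ * ‖C‖) hcont.aestronglyMeasurable ?_
    refine Eventually.of_forall fun p => ?_
    simp only [Function.uncurry]
    rw [norm_mul]
    exact mul_le_mul ((UnitAddTorus.mFourier k).norm_coe_le_norm _) (C.norm_coe_le_norm _) (norm_nonneg _)
      (norm_nonneg _)
  have h1 : ∀ t : ℝ, ∫ z, UnitAddTorus.mFourier k z * C (z + V1_pi (t • vz m)) =
      ∫ z, UnitAddTorus.mFourier k z * C z := by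
    intro t
    have h2 := V1_trans (fun z => UnitAddTorus.mFourier k z * C z) (V1_pi (t • vz m))
    simp only [V1_mul, hinv, mul_one] at h2
    exact h2
  have h3 : ∫ t in (0:ℝ)..1, ∫ z, UnitAddTorus.mFourier k z * C (z + V1_pi (t • vz m)) =
      ∫ z, UnitAddTorus.mFourier k z * C z := by
    simp_rw [h1]
    simp
  rw [← h3, intervalIntegral.integral_of_le zero_le_one, integral_integral_swap hint]
  have h4 : ∀ z, ∫ t in Set.Ioc (0:ℝ) 1, UnitAddTorus.mFourier k z * C (z + V1_pi (t • vz m)) =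
      UnitAddTorus.mFourier k z * A := by
    intro z
    rw [integral_const_mul, ← hA z, intervalIntegral.integral_of_le zero_le_one]
  simp_rw [h4]
  rw [integral_mul_const, V1_zero hk, zero_mul]

theorem V1_const {c : Vec 2 → ℝ} (hc : Continuous c) (hp : ∀ (m : Fin 2 → ℤ) x, c (x + vz m) = c x)
    (h : ∀ m : Fin 2 → ℤ, m ≠ 0 → ∀ x y : Vec 2,
      ∫ t in (0:ℝ)..1, c (x + t • vz m) = ∫ t in (0:ℝ)..1, c (y + t • vz m)) :
    ∀ x y, c x = c y := by
  have hfac : Function.FactorsThrough (fun x : Vec 2 => (c x : ℂ)) V1_pi := by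
    intro x y hxy
    have h1 : ∀ i, ∃ n : ℤ, x i = y i + n := by
      intro i
      have h2 : ((x i - y i : ℝ) : UnitAddCircle) = 0 := by
        have h3 := congrFun hxy i
        simp only [V1_pi] at h3
        rw [AddCircle.coe_sub, h3, sub_self]
      obtain ⟨n, hn⟩ := (AddCircle.coe_eq_zero_iff (1:ℝ)).1 h2
      refine ⟨n, ?_⟩
      rw [zsmul_eq_mul, mul_one] at hn
      linarith
    choose n hn using h1
    have h4 : x = y + vz n := by
      ext i
      simp [vz, hn i]
    simp only [h4, hp]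
  let C : C(UnitAddTorus (Fin 2), ℂ) := V1_pi_quot.isQuotientMap.lift
    (f := ⟨V1_pi, V1_pi_quot.continuous⟩) ⟨fun x : Vec 2 => (c x : ℂ), by fun_prop⟩ hfac
  have hC : ∀ x, C (V1_pi x) = c x := by
    intro x
    have h1 := Topology.IsQuotientMap.lift_comp (f := ⟨V1_pi, V1_pi_quot.continuous⟩)
      V1_pi_quot.isQuotientMap ⟨fun x : Vec 2 => (c x : ℂ), by fun_prop⟩ hfac
    exact congrArg (fun g => g x) h1
  have hco : ∀ k : Fin 2 → ℤ, k ≠ 0 → UnitAddTorus.mFourierCoeff C k = 0 := by
    intro k hk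
    have hm : (![-k 1, k 0] : Fin 2 → ℤ) ≠ 0 := by
      intro h0
      apply hk
      have e0 := congrFun h0 0
      have e1 := congrFun h0 1
      simp at e0 e1
      funext i
      fin_cases i
      · exact e1
      · exact e0
    have := V1_coeff C (∫ t in (0:ℝ)..1, c (0 + t • vz ![-k 1, k 0]) : ℝ) (k := -k) (m := ![-k 1, k 0])
      (neg_ne_zero.2 hk) (by simp; ring) (by
        intro z
        obtain ⟨x, rfl⟩ := V1_pi_quot.surjective z
        simp_rw [← V1_pi_add, hC]
        rw [intervalIntegral.integral_ofReal, h _ hm x 0])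
    exact this
  have hsum : Summable (UnitAddTorus.mFourierCoeff C) := by
    refine summable_of_ne_finset_zero (s := {0}) ?_
    intro k hk
    exact hco k (by simpa using hk)
  have hval : ∀ z, C z = UnitAddTorus.mFourierCoeff C 0 := by
    intro z
    have h1 := UnitAddTorus.hasSum_mFourier_series_apply_of_summable hsum z
    have h2 : HasSum (fun i => UnitAddTorus.mFourierCoeff C i • UnitAddTorus.mFourier i z)
        (UnitAddTorus.mFourierCoeff C 0 • UnitAddTorus.mFourier 0 z) := by
      apply hasSum_single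
      intro k hk
      rw [hco k hk, zero_smul]
    rw [h1.unique h2, UnitAddTorus.mFourier_zero]
    simp
  intro x y
  have h1 : (c x : ℂ) = c y := by
    rw [← hC x, ← hC y, hval, hval (V1_pi y)]
  exact_mod_cast h1

end EscG.U
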