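import Pool.Agent.EscG.X1

set_option autoImplicit false

/-!
# Project EscV, application to `𝕋² × 𝕋ⁿ` with momentum: data on the product

After `Pool.Agent.EscG.XDefs`. `p` is the momentum of the fibre variable (a vector of `ℝⁿ`), `F2` is the reduced
metric of the plane: `F x v - ⟪p, fib v⟫ ≥ F2 (base x) (base v)`, with equality for `fib v = om (base x) (base v)`.
The calibrating function of the core is `B (base x) + ⟪p, fib x⟫`.
-/

noncomputable section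

namespace EscG.X

open MeasureTheory Set Filter Topology Esc EscF EscF.T EscG.T
open scoped ContDiff

/-- data on the product: basis `β` of the lattice, metric `F` over the metric `F2` of the plane, horizontal
velocities `om`, momentum `p`, gap data -/
structure YD (n : ℕ) where
  β : Module.Basis (Fin (2 + n)) ℝ (Vec (2 + n))
  F : Vec (2 + n) → Vec (2 + n) → ℝ
  mF : ℝ
  MF : ℝ
  F2 : Vec 2 → Vec 2 → ℝ
  m2 : ℝ
  om : Vec 2 → Vec 2 → Vec n
  p : Vec n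
  sg : ℝ
  Cf : ℝ
  bv : Vec 2
  gv : Vec 2
  B : Vec 2 → ℝ
  y : Vec 2 → ℝ
  l : ℝ
  a : ℝ
  τ : ℝ
  c0 : ℝ → Vec 2
  c1 : ℝ → Vec 2

namespace YD

variable {n : ℕ} (X : YD n)

/-- the momentum as a function on `ℝ^(2+n)` -/
def P (x : Vec (2 + n)) : ℝ := inner ℝ X.p (fib x)

/-- the hypotheses on the data -/
structure Ok : Prop where
  fins : Fins X.β X.F X.mF X.MF
  β0 : X.β (Fin.castAdd n 0) = ib n X.bv
  β1 : X.β (Fin.castAdd n 1) = ib n X.gv
  β2 : ∀ j : Fin n, X.β (Fin.natAdd 2 j) = fb (EuclideanSpace.single j (1:ℝ))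
  F2c : Continuous (fun p : Vec 2 × Vec 2 => X.F2 p.1 p.2)
  hom2 : ∀ x v (c : ℝ), 0 ≤ c → X.F2 x (c • v) = c * X.F2 x v
  m2_pos : 0 < X.m2
  low2 : ∀ x v, X.m2 * ‖v‖ ≤ X.F2 x v
  perb : ∀ x v, X.F2 (x + X.bv) v = X.F2 x v
  perg : ∀ x v, X.F2 (x + X.gv) v = X.F2 x v
  sg_pos : 0 < X.sg
  sg_le : X.sg ≤ 1
  half : ∀ x v, X.P v ≤ (1 - X.sg) * X.F x v
  ge : ∀ x v, X.F2 (base x) (base v) ≤ X.F x v - X.P v
  omc : Continuous (fun q : Vec 2 × Vec 2 => X.om q.1 q.2)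
  le : ∀ x v, (X.F x v - X.P v) ^ 2 ≤
    X.F2 (base x) (base v) ^ 2 + X.Cf * ‖fib v - X.om (base x) (base v)‖ ^ 2
  gap : Gap2 X.F2 X.bv X.gv X.B X.y X.l X.a X.τ X.c0 X.c1

/-- the height function -/
def Y (x : Vec (2 + n)) : ℝ := X.y (base x)

/-- the data of the core -/
def gd : GD (Fin (2 + n)) (1 + n) (Vec (2 + n)) where
  β := X.β
  b := Fin.addCases (fun _ => ib n X.bv) (fun j => fb (EuclideanSpace.single j (1:ℝ)))
  F := X.F
  mF := X.mF
  MF := X.MF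
  B := fun x => X.B (base x) + X.P x
  c := Fin.addCases (fun _ => X.l) (fun j => X.p j)
  Z := {x | X.τ - 1 ≤ X.Y x ∧ X.Y x ≤ 0}
  q0 := ib n (X.c0 0)
  q1 := ib n (X.c1 0) - ib n X.gv
  g := ib n X.gv

end YD

end EscG.X
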