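import Pool.Agent.EscG.Pr3
import Pool.Agent.EscV.YDefs

set_option autoImplicit false

/-!
# Project EscV: metrics on `𝕋² × 𝕋ⁿ` which are invariant under the translations of `𝕋ⁿ`, definitions

`g` is the metric on the horizontal planes, `h` the metric of the fibres, `A` the connection, `J` the inverse of `h`:
`h x (J x p) w = ⟪p, w⟫`.
-/

noncomputable section

namespace EscG.U

open Filter Topology Set EscF.T EscG.T EscG.X
open scoped ContDiff

/-- data of an invariant metric -/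
structure KK (n : ℕ) where
  g : Vec 2 → Vec 2 →L[ℝ] Vec 2 →L[ℝ] ℝ
  h : Vec 2 → Vec n →L[ℝ] Vec n →L[ℝ] ℝ
  A : Vec 2 → Vec 2 →L[ℝ] Vec n
  J : Vec 2 → Vec n →L[ℝ] Vec n

namespace KK

variable {n : ℕ} (K : KK n)

/-- the hypotheses on the data -/
structure Ok (k : ℕ∞) : Prop where
  sg : ContDiff ℝ k K.g
  sh : ContDiff ℝ k K.h
  sA : ContDiff ℝ k K.A
  sJ : ContDiff ℝ k K.J
  pg : ∀ (m : Fin 2 → ℤ) x, K.g (x + vz m) = K.g x
  ph : ∀ (m : Fin 2 → ℤ) x, K.h (x + vz m) = K.h x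
  pA : ∀ (m : Fin 2 → ℤ) x, K.A (x + vz m) = K.A x
  pJ : ∀ (m : Fin 2 → ℤ) x, K.J (x + vz m) = K.J x
  hg : ∀ x, T.IsScalarProduct (K.g x)
  hh : ∀ x, T.IsScalarProduct (K.h x)
  hJ : ∀ x p w, K.h x (K.J x p) w = inner ℝ p w

/-- the metric on `𝕋² × 𝕋ⁿ` -/
def met (x v w : Vec (2 + n)) : ℝ :=
  K.g (base x) (base v) (base w) +
    K.h (base x) (fib v - K.A (base x) (base v)) (fib w - K.A (base x) (base w))

/-- its norm -/
def nrm (x v : Vec (2 + n)) : ℝ := √(K.met x v v)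

/-- the square of the norm of the momentum `p` -/
def kap (p : Vec n) (x : Vec 2) : ℝ := inner ℝ p (K.J x p)

/-- the reduced metric of the momentum `p` -/
def red (p : Vec n) (x v : Vec 2) : ℝ := √(1 - K.kap p x) * √(K.g x v v) - inner ℝ p (K.A x v)

/-- the optimal velocity of the fibre variable -/
def om (p : Vec n) (x v : Vec 2) : Vec n := (√(K.g x v v) / √(1 - K.kap p x)) • K.J x p + K.A x v

end KK

end EscG.U
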