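import Pool.Agent.EscG.HtDefs
import Pool.Agent.EscV.VDefs

set_option autoImplicit false

/-!
# Project EscV, module V10a: the connection in the flat coordinates
-/

noncomputable section

namespace EscG.U

open Filter Topology Set MeasureTheory EscF.T EscG.T EscG.X
open scoped ContDiff

variable {n : ℕ} {K : KK n} {k : ℕ∞}

/-- the connection in the flat coordinates -/
def V10_A (K : KK n) (ψ : Vec 2 → Vec 2) (X : Vec 2) : Vec 2 →L[ℝ] Vec n := (K.A (ψ X)).comp (fderiv ℝ ψ X)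

theorem V10_A_smooth (hk : 2 ≤ k) (hK : K.Ok k) {φ ψ : Vec 2 → Vec 2} (hT : TDiff k φ ψ) :
    ContDiff ℝ 1 (V10_A K ψ) ∧ ∀ (m : Fin 2 → ℤ) x, V10_A K ψ (x + vz m) = V10_A K ψ x := by
  have h2 : (2 : WithTop ℕ∞) ≤ (k : WithTop ℕ∞) := WithTop.coe_le_coe.2 hk
  have h1 : (1 : WithTop ℕ∞) ≤ (k : WithTop ℕ∞) := le_trans (by norm_num) h2
  have hψ : ContDiff ℝ 2 ψ := hT.sψ.of_le h2
  have hA : ContDiff ℝ 1 (fun X => K.A (ψ X)) := (hK.sA.of_le h1).comp (hψ.of_le (by norm_num))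
  have hd : ContDiff ℝ 1 (fderiv ℝ ψ) := hψ.fderiv_right (m := 1) (by norm_num)
  refine ⟨hA.clm_comp hd, fun m x => ?_⟩
  have e1 : fderiv ℝ ψ (x + vz m) = fderiv ℝ ψ x := by
    have : (fun y => ψ (y + vz m)) = fun y => ψ y + vz m := funext (hT.pψ m)
    rw [← fderiv_comp_add_right, this, fderiv_add_const]
  rw [V10_A, V10_A, hT.pψ, hK.pA, e1]

end EscG.U
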