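import Pool.Agent.EscG.X8
import Pool.Agent.EscG.FnDefs

set_option autoImplicit false

/-!
# Project EscV, module V2: first order perturbation of the displacement of a flat metric

`|V| := √(q V V)`, `E X V := a X V + c X |V|`, `e := v / |v|`. For a curve `γ` of class `C^1` from `x` to `x + v`
put `s = q e γ'`, `r = q e (γ - x)`, `P = γ' - s e`, `z = γ - x - r e`, `L = ∫ |γ'|`, `D = ∫ (|γ'| - s) = L - |v|`,
`Z = ∫ |P|`. Then `|P|² = (|γ'| - s)(|γ'| + s) ≤ 2 |γ'| (|γ'| - s)`, so `Z ≤ η κ L + D / (2 η κ)`, and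
`|∫ E γ γ' - I x| ≤ K₂ Z + B D` because `a`, `c` are Lipschitz on a ball; hence
`∫ F η γ γ' ≥ L + η I x - η (K₂ Z + B D) - C η² L ≥ |v| + η I x - C' η²`.
-/

noncomputable section

namespace EscG.U

open Filter Topology Set MeasureTheory EscF.T EscG.T

theorem V2_per_bdd {W : Type*} [NormedAddCommGroup W] {f : Vec 2 → W} (hf : Continuous f)
    (hp : ∀ (m : Fin 2 → ℤ) x, f (x + vz m) = f x) : ∃ A : ℝ, 0 ≤ A ∧ ∀ x, ‖f x‖ ≤ A := by
  obtain ⟨A, hA⟩ := (isCompact_closedBall (0 : Vec 2) 2).exists_bound_of_continuousOn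
    hf.continuousOn
  refine ⟨max A 0, le_max_right _ _, fun x => ?_⟩
  have h1 : f x = f (x + vz (fun i => -⌊x i⌋)) := (hp _ x).symm
  rw [h1]
  refine (hA _ ?_).trans (le_max_left _ _)
  rw [mem_closedBall_zero_iff]
  have h2 : ∀ i, |(x + vz (fun i => -⌊x i⌋)) i| ≤ 1 := by
    intro i
    have h3 : (x + vz (fun i => -⌊x i⌋)) i = Int.fract (x i) := by
      simp [vz, Int.fract, sub_eq_add_neg]
    rw [h3, abs_of_nonneg (Int.fract_nonneg _)]
    exact (Int.fract_lt_one _).le
  rw [EuclideanSpace.norm_eq]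
  refine Real.sqrt_le_iff.2 ⟨by norm_num, ?_⟩
  rw [Fin.sum_univ_two]
  have h0 := h2 0
  have h1 := h2 1
  have e : ∀ t : ℝ, |t| ≤ 1 → ‖t‖ ^ 2 ≤ 1 := fun t ht => by
    rw [Real.norm_eq_abs]
    exact pow_le_one₀ (abs_nonneg t) ht
  linarith [e _ h0, e _ h1]

section norm

variable {q : Vec 2 →L[ℝ] Vec 2 →L[ℝ] ℝ} (hq : T.IsScalarProduct q)

theorem V2_cont (q : Vec 2 →L[ℝ] Vec 2 →L[ℝ] ℝ) : Continuous fun V : Vec 2 => √(q V V) := by
  have h : Continuous fun V : Vec 2 => q V V := (q.continuous).clm_apply continuous_id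
  exact h.sqrt

include hq

theorem V2_sq (V : Vec 2) : √(q V V) ^ 2 = q V V := Real.sq_sqrt (X.X8_nonneg hq V)

theorem V2_hom (c : ℝ) (V : Vec 2) : √(q (c • V) (c • V)) = |c| * √(q V V) := by
  have h : q (c • V) (c • V) = c ^ 2 * q V V := by
    simp only [map_smul, ContinuousLinearMap.smul_apply, smul_eq_mul]
    ring
  rw [h, Real.sqrt_mul (sq_nonneg c), Real.sqrt_sq_eq_abs]

theorem V2_pos {V : Vec 2} (hV : V ≠ 0) : 0 < √(q V V) := Real.sqrt_pos.2 (hq.2 V hV)

theorem V2_low : ∃ m : ℝ, 0 < m ∧ ∀ V : Vec 2, m * ‖V‖ ≤ √(q V V) := by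
  have hne : (Metric.sphere (0 : Vec 2) 1).Nonempty := by
    exact NormedSpace.sphere_nonempty.2 zero_le_one
  obtain ⟨w, hw, hmin⟩ := (isCompact_sphere (0 : Vec 2) 1).exists_isMinOn hne
    (V2_cont q).continuousOn
  have hw0 : w ≠ 0 := by
    rintro rfl
    simp at hw
  refine ⟨√(q w w), V2_pos hq hw0, fun V => ?_⟩
  rcases eq_or_ne V 0 with rfl | hV
  · simp
  have hn : 0 < ‖V‖ := norm_pos_iff.2 hV
  have h1 : ‖V‖⁻¹ • V ∈ Metric.sphere (0 : Vec 2) 1 := by
    rw [mem_sphere_zero_iff_norm, norm_smul, norm_inv, norm_norm, inv_mul_cancel₀ hn.ne']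
  have h2 := hmin h1
  have h3 : √(q w w) ≤ √(q (‖V‖⁻¹ • V) (‖V‖⁻¹ • V)) := h2
  rw [V2_hom hq, abs_of_pos (inv_pos.2 hn)] at h3
  calc √(q w w) * ‖V‖ ≤ (‖V‖⁻¹ * √(q V V)) * ‖V‖ := by gcongr
    _ = √(q V V) := by field_simp

/-- the perpendicular part -/
theorem V2_perp {e V : Vec 2} (he : q e e = 1) :
    √(q (V - q e V • e) (V - q e V • e)) ^ 2 = (√(q V V) - q e V) * (√(q V V) + q e V) := by
  rw [V2_sq hq]
  have h1 : q (V - q e V • e) (V - q e V • e) = q V V - (q e V) ^ 2 := by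
    simp only [map_sub, map_smul, ContinuousLinearMap.sub_apply, ContinuousLinearMap.smul_apply,
      smul_eq_mul]
    rw [he, hq.1 V e]
    ring
  rw [h1]
  linear_combination -(V2_sq hq V)

theorem V2_le {e V : Vec 2} (he : q e e = 1) : |q e V| ≤ √(q V V) := by
  have h1 := V2_perp hq (V := V) he
  have h2 : 0 ≤ √(q (V - q e V • e) (V - q e V • e)) ^ 2 := sq_nonneg _
  rw [h1] at h2
  have h3 : (q e V) ^ 2 ≤ √(q V V) ^ 2 := by nlinarith
  have h4 : |q e V| ≤ |√(q V V)| := sq_le_sq.1 h3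
  rwa [abs_of_nonneg (Real.sqrt_nonneg _)] at h4

/-- pointwise inequality for the perpendicular part -/
theorem V2_amgm {e V : Vec 2} (he : q e e = 1) {k : ℝ} (hk : 0 < k) :
    √(q (V - q e V • e) (V - q e V • e)) ≤ k * √(q V V) + (√(q V V) - q e V) / (2 * k) := by
  have h1 := V2_perp hq (V := V) he
  have h2 := V2_le hq (V := V) he
  have h3 : q e V ≤ √(q V V) := (le_abs_self _).trans h2
  have h0 : 0 ≤ √(q V V) := Real.sqrt_nonneg _
  set N := √(q V V)
  set s := q e V
  have hrhs : 0 ≤ k * N + (N - s) / (2 * k) := by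
    have : 0 ≤ (N - s) / (2 * k) := div_nonneg (by linarith) (by linarith)
    have := mul_nonneg hk.le h0
    linarith
  refine le_of_sq_le_sq ?_ hrhs
  rw [h1]
  have h4 : (k * N + (N - s) / (2 * k)) ^ 2 = (k * N - (N - s) / (2 * k)) ^ 2 + 2 * N * (N - s) := by
    field_simp
    ring
  rw [h4]
  nlinarith [sq_nonneg (k * N - (N - s) / (2 * k))]

end norm

theorem V2_lip {W : Type*} [NormedAddCommGroup W] [NormedSpace ℝ W] {f : Vec 2 → W}
    (hf : ContDiff ℝ 1 f) (x : Vec 2) (R : ℝ) : ∃ K : ℝ, 0 ≤ K ∧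
      ∀ X ∈ Metric.closedBall x R, ∀ Y ∈ Metric.closedBall x R, ‖f X - f Y‖ ≤ K * ‖X - Y‖ := by
  obtain ⟨K, hK⟩ := (isCompact_closedBall x R).exists_bound_of_continuousOn
    (hf.continuous_fderiv one_ne_zero).continuousOn
  refine ⟨max K 0, le_max_right _ _, fun X hX Y hY => ?_⟩
  exact Convex.norm_image_sub_le_of_norm_fderiv_le
    (fun y _ => (hf.differentiable one_ne_zero) y)
    (fun y hy => (hK y hy).trans (le_max_left _ _)) (convex_closedBall x R) hY hX

theorem V2_var {W : Type*} [NormedAddCommGroup W] [NormedSpace ℝ W] [CompleteSpace W]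
    {f g : ℝ → W} {h : ℝ → ℝ} (hf : ∀ t, HasDerivAt f (g t) t) (hg : Continuous g)
    (hh : Continuous h) (hgh : ∀ t, ‖g t‖ ≤ h t) {t : ℝ} (ht : t ∈ Icc (0 : ℝ) 1) :
    ‖f t - f 0‖ ≤ ∫ s in (0:ℝ)..1, h s := by
  have h1 : ∫ s in (0:ℝ)..t, g s = f t - f 0 :=
    intervalIntegral.integral_eq_sub_of_hasDerivAt (fun s _ => hf s) (hg.intervalIntegrable _ _)
  rw [← h1]
  calc ‖∫ s in (0:ℝ)..t, g s‖ ≤ ∫ s in (0:ℝ)..t, ‖g s‖ :=
        intervalIntegral.norm_integral_le_integral_norm ht.1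
    _ ≤ ∫ s in (0:ℝ)..t, h s := intervalIntegral.integral_mono_on ht.1
        (hg.norm.intervalIntegrable _ _) (hh.intervalIntegrable _ _) (fun s _ => hgh s)
    _ ≤ ∫ s in (0:ℝ)..1, h s := by
        refine intervalIntegral.integral_mono_interval le_rfl ht.1 ht.2 ?_
          (hh.intervalIntegrable _ _)
        exact Filter.Eventually.of_forall fun s => (norm_nonneg _).trans (hgh s)

theorem V2_lower {q : Vec 2 →L[ℝ] Vec 2 →L[ℝ] ℝ} (hq : T.IsScalarProduct q)
    {a : Vec 2 → Vec 2 →L[ℝ] ℝ} (ha : ContDiff ℝ 1 a) (hap : ∀ (m : Fin 2 → ℤ) x, a (x + vz m) = a x)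
    {c : Vec 2 → ℝ} (hc : ContDiff ℝ 1 c) (hcp : ∀ (m : Fin 2 → ℤ) x, c (x + vz m) = c x)
    {F : ℝ → Vec 2 → Vec 2 → ℝ} {η0 C : ℝ} (hη0 : 0 < η0)
    (hF : ∀ η, 0 < η → η ≤ η0 → Continuous fun p : Vec 2 × Vec 2 => F η p.1 p.2)
    (hFe : ∀ η, 0 < η → η ≤ η0 → ∀ x v,
      |F η x v - (√(q v v) + η * (a x v + c x * √(q v v)))| ≤ C * η ^ 2 * √(q v v))
    {v : Vec 2} (hv : v ≠ 0) (x : Vec 2) :
    ∃ C' η1 : ℝ, 0 < η1 ∧ η1 ≤ η0 ∧ ∀ η, 0 < η → η ≤ η1 → (∀ X V, 0 ≤ F η X V) ∧
      ∀ γ : ℝ → Vec 2, ContDiff ℝ 1 γ → γ 0 = x → γ 1 = x + v →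
        √(q v v) + η * (∫ t in (0:ℝ)..1, (a (x + t • v) v + c (x + t • v) * √(q v v))) -
          C' * η ^ 2 ≤ ∫ t in (0:ℝ)..1, F η (γ t) (deriv γ t) := by
  obtain ⟨A, hA0, hA⟩ := V2_per_bdd ha.continuous hap
  obtain ⟨B, hB0, hB⟩ := V2_per_bdd hc.continuous hcp
  obtain ⟨m, hm, hml⟩ := V2_low hq
  have hN0 : ∀ V : Vec 2, 0 ≤ √(q V V) := fun V => Real.sqrt_nonneg _
  set n := √(q v v) with hn
  have hn0 : 0 < n := V2_pos hq hv
  set e : Vec 2 := n⁻¹ • v with he
  have hNe : √(q e e) = 1 := by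
    rw [he, V2_hom hq, abs_of_pos (inv_pos.2 hn0), ← hn, inv_mul_cancel₀ hn0.ne']
  have hqe : q e e = 1 := by
    rw [← V2_sq hq e, hNe, one_pow]
  have hve : v = n • e := by
    rw [he, smul_smul, mul_inv_cancel₀ hn0.ne', one_smul]
  have hqev : q e v = n := by
    rw [hve, map_smul, smul_eq_mul, hqe, mul_one]
  have hnorm : ∀ V : Vec 2, ‖V‖ ≤ √(q V V) / m := fun V => by
    rw [le_div_iff₀ hm, mul_comm]
    exact hml V
  have hen : ‖e‖ ≤ 1 / m := by
    have := hnorm e
    rwa [hNe] at this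
  set A' := A / m with hA'
  have hA'0 : 0 ≤ A' := div_nonneg hA0 hm.le
  have haV : ∀ X V : Vec 2, |a X V| ≤ A' * √(q V V) := fun X V => by
    calc |a X V| = ‖a X V‖ := (Real.norm_eq_abs _).symm
      _ ≤ ‖a X‖ * ‖V‖ := (a X).le_opNorm V
      _ ≤ A * (√(q V V) / m) := mul_le_mul (hA X) (hnorm V) (norm_nonneg _) hA0
      _ = A' * √(q V V) := by rw [hA']; ring
  have hcV : ∀ X : Vec 2, |c X| ≤ B := fun X => by
    rw [← Real.norm_eq_abs]
    exact hB X
  set L0 := 2 * n + 2 with hL0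
  have hL00 : 0 < L0 := by positivity
  obtain ⟨La, hLa0, hLa⟩ := V2_lip ha x (L0 / m)
  obtain ⟨Lc, hLc0, hLc⟩ := V2_lip hc x (L0 / m)
  set K1 := (La / m + Lc) / m with hK1
  have hK10 : 0 ≤ K1 := by positivity
  set K2 := A' + K1 * L0 with hK2
  have hK20 : 0 ≤ K2 := by positivity
  set κ := K2 + 1 with hκ
  have hκ0 : 0 < κ := by positivity
  set D1 := (A' + B + |C| + 1) * (n + 1) with hD1
  have hD10 : 0 < D1 := by positivity
  refine ⟨(κ ^ 2 + |C|) * L0, min η0 (min 1 (1 / (2 * D1))), ?_, min_le_left _ _, ?_⟩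
  · exact lt_min hη0 (lt_min one_pos (by positivity))
  intro η hη hη1
  have hηη0 : η ≤ η0 := hη1.trans (min_le_left _ _)
  have hη1' : η ≤ 1 := hη1.trans ((min_le_right _ _).trans (min_le_left _ _))
  have hηD : η * D1 ≤ 1 / 2 := by
    have h1 : η ≤ 1 / (2 * D1) := hη1.trans ((min_le_right _ _).trans (min_le_right _ _))
    calc η * D1 ≤ 1 / (2 * D1) * D1 := mul_le_mul_of_nonneg_right h1 hD10.le
      _ = 1 / 2 := by field_simp
  have hηS : η * (A' + B + |C| + 1) ≤ 1 / 2 := by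
    refine le_trans ?_ hηD
    rw [hD1, ← mul_assoc]
    have : 0 ≤ η * (A' + B + |C| + 1) := by positivity
    nlinarith
  have hηn : η * ((A' + B) * n) ≤ 1 := by
    have h1 : (A' + B) * n ≤ D1 := by
      rw [hD1]
      have := abs_nonneg C
      nlinarith [mul_nonneg (add_nonneg hA'0 hB0) hn0.le]
    have h2 : η * ((A' + B) * n) ≤ η * D1 := mul_le_mul_of_nonneg_left h1 hη.le
    linarith
  have hηB : η * B ≤ 1 / 2 := by
    refine le_trans (mul_le_mul_of_nonneg_left ?_ hη.le) hηS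
    have := abs_nonneg C
    linarith
  have hη2 : |C| * η ^ 2 ≤ |C| * η := by
    refine mul_le_mul_of_nonneg_left ?_ (abs_nonneg C)
    nlinarith
  have hlow : ∀ X V : Vec 2, √(q V V) + η * (a X V + c X * √(q V V)) - |C| * η ^ 2 * √(q V V) ≤
      F η X V := fun X V => by
    have h1 := (abs_le.1 (hFe η hη hηη0 X V)).1
    have h2 : C * η ^ 2 * √(q V V) ≤ |C| * η ^ 2 * √(q V V) := by
      refine mul_le_mul_of_nonneg_right (mul_le_mul_of_nonneg_right (le_abs_self C) (sq_nonneg η))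
        (hN0 V)
    linarith
  have hhalf : ∀ X V : Vec 2, √(q V V) / 2 ≤ F η X V := fun X V => by
    have h1 := hlow X V
    have h2 : -((A' + B) * √(q V V)) ≤ a X V + c X * √(q V V) := by
      have h3 := (abs_le.1 (haV X V)).1
      have h4 : -(B * √(q V V)) ≤ c X * √(q V V) := by
        have := (abs_le.1 (hcV X)).1
        nlinarith [hN0 V]
      linarith
    have h5 : η * -((A' + B) * √(q V V)) ≤ η * (a X V + c X * √(q V V)) :=
      mul_le_mul_of_nonneg_left h2 hη.le
    have h6 : |C| * η ^ 2 * √(q V V) ≤ |C| * η * √(q V V) :=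
      mul_le_mul_of_nonneg_right hη2 (hN0 V)
    have h7 : η * (A' + B + |C| + 1) * √(q V V) ≤ 1 / 2 * √(q V V) :=
      mul_le_mul_of_nonneg_right hηS (hN0 V)
    have h8 : 0 ≤ η * √(q V V) := mul_nonneg hη.le (hN0 V)
    nlinarith
  refine ⟨fun X V => (div_nonneg (hN0 V) two_pos.le).trans (hhalf X V), ?_⟩
  intro γ hγ hγ0 hγ1
  set I := ∫ t in (0:ℝ)..1, (a (x + t • v) v + c (x + t • v) * n) with hI
  have hIb : |I| ≤ (A' + B) * n := by
    have h1 := intervalIntegral.norm_integral_le_of_norm_le_const (a := (0:ℝ)) (b := 1)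
      (f := fun t => a (x + t • v) v + c (x + t • v) * n) (C := (A' + B) * n) (fun t _ => by
        refine (norm_add_le _ _).trans ?_
        rw [Real.norm_eq_abs, Real.norm_eq_abs, abs_mul, abs_of_pos hn0]
        have h2 := haV (x + t • v) v
        have h3 := hcV (x + t • v)
        nlinarith)
    simpa using h1
  have hγ' : Continuous (deriv γ) := hγ.continuous_deriv le_rfl
  have hγc : Continuous γ := hγ.continuous
  have hγd : ∀ t, HasDerivAt γ (deriv γ t) t := fun t =>
    (hγ.differentiable one_ne_zero t).hasDerivAt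
  have hFc : Continuous fun t => F η (γ t) (deriv γ t) :=
    (hF η hη hηη0).comp (hγc.prodMk hγ')
  have hNc : Continuous fun t => √(q (deriv γ t) (deriv γ t)) := (V2_cont q).comp hγ'
  by_cases hbig : n + 1 < ∫ t in (0:ℝ)..1, F η (γ t) (deriv γ t)
  · have h1 : η * I ≤ 1 := by
      have h2 : η * I ≤ η * ((A' + B) * n) :=
        mul_le_mul_of_nonneg_left ((le_abs_self I).trans hIb) hη.le
      linarith
    have h3 : 0 ≤ (κ ^ 2 + |C|) * L0 * η ^ 2 := by positivity
    linarith
  push Not at hbig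
  -- the functions
  set s : ℝ → ℝ := fun t => q e (deriv γ t) with hs
  set r : ℝ → ℝ := fun t => q e (γ t - x) with hr
  set P : ℝ → Vec 2 := fun t => deriv γ t - s t • e with hP
  set z : ℝ → Vec 2 := fun t => γ t - x - r t • e with hz
  have hsc : Continuous s := (q e).continuous.comp hγ'
  have hPc : Continuous P := hγ'.sub (hsc.smul continuous_const)
  have hrd : ∀ t, HasDerivAt r (s t) t := fun t =>
    (q e).hasFDerivAt.comp_hasDerivAt t ((hγd t).sub_const x)
  have hzd : ∀ t, HasDerivAt z (P t) t := fun t =>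
    ((hγd t).sub_const x).sub ((hrd t).smul_const e)
  have hrc : Continuous r := (q e).continuous.comp (hγc.sub continuous_const)
  have hr0 : r 0 = 0 := by
    simp only [hr, hγ0, sub_self, map_zero]
  have hr1 : r 1 = n := by
    simp only [hr, hγ1, add_sub_cancel_left]
    exact hqev
  have hz0 : z 0 = 0 := by
    simp only [hz, hγ0, sub_self, hr0, zero_smul]
  have hPNc : Continuous fun t => √(q (P t) (P t)) := (V2_cont q).comp hPc
  set L := ∫ t in (0:ℝ)..1, √(q (deriv γ t) (deriv γ t)) with hL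
  set Z := ∫ t in (0:ℝ)..1, √(q (P t) (P t)) with hZ
  have hZ0 : 0 ≤ Z := intervalIntegral.integral_nonneg zero_le_one fun t _ => hN0 _
  have hL0' : 0 ≤ L := intervalIntegral.integral_nonneg zero_le_one fun t _ => hN0 _
  have hsint : ∫ t in (0:ℝ)..1, s t = n := by
    rw [intervalIntegral.integral_eq_sub_of_hasDerivAt (fun t _ => hrd t)
      (hsc.intervalIntegrable _ _), hr1, hr0, sub_zero]
  have hLL : L ≤ L0 := by
    have h1 : ∫ t in (0:ℝ)..1, √(q (deriv γ t) (deriv γ t)) / 2 ≤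
        ∫ t in (0:ℝ)..1, F η (γ t) (deriv γ t) :=
      intervalIntegral.integral_mono_on zero_le_one ((hNc.div_const 2).intervalIntegrable _ _)
        (hFc.intervalIntegrable _ _) fun t _ => hhalf _ _
    rw [intervalIntegral.integral_div] at h1
    rw [hL0]
    linarith
  have hγb : ∀ t ∈ Icc (0:ℝ) 1, γ t ∈ Metric.closedBall x (L0 / m) := by
    intro t ht
    have h1 := V2_var hγd hγ' (hNc.div_const m) (fun t => hnorm _) ht
    rw [intervalIntegral.integral_div, hγ0] at h1
    rw [mem_closedBall_iff_norm]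
    exact h1.trans (div_le_div_of_nonneg_right hLL hm.le)
  have hsN : ∀ t, |s t| ≤ √(q (deriv γ t) (deriv γ t)) := fun t => V2_le hq hqe
  have hyb : ∀ t ∈ Icc (0:ℝ) 1, x + r t • e ∈ Metric.closedBall x (L0 / m) := by
    intro t ht
    have h1 := V2_var hrd hsc hNc (fun t => by rw [Real.norm_eq_abs]; exact hsN t) ht
    rw [hr0, sub_zero] at h1
    rw [mem_closedBall_iff_norm, add_sub_cancel_left, norm_smul]
    calc ‖r t‖ * ‖e‖ ≤ L0 * (1 / m) :=
          mul_le_mul (h1.trans hLL) hen (norm_nonneg _) hL00.le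
      _ = L0 / m := by ring
  have hzb : ∀ t ∈ Icc (0:ℝ) 1, ‖z t‖ ≤ Z / m := by
    intro t ht
    have h1 := V2_var hzd hPc (hPNc.div_const m) (fun t => hnorm _) ht
    rwa [intervalIntegral.integral_div, hz0, sub_zero] at h1
  -- the integral of the main term
  have hac : Continuous fun ρ : ℝ => a (x + ρ • e) e + c (x + ρ • e) := by
    have h1 : Continuous fun ρ : ℝ => x + ρ • e := by fun_prop
    exact ((ha.continuous.comp h1).clm_apply continuous_const).add (hc.continuous.comp h1)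
  have hsub : ∫ t in (0:ℝ)..1, (a (x + r t • e) e + c (x + r t • e)) * s t = I := by
    have h1 := intervalIntegral.integral_comp_mul_deriv (a := (0:ℝ)) (b := 1) (f := r) (f' := s)
      (g := fun ρ => a (x + ρ • e) e + c (x + ρ • e)) (fun t _ => hrd t) hsc.continuousOn hac
    have h2 := intervalIntegral.integral_comp_mul_deriv (a := (0:ℝ)) (b := 1)
      (f := fun t => n * t) (f' := fun _ => n)
      (g := fun ρ => a (x + ρ • e) e + c (x + ρ • e))
      (fun t _ => by simpa using (hasDerivAt_id t).const_mul n) continuousOn_const hac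
    rw [hr0, hr1] at h1
    rw [mul_zero, mul_one] at h2
    have h3 : (∫ t in (0:ℝ)..1, (a (x + r t • e) e + c (x + r t • e)) * s t) =
        ∫ t in (0:ℝ)..1, (a (x + (n * t) • e) e + c (x + (n * t) • e)) * n := by
      have h1' : (∫ t in (0:ℝ)..1, (a (x + r t • e) e + c (x + r t • e)) * s t) =
        ∫ ρ in (0:ℝ)..n, (a (x + ρ • e) e + c (x + ρ • e)) := h1
      have h2' : (∫ t in (0:ℝ)..1, (a (x + (n * t) • e) e + c (x + (n * t) • e)) * n) =
        ∫ ρ in (0:ℝ)..n, (a (x + ρ • e) e + c (x + ρ • e)) := h2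
      rw [h1', h2']
    rw [h3, hI]
    refine intervalIntegral.integral_congr fun t _ => ?_
    have h4 : (n * t) • e = t • v := by
      calc (n * t) • e = t • (n • e) := by rw [smul_smul t n e, mul_comm t n]
        _ = t • v := by rw [← hve]
    show (a (x + (n * t) • e) e + c (x + (n * t) • e)) * n = a (x + t • v) v + c (x + t • v) * n
    rw [h4]
    have h5 : a (x + t • v) v = n * a (x + t • v) e := by
      conv_lhs => rw [hve]
      rw [map_smul, smul_eq_mul, ← hve]
    rw [h5]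
    ring
  -- pointwise inequality
  have hpt : ∀ t ∈ Icc (0:ℝ) 1,
      √(q (deriv γ t) (deriv γ t)) + η * ((a (x + r t • e) e + c (x + r t • e)) * s t) -
        η * (A' * √(q (P t) (P t)) + B * (√(q (deriv γ t) (deriv γ t)) - s t) +
          K1 * Z * √(q (deriv γ t) (deriv γ t))) - |C| * η ^ 2 * √(q (deriv γ t) (deriv γ t)) ≤
      F η (γ t) (deriv γ t) := by
    intro t ht
    have h1 := hlow (γ t) (deriv γ t)
    set N := √(q (deriv γ t) (deriv γ t)) with hN
    have hsN' := hsN t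
    have hst : s t ≤ N := (le_abs_self _).trans hsN'
    have hN00 : 0 ≤ N := hN0 _
    have hdec : deriv γ t = P t + s t • e := by
      simp only [hP, sub_add_cancel]
    have hzy : γ t - (x + r t • e) = z t := by
      simp only [hz]
      abel
    have h2 := haV (γ t) (P t)
    have h3 : |c (γ t) * (N - s t)| ≤ B * (N - s t) := by
      rw [abs_mul, abs_of_nonneg (sub_nonneg.2 hst)]
      exact mul_le_mul_of_nonneg_right (hcV _) (sub_nonneg.2 hst)
    have hz' := hzb t ht
    have h4 : |s t * ((a (γ t) - a (x + r t • e)) e)| ≤ N * (La * (Z / m) * (1 / m)) := by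
      rw [abs_mul]
      refine mul_le_mul hsN' ?_ (abs_nonneg _) hN00
      calc |(a (γ t) - a (x + r t • e)) e| = ‖(a (γ t) - a (x + r t • e)) e‖ :=
            (Real.norm_eq_abs _).symm
        _ ≤ ‖a (γ t) - a (x + r t • e)‖ * ‖e‖ := ContinuousLinearMap.le_opNorm _ _
        _ ≤ (La * (Z / m)) * (1 / m) := by
            refine mul_le_mul ?_ hen (norm_nonneg _) (by positivity)
            refine (hLa _ (hγb t ht) _ (hyb t ht)).trans ?_
            rw [hzy]
            exact mul_le_mul_of_nonneg_left hz' hLa0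
    have h5 : |s t * (c (γ t) - c (x + r t • e))| ≤ N * (Lc * (Z / m)) := by
      rw [abs_mul]
      refine mul_le_mul hsN' ?_ (abs_nonneg _) hN00
      rw [← Real.norm_eq_abs]
      refine (hLc _ (hγb t ht) _ (hyb t ht)).trans ?_
      rw [hzy]
      exact mul_le_mul_of_nonneg_left hz' hLc0
    have h6 : a (γ t) (deriv γ t) + c (γ t) * N - (a (x + r t • e) e + c (x + r t • e)) * s t =
        a (γ t) (P t) + c (γ t) * (N - s t) + s t * ((a (γ t) - a (x + r t • e)) e) +
          s t * (c (γ t) - c (x + r t • e)) := by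
      conv_lhs => rw [hdec]
      rw [map_add, map_smul, smul_eq_mul, ContinuousLinearMap.sub_apply]
      ring
    have h7 : K1 * Z * N = N * (La * (Z / m) * (1 / m)) + N * (Lc * (Z / m)) := by
      rw [hK1]
      field_simp
    have h8 : -(A' * √(q (P t) (P t)) + B * (N - s t) + K1 * Z * N) ≤
        a (γ t) (deriv γ t) + c (γ t) * N - (a (x + r t • e) e + c (x + r t • e)) * s t := by
      rw [h6, h7]
      have g2 := (abs_le.1 h2).1
      have g3 := (abs_le.1 h3).1
      have g4 := (abs_le.1 h4).1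
      have g5 := (abs_le.1 h5).1
      linarith
    have h9 := mul_le_mul_of_nonneg_left h8 hη.le
    nlinarith
  -- integration
  have hmain : L + η * I - η * (A' * Z + B * (L - n) + K1 * Z * L) - |C| * η ^ 2 * L ≤
      ∫ t in (0:ℝ)..1, F η (γ t) (deriv γ t) := by
    have hec : Continuous fun t => (a (x + r t • e) e + c (x + r t • e)) * s t :=
      (hac.comp hrc).mul hsc
    have h1 := intervalIntegral.integral_mono_on (μ := volume) zero_le_one
      (Continuous.intervalIntegrable (by fun_prop) _ _) (hFc.intervalIntegrable _ _) hpt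
    refine le_trans (le_of_eq ?_) h1
    rw [intervalIntegral.integral_sub, intervalIntegral.integral_sub,
      intervalIntegral.integral_add, intervalIntegral.integral_const_mul,
      intervalIntegral.integral_const_mul, intervalIntegral.integral_const_mul,
      intervalIntegral.integral_add, intervalIntegral.integral_add,
      intervalIntegral.integral_const_mul, intervalIntegral.integral_const_mul,
      intervalIntegral.integral_const_mul, intervalIntegral.integral_sub, hsub, hsint]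
    all_goals exact Continuous.intervalIntegrable (by fun_prop) _ _
  have hηκ : 0 < η * κ := mul_pos hη hκ0
  have hZle : Z ≤ η * κ * L + (L - n) / (2 * (η * κ)) := by
    have h1 := intervalIntegral.integral_mono_on (μ := volume) zero_le_one
      (hPNc.intervalIntegrable 0 1)
      (Continuous.intervalIntegrable (u := fun t => η * κ * √(q (deriv γ t) (deriv γ t)) +
        (√(q (deriv γ t) (deriv γ t)) - s t) / (2 * (η * κ)))
        ((hNc.const_mul _).add ((hNc.sub hsc).div_const _)) 0 1)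
      (fun t _ => V2_amgm hq hqe hηκ)
    refine h1.trans (le_of_eq ?_)
    rw [intervalIntegral.integral_add, intervalIntegral.integral_const_mul,
      intervalIntegral.integral_div, intervalIntegral.integral_sub, hsint]
    · exact hNc.intervalIntegrable _ _
    · exact hsc.intervalIntegrable _ _
    · exact (hNc.const_mul _).intervalIntegrable _ _
    · exact ((hNc.sub hsc).div_const _).intervalIntegrable _ _
  have hD0 : 0 ≤ L - n := by
    rw [← hsint, hL, ← intervalIntegral.integral_sub (hNc.intervalIntegrable _ _)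
      (hsc.intervalIntegrable _ _)]
    exact intervalIntegral.integral_nonneg zero_le_one fun t _ =>
      sub_nonneg.2 ((le_abs_self _).trans (hsN t))
  have hfin1 : η * (A' * Z + K1 * Z * L) ≤ η ^ 2 * κ ^ 2 * L0 + (L - n) / 2 := by
    have h1 : A' * Z + K1 * Z * L ≤ κ * Z := by
      have h2 : K1 * Z * L ≤ K1 * Z * L0 := mul_le_mul_of_nonneg_left hLL (by positivity)
      have h3 : κ * Z = A' * Z + K1 * Z * L0 + Z := by
        rw [hκ, hK2]
        ring
      linarith
    have h4 : η * (κ * Z) ≤ η * κ * (η * κ * L + (L - n) / (2 * (η * κ))) := by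
      rw [← mul_assoc]
      exact mul_le_mul_of_nonneg_left hZle hηκ.le
    have h5 : η * κ * (η * κ * L + (L - n) / (2 * (η * κ))) = η ^ 2 * κ ^ 2 * L + (L - n) / 2 := by
      field_simp
    have h6 : η ^ 2 * κ ^ 2 * L ≤ η ^ 2 * κ ^ 2 * L0 := mul_le_mul_of_nonneg_left hLL (by positivity)
    have h7 := mul_le_mul_of_nonneg_left h1 hη.le
    linarith
  have hfin2 : η * (B * (L - n)) ≤ (L - n) / 2 := by
    have := mul_le_mul_of_nonneg_right hηB hD0
    linarith
  have hfin3 : |C| * η ^ 2 * L ≤ |C| * η ^ 2 * L0 := mul_le_mul_of_nonneg_left hLL (by positivity)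
  have e1 : η * (A' * Z + B * (L - n) + K1 * Z * L) =
      η * (A' * Z + K1 * Z * L) + η * (B * (L - n)) := by ring
  have e2 : (κ ^ 2 + |C|) * L0 * η ^ 2 = η ^ 2 * κ ^ 2 * L0 + |C| * η ^ 2 * L0 := by ring
  rw [e1] at hmain
  rw [e2]
  linarith

/-- the inequality between the integrals -/
theorem V2_ineq {q : Vec 2 →L[ℝ] Vec 2 →L[ℝ] ℝ} (hq : T.IsScalarProduct q)
    {a : Vec 2 → Vec 2 →L[ℝ] ℝ} (ha : ContDiff ℝ 1 a) (hap : ∀ (m : Fin 2 → ℤ) x, a (x + vz m) = a x)
    {c : Vec 2 → ℝ} (hc : ContDiff ℝ 1 c) (hcp : ∀ (m : Fin 2 → ℤ) x, c (x + vz m) = c x)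
    {F : ℝ → Vec 2 → Vec 2 → ℝ} {η0 C : ℝ} (hη0 : 0 < η0)
    (hF : ∀ η, 0 < η → η ≤ η0 → Continuous fun p : Vec 2 × Vec 2 => F η p.1 p.2)
    (hFe : ∀ η, 0 < η → η ≤ η0 → ∀ x v,
      |F η x v - (√(q v v) + η * (a x v + c x * √(q v v)))| ≤ C * η ^ 2 * √(q v v))
    {v : Vec 2} (hv : v ≠ 0) (hd : ∀ η, 0 < η → η ≤ η0 → ∀ x y : Vec 2,
      Pool.Agent.EscG.cdist (F η) x (x + v) = Pool.Agent.EscG.cdist (F η) y (y + v)) (x y : Vec 2) :
    ∫ t in (0:ℝ)..1, (a (x + t • v) v + c (x + t • v) * √(q v v)) ≤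
      ∫ t in (0:ℝ)..1, (a (y + t • v) v + c (y + t • v) * √(q v v)) := by
  obtain ⟨C', η1, hη1, hη10, h⟩ := V2_lower hq ha hap hc hcp hη0 hF hFe hv x
  set n := √(q v v) with hn
  set Ix := ∫ t in (0:ℝ)..1, (a (x + t • v) v + c (x + t • v) * n) with hIx
  set Iy := ∫ t in (0:ℝ)..1, (a (y + t • v) v + c (y + t • v) * n) with hIy
  have hlc : Continuous fun t : ℝ => y + t • v := by fun_prop
  have hEc : Continuous fun t : ℝ => a (y + t • v) v + c (y + t • v) * n :=
    ((ha.continuous.comp hlc).clm_apply continuous_const).add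
      ((hc.continuous.comp hlc).mul_const n)
  have key : ∀ η, 0 < η → η ≤ η1 → Ix - Iy ≤ (C' + C * n) * η := by
    intro η hη hηη
    obtain ⟨hpos, hlow⟩ := h η hη hηη
    have h1 : n + η * Ix - C' * η ^ 2 ≤ Pool.Agent.EscG.cdist (F η) x (x + v) := by
      unfold Pool.Agent.EscG.cdist
      refine le_csInf ⟨_, fun t => x + t • v, by fun_prop, by simp, by simp, rfl⟩ ?_
      rintro _ ⟨γ, hγ, hγ0, hγ1, rfl⟩
      exact hlow γ hγ hγ0 hγ1
    have h2 : Pool.Agent.EscG.cdist (F η) y (y + v) ≤ n + η * Iy + C * η ^ 2 * n := by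
      have h3 : Pool.Agent.EscG.cdist (F η) y (y + v) ≤
          ∫ t in (0:ℝ)..1, F η (y + t • v) (deriv (fun t : ℝ => y + t • v) t) := by
        unfold Pool.Agent.EscG.cdist
        refine csInf_le ⟨0, ?_⟩ ⟨fun t => y + t • v, by fun_prop, by simp, by simp, rfl⟩
        rintro _ ⟨γ, hγ, hγ0, hγ1, rfl⟩
        exact intervalIntegral.integral_nonneg zero_le_one fun t _ => hpos _ _
      have hder : ∀ t : ℝ, deriv (fun t : ℝ => y + t • v) t = v := fun t => by
        have h4 : HasDerivAt (fun t : ℝ => y + t • v) ((1 : ℝ) • v) t :=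
          ((hasDerivAt_id t).smul_const v).const_add y
        rw [one_smul] at h4
        exact h4.deriv
      have h5 : (∫ t in (0:ℝ)..1, F η (y + t • v) (deriv (fun t : ℝ => y + t • v) t)) =
          ∫ t in (0:ℝ)..1, F η (y + t • v) v :=
        intervalIntegral.integral_congr fun t _ => by
          show F η (y + t • v) (deriv (fun t : ℝ => y + t • v) t) = F η (y + t • v) v
          rw [hder]
      rw [h5] at h3
      have hFc : Continuous fun t : ℝ => F η (y + t • v) v :=
        (hF η hη (hηη.trans hη10)).comp (hlc.prodMk continuous_const)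
      have h6 : ∫ t in (0:ℝ)..1, F η (y + t • v) v ≤
          ∫ t in (0:ℝ)..1, (n + η * (a (y + t • v) v + c (y + t • v) * n) + C * η ^ 2 * n) := by
        refine intervalIntegral.integral_mono_on zero_le_one (hFc.intervalIntegrable _ _)
          (Continuous.intervalIntegrable ?_ _ _) fun t _ => ?_
        · exact (continuous_const.add (hEc.const_mul η)).add continuous_const
        · have h7 := (abs_le.1 (hFe η hη (hηη.trans hη10) (y + t • v) v)).2
          rw [← hn] at h7
          linarith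
      have h8 : (∫ t in (0:ℝ)..1, (n + η * (a (y + t • v) v + c (y + t • v) * n) +
          C * η ^ 2 * n)) = n + η * Iy + C * η ^ 2 * n := by
        rw [intervalIntegral.integral_add, intervalIntegral.integral_add,
          intervalIntegral.integral_const_mul, ← hIy]
        · simp
        · exact intervalIntegrable_const
        · exact (hEc.const_mul η).intervalIntegrable _ _
        · exact (continuous_const.add (hEc.const_mul η)).intervalIntegrable _ _
        · exact intervalIntegrable_const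
      rw [h8] at h6
      exact h3.trans h6
    rw [hd η hη (hηη.trans hη10) x y] at h1
    have h9 : η * (Ix - Iy) ≤ η * ((C' + C * n) * η) := by nlinarith
    exact le_of_mul_le_mul_left h9 hη
  refine sub_nonpos.1 (le_of_forall_pos_le_add fun ε hε => ?_)
  rw [zero_add]
  set K := |C' + C * n| + 1 with hK
  have hK0 : 0 < K := by positivity
  have h1 := key (min η1 (ε / K)) (lt_min hη1 (div_pos hε hK0)) (min_le_left _ _)
  refine h1.trans ?_
  calc (C' + C * n) * min η1 (ε / K) ≤ K * min η1 (ε / K) := by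
        refine mul_le_mul_of_nonneg_right ?_ (lt_min hη1 (div_pos hε hK0)).le
        rw [hK]
        linarith [le_abs_self (C' + C * n)]
    _ ≤ K * (ε / K) := mul_le_mul_of_nonneg_left (min_le_right _ _) hK0.le
    _ = ε := by field_simp

theorem V2_first {q : Vec 2 →L[ℝ] Vec 2 →L[ℝ] ℝ} (hq : T.IsScalarProduct q)
    {a : Vec 2 → Vec 2 →L[ℝ] ℝ} (ha : ContDiff ℝ 1 a) (hap : ∀ (m : Fin 2 → ℤ) x, a (x + vz m) = a x)
    {c : Vec 2 → ℝ} (hc : ContDiff ℝ 1 c) (hcp : ∀ (m : Fin 2 → ℤ) x, c (x + vz m) = c x)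
    {F : ℝ → Vec 2 → Vec 2 → ℝ} {η0 C : ℝ} (hη0 : 0 < η0)
    (hF : ∀ η, 0 < η → η ≤ η0 → Continuous fun p : Vec 2 × Vec 2 => F η p.1 p.2)
    (hFe : ∀ η, 0 < η → η ≤ η0 → ∀ x v,
      |F η x v - (√(q v v) + η * (a x v + c x * √(q v v)))| ≤ C * η ^ 2 * √(q v v))
    {v : Vec 2} (hd : ∀ η, 0 < η → η ≤ η0 → ∀ x y : Vec 2,
      Pool.Agent.EscG.cdist (F η) x (x + v) = Pool.Agent.EscG.cdist (F η) y (y + v)) (x y : Vec 2) :
    ∫ t in (0:ℝ)..1, (a (x + t • v) v + c (x + t • v) * √(q v v)) =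
      ∫ t in (0:ℝ)..1, (a (y + t • v) v + c (y + t • v) * √(q v v)) := by
  rcases eq_or_ne v 0 with rfl | hv
  · simp
  · exact le_antisymm (V2_ineq hq ha hap hc hcp hη0 hF hFe hv hd x y)
      (V2_ineq hq ha hap hc hcp hη0 hF hFe hv hd y x)

end EscG.U
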