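import Pool.Agent.EscV.VDefs
import Pool.Agent.EscG.FnDefs

set_option autoImplicit false

/-!
# Project EscV, module V7: change of coordinates and exact forms in `cdist`

`V7_map`: `c ↦ φ ∘ c` is a bijection of the `C^1` curves from `x` to `y` onto those from `φ x` to `φ y`, with inverse `c ↦ ψ ∘ c`, and it keeps the length
(`fderiv ψ (φ x) ∘ fderiv φ x = id` by the chain rule): the two sets of lengths are equal.
`V7_exact`: the lengths differ by `σ y - σ x` for all curves (`intervalIntegral.integral_deriv_eq_sub`, `F` continuous for the integrability), and the infimum of a translated set; the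
sets are nonempty (segment) and bounded below: `hF0`, `hF1`.
-/

noncomputable section

namespace EscG.U

open Filter Topology Set MeasureTheory EscF.T EscG.T
open scoped ContDiff

theorem V7_map {φ ψ : Vec 2 → Vec 2} (hφ : ContDiff ℝ 1 φ) (hψ : ContDiff ℝ 1 ψ) (hl : ∀ x, ψ (φ x) = x)
    (hr : ∀ y, φ (ψ y) = y) (F : Vec 2 → Vec 2 → ℝ) (x y : Vec 2) :
    Pool.Agent.EscG.cdist (fun z v => F (ψ z) (fderiv ℝ ψ z v)) (φ x) (φ y) =
      Pool.Agent.EscG.cdist F x y := by
  have hdφ : Differentiable ℝ φ := hφ.differentiable one_ne_zero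
  have hdψ : Differentiable ℝ ψ := hψ.differentiable one_ne_zero
  unfold Pool.Agent.EscG.cdist
  congr 1
  ext r
  constructor
  · rintro ⟨c, hc, h0, h1, hr'⟩
    have hdc : Differentiable ℝ c := hc.differentiable one_ne_zero
    refine ⟨fun t => ψ (c t), hψ.comp hc, by simp only [h0, hl], by simp only [h1, hl], ?_⟩
    rw [hr']
    congr 1
    funext t
    have h2 : HasDerivAt (fun t => ψ (c t)) (fderiv ℝ ψ (c t) (deriv c t)) t :=
      (hdψ (c t)).hasFDerivAt.comp_hasDerivAt t (hdc t).hasDerivAt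
    rw [h2.deriv]
  · rintro ⟨c, hc, h0, h1, hr'⟩
    have hdc : Differentiable ℝ c := hc.differentiable one_ne_zero
    refine ⟨fun t => φ (c t), hφ.comp hc, by simp only [h0], by simp only [h1], ?_⟩
    rw [hr']
    congr 1
    funext t
    have h2 : HasDerivAt (fun t => φ (c t)) (fderiv ℝ φ (c t) (deriv c t)) t :=
      (hdφ (c t)).hasFDerivAt.comp_hasDerivAt t (hdc t).hasDerivAt
    have h3 : HasDerivAt (fun t => ψ (φ (c t))) (fderiv ℝ ψ (φ (c t)) (fderiv ℝ φ (c t) (deriv c t))) t :=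
      (hdψ (φ (c t))).hasFDerivAt.comp_hasDerivAt t h2
    simp only [hl] at h3
    simp only [hl]
    rw [h2.deriv, ← h3.deriv]

theorem V7_exact {F : Vec 2 → Vec 2 → ℝ} (hF : Continuous fun p : Vec 2 × Vec 2 => F p.1 p.2)
    {σ : Vec 2 → ℝ} (hσ : ContDiff ℝ 1 σ) (hF0 : ∀ x v, 0 ≤ F x v) (hF1 : ∀ x v, 0 ≤ F x v + fderiv ℝ σ x v)
    (x y : Vec 2) :
    Pool.Agent.EscG.cdist (fun z v => F z v + fderiv ℝ σ z v) x y =
      Pool.Agent.EscG.cdist F x y + (σ y - σ x) := by
  have hdσ : Differentiable ℝ σ := hσ.differentiable one_ne_zero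
  have key : ∀ c : ℝ → Vec 2, ContDiff ℝ 1 c → c 0 = x → c 1 = y →
      ∫ t in (0 : ℝ)..1, (F (c t) (deriv c t) + fderiv ℝ σ (c t) (deriv c t)) =
        (∫ t in (0 : ℝ)..1, F (c t) (deriv c t)) + (σ y - σ x) := by
    intro c hc h0 h1
    have hdc : Differentiable ℝ c := hc.differentiable one_ne_zero
    have hcc : Continuous c := hc.continuous
    have hcd : Continuous (deriv c) := hc.continuous_deriv le_rfl
    have hFc : Continuous fun t => F (c t) (deriv c t) := hF.comp (hcc.prodMk hcd)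
    have hσc : Continuous fun t => fderiv ℝ σ (c t) (deriv c t) :=
      ((hσ.continuous_fderiv one_ne_zero).comp hcc).clm_apply hcd
    rw [intervalIntegral.integral_add (hFc.intervalIntegrable _ _) (hσc.intervalIntegrable _ _)]
    congr 1
    have h2 : ∀ t ∈ Set.uIcc (0:ℝ) 1, HasDerivAt (fun t => σ (c t)) (fderiv ℝ σ (c t) (deriv c t)) t :=
      fun t _ => (hdσ (c t)).hasFDerivAt.comp_hasDerivAt t (hdc t).hasDerivAt
    rw [intervalIntegral.integral_eq_sub_of_hasDerivAt h2 (hσc.intervalIntegrable _ _), h0, h1]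
  have hne : ∃ c : ℝ → Vec 2, ContDiff ℝ 1 c ∧ c 0 = x ∧ c 1 = y :=
    ⟨fun t => x + t • (y - x), by fun_prop, by simp, by simp⟩
  obtain ⟨c0, hc0, h00, h01⟩ := hne
  have hb : BddBelow {r | ∃ c : ℝ → Vec 2, ContDiff ℝ 1 c ∧ c 0 = x ∧ c 1 = y ∧
      r = ∫ t in (0 : ℝ)..1, F (c t) (deriv c t)} := by
    refine ⟨0, ?_⟩
    rintro r ⟨c, -, -, -, rfl⟩
    exact intervalIntegral.integral_nonneg zero_le_one fun t _ => hF0 _ _
  have hb' : BddBelow {r | ∃ c : ℝ → Vec 2, ContDiff ℝ 1 c ∧ c 0 = x ∧ c 1 = y ∧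
      r = ∫ t in (0 : ℝ)..1, (F (c t) (deriv c t) + fderiv ℝ σ (c t) (deriv c t))} := by
    refine ⟨0, ?_⟩
    rintro r ⟨c, -, -, -, rfl⟩
    exact intervalIntegral.integral_nonneg zero_le_one fun t _ => hF1 _ _
  unfold Pool.Agent.EscG.cdist
  apply le_antisymm
  · rw [← sub_le_iff_le_add]
    refine le_csInf ⟨_, c0, hc0, h00, h01, rfl⟩ ?_
    rintro r ⟨c, hc, h0, h1, rfl⟩
    rw [sub_le_iff_le_add, ← key c hc h0 h1]
    exact csInf_le hb' ⟨c, hc, h0, h1, rfl⟩
  · refine le_csInf ⟨_, c0, hc0, h00, h01, rfl⟩ ?_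
    rintro r ⟨c, hc, h0, h1, rfl⟩
    rw [key c hc h0 h1]
    exact add_le_add_left (csInf_le hb ⟨c, hc, h0, h1, rfl⟩) _

end EscG.U
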