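import Pool.Agent.EscV.VDefs
import Pool.Agent.EscG.O7

set_option autoImplicit false

/-!
# Project EscV, module V8: the reduced metric of a small momentum

Constants: by periodicity and compactness there are `cg, ch > 0`, `CA, CJ` with `cg ‖v‖² ≤ g x v v`, `ch ‖w‖² ≤ h x w w`, `‖A x‖ ≤ CA`, `‖J x‖ ≤ CJ`.
`kap p x = h x (J x p) (J x p) ≥ 0`, `≤ CJ ‖p‖²`. `V8_small` follows for small `‖p‖` (`fib v = (fib v - A (base v)) + A (base v)`, both parts are bounded by `nrm`).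
`V8_ge`, `V8_le` are pure algebra at a point: `s = √(g a a)`, `e = J x p`, `π² = kap p x = h e e ≤ 1/2`, `S = s / √(1 - π²)`, `w = fib v`, `w = A a + S e + z`
(`S e + A a = om`), `h e z =: c`, `h z z =: Z ≥ 0`. Then `met = s² + h(S e + z, S e + z) = S² + 2 S c + Z = (S + c)² + (Z - c²)`, `c² ≤ π² Z ≤ Z`
(Cauchy-Schwarz), `⟪p, w⟫ = ⟪p, A a⟫ + S π² + c`, `red = (1 - π²) S - ⟪p, A a⟫`, so `nrm - ⟪p, w⟫ - red = nrm - (S + c) =: D ≥ 0`: `V8_ge`.
`D (nrm + S + c) = Z - c²`, `nrm ≤ S + √Z`, `D ≤ 2 √Z`, `S D = (S + c) D - c D ≤ Z/2 + 2 Z`, `(red + D)² - red² = 2 red D + D² ≤ C S D + 4 Z`, with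
`|red| ≤ C' S`, `Z ≤ C'' ‖z‖²`: `V8_le`.
-/

noncomputable section

namespace EscG.U

open Filter Topology Set EscF.T EscG.T EscG.X
open scoped ContDiff

variable {n : ℕ} {K : KK n} {k : ℕ∞}

/-! ### scalar products -/

private theorem V8_nn {m : ℕ} {Q : Vec m →L[ℝ] Vec m →L[ℝ] ℝ} (hQ : T.IsScalarProduct Q) (v : Vec m) :
    0 ≤ Q v v := by
  by_cases hv : v = 0
  · rw [hv]
    simp
  · exact (hQ.2 v hv).le

private theorem V8_cs {m : ℕ} {Q : Vec m →L[ℝ] Vec m →L[ℝ] ℝ} (hQ : T.IsScalarProduct Q) (v w : Vec m) :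
    Q v w ^ 2 ≤ Q v v * Q w w := by
  have h1 : ∀ t : ℝ, 0 ≤ Q v v * (t * t) + (2 * Q v w) * t + Q w w := by
    intro t
    have h2 := V8_nn hQ (t • v + w)
    have e : Q (t • v + w) (t • v + w) = Q v v * (t * t) + (2 * Q v w) * t + Q w w := by
      have e1 := hQ.1 w v
      simp
      rw [e1]
      ring
    rw [e] at h2
    exact h2
  have h3 := discrim_le_zero h1
  unfold discrim at h3
  nlinarith

/-! ### periodic functions -/

private theorem V8_bdd {W : Type*} [NormedAddCommGroup W] {Ψ : Vec 2 → W} (hc : Continuous Ψ)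
    (hp : ∀ (m : Fin 2 → ℤ) x, Ψ (x + vz m) = Ψ x) : ∃ C : ℝ, 0 ≤ C ∧ ∀ x, ‖Ψ x‖ ≤ C := by
  obtain ⟨C, hC⟩ := O7_bdd (Φ := fun q : Vec 2 × ℝ => Ψ q.1) (hc.comp continuous_fst) (fun m l x t => hp m x)
  exact ⟨C, (norm_nonneg _).trans (hC (0, 0)), fun x => hC (x, 0)⟩

private theorem V8_lowb {m : ℕ} {G : Vec 2 → Vec m →L[ℝ] Vec m →L[ℝ] ℝ} (hc : Continuous G)
    (hp : ∀ (l : Fin 2 → ℤ) x, G (x + vz l) = G x) (hG : ∀ x, T.IsScalarProduct (G x)) :
    ∃ c : ℝ, 0 < c ∧ ∀ x v, c * ‖v‖ ^ 2 ≤ G x v v := by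
  have hK : IsCompact (Metric.sphere (0 : Vec m) 1) := isCompact_sphere _ _
  have hunit : ∀ v : Vec m, v ≠ 0 → (‖v‖⁻¹ • v) ∈ Metric.sphere (0 : Vec m) 1 := fun v hv => by
    rw [mem_sphere_zero_iff_norm, norm_smul, norm_inv, norm_norm, inv_mul_cancel₀ (norm_ne_zero_iff.2 hv)]
  rcases (Metric.sphere (0 : Vec m) 1).eq_empty_or_nonempty with h0 | h0
  · refine ⟨1, one_pos, fun x v => ?_⟩
    have hv : v = 0 := by
      by_contra hv
      have h1 := hunit v hv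
      rw [h0] at h1
      exact h1
    rw [hv]
    simp
  · have hf : ∀ x, Continuous fun v : Vec m => G x v v := fun x => (G x).continuous.clm_apply continuous_id
    obtain ⟨φ, hφ⟩ : ∃ φ : Vec 2 → ℝ, ∀ x, φ x = sInf ((fun v => G x v v) '' Metric.sphere (0 : Vec m) 1) :=
      ⟨_, fun _ => rfl⟩
    have hcont : Continuous φ := by
      have h1 : Continuous (fun q : Vec 2 × Vec m => G q.1 q.2 q.2) :=
        ((hc.comp continuous_fst).clm_apply continuous_snd).clm_apply continuous_snd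
      have h2 := hK.continuous_sInf (f := fun x v => G x v v) h1
      exact (continuous_congr hφ).2 h2
    have hmin : ∀ x, ∃ w ∈ Metric.sphere (0 : Vec m) 1, φ x = G x w w := by
      intro x
      obtain ⟨w, hw, h1⟩ := hK.exists_sInf_image_eq h0 (hf x).continuousOn
      exact ⟨w, hw, by rw [hφ, h1]⟩
    have hpos : ∀ x, 0 < φ x := by
      intro x
      obtain ⟨w, hw, h1⟩ := hmin x
      rw [h1]
      refine (hG x).2 w ?_
      rintro rfl
      simp at hw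
    have hle : ∀ x, ∀ v ∈ Metric.sphere (0 : Vec m) 1, φ x ≤ G x v v := by
      intro x v hv
      rw [hφ]
      exact csInf_le (hK.image (hf x)).bddBelow ⟨v, hv, rfl⟩
    have hper : ∀ (l : Fin 2 → ℤ) x, φ (x + vz l) = φ x := by
      intro l x
      rw [hφ, hφ, hp]
    obtain ⟨C, hC0, hC⟩ := V8_bdd (Ψ := fun x => (φ x)⁻¹) (hcont.inv₀ fun x => (hpos x).ne')
      (fun l x => by rw [hper])
    have hC1 : 0 < C := by
      have h2 : 0 < ‖(φ 0)⁻¹‖ := norm_pos_iff.2 (inv_ne_zero (hpos 0).ne')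
      exact h2.trans_le (hC 0)
    refine ⟨C⁻¹, inv_pos.2 hC1, fun x v => ?_⟩
    by_cases hv : v = 0
    · rw [hv]
      simp
    have h3 : C⁻¹ ≤ φ x := by
      have h4 := hC x
      rw [Real.norm_of_nonneg (inv_nonneg.2 (hpos x).le)] at h4
      rwa [inv_le_comm₀ hC1 (hpos x)]
    have h5 := h3.trans (hle x _ (hunit v hv))
    have hn : ‖v‖ ≠ 0 := norm_ne_zero_iff.2 hv
    have h6 : G x v v = ‖v‖ ^ 2 * (G x (‖v‖⁻¹ • v) (‖v‖⁻¹ • v)) := by
      simp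
      field_simp
    rw [h6, mul_comm]
    exact mul_le_mul_of_nonneg_left h5 (sq_nonneg _)

/-- lower bound of the metric of the base -/
theorem V8_low (hK : K.Ok k) : ∃ c : ℝ, 0 < c ∧ (∀ x v, c * ‖v‖ ^ 2 ≤ K.g x v v) ∧
    ∀ x v : Vec (2 + n), c * ‖v‖ ^ 2 ≤ K.met x v v := by
  obtain ⟨cg, hcg, hg⟩ := V8_lowb hK.sg.continuous hK.pg hK.hg
  obtain ⟨ch, hch, hh⟩ := V8_lowb hK.sh.continuous hK.ph hK.hh
  obtain ⟨CA, hCA, hA⟩ := V8_bdd hK.sA.continuous hK.pA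
  have hD : 0 < (1 + 2 * CA ^ 2) / cg + 2 / ch := by positivity
  refine ⟨((1 + 2 * CA ^ 2) / cg + 2 / ch)⁻¹, inv_pos.2 hD, fun x v => ?_, fun x v => ?_⟩
  · refine le_trans ?_ (hg x v)
    refine mul_le_mul_of_nonneg_right ?_ (sq_nonneg _)
    rw [inv_le_comm₀ hD hcg]
    have h1 : cg⁻¹ = 1 / cg := by rw [one_div]
    have h2 : 1 / cg ≤ (1 + 2 * CA ^ 2) / cg := by
      apply div_le_div_of_nonneg_right _ hcg.le
      nlinarith [sq_nonneg CA]
    have h3 : 0 ≤ 2 / ch := by positivity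
    rw [h1]
    linarith
  · rw [inv_mul_le_iff₀ hD]
    have h1 := hg (base x) (base v)
    have h2 := hh (base x) (fib v - K.A (base x) (base v))
    have h3 : ‖K.A (base x) (base v)‖ ≤ CA * ‖base v‖ :=
      ((K.A (base x)).le_opNorm _).trans (mul_le_mul_of_nonneg_right (hA _) (norm_nonneg _))
    have h4 : ‖fib v‖ ≤ ‖fib v - K.A (base x) (base v)‖ + CA * ‖base v‖ := by
      have h5 := norm_add_le (fib v - K.A (base x) (base v)) (K.A (base x) (base v))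
      rw [sub_add_cancel] at h5
      linarith
    have h5 : ‖fib v‖ ^ 2 ≤ 2 * ‖fib v - K.A (base x) (base v)‖ ^ 2 + 2 * CA ^ 2 * ‖base v‖ ^ 2 := by
      have h6 : ‖fib v‖ ^ 2 ≤ (‖fib v - K.A (base x) (base v)‖ + CA * ‖base v‖) ^ 2 :=
        pow_le_pow_left₀ (norm_nonneg _) h4 2
      nlinarith [sq_nonneg (‖fib v - K.A (base x) (base v)‖ - CA * ‖base v‖)]
    have h7 : ‖base v‖ ^ 2 ≤ K.g (base x) (base v) (base v) / cg := by
      rw [le_div_iff₀ hcg]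
      linarith
    have h8 : ‖fib v - K.A (base x) (base v)‖ ^ 2 ≤
        K.h (base x) (fib v - K.A (base x) (base v)) (fib v - K.A (base x) (base v)) / ch := by
      rw [le_div_iff₀ hch]
      linarith
    have hG := V8_nn (hK.hg (base x)) (base v)
    have hH := V8_nn (hK.hh (base x)) (fib v - K.A (base x) (base v))
    rw [norm_sq_base]
    have h9 : ‖base v‖ ^ 2 + ‖fib v‖ ^ 2 ≤ (1 + 2 * CA ^ 2) * (K.g (base x) (base v) (base v) / cg) +
        2 * (K.h (base x) (fib v - K.A (base x) (base v)) (fib v - K.A (base x) (base v)) / ch) := by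
      have h10 : (1 + 2 * CA ^ 2) * ‖base v‖ ^ 2 ≤ (1 + 2 * CA ^ 2) * (K.g (base x) (base v) (base v) / cg) :=
        mul_le_mul_of_nonneg_left h7 (by positivity)
      linarith
    refine h9.trans ?_
    have e1 : (1 + 2 * CA ^ 2) * (K.g (base x) (base v) (base v) / cg) =
        (1 + 2 * CA ^ 2) / cg * K.g (base x) (base v) (base v) := by ring
    have e2 : 2 * (K.h (base x) (fib v - K.A (base x) (base v)) (fib v - K.A (base x) (base v)) / ch) =
        2 / ch * K.h (base x) (fib v - K.A (base x) (base v)) (fib v - K.A (base x) (base v)) := by ring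
    have e3 : K.met x v v = K.g (base x) (base v) (base v) +
        K.h (base x) (fib v - K.A (base x) (base v)) (fib v - K.A (base x) (base v)) := rfl
    rw [e1, e2, e3]
    have h11 : 0 ≤ 2 / ch * K.g (base x) (base v) (base v) := mul_nonneg (by positivity) hG
    have h12 : 0 ≤ (1 + 2 * CA ^ 2) / cg *
        K.h (base x) (fib v - K.A (base x) (base v)) (fib v - K.A (base x) (base v)) :=
      mul_nonneg (by positivity) hH
    nlinarith

private theorem V8_kap0 (hK : K.Ok k) (p : Vec n) (x : Vec 2) : 0 ≤ K.kap p x := by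
  have h1 := V8_nn (hK.hh x) (K.J x p)
  rw [hK.hJ] at h1
  exact h1

/-- uniform bounds for small momenta -/
theorem V8_small (hK : K.Ok k) : ∃ η : ℝ, 0 < η ∧ ∀ p : Vec n, ‖p‖ ≤ η →
    (∀ x, 0 ≤ K.kap p x ∧ K.kap p x ≤ 1 / 2) ∧
    (∀ x v, |(inner ℝ p (K.A x v) : ℝ)| ≤ √(K.g x v v) / 4) ∧
    ∀ x v : Vec (2 + n), inner ℝ p (fib v) ≤ K.nrm x v / 2 := by
  obtain ⟨c, hc, hg, hm⟩ := V8_low hK
  obtain ⟨CA, hCA, hA⟩ := V8_bdd hK.sA.continuous hK.pA
  obtain ⟨CJ, hCJ, hJ⟩ := V8_bdd hK.sJ.continuous hK.pJ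
  have hsc : 0 < √c := Real.sqrt_pos.2 hc
  obtain ⟨η, hη⟩ : ∃ η : ℝ, η = min (1 / (2 * (CJ + 1))) (√c / (4 * (CA + 1))) := ⟨_, rfl⟩
  have hη0 : 0 < η := by
    rw [hη]
    exact lt_min (by positivity) (by positivity)
  have hη1 : η ≤ 1 / (2 * (CJ + 1)) := by rw [hη]; exact min_le_left _ _
  have hη2 : η ≤ √c / (4 * (CA + 1)) := by rw [hη]; exact min_le_right _ _
  have hη3 : η * (CJ + 1) ≤ 1 / 2 := by
    rw [le_div_iff₀ (by positivity)] at hη1
    linarith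
  have hη4 : η * (CA + 1) ≤ √c / 4 := by
    rw [le_div_iff₀ (by positivity)] at hη2
    linarith
  have hη5 : η ≤ 1 := by nlinarith
  have hη6 : η ≤ √c / 4 := by nlinarith
  refine ⟨η, hη0, fun p hp => ⟨fun x => ⟨V8_kap0 hK p x, ?_⟩, fun x v => ?_, fun x v => ?_⟩⟩
  · have h1 : K.kap p x ≤ ‖p‖ * (CJ * ‖p‖) := by
      refine (real_inner_le_norm _ _).trans ?_
      exact mul_le_mul_of_nonneg_left
        (((K.J x).le_opNorm _).trans (mul_le_mul_of_nonneg_right (hJ _) (norm_nonneg _))) (norm_nonneg _)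
    have h2 : ‖p‖ * (CJ * ‖p‖) ≤ 1 * (CJ * η) := by
      have h3 : CJ * ‖p‖ ≤ CJ * η := mul_le_mul_of_nonneg_left hp hCJ
      exact mul_le_mul (hp.trans hη5) h3 (mul_nonneg hCJ (norm_nonneg _)) zero_le_one
    nlinarith
  · have h1 : |(inner ℝ p (K.A x v) : ℝ)| ≤ ‖p‖ * (CA * ‖v‖) := by
      refine (abs_real_inner_le_norm _ _).trans ?_
      exact mul_le_mul_of_nonneg_left
        (((K.A x).le_opNorm _).trans (mul_le_mul_of_nonneg_right (hA _) (norm_nonneg _))) (norm_nonneg _)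
    have h2 : √c * ‖v‖ ≤ √(K.g x v v) := by
      rw [← Real.sqrt_sq (norm_nonneg v), ← Real.sqrt_mul hc.le]
      exact Real.sqrt_le_sqrt (by simpa using hg x v)
    have h3 : ‖p‖ * (CA * ‖v‖) ≤ η * (CA * ‖v‖) :=
      mul_le_mul_of_nonneg_right hp (mul_nonneg hCA (norm_nonneg _))
    have h4 : η * (CA * ‖v‖) ≤ √c / 4 * ‖v‖ := by
      have h5 : η * CA ≤ √c / 4 := by nlinarith
      calc η * (CA * ‖v‖) = η * CA * ‖v‖ := by ring
        _ ≤ √c / 4 * ‖v‖ := mul_le_mul_of_nonneg_right h5 (norm_nonneg _)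
    linarith
  · have h1 : (inner ℝ p (fib v) : ℝ) ≤ ‖p‖ * ‖v‖ :=
      (real_inner_le_norm _ _).trans (mul_le_mul_of_nonneg_left (norm_fib_le v) (norm_nonneg _))
    have h2 : √c * ‖v‖ ≤ K.nrm x v := by
      unfold KK.nrm
      rw [← Real.sqrt_sq (norm_nonneg v), ← Real.sqrt_mul hc.le]
      exact Real.sqrt_le_sqrt (by simpa using hm x v)
    have h3 : ‖p‖ * ‖v‖ ≤ √c / 4 * ‖v‖ := mul_le_mul_of_nonneg_right (hp.trans hη6) (norm_nonneg _)
    have h4 : 0 ≤ √c * ‖v‖ := mul_nonneg hsc.le (norm_nonneg _)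
    linarith

/-- the algebra at a point -/
private theorem V8_key (hK : K.Ok k) {p : Vec n} (hp : ∀ x, K.kap p x ≤ 1 / 2) (x v : Vec (2 + n)) :
    ∃ S c Z : ℝ, 0 ≤ S ∧ √(K.g (base x) (base v) (base v)) ≤ S ∧ 0 ≤ Z ∧ c ^ 2 ≤ Z / 2 ∧
      Z = K.h (base x) (fib v - K.om p (base x) (base v)) (fib v - K.om p (base x) (base v)) ∧
      K.nrm x v ^ 2 = S ^ 2 + 2 * S * c + Z ∧
      K.nrm x v - inner ℝ p (fib v) = K.red p (base x) (base v) + (K.nrm x v - (S + c)) ∧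
      K.red p (base x) (base v) ≤ S - inner ℝ p (K.A (base x) (base v)) := by
  obtain ⟨y, hy⟩ : ∃ y, y = base x := ⟨_, rfl⟩
  obtain ⟨a, ha⟩ : ∃ a, a = base v := ⟨_, rfl⟩
  obtain ⟨w, hw⟩ : ∃ w, w = fib v := ⟨_, rfl⟩
  obtain ⟨e, he⟩ : ∃ e, e = K.J y p := ⟨_, rfl⟩
  obtain ⟨κ, hκ⟩ : ∃ κ, κ = K.kap p y := ⟨_, rfl⟩
  obtain ⟨r, hr⟩ : ∃ r, r = √(1 - κ) := ⟨_, rfl⟩
  obtain ⟨s, hs⟩ : ∃ s, s = √(K.g y a a) := ⟨_, rfl⟩
  have hκ0 : 0 ≤ κ := by rw [hκ]; exact V8_kap0 hK p y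
  have hκ1 : κ ≤ 1 / 2 := by rw [hκ]; exact hp y
  have hr2 : r ^ 2 = 1 - κ := by rw [hr]; exact Real.sq_sqrt (by linarith)
  have hr0 : 0 < r := by rw [hr]; exact Real.sqrt_pos.2 (by linarith)
  have hr1 : r ≤ 1 := by nlinarith
  have hs0 : 0 ≤ s := by rw [hs]; exact Real.sqrt_nonneg _
  have hs2 : s ^ 2 = K.g y a a := by rw [hs]; exact Real.sq_sqrt (V8_nn (hK.hg y) a)
  obtain ⟨S, hS⟩ : ∃ S, S = s / r := ⟨_, rfl⟩
  have hSr : s = S * r := by rw [hS, div_mul_cancel₀ _ hr0.ne']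
  have hS0 : 0 ≤ S := by rw [hS]; exact div_nonneg hs0 hr0.le
  have hsS : s ≤ S := by rw [hSr]; nlinarith
  have hee : K.h y e e = κ := by rw [he, hK.hJ, hκ]; rfl
  have hom : K.om p y a = S • e + K.A y a := by
    unfold KK.om
    rw [← hκ, ← hr, ← hs, ← hS, ← he]
  obtain ⟨z, hz⟩ : ∃ z, z = w - K.om p y a := ⟨_, rfl⟩
  have hwz : w - K.A y a = S • e + z := by rw [hz, hom]; abel
  have hcz : K.h y e z = inner ℝ p z := by rw [he, hK.hJ]
  have hmet : K.met x v v = S ^ 2 + 2 * S * K.h y e z + K.h y z z := by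
    have e3 : K.met x v v = K.g y a a + K.h y (w - K.A y a) (w - K.A y a) := by rw [hy, ha, hw]; rfl
    have e4 : K.h y (S • e + z) (S • e + z) = S ^ 2 * κ + 2 * S * K.h y e z + K.h y z z := by
      have e5 := (hK.hh y).1 z e
      rw [← hee]
      simp
      rw [e5]
      ring
    rw [e3, hwz, e4, ← hs2, hSr, mul_pow, hr2]
    ring
  have hinner : (inner ℝ p w : ℝ) = S * κ + inner ℝ p (K.A y a) + K.h y e z := by
    have e6 : w = S • e + z + K.A y a := by rw [← hwz, sub_add_cancel]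
    have e7 : (inner ℝ p e : ℝ) = κ := by rw [hκ, he]; rfl
    rw [e6, inner_add_right, inner_add_right, inner_smul_right, e7, hcz]
    ring
  have hred : K.red p y a = (1 - κ) * S - inner ℝ p (K.A y a) := by
    unfold KK.red
    rw [← hκ, ← hr, ← hs, hSr, ← hr2]
    ring
  have hcs := V8_cs (hK.hh y) e z
  rw [hee] at hcs
  have hZ0 := V8_nn (hK.hh y) z
  have hnrm : K.nrm x v ^ 2 = K.met x v v := by
    unfold KK.nrm
    refine Real.sq_sqrt ?_
    exact add_nonneg (V8_nn (hK.hg _) _) (V8_nn (hK.hh _) _)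
  rw [← hy, ← ha, ← hw, ← hz]
  refine ⟨S, K.h y e z, K.h y z z, hS0, by rw [← hs]; exact hsS, hZ0, by nlinarith, rfl, by rw [hnrm, hmet], ?_, ?_⟩
  · rw [hinner, hred]
    ring
  · rw [hred]
    nlinarith

theorem V8_ge (hK : K.Ok k) {p : Vec n} (hp : ∀ x, K.kap p x ≤ 1 / 2) (x v : Vec (2 + n)) :
    K.red p (base x) (base v) ≤ K.nrm x v - inner ℝ p (fib v) := by
  obtain ⟨S, c, Z, hS0, -, hZ0, hc, -, hN, hD, -⟩ := V8_key hK hp x v
  have hN0 : 0 ≤ K.nrm x v := Real.sqrt_nonneg _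
  have h1 : S + c ≤ K.nrm x v := by
    by_contra hcon
    push Not at hcon
    nlinarith
  rw [hD]
  linarith

theorem V8_le (hK : K.Ok k) {p : Vec n} (hp : ∀ x, K.kap p x ≤ 1 / 2) : ∃ C : ℝ, ∀ x v : Vec (2 + n),
    (K.nrm x v - inner ℝ p (fib v)) ^ 2 ≤
      K.red p (base x) (base v) ^ 2 + C * ‖fib v - K.om p (base x) (base v)‖ ^ 2 := by
  obtain ⟨c0, hc0, hg, -⟩ := V8_low hK
  obtain ⟨CA, hCA, hA⟩ := V8_bdd hK.sA.continuous hK.pA
  obtain ⟨CH, hCH, hH⟩ := V8_bdd hK.sh.continuous hK.ph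
  have hsc : 0 < √c0 := Real.sqrt_pos.2 hc0
  obtain ⟨C1, hC1⟩ : ∃ C1 : ℝ, C1 = 1 + ‖p‖ * CA / √c0 := ⟨_, rfl⟩
  have hC10 : 0 ≤ C1 := by rw [hC1]; positivity
  refine ⟨(5 * C1 + 4) * CH, fun x v => ?_⟩
  obtain ⟨S, c, Z, hS0, hsS, hZ0, hc, hZ, hN, hD, hred⟩ := V8_key hK hp x v
  have hN0 : 0 ≤ K.nrm x v := Real.sqrt_nonneg _
  obtain ⟨N, hNN⟩ : ∃ N, N = K.nrm x v := ⟨_, rfl⟩
  obtain ⟨R, hR⟩ : ∃ R, R = K.red p (base x) (base v) := ⟨_, rfl⟩
  obtain ⟨q, hq⟩ : ∃ q, q = √Z := ⟨_, rfl⟩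
  have hq0 : 0 ≤ q := by rw [hq]; exact Real.sqrt_nonneg _
  have hq2 : q ^ 2 = Z := by rw [hq]; exact Real.sq_sqrt hZ0
  rw [hD, ← hNN, ← hR]
  rw [← hNN] at hN hN0
  rw [← hR] at hred
  have h1 : S + c ≤ N := by
    by_contra hcon
    push Not at hcon
    nlinarith
  have hcq : |c| ≤ q := by
    apply abs_le_of_sq_le_sq _ hq0
    rw [hq2]
    linarith
  obtain ⟨hcq1, hcq2⟩ := abs_le.1 hcq
  have h2 : N ≤ S + q := by
    by_contra hcon
    push Not at hcon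
    nlinarith
  obtain ⟨D, hDD⟩ : ∃ D, D = N - (S + c) := ⟨_, rfl⟩
  rw [← hDD]
  have hD0 : 0 ≤ D := by rw [hDD]; linarith
  have hD2 : D ≤ 2 * q := by rw [hDD]; linarith
  have h3 : D * (N + (S + c)) = Z - c ^ 2 := by
    rw [hDD]
    nlinarith
  have h4 : 2 * ((S + c) * D) ≤ Z := by nlinarith
  have h5 : -(c * D) ≤ 2 * Z := by
    have h6 : -c * D ≤ q * (2 * q) := mul_le_mul (by linarith) hD2 hD0 hq0
    nlinarith
  have h6 : S * D ≤ 5 / 2 * Z := by nlinarith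
  have h7 : D ^ 2 ≤ 4 * Z := by
    rw [← hq2]
    nlinarith
  have hRS : R ≤ C1 * S := by
    have h8 : -(inner ℝ p (K.A (base x) (base v)) : ℝ) ≤ ‖p‖ * (CA * ‖base v‖) := by
      refine (neg_le_abs _).trans ((abs_real_inner_le_norm _ _).trans ?_)
      exact mul_le_mul_of_nonneg_left
        (((K.A _).le_opNorm _).trans (mul_le_mul_of_nonneg_right (hA _) (norm_nonneg _))) (norm_nonneg _)
    have h9 : √c0 * ‖base v‖ ≤ S := by
      refine le_trans ?_ hsS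
      rw [← Real.sqrt_sq (norm_nonneg (base v)), ← Real.sqrt_mul hc0.le]
      exact Real.sqrt_le_sqrt (by simpa using hg (base x) (base v))
    have h10 : ‖base v‖ ≤ S / √c0 := by
      rw [le_div_iff₀ hsc]
      linarith
    have h11 : ‖p‖ * (CA * ‖base v‖) ≤ ‖p‖ * (CA * (S / √c0)) :=
      mul_le_mul_of_nonneg_left (mul_le_mul_of_nonneg_left h10 hCA) (norm_nonneg _)
    have h12 : ‖p‖ * (CA * (S / √c0)) = ‖p‖ * CA / √c0 * S := by ring
    rw [hC1]
    linarith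
  have hRD : R * D ≤ C1 * (5 / 2 * Z) := by
    have h13 : R * D ≤ C1 * S * D := mul_le_mul_of_nonneg_right hRS hD0
    have h14 : C1 * S * D = C1 * (S * D) := by ring
    rw [h14] at h13
    exact h13.trans (mul_le_mul_of_nonneg_left h6 hC10)
  have hZZ : Z ≤ CH * ‖fib v - K.om p (base x) (base v)‖ ^ 2 := by
    rw [hZ]
    refine (le_abs_self _).trans ?_
    have h15 := (K.h (base x)).le_opNorm₂ (fib v - K.om p (base x) (base v)) (fib v - K.om p (base x) (base v))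
    rw [Real.norm_eq_abs] at h15
    refine h15.trans ?_
    rw [mul_assoc, ← sq]
    exact mul_le_mul_of_nonneg_right (hH _) (sq_nonneg _)
  have h16 : (5 * C1 + 4) * Z ≤ (5 * C1 + 4) * (CH * ‖fib v - K.om p (base x) (base v)‖ ^ 2) :=
    mul_le_mul_of_nonneg_left hZZ (by positivity)
  nlinarith

theorem V8_om_cont (hK : K.Ok k) {p : Vec n} (hp : ∀ x, K.kap p x ≤ 1 / 2) :
    Continuous (fun y : Vec 2 × Vec 2 => K.om p y.1 y.2) := by
  have hJ : Continuous (fun y : Vec 2 × Vec 2 => K.J y.1 p) :=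
    (hK.sJ.continuous.comp continuous_fst).clm_apply continuous_const
  have hA : Continuous (fun y : Vec 2 × Vec 2 => K.A y.1 y.2) :=
    (hK.sA.continuous.comp continuous_fst).clm_apply continuous_snd
  have hg : Continuous (fun y : Vec 2 × Vec 2 => K.g y.1 y.2 y.2) :=
    ((hK.sg.continuous.comp continuous_fst).clm_apply continuous_snd).clm_apply continuous_snd
  have hk : Continuous (fun y : Vec 2 × Vec 2 => K.kap p y.1) := continuous_const.inner hJ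
  have h1 : Continuous (fun y : Vec 2 × Vec 2 => √(K.g y.1 y.2 y.2) / √(1 - K.kap p y.1)) := by
    refine hg.sqrt.div (continuous_const.sub hk).sqrt fun y => ?_
    exact (Real.sqrt_pos.2 (by linarith [hp y.1])).ne'
  exact (h1.smul hJ).add hA

end EscG.U
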