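import Pool.Agent.EscV.V1
import Pool.Agent.EscV.V2
import Pool.Agent.EscV.V7
import Pool.Agent.EscV.V8
import Pool.Agent.EscV.V10a

set_option autoImplicit false

/-!
# Project EscV, module V10: rigidity, second order in the momentum

`V10_kap`: `A' X = A0 + Ds` (`V3_exact`), so `F' X V = √(1 - η² κ X) √(q V V) - D σ` with `σ X = η ⟪e, A0 X + s X⟫`; `V7_exact` removes the exact part (the
displacement changes by `σ (X + m) - σ X = η ⟪e, A0 m⟫`, independent of `X`); so `√(1 - ε κ) √(q V V)`, `ε = η²`, has constant displacement: `V2_first` with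
`a = 0`, `c = - κ / 2`, then `V1_const` (`q (vz m) (vz m) > 0` for `m ≠ 0`), `κ X = kap e (ψ X)`.
-/

noncomputable section

namespace EscG.U

open Filter Topology Set MeasureTheory EscF.T EscG.T EscG.X
open scoped ContDiff

variable {n : ℕ} {K : KK n} {k : ℕ∞}

/-- the momentum `t • e` -/
theorem V10k_smul (e : Vec n) (t : ℝ) (x : Vec 2) : K.kap (t • e) x = t ^ 2 * K.kap e x := by
  unfold KK.kap
  rw [map_smul, real_inner_smul_left, real_inner_smul_right]
  ring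

theorem V10k_sqrt {u : ℝ} (h0 : 0 ≤ u) (h1 : u ≤ 1 / 2) : |√(1 - u) - (1 - u / 2)| ≤ u ^ 2 / 2 := by
  have h2 : √(1 - u) ≤ 1 - u / 2 := by
    rw [Real.sqrt_le_left (by linarith)]
    nlinarith [sq_nonneg u]
  have h3 : 1 - u / 2 - u ^ 2 / 2 ≤ √(1 - u) := by
    apply Real.le_sqrt_of_sq_le
    nlinarith [sq_nonneg u, mul_nonneg h0 h0, mul_nonneg (mul_nonneg h0 h0) h0,
      mul_nonneg (mul_nonneg h0 h0) (sub_nonneg.2 h1)]
  rw [abs_le]
  constructor <;> linarith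

theorem V10k_metric {q : Vec 2 →L[ℝ] Vec 2 →L[ℝ] ℝ} (hk1 : (1 : WithTop ℕ∞) ≤ (k : WithTop ℕ∞))
    {φ ψ : Vec 2 → Vec 2} (hT : TDiff k φ ψ) (hiso : ∀ x v w, K.g x v w = q (fderiv ℝ φ x v) (fderiv ℝ φ x w))
    (X V : Vec 2) : K.g (ψ X) (fderiv ℝ ψ X V) (fderiv ℝ ψ X V) = q V V := by
  have h1 : HasFDerivAt φ (fderiv ℝ φ (ψ X)) (ψ X) :=
    ((hT.sφ.of_le hk1).differentiable (by norm_num) (ψ X)).hasFDerivAt
  have h2 : HasFDerivAt ψ (fderiv ℝ ψ X) X :=
    ((hT.sψ.of_le hk1).differentiable (by norm_num) X).hasFDerivAt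
  have h3 := h1.comp X h2
  have h4 : φ ∘ ψ = id := funext hT.right
  rw [h4] at h3
  have h5 := h3.unique (hasFDerivAt_id X)
  have h6 : fderiv ℝ φ (ψ X) (fderiv ℝ ψ X V) = V := by
    have := congrArg (fun L : Vec 2 →L[ℝ] Vec 2 => L V) h5
    simpa using this
  rw [hiso, h6]

/-- the displacement of the flattened metric without the exact part -/
theorem V10k_disp (hk : 2 ≤ k) (hK : K.Ok k) {q : Vec 2 →L[ℝ] Vec 2 →L[ℝ] ℝ}
    {φ ψ : Vec 2 → Vec 2} (hT : TDiff k φ ψ) (hiso : ∀ x v w, K.g x v w = q (fderiv ℝ φ x v) (fderiv ℝ φ x w))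
    {A0 : Vec 2 →L[ℝ] Vec n} {s : Vec 2 → Vec n} (hs : ∀ (m : Fin 2 → ℤ) x, s (x + vz m) = s x)
    (hsd : ∀ X, HasFDerivAt s (V10_A K ψ X - A0) X) {p : Vec n}
    (hp1 : ∀ x, 0 ≤ K.kap p x ∧ K.kap p x ≤ 1 / 2)
    (hp2 : ∀ x v, |(inner ℝ p (K.A x v) : ℝ)| ≤ √(K.g x v v) / 4)
    (hd : ¬ HasNonconstantDisplacement (K.red p)) (m : Fin 2 → ℤ) (X Y : Vec 2) :
    Pool.Agent.EscG.cdist (fun z v => √(1 - K.kap p (ψ z)) * √(q v v)) X (X + vz m) =
      Pool.Agent.EscG.cdist (fun z v => √(1 - K.kap p (ψ z)) * √(q v v)) Y (Y + vz m) := by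
  have hk2 : (2 : WithTop ℕ∞) ≤ (k : WithTop ℕ∞) := WithTop.coe_le_coe.2 hk
  have hk1 : (1 : WithTop ℕ∞) ≤ (k : WithTop ℕ∞) := le_trans (by norm_num) hk2
  have hAs := (V10_A_smooth hk hK hT).1
  set F : Vec 2 → Vec 2 → ℝ := fun z v => K.red p (ψ z) (fderiv ℝ ψ z v) with hF
  have hFe : ∀ z v, F z v = √(1 - K.kap p (ψ z)) * √(q v v) - inner ℝ p (V10_A K ψ z v) := by
    intro z v
    show √(1 - K.kap p (ψ z)) * √(K.g (ψ z) (fderiv ℝ ψ z v) (fderiv ℝ ψ z v)) -
      inner ℝ p (K.A (ψ z) (fderiv ℝ ψ z v)) = _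
    rw [V10k_metric hk1 hT hiso]
    rfl
  have hF0 : ∀ z v, 0 ≤ F z v := by
    intro z v
    show 0 ≤ √(1 - K.kap p (ψ z)) * √(K.g (ψ z) (fderiv ℝ ψ z v) (fderiv ℝ ψ z v)) -
      inner ℝ p (K.A (ψ z) (fderiv ℝ ψ z v))
    have h1 := hp2 (ψ z) (fderiv ℝ ψ z v)
    have h2 := (abs_le.1 h1).2
    have h3 : 1 / 2 ≤ √(1 - K.kap p (ψ z)) := by
      apply Real.le_sqrt_of_sq_le
      have := (hp1 (ψ z)).2
      linarith
    have h4 := Real.sqrt_nonneg (K.g (ψ z) (fderiv ℝ ψ z v) (fderiv ℝ ψ z v))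
    nlinarith
  -- the exact part
  set σ : Vec 2 → ℝ := fun z => inner ℝ p (A0 z + s z) with hσ
  have hσd : ∀ z, HasFDerivAt σ ((innerSL ℝ p).comp (V10_A K ψ z)) z := by
    intro z
    have h1 : HasFDerivAt (fun z => A0 z + s z) (A0 + (V10_A K ψ z - A0)) z :=
      A0.hasFDerivAt.add (hsd z)
    rw [add_sub_cancel] at h1
    exact (innerSL ℝ p).hasFDerivAt.comp z h1
  have hσf : fderiv ℝ σ = fun z => (innerSL ℝ p).comp (V10_A K ψ z) := funext fun z => (hσd z).fderiv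
  have hσc : ContDiff ℝ 1 σ := by
    rw [contDiff_one_iff_fderiv]
    refine ⟨fun z => (hσd z).differentiableAt, ?_⟩
    rw [hσf]
    exact continuous_const.clm_comp hAs.continuous
  have hσe : ∀ z v, fderiv ℝ σ z v = inner ℝ p (V10_A K ψ z v) := by
    intro z v
    rw [hσf]
    rfl
  have hG : (fun z v => F z v + fderiv ℝ σ z v) = fun z v => √(1 - K.kap p (ψ z)) * √(q v v) := by
    funext z v
    rw [hFe, hσe]
    ring
  have hkc : Continuous fun z => K.kap p (ψ z) := by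
    unfold KK.kap
    exact continuous_const.inner ((hK.sJ.continuous.comp hT.sψ.continuous).clm_apply continuous_const)
  have hqc : Continuous fun y : Vec 2 × Vec 2 => q y.2 y.2 :=
    (q.continuous.comp continuous_snd).clm_apply continuous_snd
  have hFc : Continuous fun y : Vec 2 × Vec 2 => F y.1 y.2 := by
    have h1 : (fun y : Vec 2 × Vec 2 => F y.1 y.2) = fun y =>
        √(1 - K.kap p (ψ y.1)) * √(q y.2 y.2) - inner ℝ p (V10_A K ψ y.1 y.2) :=
      funext fun y => hFe y.1 y.2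
    rw [h1]
    refine ((continuous_const.sub (hkc.comp continuous_fst)).sqrt.mul hqc.sqrt).sub ?_
    exact continuous_const.inner ((hAs.continuous.comp continuous_fst).clm_apply continuous_snd)
  have hF1 : ∀ z v, 0 ≤ F z v + fderiv ℝ σ z v := by
    intro z v
    have := congrFun (congrFun hG z) v
    rw [show F z v + fderiv ℝ σ z v = √(1 - K.kap p (ψ z)) * √(q v v) from this]
    positivity
  have key : ∀ Z : Vec 2, Pool.Agent.EscG.cdist (fun z v => √(1 - K.kap p (ψ z)) * √(q v v)) Z (Z + vz m) =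
      Pool.Agent.EscG.cdist (K.red p) (ψ Z) (ψ Z + vz m) + inner ℝ p (A0 (vz m)) := by
    intro Z
    have h1 := V7_exact hFc hσc hF0 hF1 Z (Z + vz m)
    rw [hG] at h1
    have h2 := V7_map (hT.sφ.of_le hk1) (hT.sψ.of_le hk1) hT.left hT.right (K.red p) (ψ Z) (ψ Z + vz m)
    rw [hT.pφ, hT.right] at h2
    have h3 : σ (Z + vz m) - σ Z = inner ℝ p (A0 (vz m)) := by
      show (inner ℝ p (A0 (Z + vz m) + s (Z + vz m)) : ℝ) - inner ℝ p (A0 Z + s Z) = _
      rw [← inner_sub_right, hs, map_add]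
      congr 1
      abel
    rw [h1, h3, ← h2]
  have hdd : ∀ x y : Vec 2, Pool.Agent.EscG.cdist (K.red p) x (x + vz m) =
      Pool.Agent.EscG.cdist (K.red p) y (y + vz m) := by
    intro x y
    by_contra h
    exact hd ⟨m, x, y, h⟩
  rw [key X, key Y, hdd (ψ X) (ψ Y)]

theorem V10_kap (hk : 2 ≤ k) (hK : K.Ok k) {q : Vec 2 →L[ℝ] Vec 2 →L[ℝ] ℝ} (hq : T.IsScalarProduct q)
    {φ ψ : Vec 2 → Vec 2} (hT : TDiff k φ ψ) (hiso : ∀ x v w, K.g x v w = q (fderiv ℝ φ x v) (fderiv ℝ φ x w))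
    {η : ℝ} (hη : 0 < η) (hd : ∀ p : Vec n, ‖p‖ ≤ η → ¬ HasNonconstantDisplacement (K.red p))
    {A0 : Vec 2 →L[ℝ] Vec n} {s : Vec 2 → Vec n} (hs : ∀ (m : Fin 2 → ℤ) x, s (x + vz m) = s x)
    (hsd : ∀ X, HasFDerivAt s (V10_A K ψ X - A0) X) (e : Vec n) (x y : Vec 2) : K.kap e x = K.kap e y := by
  have hk2 : (2 : WithTop ℕ∞) ≤ (k : WithTop ℕ∞) := WithTop.coe_le_coe.2 hk
  have hk1 : (1 : WithTop ℕ∞) ≤ (k : WithTop ℕ∞) := le_trans (by norm_num) hk2
  obtain ⟨η1, hη1, hsm⟩ := V8_small hK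
  set t0 : ℝ := min η η1 / (‖e‖ + 1) with ht0
  have hne := norm_nonneg e
  have ht0p : 0 < t0 := div_pos (lt_min hη hη1) (by linarith)
  have htn : ∀ t : ℝ, 0 < t → t ≤ t0 → ‖t • e‖ ≤ min η η1 := by
    intro t ht ht'
    rw [norm_smul, Real.norm_eq_abs, abs_of_pos ht]
    have h1 : t0 * (‖e‖ + 1) = min η η1 := div_mul_cancel₀ _ (by linarith)
    calc t * ‖e‖ ≤ t0 * (‖e‖ + 1) := by
          apply mul_le_mul ht' (by linarith) hne ht0p.le
      _ = min η η1 := h1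
  have hkapnn : ∀ z, 0 ≤ K.kap e z := by
    intro z
    have h1 := ((hsm (t0 • e) ((htn t0 ht0p le_rfl).trans (min_le_right _ _))).1 z).1
    rw [V10k_smul] at h1
    have h2 : 0 < t0 ^ 2 := by positivity
    exact nonneg_of_mul_nonneg_right h1 h2
  have hkapM : ∀ z, t0 ^ 2 * K.kap e z ≤ 1 / 2 := by
    intro z
    have h1 := ((hsm (t0 • e) ((htn t0 ht0p le_rfl).trans (min_le_right _ _))).1 z).2
    rw [V10k_smul] at h1
    exact h1
  set M : ℝ := 1 / 2 / t0 ^ 2 with hM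
  have hMk : ∀ z, K.kap e z ≤ M := by
    intro z
    rw [hM, le_div_iff₀ (by positivity), mul_comm]
    exact hkapM z
  set c : Vec 2 → ℝ := fun X => -(K.kap e (ψ X) / 2) with hc
  have hcs : ContDiff ℝ 1 c := by
    have h1 : ContDiff ℝ 1 (fun X => K.J (ψ X)) := (hK.sJ.of_le hk1).comp (hT.sψ.of_le hk1)
    have h2 : ContDiff ℝ 1 (fun X => K.kap e (ψ X)) :=
      contDiff_const.inner ℝ (h1.clm_apply contDiff_const)
    exact (h2.div_const 2).neg
  have hcp : ∀ (m : Fin 2 → ℤ) X, c (X + vz m) = c X := by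
    intro m X
    show -(K.kap e (ψ (X + vz m)) / 2) = -(K.kap e (ψ X) / 2)
    unfold KK.kap
    rw [hT.pψ, hK.pJ]
  have hkc : Continuous fun z => K.kap e (ψ z) := by
    unfold KK.kap
    exact continuous_const.inner ((hK.sJ.continuous.comp hT.sψ.continuous).clm_apply continuous_const)
  have hqc : Continuous fun y : Vec 2 × Vec 2 => q y.2 y.2 :=
    (q.continuous.comp continuous_snd).clm_apply continuous_snd
  have hconst : ∀ X Y, c X = c Y := by
    refine V1_const hcs.continuous hcp fun m hm X Y => ?_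
    have hmain := V2_first hq (a := fun _ => 0) contDiff_const (fun _ _ => rfl) hcs hcp
      (F := fun ε z v => √(1 - ε * K.kap e (ψ z)) * √(q v v)) (η0 := t0 ^ 2) (C := M ^ 2 / 2)
      (by positivity) (fun ε _ _ => by
        exact (continuous_const.sub (continuous_const.mul (hkc.comp continuous_fst))).sqrt.mul hqc.sqrt)
      (fun ε hε hε' z v => by
        have h1 : 0 ≤ ε * K.kap e (ψ z) := mul_nonneg hε.le (hkapnn _)
        have h2 : ε * K.kap e (ψ z) ≤ 1 / 2 :=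
          (mul_le_mul_of_nonneg_right hε' (hkapnn _)).trans (hkapM _)
        have h3 := V10k_sqrt h1 h2
        have h4 : √(1 - ε * K.kap e (ψ z)) * √(q v v) -
            (√(q v v) + ε * ((0 : Vec 2 →L[ℝ] ℝ) v + c z * √(q v v))) =
            (√(1 - ε * K.kap e (ψ z)) - (1 - ε * K.kap e (ψ z) / 2)) * √(q v v) := by
          show _ - (√(q v v) + ε * (0 + -(K.kap e (ψ z) / 2) * √(q v v))) = _
          ring
        rw [h4, abs_mul, abs_of_nonneg (Real.sqrt_nonneg (q v v))]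
        refine mul_le_mul_of_nonneg_right (h3.trans ?_) (Real.sqrt_nonneg _)
        have h5 : (ε * K.kap e (ψ z)) ^ 2 ≤ (ε * M) ^ 2 :=
          pow_le_pow_left₀ h1 (mul_le_mul_of_nonneg_left (hMk _) hε.le) 2
        calc (ε * K.kap e (ψ z)) ^ 2 / 2 ≤ (ε * M) ^ 2 / 2 := by linarith
          _ = M ^ 2 / 2 * ε ^ 2 := by ring)
      (v := vz m) (fun ε hε hε' X' Y' => by
        have h1 : 0 < √ε := Real.sqrt_pos.2 hε
        have h2 : √ε ≤ t0 := by
          rw [Real.sqrt_le_left ht0p.le]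
          exact hε'
        have h3 := htn _ h1 h2
        have h4 := hsm (√ε • e) (h3.trans (min_le_right _ _))
        have h5 := V10k_disp hk hK hT hiso hs hsd h4.1 h4.2.1
          (hd _ (h3.trans (min_le_left _ _))) m X' Y'
        have h6 : ∀ z, K.kap (√ε • e) z = ε * K.kap e z := by
          intro z
          rw [V10k_smul, Real.sq_sqrt hε.le]
        simp only [h6] at h5
        exact h5) X Y
    have hvm : (vz m : Vec 2) ≠ 0 := by
      intro h
      apply hm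
      funext i
      have h1 := congrFun (congrArg (fun w : Vec 2 => (w : Fin 2 → ℝ)) h) i
      have h2 : ((m i : ℤ) : ℝ) = 0 := h1
      exact_mod_cast h2
    have hqp : 0 < √(q (vz m) (vz m)) := Real.sqrt_pos.2 (hq.2 _ hvm)
    have h7 : ∀ Z : Vec 2, ∫ t in (0:ℝ)..1, ((0 : Vec 2 →L[ℝ] ℝ) (vz m) + c (Z + t • vz m) * √(q (vz m) (vz m))) =
        (∫ t in (0:ℝ)..1, c (Z + t • vz m)) * √(q (vz m) (vz m)) := by
      intro Z
      rw [← intervalIntegral.integral_mul_const]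
      congr 1
      funext t
      show 0 + _ = _
      rw [zero_add]
    have h8 : (∫ t in (0:ℝ)..1, c (X + t • vz m)) * √(q (vz m) (vz m)) =
        (∫ t in (0:ℝ)..1, c (Y + t • vz m)) * √(q (vz m) (vz m)) := by
      rw [← h7 X, ← h7 Y]
      exact hmain
    exact mul_right_cancel₀ hqp.ne' h8
  have h9 := hconst (φ x) (φ y)
  have h10 : -(K.kap e (ψ (φ x)) / 2) = -(K.kap e (ψ (φ y)) / 2) := h9
  rw [hT.left, hT.left] at h10
  linarith

end EscG.U
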