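import Pool.Agent.EscV.V10c
import Pool.Agent.EscV.V10k

/-!
# Project EscV, module V10: rigidity, first (`V10_closed`, V10c) and second order (`V10_kap`, V10k) in the momentum
-/
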