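import Pool.Agent.EscV.V10a
import Pool.Agent.EscV.V7

set_option autoImplicit false

/-!
# Project EscV, module V10b: the displacement of the reduced metric in the flat coordinates
-/

noncomputable section

namespace EscG.U

open Filter Topology Set MeasureTheory EscF.T EscG.T EscG.X
open scoped ContDiff

variable {n : ℕ} {K : KK n} {k : ℕ∞}

/-- the reduced metric of `p` in the flat coordinates -/
def V10_F (K : KK n) (q : Vec 2 →L[ℝ] Vec 2 →L[ℝ] ℝ) (ψ : Vec 2 → Vec 2) (p : Vec n) (X V : Vec 2) : ℝ :=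
  √(1 - K.kap p (ψ X)) * √(q V V) - inner ℝ p (V10_A K ψ X V)

theorem V10_comp (hk : 2 ≤ k) {φ ψ : Vec 2 → Vec 2} (hT : TDiff k φ ψ) (X V : Vec 2) :
    fderiv ℝ φ (ψ X) (fderiv ℝ ψ X V) = V := by
  have h1 : (1 : WithTop ℕ∞) ≤ (k : WithTop ℕ∞) :=
    le_trans (by norm_num) (show (2 : WithTop ℕ∞) ≤ (k : WithTop ℕ∞) from WithTop.coe_le_coe.2 hk)
  have e1 : HasFDerivAt φ (fderiv ℝ φ (ψ X)) (ψ X) :=
    ((hT.sφ.of_le h1).differentiable (by norm_num) (ψ X)).hasFDerivAt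
  have e2 : HasFDerivAt ψ (fderiv ℝ ψ X) X := ((hT.sψ.of_le h1).differentiable (by norm_num) X).hasFDerivAt
  have e3 := e1.comp X e2
  have e4 : φ ∘ ψ = id := funext hT.right
  rw [e4] at e3
  have e5 := e3.unique (hasFDerivAt_id X)
  have := congrArg (fun T : Vec 2 →L[ℝ] Vec 2 => T V) e5
  simpa using this

theorem V10_red (hk : 2 ≤ k) {q : Vec 2 →L[ℝ] Vec 2 →L[ℝ] ℝ} {φ ψ : Vec 2 → Vec 2} (hT : TDiff k φ ψ)
    (hiso : ∀ x v w, K.g x v w = q (fderiv ℝ φ x v) (fderiv ℝ φ x w)) (p : Vec n) :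
    (fun z v => K.red p (ψ z) (fderiv ℝ ψ z v)) = V10_F K q ψ p := by
  ext z v
  simp only [KK.red, V10_F, V10_A, hiso, V10_comp hk hT, ContinuousLinearMap.comp_apply]

/-- the displacement of the reduced metric in the flat coordinates is constant -/
theorem V10_disp (hk : 2 ≤ k) {q : Vec 2 →L[ℝ] Vec 2 →L[ℝ] ℝ} {φ ψ : Vec 2 → Vec 2} (hT : TDiff k φ ψ)
    (hiso : ∀ x v w, K.g x v w = q (fderiv ℝ φ x v) (fderiv ℝ φ x w)) {p : Vec n}
    (hd : ¬ HasNonconstantDisplacement (K.red p)) (m : Fin 2 → ℤ) (X Y : Vec 2) :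
    Pool.Agent.EscG.cdist (V10_F K q ψ p) X (X + vz m) =
      Pool.Agent.EscG.cdist (V10_F K q ψ p) Y (Y + vz m) := by
  have h1 : (1 : WithTop ℕ∞) ≤ (k : WithTop ℕ∞) :=
    le_trans (by norm_num) (show (2 : WithTop ℕ∞) ≤ (k : WithTop ℕ∞) from WithTop.coe_le_coe.2 hk)
  have key : ∀ X : Vec 2, Pool.Agent.EscG.cdist (V10_F K q ψ p) X (X + vz m) =
      coverDist (K.red p) (ψ X) (ψ X + vz m) := by
    intro X
    have := V7_map (hT.sφ.of_le h1) (hT.sψ.of_le h1) hT.left hT.right (K.red p) (ψ X) (ψ X + vz m)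
    rw [V10_red hk hT hiso, hT.pφ, hT.right] at this
    rw [this]
    rfl
  have hd' : ∀ (m : Fin 2 → ℤ) (x y : Vec 2),
      coverDist (K.red p) x (x + vz m) = coverDist (K.red p) y (y + vz m) := by
    intro m x y
    by_contra hne
    exact hd ⟨m, x, y, hne⟩
  rw [key, key]
  exact hd' m _ _

end EscG.U
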