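import Pool.Agent.EscV.V1
import Mathlib.MeasureTheory.Integral.CurveIntegral.Poincare

set_option autoImplicit false

/-!
# Project EscV, module V3: one-forms on `𝕋²` with constant integrals over closed lines are closed; closed forms are
constant plus exact

`V3_closed`: differentiate `I (x) = ∫_0^1 a (x + t • vz m) (vz m) dt` in direction `w`: `0 = ∫_0^1 (fderiv a (x + t m) w) m dt`
(`hasFDerivAt_integral_of_dominated_of_fderiv_le` or difference quotients), and `∫_0^1 (fderiv a (x + t m) m) w dt = a (x + m) w - a x w = 0`. So the continuous periodic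
function `c x = (fderiv a x e0) e1 - (fderiv a x e1) e0` (`e0, e1` the standard basis) has `∫_0^1 c (x + t m) dt = 0` for all `m ≠ 0` (the alternating form
`(u, v) ↦ (fderiv a x u) v - (fderiv a x v) u` is `c x * det (u, v)`; choose `w` with `det (w, m) ≠ 0`), so `c` is constant by `V1_const`, and its value is `0`.
`V3_exact`: potential `P x = ∫ t in 0..1, a (t • x) x` (`HasFDerivAt P (a x) x` by closedness; differentiate under the integral); `P (x + vz m) - P x` has
derivative `0`, so it is a constant, additive in `m`: `= A0 (vz m)` for a linear map `A0`; `s = P - A0`.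
-/

noncomputable section

namespace EscG.U

open Filter Topology Set MeasureTheory EscF.T EscG.T

/-- derivative under the integral sign along a segment -/
theorem V3_int {a : Vec 2 → Vec 2 →L[ℝ] ℝ} (ha : ContDiff ℝ 1 a) (x w μ : Vec 2) :
    HasDerivAt (fun s : ℝ => ∫ t in (0:ℝ)..1, a (x + s • w + t • μ) μ)
      (∫ t in (0:ℝ)..1, fderiv ℝ a (x + t • μ) w μ) 0 := by
  have hac : Continuous a := ha.continuous
  have hdc : Continuous (fderiv ℝ a) := ha.continuous_fderiv one_ne_zero
  have hF' : Continuous fun p : ℝ × ℝ => fderiv ℝ a (x + p.1 • w + p.2 • μ) w μ :=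
    ((hdc.comp (by fun_prop)).clm_apply continuous_const).clm_apply continuous_const
  have hF : Continuous fun p : ℝ × ℝ => a (x + p.1 • w + p.2 • μ) μ :=
    (hac.comp (by fun_prop)).clm_apply continuous_const
  obtain ⟨C, hC⟩ := (isCompact_Icc.prod isCompact_Icc :
    IsCompact (Icc (-1:ℝ) 1 ×ˢ Icc (0:ℝ) 1)).exists_bound_of_continuousOn hF'.continuousOn
  have h1 := (intervalIntegral.hasDerivAt_integral_of_dominated_loc_of_deriv_le (μ := volume) (𝕜 := ℝ)
    (F := fun s t => a (x + s • w + t • μ) μ) (F' := fun s t => fderiv ℝ a (x + s • w + t • μ) w μ)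
    (x₀ := (0:ℝ)) (a := 0) (b := 1) (s := Icc (-1:ℝ) 1) (bound := fun _ => C)
    (Icc_mem_nhds (by norm_num) (by norm_num))
    (Eventually.of_forall fun s => (hF.comp (by fun_prop : Continuous fun t : ℝ => (s, t))).aestronglyMeasurable)
    ((hF.comp (by fun_prop : Continuous fun t : ℝ => ((0:ℝ), t))).intervalIntegrable _ _)
    (hF'.comp (by fun_prop : Continuous fun t : ℝ => ((0:ℝ), t))).aestronglyMeasurable
    (Eventually.of_forall fun t ht s hs => ?_) intervalIntegrable_const
    (Eventually.of_forall fun t _ s _ => ?_)).2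
  · simpa only [zero_smul, add_zero] using h1
  · rw [uIoc_of_le zero_le_one] at ht
    exact hC (s, t) ⟨hs, Ioc_subset_Icc_self ht⟩
  · have h2 : HasDerivAt (fun s : ℝ => x + s • w + t • μ) w s := by
      have := (((hasDerivAt_id s).smul_const w).const_add x).add_const (t • μ)
      simpa using this
    have h3 : HasFDerivAt a (fderiv ℝ a (x + s • w + t • μ)) (x + s • w + t • μ) :=
      ((ha.differentiable (by norm_num)) _).hasFDerivAt
    have h4 := h3.comp_hasDerivAt s h2
    exact h4.clm_apply (hasDerivAt_const s μ) |>.congr_deriv (by simp)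

theorem V3_ftc {a : Vec 2 → Vec 2 →L[ℝ] ℝ} (ha : ContDiff ℝ 1 a) (x w μ : Vec 2) :
    (∫ t in (0:ℝ)..1, fderiv ℝ a (x + t • μ) μ w) = a (x + μ) w - a x w := by
  have hdc : Continuous (fderiv ℝ a) := ha.continuous_fderiv one_ne_zero
  have hc : Continuous fun t : ℝ => fderiv ℝ a (x + t • μ) μ w :=
    ((hdc.comp (by fun_prop)).clm_apply continuous_const).clm_apply continuous_const
  have h1 := intervalIntegral.integral_eq_sub_of_hasDerivAt (a := 0) (b := 1)
    (f := fun t : ℝ => a (x + t • μ) w) (f' := fun t : ℝ => fderiv ℝ a (x + t • μ) μ w)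
    (fun t _ => ?_) (hc.intervalIntegrable _ _)
  · rw [h1]
    simp
  · have h2 : HasDerivAt (fun t : ℝ => x + t • μ) μ t := by
      have := ((hasDerivAt_id t).smul_const μ).const_add x
      simpa using this
    have h3 : HasFDerivAt a (fderiv ℝ a (x + t • μ)) (x + t • μ) :=
      ((ha.differentiable (by norm_num)) _).hasFDerivAt
    have h4 := h3.comp_hasDerivAt t h2
    exact h4.clm_apply (hasDerivAt_const t w) |>.congr_deriv (by simp)

theorem V3_dec (u : Vec 2) : u = u 0 • EuclideanSpace.single (0 : Fin 2) (1:ℝ) +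
    u 1 • EuclideanSpace.single (1 : Fin 2) (1:ℝ) := by
  ext i
  fin_cases i <;> simp

theorem V3_form (b : Vec 2 →L[ℝ] Vec 2 →L[ℝ] ℝ) (u v : Vec 2) :
    b u v - b v u = (u 0 * v 1 - u 1 * v 0) *
      (b (EuclideanSpace.single 0 1) (EuclideanSpace.single 1 1) -
        b (EuclideanSpace.single 1 1) (EuclideanSpace.single 0 1)) := by
  conv_lhs => rw [V3_dec u, V3_dec v]
  simp only [map_add, map_smul, add_apply, smul_apply,
    smul_eq_mul]
  ring

theorem V3_closed {a : Vec 2 → Vec 2 →L[ℝ] ℝ} (ha : ContDiff ℝ 1 a)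
    (hap : ∀ (m : Fin 2 → ℤ) x, a (x + vz m) = a x)
    (h : ∀ (m : Fin 2 → ℤ) (x y : Vec 2),
      ∫ t in (0:ℝ)..1, a (x + t • vz m) (vz m) = ∫ t in (0:ℝ)..1, a (y + t • vz m) (vz m))
    (x u v : Vec 2) : fderiv ℝ a x u v = fderiv ℝ a x v u := by
  have hdc : Continuous (fderiv ℝ a) := ha.continuous_fderiv one_ne_zero
  obtain ⟨c, hc⟩ : ∃ c : Vec 2 → ℝ, c = fun x =>
      fderiv ℝ a x (EuclideanSpace.single 0 1) (EuclideanSpace.single 1 1) -
        fderiv ℝ a x (EuclideanSpace.single 1 1) (EuclideanSpace.single 0 1) := ⟨_, rfl⟩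
  have hform : ∀ x u v, fderiv ℝ a x u v - fderiv ℝ a x v u = (u 0 * v 1 - u 1 * v 0) * c x := by
    intro x u v
    rw [hc]
    exact V3_form _ u v
  have hcc : Continuous c := by
    rw [hc]
    exact ((hdc.clm_apply continuous_const).clm_apply continuous_const).sub
      ((hdc.clm_apply continuous_const).clm_apply continuous_const)
  have hper : ∀ (m : Fin 2 → ℤ) x, c (x + vz m) = c x := by
    intro m x
    have h1 : fderiv ℝ a (x + vz m) = fderiv ℝ a x := by
      rw [← fderiv_comp_add_right (vz m)]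
      congr 1
      funext y
      exact hap m y
    rw [hc]
    simp only [h1]
  have key : ∀ m : Fin 2 → ℤ, m ≠ 0 → ∀ x : Vec 2, (∫ t in (0:ℝ)..1, c (x + t • vz m)) = 0 := by
    intro m hm x
    obtain ⟨w, hw⟩ : ∃ w : Vec 2, w = (m 1 : ℝ) • EuclideanSpace.single (0 : Fin 2) (1:ℝ) -
        (m 0 : ℝ) • EuclideanSpace.single (1 : Fin 2) (1:ℝ) := ⟨_, rfl⟩
    have h1 := V3_int ha x w (vz m)
    have h2 : (fun s : ℝ => ∫ t in (0:ℝ)..1, a (x + s • w + t • vz m) (vz m)) =
        fun _ => ∫ t in (0:ℝ)..1, a (x + t • vz m) (vz m) := by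
      funext s
      exact h m _ _
    rw [h2] at h1
    have h3 := h1.unique (hasDerivAt_const _ _)
    have h4 := V3_ftc ha x w (vz m)
    rw [hap m x, sub_self] at h4
    have hi1 : Continuous fun t : ℝ => fderiv ℝ a (x + t • vz m) w (vz m) :=
      ((hdc.comp (by fun_prop)).clm_apply continuous_const).clm_apply continuous_const
    have hi2 : Continuous fun t : ℝ => fderiv ℝ a (x + t • vz m) (vz m) w :=
      ((hdc.comp (by fun_prop)).clm_apply continuous_const).clm_apply continuous_const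
    have h5 := intervalIntegral.integral_sub (hi1.intervalIntegrable (μ := volume) 0 1)
      (hi2.intervalIntegrable (μ := volume) 0 1)
    rw [h3, h4, sub_self] at h5
    have h6 : ∀ t : ℝ, fderiv ℝ a (x + t • vz m) w (vz m) - fderiv ℝ a (x + t • vz m) (vz m) w =
        ((m 1 : ℝ) ^ 2 + (m 0 : ℝ) ^ 2) * c (x + t • vz m) := by
      intro t
      rw [hform]
      have e0 : w 0 = m 1 := by rw [hw]; simp
      have e1 : w 1 = -(m 0 : ℝ) := by rw [hw]; simp
      have e2 : (vz m) 0 = (m 0 : ℝ) := rfl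
      have e3 : (vz m) 1 = (m 1 : ℝ) := rfl
      rw [e0, e1, e2, e3]
      ring
    simp only [h6] at h5
    rw [intervalIntegral.integral_const_mul] at h5
    refine (mul_eq_zero.1 h5).resolve_left fun h0 => hm ?_
    have f0 : (m 0 : ℝ) = 0 := by nlinarith [sq_nonneg (m 0 : ℝ), sq_nonneg (m 1 : ℝ)]
    have f1 : (m 1 : ℝ) = 0 := by nlinarith [sq_nonneg (m 0 : ℝ), sq_nonneg (m 1 : ℝ)]
    funext i
    fin_cases i
    · exact_mod_cast f0
    · exact_mod_cast f1
  have hconst := V1_const hcc hper fun m hm x y => by rw [key m hm x, key m hm y]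
  have hm : (Pi.single 0 1 : Fin 2 → ℤ) ≠ 0 := by
    intro h0
    have := congrFun h0 0
    simp at this
  have h7 := key _ hm x
  have h8 : ∀ t : ℝ, c (x + t • vz (Pi.single 0 1 : Fin 2 → ℤ)) = c x := fun t => hconst _ _
  simp only [h8] at h7
  have h9 : c x = 0 := by simpa using h7
  have h10 := hform x u v
  rw [h9, mul_zero] at h10
  linarith

theorem V3_exact {n : ℕ} {a : Vec 2 → Vec 2 →L[ℝ] Vec n} (ha : ContDiff ℝ 1 a)
    (hap : ∀ (m : Fin 2 → ℤ) x, a (x + vz m) = a x)
    (hcl : ∀ x u v, fderiv ℝ a x u v = fderiv ℝ a x v u) :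
    ∃ (A0 : Vec 2 →L[ℝ] Vec n) (s : Vec 2 → Vec n), (∀ (m : Fin 2 → ℤ) x, s (x + vz m) = s x) ∧
      ∀ x, HasFDerivAt s (a x - A0) x := by
  obtain ⟨f, hf⟩ := (convex_univ (𝕜 := ℝ) (E := Vec 2)).exists_forall_hasFDerivAt_of_fderiv_symmetric
    isOpen_univ (ha.differentiable (by norm_num)).differentiableOn fun x _ u v => hcl x u v
  have hf' : ∀ x, HasFDerivAt f (a x) x := fun x => hf x (mem_univ x)
  obtain ⟨κ, hκ⟩ : ∃ κ : (Fin 2 → ℤ) → Vec n, κ = fun m => f (vz m) - f 0 := ⟨_, rfl⟩
  have hadd : ∀ (m : Fin 2 → ℤ) x, f (x + vz m) = f x + κ m := by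
    intro m x
    have h1 : ∀ y, HasFDerivAt (fun z => f (z + vz m) - f z) (0 : Vec 2 →L[ℝ] Vec n) y := by
      intro y
      have h2 : HasFDerivAt (fun z => f (z + vz m)) (a (y + vz m)) y := by
        have := (hf' (y + vz m)).comp y ((hasFDerivAt_id y).add_const (vz m))
        exact this
      have h3 := h2.sub (hf' y)
      rw [hap m y, sub_self] at h3
      exact h3
    have h4 := is_const_of_fderiv_eq_zero (𝕜 := ℝ) (f := fun z => f (z + vz m) - f z)
      (fun y => (h1 y).differentiableAt) (fun y => (h1 y).fderiv) x 0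
    simp only [zero_add] at h4
    rw [hκ]
    simp only
    rw [← h4]
    abel
  have hvz : ∀ m m' : Fin 2 → ℤ, vz (m + m') = vz m + vz m' := by
    intro m m'
    ext i
    simp [vz]
  have hκadd : ∀ m m', κ (m + m') = κ m + κ m' := by
    intro m m'
    have h1 := hadd m' (vz m)
    have h2 := hadd m 0
    have h3 := hadd (m + m') 0
    rw [zero_add] at h2 h3
    rw [hvz, h1, h2] at h3
    have h4 : f 0 + (κ m + κ m') = f 0 + κ (m + m') := by
      rw [← h3]
      abel
    exact (add_left_cancel h4).symm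
  obtain ⟨A0, hA0⟩ : ∃ A0 : Vec 2 →L[ℝ] Vec n, ∀ v : Vec 2, A0 v =
      v 0 • κ (Pi.single 0 1) + v 1 • κ (Pi.single 1 1) :=
    ⟨(EuclideanSpace.proj (0 : Fin 2) : Vec 2 →L[ℝ] ℝ).smulRight (κ (Pi.single 0 1)) +
      (EuclideanSpace.proj (1 : Fin 2) : Vec 2 →L[ℝ] ℝ).smulRight (κ (Pi.single 1 1)),
      fun v => by simp⟩
  have hA0m : ∀ m : Fin 2 → ℤ, A0 (vz m) = κ m := by
    intro m
    obtain ⟨K, hK⟩ : ∃ K : (Fin 2 → ℤ) →+ Vec n, ∀ m, K m = κ m :=
      ⟨AddMonoidHom.mk' κ hκadd, fun _ => rfl⟩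
    have e : m = m 0 • (Pi.single 0 1 : Fin 2 → ℤ) + m 1 • (Pi.single 1 1 : Fin 2 → ℤ) := by
      funext i
      fin_cases i <;> simp
    have h1 : K m = m 0 • K (Pi.single 0 1) + m 1 • K (Pi.single 1 1) := by
      conv_lhs => rw [e]
      rw [map_add, map_zsmul, map_zsmul]
    rw [hK, hK, hK] at h1
    rw [hA0, h1]
    have e2 : (vz m) 0 = (m 0 : ℝ) := rfl
    have e3 : (vz m) 1 = (m 1 : ℝ) := rfl
    rw [e2, e3, Int.cast_smul_eq_zsmul, Int.cast_smul_eq_zsmul]
  refine ⟨A0, fun x => f x - A0 x, fun m x => ?_, fun x => (hf' x).sub A0.hasFDerivAt⟩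
  simp only
  rw [hadd, map_add, hA0m]
  abel

end EscG.U
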