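import Pool.Agent.EscV.V2
import Pool.Agent.EscV.V3
import Pool.Agent.EscV.V8
import Pool.Agent.EscV.V10b

set_option autoImplicit false

/-!
# Project EscV, module V10c: rigidity, first order in the momentum

`p = ε • e`, `kap (ε • e) = ε² kap e`: `V2_first` with `a X = - ⟪e, (A' X) ·⟫`, `c = 0`, `v = vz m`; `V3_closed` for all `e`.
-/

noncomputable section

namespace EscG.U

open Filter Topology Set MeasureTheory EscF.T EscG.T EscG.X
open scoped ContDiff

variable {n : ℕ} {K : KK n} {k : ℕ∞}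

/-- `kap` is homogeneous of degree two -/
theorem V10c_kap (K : KK n) (ε : ℝ) (e : Vec n) (x : Vec 2) : K.kap (ε • e) x = ε ^ 2 * K.kap e x := by
  unfold KK.kap
  rw [map_smul, real_inner_smul_left, real_inner_smul_right]
  ring

theorem V10c_sqrt {s : ℝ} (h0 : 0 ≤ s) (h1 : s ≤ 1) : |√(1 - s) - 1| ≤ s := by
  have h2 : √(1 - s) ≤ 1 := Real.sqrt_le_one.2 (by linarith)
  have h3 : 1 - s ≤ √(1 - s) := Real.le_sqrt_of_sq_le (by nlinarith)
  rw [abs_le]
  constructor <;> linarith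

theorem V10_closed (hk : 2 ≤ k) (hK : K.Ok k) {q : Vec 2 →L[ℝ] Vec 2 →L[ℝ] ℝ} (hq : T.IsScalarProduct q)
    {φ ψ : Vec 2 → Vec 2} (hT : TDiff k φ ψ) (hiso : ∀ x v w, K.g x v w = q (fderiv ℝ φ x v) (fderiv ℝ φ x w))
    {η : ℝ} (hη : 0 < η) (hd : ∀ p : Vec n, ‖p‖ ≤ η → ¬ HasNonconstantDisplacement (K.red p)) (x u v : Vec 2) :
    fderiv ℝ (V10_A K ψ) x u v = fderiv ℝ (V10_A K ψ) x v u := by
  obtain ⟨hA, hAp⟩ := V10_A_smooth hk hK hT
  obtain ⟨η', hη', hs⟩ := V8_small hK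
  have hAd : Differentiable ℝ (V10_A K ψ) := hA.differentiable one_ne_zero
  refine ext_inner_left ℝ fun e => ?_
  -- the linear form
  set a : Vec 2 → Vec 2 →L[ℝ] ℝ := fun X => -((innerSL ℝ e).comp (V10_A K ψ X)) with ha_def
  have ha : ContDiff ℝ 1 a := (contDiff_const.clm_comp hA).neg
  have hap : ∀ (m : Fin 2 → ℤ) x, a (x + vz m) = a x := fun m x => by
    simp only [ha_def, hAp]
  have haa : ∀ X V, a X V = -inner ℝ e (V10_A K ψ X V) := fun X V => rfl
  -- the small momenta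
  set ε0 : ℝ := min η η' / (‖e‖ + 1) with hε0_def
  have hmin : 0 < min η η' := lt_min hη hη'
  have he1 : 0 < ‖e‖ + 1 := by positivity
  have hε0 : 0 < ε0 := div_pos hmin he1
  have hnorm : ∀ ε, 0 < ε → ε ≤ ε0 → ‖ε • e‖ ≤ min η η' := by
    intro ε h0 h1
    rw [norm_smul, Real.norm_of_nonneg h0.le]
    calc ε * ‖e‖ ≤ ε0 * (‖e‖ + 1) := mul_le_mul h1 (by linarith) (norm_nonneg _) hε0.le
      _ = min η η' := by rw [hε0_def]; field_simp
  have hkap : ∀ X, 0 ≤ K.kap e X ∧ ε0 ^ 2 * K.kap e X ≤ 1 / 2 := by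
    intro X
    have h1 := (hs (ε0 • e) ((hnorm ε0 hε0 le_rfl).trans (min_le_right _ _))).1 X
    rw [V10c_kap] at h1
    exact ⟨nonneg_of_mul_nonneg_right h1.1 (by positivity), h1.2⟩
  set C : ℝ := 1 / (2 * ε0 ^ 2) with hC_def
  have hkC : ∀ X, K.kap e X ≤ C := by
    intro X
    have h1 := (hkap X).2
    rw [hC_def, le_div_iff₀ (by positivity)]
    linarith
  -- the metric in the flat coordinates
  have hcont : ∀ p : Vec n, Continuous fun y : Vec 2 × Vec 2 =>
      √(1 - K.kap p (ψ y.1)) * √(q y.2 y.2) - inner ℝ p (V10_A K ψ y.1 y.2) := by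
    intro p
    have hψ : Continuous ψ := hT.sψ.continuous
    have h1 : Continuous fun X => K.kap p (ψ X) := by
      unfold KK.kap
      exact continuous_const.inner (((hK.sJ.continuous).comp hψ).clm_apply continuous_const)
    have h2 : Continuous fun y : Vec 2 × Vec 2 => √(1 - K.kap p (ψ y.1)) :=
      (continuous_const.sub (h1.comp continuous_fst)).sqrt
    have h3 : Continuous fun y : Vec 2 × Vec 2 => √(q y.2 y.2) := (V2_cont q).comp continuous_snd
    have h4 : Continuous fun y : Vec 2 × Vec 2 => V10_A K ψ y.1 y.2 :=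
      (hA.continuous.comp continuous_fst).clm_apply continuous_snd
    exact (h2.mul h3).sub (continuous_const.inner h4)
  have hint : ∀ (m : Fin 2 → ℤ) (x y : Vec 2),
      ∫ t in (0:ℝ)..1, a (x + t • vz m) (vz m) = ∫ t in (0:ℝ)..1, a (y + t • vz m) (vz m) := by
    intro m x y
    have h := V2_first hq ha hap (c := fun _ => 0) contDiff_const (fun _ _ => rfl)
      (F := fun ε => V10_F K q ψ (ε • e))
      (η0 := ε0) (C := C) hε0 (fun ε _ _ => hcont (ε • e)) (fun ε h0 h1 X V => ?_) (v := vz m)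
      (fun ε h0 h1 X Y => ?_) x y
    · simpa using h
    · have e1 : V10_F K q ψ (ε • e) X V -
          (√(q V V) + ε * (a X V + 0 * √(q V V))) = (√(1 - K.kap (ε • e) (ψ X)) - 1) * √(q V V) := by
        unfold V10_F
        rw [haa, real_inner_smul_left]
        ring
      rw [e1, abs_mul, abs_of_nonneg (Real.sqrt_nonneg _)]
      refine mul_le_mul_of_nonneg_right ?_ (Real.sqrt_nonneg _)
      rw [V10c_kap]
      have h2 : 0 ≤ ε ^ 2 * K.kap e (ψ X) := mul_nonneg (sq_nonneg _) (hkap _).1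
      have h3 : ε ^ 2 * K.kap e (ψ X) ≤ 1 := by
        have h4 : ε ^ 2 ≤ ε0 ^ 2 := pow_le_pow_left₀ h0.le h1 2
        have h5 := mul_le_mul_of_nonneg_right h4 (hkap (ψ X)).1
        have h6 := (hkap (ψ X)).2
        linarith
      refine (V10c_sqrt h2 h3).trans ?_
      rw [mul_comm C]
      exact mul_le_mul_of_nonneg_left (hkC _) (sq_nonneg _)
    · exact V10_disp hk hT hiso (hd _ ((hnorm ε h0 h1).trans (min_le_left _ _))) m X Y
  have hcl := V3_closed ha hap hint x
  have hfd : ∀ u v : Vec 2, fderiv ℝ a x u v = -inner ℝ e (fderiv ℝ (V10_A K ψ) x u v) := by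
    intro u v
    have h1 : HasFDerivAt a (-(((ContinuousLinearMap.compL ℝ (Vec 2) (Vec n) ℝ (innerSL ℝ e))).comp
        (fderiv ℝ (V10_A K ψ) x))) x :=
      (((ContinuousLinearMap.compL ℝ (Vec 2) (Vec n) ℝ (innerSL ℝ e)).hasFDerivAt).comp x
        (hAd x).hasFDerivAt).neg
    rw [h1.fderiv]
    rfl
  have h := hcl u v
  rw [hfd, hfd] at h
  linarith

end EscG.U
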