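import Pool.Agent.EscV.V10
import Pool.Agent.EscG.Pr2

set_option autoImplicit false

/-!
# Project EscV, module V11: rigidity, the diffeomorphism

`Pr2_flat` for `K.g` with `red 0 = √(g v v)` gives `q, φ, ψ`; `V10_closed`, `V3_exact` give `A0, s`; `V10_kap` gives `kap e` constant for all `e`, so `J x` is constant by
polarisation (`J x` is symmetric: `⟪p, J x p'⟫ = h x (J x p) (J x p')`), so `h x` is constant (`J x` is injective, hence surjective, and
`h x (J x p) (J x p') = ⟪p, J x p'⟫`). Put `S x = s (φ x)`: `HasFDerivAt S (K.A x - A0.comp (fderiv ℝ φ x)) x` (chain rule, `fderiv ψ (φ x) ∘ fderiv φ x = id`), the derivative is of class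
`C^(k-1)`, so `S` is of class `C^k` (`contDiff_succ_iff_fderiv`, or `contDiff_infty`; for `k = ⊤` all orders). `Φ x = ib (φ (base x)) + fb (fib x - S (base x))`,
`Ψ y = ib (ψ (base y)) + fb (fib y + S (ψ (base y)))`, `q' v w = q (base v) (base w) + h 0 (fib v - A0 (base v)) (fib w - A0 (base w))`:
`fib (DΦ v) - A0 (base (DΦ v)) = fib v - DS (base v) - A0 Dφ (base v) = fib v - A (base v)`.
-/

noncomputable section

namespace EscG.U

open Filter Topology Set EscF.T EscG.T EscG.X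
open scoped ContDiff

variable {n : ℕ} {K : KK n} {k : ℕ∞}

/-! ### the fibre metric is constant -/

theorem V11_J_symm (hK : K.Ok k) (x : Vec 2) (p p' : Vec n) :
    (inner ℝ p (K.J x p') : ℝ) = inner ℝ p' (K.J x p) := by
  rw [← hK.hJ x p (K.J x p'), (hK.hh x).1, hK.hJ x p' (K.J x p)]

theorem V11_J_const (hK : K.Ok k) (h : ∀ (e : Vec n) (x y : Vec 2), K.kap e x = K.kap e y) (x : Vec 2) :
    K.J x = K.J 0 := by
  refine ContinuousLinearMap.ext fun p' => ext_inner_left ℝ fun p => ?_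
  have h1 : ∀ y, K.kap (p + p') y = K.kap p y + K.kap p' y + 2 * inner ℝ p (K.J y p') := by
    intro y
    unfold KK.kap
    rw [map_add, inner_add_left, inner_add_right, inner_add_right, V11_J_symm hK y p' p]
    ring
  have h2 := h1 x
  rw [h (p + p') x 0, h p x 0, h p' x 0, h1 0] at h2
  linarith

theorem V11_J_surj (hK : K.Ok k) (x : Vec 2) : Function.Surjective (K.J x) := by
  have h1 : Function.Injective ((K.J x : Vec n →L[ℝ] Vec n) : Vec n →ₗ[ℝ] Vec n) := by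
    rw [← LinearMap.ker_eq_bot, LinearMap.ker_eq_bot']
    intro p hp
    have h2 := hK.hJ x p p
    have h3 : K.J x p = 0 := hp
    rw [h3, map_zero, ContinuousLinearMap.zero_apply] at h2
    exact inner_self_eq_zero.1 h2.symm
  exact LinearMap.injective_iff_surjective.1 h1

theorem V11_h_const (hK : K.Ok k) (h : ∀ (e : Vec n) (x y : Vec 2), K.kap e x = K.kap e y) (x : Vec 2) :
    K.h x = K.h 0 := by
  refine ContinuousLinearMap.ext fun v => ContinuousLinearMap.ext fun w => ?_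
  obtain ⟨p, rfl⟩ := V11_J_surj hK 0 v
  rw [hK.hJ 0 p w, ← V11_J_const hK h x, hK.hJ x p w]

/-! ### the gauge -/

theorem V11_S_fderiv (hk : 2 ≤ k) {φ ψ : Vec 2 → Vec 2} (hT : TDiff k φ ψ) {A0 : Vec 2 →L[ℝ] Vec n}
    {s : Vec 2 → Vec n} (hsd : ∀ X, HasFDerivAt s (V10_A K ψ X - A0) X) (x : Vec 2) :
    HasFDerivAt (fun x => s (φ x)) (K.A x - A0.comp (fderiv ℝ φ x)) x := by
  have hk1 : (1 : WithTop ℕ∞) ≤ (k : WithTop ℕ∞) :=
    le_trans (by norm_num) (show (2 : WithTop ℕ∞) ≤ (k : WithTop ℕ∞) from WithTop.coe_le_coe.2 hk)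
  have hφ : HasFDerivAt φ (fderiv ℝ φ x) x :=
    ((hT.sφ.of_le hk1).differentiable (by norm_num) x).hasFDerivAt
  have hψ : HasFDerivAt ψ (fderiv ℝ ψ (φ x)) (φ x) :=
    ((hT.sψ.of_le hk1).differentiable (by norm_num) (φ x)).hasFDerivAt
  have h1 : (fderiv ℝ ψ (φ x)).comp (fderiv ℝ φ x) = ContinuousLinearMap.id ℝ (Vec 2) := by
    have h2 := hψ.comp x hφ
    have h3 : ψ ∘ φ = id := funext hT.left
    rw [h3] at h2
    exact h2.unique (hasFDerivAt_id x)
  have h4 := (hsd (φ x)).comp x hφ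
  have h5 : (V10_A K ψ (φ x) - A0).comp (fderiv ℝ φ x) = K.A x - A0.comp (fderiv ℝ φ x) := by
    rw [ContinuousLinearMap.sub_comp]
    unfold V10_A
    rw [hT.left, ContinuousLinearMap.comp_assoc, h1, ContinuousLinearMap.comp_id]
  rw [h5] at h4
  exact h4

theorem V11_S_smooth (hk : 2 ≤ k) (hK : K.Ok k) {φ ψ : Vec 2 → Vec 2} (hT : TDiff k φ ψ)
    {A0 : Vec 2 →L[ℝ] Vec n} {s : Vec 2 → Vec n} (hsd : ∀ X, HasFDerivAt s (V10_A K ψ X - A0) X) :
    ContDiff ℝ k (fun x => s (φ x)) := by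
  have hS := V11_S_fderiv hk hT hsd
  have hdiff : Differentiable ℝ (fun x => s (φ x)) := fun x => (hS x).differentiableAt
  rw [contDiff_iff_forall_nat_le]
  intro m hm
  cases m with
  | zero => exact contDiff_zero.2 hdiff.continuous
  | succ j =>
    have hm' : (((j + 1 : ℕ) : ℕ∞) : WithTop ℕ∞) ≤ (k : WithTop ℕ∞) := WithTop.coe_le_coe.2 hm
    have hj : (((j : ℕ) : ℕ∞) : WithTop ℕ∞) ≤ (k : WithTop ℕ∞) :=
      WithTop.coe_le_coe.2 (le_trans (by exact_mod_cast Nat.le_succ j) hm)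
    have h1 : ContDiff ℝ ((j : ℕ) : WithTop ℕ∞) (fderiv ℝ φ) := by
      refine ContDiff.fderiv_right hT.sφ ?_
      exact_mod_cast hm'
    have h2 : fderiv ℝ (fun x => s (φ x)) = fun x => K.A x - A0.comp (fderiv ℝ φ x) :=
      funext fun x => (hS x).fderiv
    have h3 : ContDiff ℝ ((j : ℕ) : WithTop ℕ∞) (fderiv ℝ (fun x => s (φ x))) := by
      rw [h2]
      exact (hK.sA.of_le (by exact_mod_cast hj)).sub (contDiff_const.clm_comp h1)
    have h4 := (contDiff_succ_iff_fderiv (𝕜 := ℝ) (f := fun x => s (φ x))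
      (n := ((j : ℕ) : WithTop ℕ∞))).2 ⟨hdiff, fun h => by simp at h, h3⟩
    exact_mod_cast h4

/-! ### the diffeomorphism -/

/-- the diffeomorphism -/
def V11_map (φ : Vec 2 → Vec 2) (σ : Vec 2 → Vec n) (x : Vec (2 + n)) : Vec (2 + n) :=
  ib n (φ (base x)) + fb (fib x - σ (base x))

theorem V11_base (φ : Vec 2 → Vec 2) (σ : Vec 2 → Vec n) (x : Vec (2 + n)) :
    base (V11_map φ σ x) = φ (base x) := by
  unfold V11_map
  rw [base_add, base_ib, base_fb, add_zero]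

theorem V11_fib (φ : Vec 2 → Vec 2) (σ : Vec 2 → Vec n) (x : Vec (2 + n)) :
    fib (V11_map φ σ x) = fib x - σ (base x) := by
  unfold V11_map
  rw [fib_add, fib_ib, fib_fb, zero_add]

theorem V11_comp {φ ψ : Vec 2 → Vec 2} {σ τ : Vec 2 → Vec n} (h : ∀ x, ψ (φ x) = x)
    (h' : ∀ x, τ (φ x) = - σ x) (x : Vec (2 + n)) : V11_map ψ τ (V11_map φ σ x) = x := by
  conv_lhs => rw [V11_map]
  rw [V11_base, V11_fib, h, h', sub_neg_eq_add, sub_add_cancel, ib_base_add]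

theorem V11_smooth {φ : Vec 2 → Vec 2} {σ : Vec 2 → Vec n} (h : ContDiff ℝ k φ) (hσ : ContDiff ℝ k σ) :
    ContDiff ℝ k (V11_map φ σ) := by
  have h1 : ContDiff ℝ k (fun x : Vec (2 + n) => Pr1_i n (φ (Pr1_b n x))) :=
    (Pr1_i n).contDiff.comp (h.comp (Pr1_b n).contDiff)
  have h2 : ContDiff ℝ k (fun x : Vec (2 + n) => Pr1_j n (Pr1_f n x - σ (Pr1_b n x))) :=
    (Pr1_j n).contDiff.comp ((Pr1_f n).contDiff.sub (hσ.comp (Pr1_b n).contDiff))
  exact h1.add h2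

theorem V11_per {φ : Vec 2 → Vec 2} {σ : Vec 2 → Vec n} (h : ∀ (m : Fin 2 → ℤ) x, φ (x + vz m) = φ x + vz m)
    (hσ : ∀ (m : Fin 2 → ℤ) x, σ (x + vz m) = σ x) (m : Fin (2 + n) → ℤ) (x : Vec (2 + n)) :
    V11_map φ σ (x + vz m) = V11_map φ σ x + vz m := by
  unfold V11_map
  rw [Pr1_base_vz, Pr1_fib_vz, h, hσ, ib_add, vz_split m, add_sub_right_comm, fb_add]
  abel

theorem V11_fderiv {φ : Vec 2 → Vec 2} {σ : Vec 2 → Vec n} {φ' : Vec 2 →L[ℝ] Vec 2} {σ' : Vec 2 →L[ℝ] Vec n}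
    {x : Vec (2 + n)} (h : HasFDerivAt φ φ' (base x)) (hσ : HasFDerivAt σ σ' (base x)) (v : Vec (2 + n)) :
    fderiv ℝ (V11_map φ σ) x v = ib n (φ' (base v)) + fb (fib v - σ' (base v)) := by
  have h1 : HasFDerivAt (fun x : Vec (2 + n) => Pr1_i n (φ (Pr1_b n x)))
      ((Pr1_i n).comp (φ'.comp (Pr1_b n))) x :=
    (Pr1_i n).hasFDerivAt.comp x (h.comp x (Pr1_b n).hasFDerivAt)
  have h2 : HasFDerivAt (fun x : Vec (2 + n) => Pr1_j n (Pr1_f n x - σ (Pr1_b n x)))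
      ((Pr1_j n).comp (Pr1_f n - σ'.comp (Pr1_b n))) x :=
    (Pr1_j n).hasFDerivAt.comp x ((Pr1_f n).hasFDerivAt.sub (hσ.comp x (Pr1_b n).hasFDerivAt))
  have h3 : HasFDerivAt (V11_map φ σ) _ x := h1.add h2
  rw [h3.fderiv]
  rfl

/-- the constant metric -/
def V11_q (b : Vec 2 →L[ℝ] Vec 2 →L[ℝ] ℝ) (h : Vec n →L[ℝ] Vec n →L[ℝ] ℝ) (A0 : Vec 2 →L[ℝ] Vec n) :
    Vec (2 + n) →L[ℝ] Vec (2 + n) →L[ℝ] ℝ :=
  b.bilinearComp (Pr1_b n) (Pr1_b n) +
    h.bilinearComp (Pr1_f n - A0.comp (Pr1_b n)) (Pr1_f n - A0.comp (Pr1_b n))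

theorem V11_q_apply (b : Vec 2 →L[ℝ] Vec 2 →L[ℝ] ℝ) (h : Vec n →L[ℝ] Vec n →L[ℝ] ℝ) (A0 : Vec 2 →L[ℝ] Vec n)
    (v w : Vec (2 + n)) : V11_q b h A0 v w =
      b (base v) (base w) + h (fib v - A0 (base v)) (fib w - A0 (base w)) := rfl

theorem V11_q_scalar {b : Vec 2 →L[ℝ] Vec 2 →L[ℝ] ℝ} (hb : T.IsScalarProduct b)
    {h : Vec n →L[ℝ] Vec n →L[ℝ] ℝ} (hh : T.IsScalarProduct h) (A0 : Vec 2 →L[ℝ] Vec n) :
    T.IsScalarProduct (V11_q b h A0) := by
  refine ⟨fun v w => ?_, fun v hv => ?_⟩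
  · rw [V11_q_apply, V11_q_apply, hb.1, hh.1]
  · rw [V11_q_apply]
    by_cases h1 : base v = 0
    · have h2 : fib v ≠ 0 := fun h2 => hv (X8_zero h1 h2)
      have h3 := hh.2 _ h2
      rw [h1, map_zero, map_zero, sub_zero]
      simpa using h3
    · have h3 := hb.2 _ h1
      by_cases h2 : fib v - A0 (base v) = 0
      · rw [h2, map_zero]
        simpa using h3
      · exact add_pos h3 (hh.2 _ h2)

theorem V11_rigid (hk : 2 ≤ k) (hK : K.Ok k) {η : ℝ} (hη : 0 < η)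
    (hd : ∀ p : Vec n, ‖p‖ ≤ η → ¬ HasNonconstantDisplacement (K.red p)) :
    ∃ (q : Vec (2 + n) →L[ℝ] Vec (2 + n) →L[ℝ] ℝ) (Φ Ψ : Vec (2 + n) → Vec (2 + n)), T.IsScalarProduct q ∧
      TDiff k Φ Ψ ∧ ∀ x v w, K.met x v w = q (fderiv ℝ Φ x v) (fderiv ℝ Φ x w) := by
  have hk1 : (1 : WithTop ℕ∞) ≤ (k : WithTop ℕ∞) :=
    le_trans (by norm_num) (show (2 : WithTop ℕ∞) ≤ (k : WithTop ℕ∞) from WithTop.coe_le_coe.2 hk)
  have hred : K.red 0 = fun x v => √(K.g x v v) := by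
    funext x v
    unfold KK.red KK.kap
    rw [inner_zero_left, inner_zero_left, sub_zero, sub_zero, Real.sqrt_one, one_mul]
  have h0 := hd 0 (by rw [norm_zero]; exact hη.le)
  rw [hred] at h0
  unfold HasNonconstantDisplacement at h0
  push Not at h0
  obtain ⟨q, φ, ψ, hq, hT, hiso⟩ := Pr2_flat hk hK.sg hK.hg hK.pg (fun m x y => h0 m x y)
  obtain ⟨hA1, hA2⟩ := V10_A_smooth hk hK hT
  obtain ⟨A0, s, hs, hsd⟩ := V3_exact hA1 hA2 (V10_closed hk hK hq hT hiso hη hd)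
  have hkap := V10_kap hk hK hq hT hiso hη hd hs hsd
  have hh := V11_h_const hK hkap
  have hSd := V11_S_fderiv hk hT hsd
  have hSs := V11_S_smooth hk hK hT hsd
  have hSp : ∀ (m : Fin 2 → ℤ) x, s (φ (x + vz m)) = s (φ x) := fun m x => by rw [hT.pφ, hs]
  have hφd : ∀ x, HasFDerivAt φ (fderiv ℝ φ x) x := fun x =>
    ((hT.sφ.of_le hk1).differentiable (by norm_num) x).hasFDerivAt
  refine ⟨V11_q q (K.h 0) A0, V11_map φ (fun x => s (φ x)), V11_map ψ (fun y => - s (φ (ψ y))),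
    V11_q_scalar hq (hK.hh 0) A0, ⟨V11_comp hT.left fun x => ?_, V11_comp hT.right fun x => ?_,
      V11_smooth hT.sφ hSs, V11_smooth hT.sψ (hSs.comp hT.sψ).neg, V11_per hT.pφ hSp,
      V11_per hT.pψ fun m x => ?_⟩, fun x v w => ?_⟩
  · show - s (φ (ψ (φ x))) = - s (φ x)
    rw [hT.left]
  · show s (φ (ψ x)) = - - s (φ (ψ x))
    rw [neg_neg]
  · show - s (φ (ψ (x + vz m))) = - s (φ (ψ x))
    rw [hT.pψ, hSp]
  · rw [V11_fderiv (hφd (base x)) (hSd (base x)), V11_fderiv (hφd (base x)) (hSd (base x)), V11_q_apply]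
    have key : ∀ v : Vec (2 + n),
        base (ib n (fderiv ℝ φ (base x) (base v)) +
          fb (fib v - (K.A (base x) - A0.comp (fderiv ℝ φ (base x))) (base v))) =
            fderiv ℝ φ (base x) (base v) ∧
        fib (ib n (fderiv ℝ φ (base x) (base v)) +
          fb (fib v - (K.A (base x) - A0.comp (fderiv ℝ φ (base x))) (base v))) -
            A0 (fderiv ℝ φ (base x) (base v)) = fib v - K.A (base x) (base v) := by
      intro v
      constructor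
      · rw [base_add, base_ib, base_fb, add_zero]
      · rw [fib_add, fib_ib, fib_fb, zero_add, ContinuousLinearMap.sub_apply,
          ContinuousLinearMap.comp_apply]
        abel
    rw [(key v).1, (key w).1, (key v).2, (key w).2, ← hiso, ← hh (base x)]
    rfl

end EscG.U
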