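import Pool.Agent.EscV.YDefs
import Pool.Agent.EscG.X2

/-!
Project EscG, application layer, module Y2: elementary hypotheses, height function, zone.
-/

noncomputable section

namespace EscG.X

open MeasureTheory Set Filter Topology Esc EscF EscF.T EscG.T
open scoped ContDiff

variable {n : ℕ} {X : YD n}

/-! ## The lattice -/

theorem Y2_lv (m : Fin (1 + n) → ℤ) : lv X.gd.b m =
    ib n ((m (Fin.castAdd n 0) : ℝ) • X.bv) + fb (vz fun j => m (Fin.natAdd 1 j)) := by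
  rw [lv, Fin.sum_univ_add, Fin.sum_univ_one, ← X1_fb_vz, ib_smul]
  congr 1
  refine Finset.sum_congr rfl fun j _ => ?_
  simp only [YD.gd, Fin.addCases_right]

theorem Y2_InJ (v : Vec (2 + n)) : X.gd.InJ v ↔
    ∃ (p : ℤ) (m : Fin n → ℤ), v = ib n ((p : ℝ) • X.bv) + fb (vz m) := by
  constructor
  · rintro ⟨m, rfl⟩
    exact ⟨m (Fin.castAdd n 0), fun j => m (Fin.natAdd 1 j), Y2_lv m⟩
  · rintro ⟨p, m, rfl⟩
    refine ⟨Fin.addCases (fun _ => p) m, ?_⟩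
    rw [Y2_lv]
    simp only [Fin.addCases_left, Fin.addCases_right]

theorem YD.Ok.mem_Lam (h : X.Ok) (v : Vec (2 + n)) : v ∈ X.gd.Lam ↔
    ∃ (p q : ℤ) (m : Fin n → ℤ), v = ib n ((p : ℝ) • X.bv + (q : ℝ) • X.gv) + fb (vz m) := by
  have h1 : v ∈ X.gd.Lam ↔ v ∈ Submodule.span ℤ (Set.range X.β) := Iff.rfl
  rw [h1, Submodule.mem_span_range_iff_exists_fun]
  have key : ∀ c : Fin (2 + n) → ℤ, ∑ i, c i • X.β i =
      ib n ((c (Fin.castAdd n 0) : ℝ) • X.bv + (c (Fin.castAdd n 1) : ℝ) • X.gv) +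
        fb (vz fun j => c (Fin.natAdd 2 j)) := by
    intro c
    rw [← X1_sum_two h.β0 h.β1 h.β2 c]
    exact Finset.sum_congr rfl fun i _ => (Int.cast_smul_eq_zsmul ℝ (c i) (X.β i)).symm
  constructor
  · rintro ⟨c, rfl⟩
    exact ⟨_, _, _, key c⟩
  · rintro ⟨p, q, m, rfl⟩
    refine ⟨Fin.addCases ![p, q] m, ?_⟩
    rw [key]
    simp only [Fin.addCases_left, Fin.addCases_right, Matrix.cons_val_zero, Matrix.cons_val_one]


/-! ## Periods -/

theorem Y2_B (h : X.Ok) (p q : ℤ) (x : Vec 2) :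
    X.B (x + ((p : ℝ) • X.bv + (q : ℝ) • X.gv)) = X.B x + (p * X.l + q * X.a) := by
  rw [← add_assoc, X2_int h.gap.Bg, X2_int h.gap.Bb]
  ring

theorem Y2_yb (h : X.Ok) (x : Vec 2) : X.y (x + X.bv) = X.y x + 0 := by rw [h.gap.yb, add_zero]

theorem Y2_y (h : X.Ok) (p q : ℤ) (x : Vec 2) :
    X.y (x + ((p : ℝ) • X.bv + (q : ℝ) • X.gv)) = X.y x + q := by
  rw [← add_assoc, X2_int h.gap.yg, X2_int (Y2_yb h)]
  ring

/-! ## The basis of the fast lattice -/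

theorem Y2_bl (k : Fin 1) : X.gd.b (Fin.castAdd n k) = ib n X.bv :=
  Fin.addCases_left (motive := fun _ => Vec (2 + n)) (left := fun _ => ib n X.bv)
    (right := fun j => fb (EuclideanSpace.single j (1:ℝ))) k

theorem Y2_br (j : Fin n) : X.gd.b (Fin.natAdd 1 j) = fb (EuclideanSpace.single j (1:ℝ)) :=
  Fin.addCases_right (motive := fun _ => Vec (2 + n)) (left := fun _ => ib n X.bv)
    (right := fun j => fb (EuclideanSpace.single j (1:ℝ))) j

theorem Y2_cl (k : Fin 1) : X.gd.c (Fin.castAdd n k) = X.l :=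
  Fin.addCases_left (motive := fun _ => ℝ) (left := fun _ => X.l) (right := fun j => X.p j) k

theorem Y2_cr (j : Fin n) : X.gd.c (Fin.natAdd 1 j) = X.p j :=
  Fin.addCases_right (motive := fun _ => ℝ) (left := fun _ => X.l) (right := fun j => X.p j) j

/-! ## The momentum -/

theorem Y2_P_add (x x' : Vec (2 + n)) : X.P (x + x') = X.P x + X.P x' := by
  unfold YD.P
  rw [fib_add, inner_add_right]

theorem Y2_P_sub (x x' : Vec (2 + n)) : X.P (x - x') = X.P x - X.P x' := by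
  unfold YD.P
  rw [fib_sub, inner_sub_right]

theorem Y2_P_smul (c : ℝ) (x : Vec (2 + n)) : X.P (c • x) = c * X.P x := by
  unfold YD.P
  rw [fib_smul, real_inner_smul_right]

theorem Y2_P_ib (x : Vec 2) : X.P (ib n x) = 0 := by
  unfold YD.P
  rw [fib_ib, inner_zero_right]

theorem Y2_P_fb (w : Vec n) : X.P (fb w) = inner ℝ X.p w := by
  unfold YD.P
  rw [fib_fb]

/-- the momentum as a continuous linear functional -/
def YD.PL (X : YD n) : Vec (2 + n) →L[ℝ] ℝ :=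
  (innerSL ℝ X.p).comp (LinearMap.toContinuousLinearMap (X1_fibL n))

theorem Y2_PL (x : Vec (2 + n)) : X.PL x = X.P x := rfl

theorem Y2_P_cont : Continuous X.P := X.PL.continuous

/-- the momentum along a path -/
theorem Y2_P_traj {u : ℝ → Vec (2 + n)} (hu : Adm u) (a : ℝ) (z : Vec (2 + n)) (t : ℝ) :
    X.P (traj a z u t) - X.P z = ∫ s in a..t, X.P (u s) := by
  have h := X.PL.intervalIntegral_comp_comm (X1_adm_ii hu a t)
  show X.P (z + ∫ s in a..t, u s) - X.P z = ∫ s in a..t, X.P (u s)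
  rw [Y2_P_add, add_sub_cancel_left]
  exact h.symm

theorem Y2_P_ii {u : ℝ → Vec (2 + n)} (hu : Adm u) (p q : ℝ) :
    IntervalIntegrable (fun t => X.P (u t)) volume p q := by
  have h := X1_adm_ii hu p q
  exact ⟨X.PL.integrable_comp h.1, X.PL.integrable_comp h.2⟩

theorem Y2_b (h : X.Ok) (i : Fin (1 + n)) : X.gd.b i = X.β (X2_f n i) := by
  refine Fin.addCases (fun k => ?_) (fun j => ?_) i
  · rw [X2_f_l, h.β0, Y2_bl]
  · rw [X2_f_r, h.β2, Y2_br]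

/-! ## Integrability -/

theorem Y2_ii (h : X.Ok) {u : ℝ → Vec (2 + n)} (hu : Adm u) (a : ℝ) (z : Vec (2 + n)) (p q : ℝ) :
    IntervalIntegrable (fun t => X.F (traj a z u t) (u t)) volume p q ∧
      IntervalIntegrable (fun t => X.F2 (base (traj a z u t)) (base (u t))) volume p q := by
  have htc : Continuous (traj a z u) := traj_cont hu a z
  obtain ⟨hm, C, hC⟩ := hu
  have ht : StronglyMeasurable (traj a z u) := htc.stronglyMeasurable
  have hMF : 0 ≤ X.MF := h.fins.mF_pos.le.trans h.fins.mF_le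
  have k1 : StronglyMeasurable (fun t => X.F (traj a z u t) (u t)) :=
    h.fins.cont.comp_stronglyMeasurable (ht.prodMk hm)
  have k2 : StronglyMeasurable (fun t => X.F2 (base (traj a z u t)) (base (u t))) :=
    h.F2c.comp_stronglyMeasurable ((continuous_base.comp_stronglyMeasurable ht).prodMk
      (continuous_base.comp_stronglyMeasurable hm))
  have hu1 : ∀ t, X.F (traj a z u t) (u t) ≤ X.MF * C := fun t =>
    (h.fins.upp _ _).trans (mul_le_mul_of_nonneg_left (hC t) hMF)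
  have hl1 : ∀ t, 0 ≤ X.F (traj a z u t) (u t) := fun t =>
    (mul_nonneg h.fins.mF_pos.le (norm_nonneg _)).trans (h.fins.low _ _)
  have hl2 : ∀ t, 0 ≤ X.F2 (base (traj a z u t)) (base (u t)) := fun t =>
    (mul_nonneg h.m2_pos.le (norm_nonneg _)).trans (h.low2 _ _)
  have hadm : Adm u := ⟨hm, C, hC⟩
  have hu2 : ∀ t, X.F2 (base (traj a z u t)) (base (u t)) ≤ X.MF * C + ‖X.PL‖ * C := fun t => by
    have h1 := h.ge (traj a z u t) (u t)
    have h2 := hu1 t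
    have h3 : |X.P (u t)| ≤ ‖X.PL‖ * C :=
      (X.PL.le_opNorm (u t)).trans (mul_le_mul_of_nonneg_left (hC t) (norm_nonneg _))
    have h4 := (abs_le.1 h3).1
    linarith
  refine ⟨(intervalIntegrable_const (c := X.MF * C)).mono_fun k1.aestronglyMeasurable ?_,
    (intervalIntegrable_const (c := X.MF * C + ‖X.PL‖ * C)).mono_fun k2.aestronglyMeasurable ?_⟩
  · refine Filter.Eventually.of_forall fun t => ?_
    show ‖X.F (traj a z u t) (u t)‖ ≤ ‖X.MF * C‖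
    rw [Real.norm_of_nonneg (hl1 t)]
    exact (hu1 t).trans (le_abs_self _)
  · refine Filter.Eventually.of_forall fun t => ?_
    show ‖X.F2 (base (traj a z u t)) (base (u t))‖ ≤ ‖X.MF * C + ‖X.PL‖ * C‖
    rw [Real.norm_of_nonneg (hl2 t)]
    exact (hu2 t).trans (le_abs_self _)

theorem Y2_inner_vz (m : Fin n → ℤ) : inner ℝ X.p (vz m) = ∑ j, (m j : ℝ) * X.p j := by
  rw [PiLp.inner_apply]
  rfl

theorem Y2_sum_c (m : Fin (1 + n) → ℤ) :
    ∑ i, (m i : ℝ) * X.gd.c i =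
      (m (Fin.castAdd n 0) : ℝ) * X.l + inner ℝ X.p (vz fun j => m (Fin.natAdd 1 j)) := by
  rw [Fin.sum_univ_add, Fin.sum_univ_one, Y2_cl, Y2_inner_vz]
  simp only [Y2_cr]

/-! ## Elementary hypotheses -/

theorem Y2_cal (h : X.Ok) : Cal X.gd.b X.gd.F X.gd.B X.gd.c := by
  refine ⟨fun z u hu a b' hab => ?_, fun m x => ?_⟩
  · have h1 := h.gap.cal (base z) (fun s => base (u s)) (adm_base hu) a b' hab
    simp only [← base_traj hu] at h1
    have h2 := intervalIntegral.integral_mono_on hab (Y2_ii h hu a z a b').2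
      ((Y2_ii h hu a z a b').1.sub (Y2_P_ii hu a b')) fun t _ => h.ge (traj a z u t) (u t)
    rw [intervalIntegral.integral_sub (Y2_ii h hu a z a b').1 (Y2_P_ii hu a b'),
      ← Y2_P_traj hu a z b'] at h2
    show X.B (base (traj a z u b')) + X.P (traj a z u b') - (X.B (base z) + X.P z) ≤
      ∫ t in a..b', X.F (traj a z u t) (u t)
    linarith
  · show X.B (base (x + lv X.gd.b m)) + X.P (x + lv X.gd.b m) =
      X.B (base x) + X.P x + ∑ i, (m i : ℝ) * X.gd.c i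
    rw [base_add, Y2_P_add, Y2_lv, X2_base, Y2_sum_c, X2_int h.gap.Bb, Y2_P_add, Y2_P_ib, Y2_P_fb]
    ring

theorem YD.Ok.pre (h : X.Ok) : X.gd.Pre where
  li := by
    have e : X.gd.b = X.β ∘ X2_f n := funext (Y2_b h)
    rw [e]
    exact X.β.linearIndependent.comp _ (X2_f_inj n)
  bβ := fun i => ⟨X2_f n i, Y2_b h i⟩
  fins := h.fins
  cal := Y2_cal h
  Bper := fun v hv => by
    obtain ⟨p, q, m, rfl⟩ := (h.mem_Lam v).1 hv
    refine ⟨p * X.l + q * X.a + inner ℝ X.p (vz m), fun x => ?_⟩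
    show X.B (base (x + _)) + X.P (x + _) = X.B (base x) + X.P x + _
    rw [base_add, X2_base, Y2_B h, Y2_P_add, Y2_P_add, Y2_P_ib, Y2_P_fb]
    ring

/-! ## The height function -/

theorem YD.Ok.Y_cont (h : X.Ok) : Continuous X.Y := h.gap.yc.comp continuous_base

theorem YD.Ok.Y_lv (h : X.Ok) (x : Vec (2 + n)) (m : Fin (1 + n) → ℤ) :
    X.Y (x + lv X.gd.b m) = X.Y x := by
  show X.y (base (x + lv X.gd.b m)) = X.y (base x)
  rw [base_add, Y2_lv, X2_base, X2_int (Y2_yb h), mul_zero, add_zero]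

theorem YD.Ok.Y_g (h : X.Ok) (x : Vec (2 + n)) (k : ℤ) : X.Y (x + (k : ℝ) • X.gd.g) = X.Y x + k := by
  show X.y (base (x + (k : ℝ) • ib n X.gv)) = X.y (base x) + k
  rw [base_add, base_smul, base_ib, X2_int h.gap.yg, mul_one]

/-- the height of a lattice vector -/
theorem YD.Ok.Y_Lam (h : X.Ok) {v : Vec (2 + n)} (hv : v ∈ X.gd.Lam) : ∃ (k : ℤ) (m : Fin (1 + n) → ℤ),
    v = (k : ℝ) • X.gd.g + lv X.gd.b m ∧ ∀ x, X.Y (x + v) = X.Y x + k := by
  obtain ⟨p, q, m, rfl⟩ := (h.mem_Lam v).1 hv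
  refine ⟨q, Fin.addCases (fun _ => p) m, ?_, fun x => ?_⟩
  · rw [Y2_lv]
    simp only [Fin.addCases_left, Fin.addCases_right]
    show ib n ((p : ℝ) • X.bv + (q : ℝ) • X.gv) + fb (vz m) =
      (q : ℝ) • ib n X.gv + (ib n ((p : ℝ) • X.bv) + fb (vz m))
    simp only [ib_add, ib_smul]
    abel
  · show X.y (base (x + (ib n _ + fb (vz m)))) = X.y (base x) + q
    rw [base_add, X2_base, Y2_y h]

theorem Y2_red (X : YD n) : ∃ R : ℝ, 0 ≤ R ∧ ∀ x : Vec (2 + n), ∃ v ∈ X.gd.Lam, ‖x - v‖ ≤ R :=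
  ⟨∑ i, ‖X.β i‖, Finset.sum_nonneg fun _ _ => norm_nonneg _, fun x =>
    ⟨(ZSpan.floor X.β x : Vec (2 + n)), (ZSpan.floor X.β x).2, ZSpan.norm_fract_le X.β x⟩⟩

theorem YD.Ok.Y_uc (h : X.Ok) {ε : ℝ} (hε : 0 < ε) : ∃ δ : ℝ, 0 < δ ∧ ∀ x x' : Vec (2 + n),
    ‖x' - x‖ ≤ δ → |X.Y x' - X.Y x| < ε := by
  obtain ⟨R, hR, hred⟩ := Y2_red X
  have hc : UniformContinuousOn X.Y (Metric.closedBall 0 (R + 1)) :=
    (isCompact_closedBall 0 (R + 1)).uniformContinuousOn_of_continuous h.Y_cont.continuousOn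
  obtain ⟨δ, hδ, hd⟩ := Metric.uniformContinuousOn_iff.1 hc ε hε
  refine ⟨min (δ / 2) 1, lt_min (half_pos hδ) one_pos, fun x x' hx => ?_⟩
  obtain ⟨v, hv, hn⟩ := hred x
  obtain ⟨k, m, -, hY⟩ := h.Y_Lam (X.gd.Lam.neg_mem hv)
  have e1 : X.Y x = X.Y (x - v) - k := by
    rw [sub_eq_add_neg x v, hY x]
    ring
  have e2 : X.Y x' = X.Y (x' - v) - k := by
    rw [sub_eq_add_neg x' v, hY x']
    ring
  rw [e1, e2]
  have hx1 : x - v ∈ Metric.closedBall (0 : Vec (2 + n)) (R + 1) := by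
    rw [mem_closedBall_zero_iff]
    linarith
  have hx2 : x' - v ∈ Metric.closedBall (0 : Vec (2 + n)) (R + 1) := by
    rw [mem_closedBall_zero_iff]
    have e : x' - v = (x' - x) + (x - v) := by abel
    rw [e]
    have h1 : ‖x' - x‖ ≤ 1 := hx.trans (min_le_right _ _)
    exact (norm_add_le _ _).trans (by linarith)
  have h2 : dist (x' - v) (x - v) < δ := by
    rw [dist_eq_norm, sub_sub_sub_cancel_right]
    have h1 : ‖x' - x‖ ≤ δ / 2 := hx.trans (min_le_left _ _)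
    linarith
  have h3 := hd (x' - v) hx2 (x - v) hx1 h2
  rw [Real.dist_eq] at h3
  have e : X.Y (x' - v) - k - (X.Y (x - v) - k) = X.Y (x' - v) - X.Y (x - v) := by ring
  rw [e]
  exact h3

theorem YD.Ok.y_uc (h : X.Ok) {ε : ℝ} (hε : 0 < ε) : ∃ δ : ℝ, 0 < δ ∧ ∀ x x' : Vec 2,
    ‖x' - x‖ ≤ δ → |X.y x' - X.y x| < ε := by
  obtain ⟨δ, hδ, hd⟩ := h.Y_uc hε
  refine ⟨δ, hδ, fun x x' hx => ?_⟩
  have h1 := hd (ib n x) (ib n x') (by rw [← ib_sub, norm_ib]; exact hx)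
  simpa only [YD.Y, base_ib] using h1

/-- bounded heights are bounded modulo the fast lattice -/
theorem YD.Ok.Y_X (h : X.Ok) (C : ℝ) : ∃ ρ : ℝ, ∀ x, |X.Y x| ≤ C → x ∈ X.gd.X ρ := by
  obtain ⟨R, hR, hred⟩ := Y2_red X
  obtain ⟨C0, hC0⟩ := (isCompact_closedBall (0 : Vec (2 + n)) R).exists_bound_of_continuousOn
    h.Y_cont.continuousOn
  refine ⟨R + (C + C0) * ‖X.gd.g‖, fun x hx => ?_⟩
  obtain ⟨v, hv, hn⟩ := hred x
  obtain ⟨k, m, hkm, hY⟩ := h.Y_Lam (X.gd.Lam.neg_mem hv)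
  refine ⟨m, ?_⟩
  have e : x + lv X.gd.b m = (x - v) - (k : ℝ) • X.gd.g := by
    rw [sub_eq_add_neg x v, hkm]
    abel
  have h1 : X.Y (x - v) = X.Y x + k := by
    rw [sub_eq_add_neg]
    exact hY x
  have h2 := hC0 (x - v) (by rw [mem_closedBall_zero_iff]; exact hn)
  rw [Real.norm_eq_abs, abs_le] at h2
  rw [abs_le] at hx
  have hk : |(k : ℝ)| ≤ C + C0 := by
    rw [abs_le]
    constructor
    · linarith [h2.1, hx.2]
    · linarith [h2.2, hx.1]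
  rw [e]
  refine (norm_sub_le _ _).trans (add_le_add hn ?_)
  rw [norm_smul, Real.norm_eq_abs]
  exact mul_le_mul_of_nonneg_right hk (norm_nonneg _)

/-! ## The slow lattice vector and the zone -/

theorem YD.Ok.g_mem (h : X.Ok) : X.gd.g ∈ X.gd.Lam := by
  rw [h.mem_Lam]
  refine ⟨0, 1, 0, ?_⟩
  have e : fb (vz (0 : Fin n → ℤ)) = 0 := by
    have e1 : vz (0 : Fin n → ℤ) = 0 := by
      ext j
      simp [vz]
    rw [e1]
    exact map_zero (X1_fbL n)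
  rw [e, add_zero, Int.cast_zero, Int.cast_one, zero_smul, zero_add, one_smul]
  rfl

theorem YD.Ok.g_not (h : X.Ok) : ¬ X.gd.InJ X.gd.g := by
  rintro ⟨m, hm⟩
  have h1 := h.Y_lv 0 m
  have h2 := h.Y_g 0 1
  rw [← hm] at h1
  rw [Int.cast_one, one_smul, h1] at h2
  linarith

theorem YD.Ok.Z_closed (h : X.Ok) : IsClosed X.gd.Z :=
  (isClosed_le continuous_const h.Y_cont).inter (isClosed_le h.Y_cont continuous_const)

theorem YD.Ok.Z_J (h : X.Ok) (m : Fin (1 + n) → ℤ) (x : Vec (2 + n)) (hx : x ∈ X.gd.Z) :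
    x + lv X.gd.b m ∈ X.gd.Z := by
  show X.τ - 1 ≤ X.Y (x + lv X.gd.b m) ∧ X.Y (x + lv X.gd.b m) ≤ 0
  rw [h.Y_lv]
  exact hx

theorem YD.Ok.Z_cpt (h : X.Ok) : ∃ ρ : ℝ, X.gd.Z ⊆ X.gd.X ρ := by
  obtain ⟨ρ, hρ⟩ := h.Y_X 1
  refine ⟨ρ, fun x hx => hρ x ?_⟩
  have h1 : X.τ - 1 ≤ X.Y x ∧ X.Y x ≤ 0 := hx
  have hτ := h.gap.τ_pos
  rw [abs_le]
  exact ⟨by linarith [h1.1], by linarith [h1.2]⟩

theorem YD.Ok.Z_disj (h : X.Ok) (v : Vec (2 + n)) (hv : v ∈ X.gd.Lam) (hvJ : ¬ X.gd.InJ v)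
    (x : Vec (2 + n)) (hx : x ∈ X.gd.Z) : x + v ∉ X.gd.Z := by
  obtain ⟨k, m, hkm, hY⟩ := h.Y_Lam hv
  intro hx'
  have h1 : X.τ - 1 ≤ X.Y x ∧ X.Y x ≤ 0 := hx
  have h2 : X.τ - 1 ≤ X.Y (x + v) ∧ X.Y (x + v) ≤ 0 := hx'
  rw [hY] at h2
  have hτ := h.gap.τ_pos
  have k1 : (k : ℝ) < 1 := by linarith [h1.1, h2.2]
  have k2 : (-1 : ℝ) < k := by linarith [h1.2, h2.1]
  have k0 : k = 0 := by
    have a1 : k < 1 := by exact_mod_cast k1
    have a2 : -1 < k := by exact_mod_cast k2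
    omega
  refine hvJ ⟨m, ?_⟩
  rw [hkm, k0, Int.cast_zero, zero_smul, zero_add]

theorem YD.Ok.Y_q0 (h : X.Ok) : X.Y X.gd.q0 = 0 := by
  have h1 : X.c0 0 ∈ {x | X.y x = 0} := by
    rw [h.gap.y0]
    exact mem_range_self 0
  show X.y (base (ib n (X.c0 0))) = 0
  rw [base_ib]
  exact h1

theorem YD.Ok.Y_q1 (h : X.Ok) : X.Y X.gd.q1 = X.τ - 1 := by
  have h1 : X.c1 0 ∈ {x | X.y x = X.τ} := by
    rw [h.gap.y1]
    exact mem_range_self 0
  have h2 : X.y (X.c1 0) = X.τ := h1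
  have h3 := h.gap.yg (X.c1 0 - X.gv)
  rw [sub_add_cancel, h2] at h3
  show X.y (base (ib n (X.c1 0) - ib n X.gv)) = X.τ - 1
  rw [base_sub, base_ib, base_ib]
  linarith

/-- frontier of the zone -/
theorem YD.Ok.frontier_Z (h : X.Ok) {z : Vec (2 + n)} (hz : z ∈ frontier X.gd.Z) :
    X.Y z = 0 ∨ X.Y z = X.τ - 1 := by
  have e : X.gd.Z = X.Y ⁻¹' Icc (X.τ - 1) 0 := rfl
  rw [e] at hz
  have h1 := h.Y_cont.frontier_preimage_subset _ hz
  have h2 : X.τ - 1 ≤ 0 := by linarith [h.gap.τ_le]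
  rw [mem_preimage, frontier_Icc h2] at h1
  rcases h1 with h1 | h1
  · exact Or.inr h1
  · exact Or.inl h1

end EscG.X
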