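import Pool.Agent.EscV.Y2
import Pool.Agent.EscG.X3
import Pool.Agent.EscK.Len

set_option autoImplicit false

/-!
# Project EscV, module Y3: the anchors, with momentum (after `Pool.Agent.EscG.X3`)

Generic lemmas of X3 (`X3_ib`, `X3_fb`, `X3_fb_zero`, `X3_anch_per`, `X3_red`) are reused. Instead of energies on `[0,1]` use lengths:
`Y3_seg`: `κ r = om (c r) (v r)` (continuous, bounded on `[s, s+T]`: clamp as in X3), `ξ = w' - w - ∫ r in s..s+T, κ r`, path on `[s, s+T]` with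
velocity `u r = ib (v r) + fb (κ r + (1/T) • ξ)` (for `Adm` clamp `κ` to `[s, s+T]`), from `ib (c s) + fb w` to `ib (c (s+T)) + fb w'`.
`fd_le_len` (EscK.Len): `fd ≤ ∫ F(traj)(u)`. `F - P ≤ √(1 + Cf ‖ξ/T‖²) ≤ 1 + |Cf| ‖ξ‖²/(2 T²)` (`h.le`, `F2 (c r) (v r) = 1`), `∫ P(u) = ⟪p, w' - w⟫` (`Y2_P_traj`,
`Y2_P_ib`, `Y2_P_fb`).
`Y3_loop`: as `X3_loop` (`Y3_turn` as `X3_turn`), with `I = ∫ r in s..(t + N l), om (c r) (v r)`.
`drift` as in X3. `Y3_anc` (new, because the length of `N` turns is now `N l + ⟪p, vz m_N⟫` up to `ε`, where `m_N` depends on `N`):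
for `ε` let `N0` be such that `Y3_loop` applies for `N ≥ N0` (with `s = t = 0`, `w = w' = 0`); `D N := B-difference of the loop m'_N`, so
`D N ≤ fd_N ≤ D N + ε` (`h.pre.B_le_fd`), `D N = N l + ⟪p, vz m_N⟫`, `‖vz m_N - I_N‖ ≤ √n` with `I_N = ∫ r in 0..N l, om (c r) (v r)`.
(i) `D (N+1) ≤ D N + C1` because `‖I_(N+1) - I_N‖ ≤ (2 / mF) l` (`Y3_om_le`, no periodicity of `om` needed),
(ii) `D N ≥ fd_N - ε ≥ mF N ‖bv‖ - ε → ∞` (`le_fd`, `norm_base_le`; `bv ≠ 0` because `h.β0` and `β` is a basis).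
For `T ≥ 0` take the least `N ≥ N0` with `T ≤ D N`: `D N ≤ max (D N0) (T + C1)`.
`Y3_om_le`: for `x = ib (c t)`, `u = ib (v t) + fb (om (c t) (v t))`: `h.le` gives `(F x u - P u)² ≤ F2² = 1`, so `F x u - P u ≤ 1`, and `h.half` gives
`sg F x u ≤ F x u - P u ≤ 1`, so `mF ‖om (c t) (v t)‖ ≤ mF ‖u‖ ≤ F x u ≤ 1 / sg` (`norm_fib_le`).
-/

noncomputable section

namespace EscG.X

open MeasureTheory Set Filter Topology Esc EscF EscF.T EscG.T
open scoped ContDiff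

variable {n : ℕ} {X : YD n}

/-- the horizontal velocity of the anchor is bounded -/
theorem Y3_om_le (h : X.Ok) {c : ℝ → Vec 2} {v : ℝ → Vec 2} (hd : ∀ t, X.F2 (c t) (v t) = 1) (t : ℝ) :
    ‖X.om (c t) (v t)‖ ≤ 1 / (X.sg * X.mF) := by
  have hm := h.fins.mF_pos
  obtain ⟨x, hx⟩ : ∃ x, x = ib n (c t) := ⟨_, rfl⟩
  obtain ⟨u, hu⟩ : ∃ u, u = ib n (v t) + fb (X.om (c t) (v t)) := ⟨_, rfl⟩
  have e1 : base x = c t := by rw [hx, base_ib]
  have e2 : base u = v t := by rw [hu, base_add, base_ib, base_fb, add_zero]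
  have e3 : fib u = X.om (c t) (v t) := by rw [hu, fib_add, fib_ib, fib_fb, zero_add]
  have h1 := h.le x u
  rw [e1, e2, e3, hd t, sub_self, norm_zero] at h1
  have h2 := h.half x u
  have h3 : X.F x u - X.P u ≤ 1 := by nlinarith
  have h4 := h.fins.low x u
  have h5 : ‖X.om (c t) (v t)‖ ≤ ‖u‖ := by rw [← e3]; exact norm_fib_le u
  have hs := h.sg_pos
  rw [le_div_iff₀ (mul_pos hs hm)]
  have h6 : X.mF * ‖X.om (c t) (v t)‖ ≤ X.mF * ‖u‖ := mul_le_mul_of_nonneg_left h5 hm.le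
  have h7 : X.sg * (X.mF * ‖X.om (c t) (v t)‖) ≤ X.sg * X.F x u :=
    mul_le_mul_of_nonneg_left (h6.trans h4) hs.le
  linarith

/-- fast path over the anchor curve -/
theorem Y3_seg (h : X.Ok) {c v : ℝ → Vec 2} (hv : Continuous v)
    (hd : ∀ t, HasDerivAt c (v t) t ∧ X.F2 (c t) (v t) = 1) (s : ℝ) {T : ℝ} (hT : 0 < T) (w w' : Vec n) :
    fd X.F (ib n (c s) + fb w) (ib n (c (s + T)) + fb w') ≤ T +
      |X.Cf| / (2 * T) * ‖w' - w - ∫ r in s..(s + T), X.om (c r) (v r)‖ ^ 2 + inner ℝ X.p (w' - w) := by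
  have hm := h.fins.mF_pos
  have hcc : Continuous c := continuous_iff_continuousAt.2 fun t => (hd t).1.continuousAt
  obtain ⟨κ, hκ⟩ : ∃ κ : ℝ → Vec n, κ = fun r => X.om (c r) (v r) := ⟨_, rfl⟩
  have hκc : Continuous κ := by
    rw [hκ]
    exact h.omc.comp (hcc.prodMk hv)
  have hκb : ∀ r, ‖κ r‖ ≤ 1 / (X.sg * X.mF) := fun r => by
    rw [hκ]
    exact Y3_om_le h (fun t => (hd t).2) r
  have eκ : (∫ r in s..(s + T), X.om (c r) (v r)) = ∫ r in s..(s + T), κ r := by rw [hκ]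
  rw [eκ]
  obtain ⟨ξ, hξ⟩ : ∃ ξ, ξ = w' - w - ∫ r in s..(s + T), κ r := ⟨_, rfl⟩
  rw [← hξ]
  obtain ⟨u, hu⟩ : ∃ u : ℝ → Vec (2 + n), u = fun r => ib n (v r) + fb (κ r + (1 / T) • ξ) :=
    ⟨_, rfl⟩
  have hvb : ∀ t, ‖v t‖ ≤ 1 / X.m2 := fun t => by
    rw [le_div_iff₀ h.m2_pos, mul_comm]
    exact (h.low2 (c t) (v t)).trans_eq (hd t).2
  have huc : Continuous u := by
    rw [hu]
    exact (continuous_ib.comp hv).add (continuous_fb.comp (hκc.add continuous_const))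
  have hadm : Adm u := by
    refine ⟨huc.stronglyMeasurable, 1 / X.m2 + (1 / (X.sg * X.mF) + ‖(1 / T) • ξ‖), fun t => ?_⟩
    rw [hu]
    refine (norm_add_le _ _).trans (add_le_add ?_ ?_)
    · rw [norm_ib]
      exact hvb t
    · rw [norm_fb]
      exact (norm_add_le _ _).trans (add_le_add (hκb t) le_rfl)
  obtain ⟨J, hJ⟩ : ∃ J : ℝ → Vec n, J = fun σ => ∫ r in s..σ, κ r := ⟨_, rfl⟩
  have hJd : ∀ σ, HasDerivAt J (κ σ) σ := fun σ => by
    rw [hJ]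
    exact intervalIntegral.integral_hasDerivAt_right (hκc.intervalIntegrable _ _)
      hκc.aestronglyMeasurable.stronglyMeasurableAtFilter hκc.continuousAt
  obtain ⟨Q, hQ⟩ : ∃ Q : ℝ → Vec (2 + n), Q = fun σ => ib n (c σ) + fb (J σ + (σ - s) • ((1 / T) • ξ)) :=
    ⟨_, rfl⟩
  have hQd : ∀ σ, HasDerivAt Q (u σ) σ := fun σ => by
    have h3 := (X3_ib n).hasFDerivAt.comp_hasDerivAt σ (hd σ).1
    have h4 : HasDerivAt (fun σ : ℝ => (σ - s) • ((1 / T) • ξ)) ((1 : ℝ) • ((1 / T) • ξ)) σ :=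
      ((hasDerivAt_id σ).sub_const s).smul_const _
    rw [one_smul] at h4
    have h5 := (X3_fb n).hasFDerivAt.comp_hasDerivAt σ ((hJd σ).add h4)
    have h6 := h3.add h5
    rw [X3_ib_apply, X3_fb_apply] at h6
    rw [hQ, hu]
    exact h6
  obtain ⟨z, hz⟩ : ∃ z, z = ib n (c s) + fb w := ⟨_, rfl⟩
  have htr : ∀ σ, traj s z u σ = ib n (c σ) + fb (w + J σ + (σ - s) • ((1 / T) • ξ)) := fun σ => by
    have h1 : (∫ r in s..σ, u r) = Q σ - Q s :=
      intervalIntegral.integral_eq_sub_of_hasDerivAt (fun r _ => hQd r) (huc.intervalIntegrable _ _)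
    have h2 : J s = 0 := by rw [hJ]; exact intervalIntegral.integral_same
    unfold traj
    rw [h1, hQ, hz]
    simp only [sub_self, add_zero, zero_smul, h2, X3_fb_zero]
    rw [add_assoc w, fb_add w]
    abel
  have hend : traj s z u (s + T) = ib n (c (s + T)) + fb w' := by
    have h1 : w + J (s + T) + ξ = w' := by rw [hJ, hξ]; abel
    rw [htr, add_sub_cancel_left, smul_smul, mul_one_div_cancel hT.ne', one_smul, h1]
  have h1 := EscK.fd_le_len h.fins hadm (le_add_of_nonneg_right hT.le : s ≤ s + T) z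
  rw [hend] at h1
  have hP1 := Y2_P_traj (X := X) hadm s z (s + T)
  have hP2 : X.P (traj s z u (s + T)) - X.P z = inner ℝ X.p (w' - w) := by
    rw [hend, hz, ← Y2_P_sub, ← Y2_P_fb]
    have e : ib n (c (s + T)) + fb w' - (ib n (c s) + fb w) =
        ib n (c (s + T) - c s) + fb (w' - w) := by
      rw [ib_sub, fb_sub]
      abel
    rw [e, Y2_P_add, Y2_P_ib, zero_add]
  have h2 : (∫ r in s..(s + T), X.F (traj s z u r) (u r)) ≤
      ∫ r in s..(s + T), (X.P (u r) + (1 + |X.Cf| / (2 * T ^ 2) * ‖ξ‖ ^ 2)) := by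
    refine intervalIntegral.integral_mono_on (le_add_of_nonneg_right hT.le) (Y2_ii h hadm s z s (s + T)).1
      ((Y2_P_ii hadm s (s + T)).add intervalIntegrable_const) fun r _ => ?_
    have h3 := h.le (traj s z u r) (u r)
    have h4 : base (traj s z u r) = c r := by
      rw [htr, base_add, base_ib, base_fb, add_zero]
    have h5 : base (u r) = v r := by
      rw [hu]
      simp only
      rw [base_add, base_ib, base_fb, add_zero]
    have h6 : fib (u r) = κ r + (1 / T) • ξ := by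
      rw [hu]
      simp only
      rw [fib_add, fib_ib, fib_fb, zero_add]
    have h7 : X.om (c r) (v r) = κ r := by rw [hκ]
    rw [h4, h5, h6, h7, (hd _).2, add_sub_cancel_left, norm_smul, Real.norm_of_nonneg
      (by positivity : (0:ℝ) ≤ 1 / T)] at h3
    have hq : 0 ≤ |X.Cf| / (2 * T ^ 2) * ‖ξ‖ ^ 2 := by positivity
    have h8 : X.Cf * (1 / T * ‖ξ‖) ^ 2 ≤ 2 * (|X.Cf| / (2 * T ^ 2) * ‖ξ‖ ^ 2) := by
      have e : 2 * (|X.Cf| / (2 * T ^ 2) * ‖ξ‖ ^ 2) = |X.Cf| * (1 / T * ‖ξ‖) ^ 2 := by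
        field_simp
      rw [e]
      exact mul_le_mul_of_nonneg_right (le_abs_self _) (sq_nonneg _)
    have h9 : X.F (traj s z u r) (u r) - X.P (u r) ≤ 1 + |X.Cf| / (2 * T ^ 2) * ‖ξ‖ ^ 2 := by
      refine le_of_sq_le_sq ?_ (by linarith)
      nlinarith [sq_nonneg (|X.Cf| / (2 * T ^ 2) * ‖ξ‖ ^ 2)]
    linarith
  rw [intervalIntegral.integral_add (Y2_P_ii hadm s (s + T)) intervalIntegrable_const,
    intervalIntegral.integral_const, add_sub_cancel_left, smul_eq_mul, ← hP1, hP2] at h2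
  rw [← hz]
  have e : T * (1 + |X.Cf| / (2 * T ^ 2) * ‖ξ‖ ^ 2) = T + |X.Cf| / (2 * T) * ‖ξ‖ ^ 2 := by
    field_simp
  rw [e] at h2
  linarith

/-- turns and fibre lattice vectors as fast lattice vectors -/
theorem Y3_turn (N : ℕ) (m : Fin n → ℤ) : ∃ m' : Fin (1 + n) → ℤ,
    lv X.gd.b m' = ib n ((N : ℝ) • X.bv) + fb (vz m) := by
  have h1 : X.gd.InJ (ib n ((N : ℝ) • X.bv) + fb (vz m)) := by
    rw [Y2_InJ]
    exact ⟨N, m, by rw [Int.cast_natCast]⟩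
  obtain ⟨m', hm⟩ := h1
  exact ⟨m', hm.symm⟩

/-- `N` turns with small excess -/
theorem Y3_loop (h : X.Ok) {c : ℝ → Vec 2} (hc : Anch X.F2 X.bv X.B X.l c) {v : ℝ → Vec 2}
    (hv : Continuous v) (hd : ∀ t, HasDerivAt c (v t) t ∧ X.F2 (c t) (v t) = 1) (s t : ℝ) (w w' : Vec n)
    {ε : ℝ} (hε : 0 < ε) {N : ℕ} (hN : |X.Cf| * n / (2 * ε) + 1 ≤ t - s + N * X.l) :
    ∃ (m' : Fin (1 + n) → ℤ) (m : Fin n → ℤ),
      lv X.gd.b m' = ib n ((N : ℝ) • X.bv) + fb (vz m) ∧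
      fd X.F (ib n (c s) + fb w) (ib n (c t) + fb w' + lv X.gd.b m') ≤
        t - s + N * X.l + inner ℝ X.p (w' + vz m - w) + ε ∧
      X.gd.B (ib n (c t) + fb w' + lv X.gd.b m') - X.gd.B (ib n (c s) + fb w) =
        t - s + N * X.l + inner ℝ X.p (w' + vz m - w) ∧
      ‖w' + vz m - w - ∫ r in s..(t + N * X.l), X.om (c r) (v r)‖ ^ 2 ≤ n := by
  obtain ⟨T, hT⟩ : ∃ T, T = t - s + N * X.l := ⟨_, rfl⟩
  rw [← hT] at hN ⊢
  obtain ⟨C, hC⟩ : ∃ C, C = |X.Cf| * n := ⟨_, rfl⟩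
  rw [← hC] at hN
  have hC0 : 0 ≤ C := by rw [hC]; positivity
  have hq : 0 ≤ C / (2 * ε) := by positivity
  have hT0 : 0 < T := by linarith
  have e1 : s + T = t + N * X.l := by rw [hT]; ring
  obtain ⟨I, hI⟩ : ∃ I, I = ∫ r in s..(t + N * X.l), X.om (c r) (v r) := ⟨_, rfl⟩
  rw [← hI]
  obtain ⟨m, hm⟩ := X3_red (w' - w - I)
  obtain ⟨m', hm'⟩ := Y3_turn (X := X) N m
  have e2 : ib n (c t) + fb w' + lv X.gd.b m' = ib n (c (s + T)) + fb (w' + vz m) := by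
    rw [hm', e1, X3_anch_per hc, ib_add, fb_add]
    abel
  have e3 : w' + vz m - w - I = w' - w - I + vz m := by abel
  refine ⟨m', m, hm', ?_, ?_, ?_⟩
  · rw [e2]
    have h3 := Y3_seg h hv hd s hT0 w (w' + vz m)
    rw [e1, ← hI, e3, ← e1] at h3
    have h4 : |X.Cf| / (2 * T) * ‖w' - w - I + vz m‖ ^ 2 ≤ ε := by
      have h5 : |X.Cf| / (2 * T) * ‖w' - w - I + vz m‖ ^ 2 ≤ |X.Cf| / (2 * T) * n :=
        mul_le_mul_of_nonneg_left hm (by positivity)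
      have h6 : |X.Cf| / (2 * T) * n = C / (2 * T) := by rw [hC]; ring
      have h7 : C / (2 * T) ≤ ε := by
        rw [div_le_iff₀ (by positivity)]
        have : C = C / (2 * ε) * (2 * ε) := by field_simp
        rw [this]
        nlinarith
      linarith
    linarith
  · rw [e2]
    show X.B (base (ib n (c (s + T)) + fb (w' + vz m))) + X.P (ib n (c (s + T)) + fb (w' + vz m)) -
      (X.B (base (ib n (c s) + fb w)) + X.P (ib n (c s) + fb w)) = T + inner ℝ X.p (w' + vz m - w)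
    rw [base_add, base_add, base_ib, base_ib, base_fb, base_fb, add_zero, add_zero, Y2_P_add, Y2_P_add,
      Y2_P_ib, Y2_P_ib, Y2_P_fb, Y2_P_fb, inner_sub_right]
    have h1 := hc.Bc s (s + T)
    linarith
  · rw [e3]
    exact hm

/-- drift along an anchor curve and along the fibre has no cost -/
theorem YD.Ok.drift (h : X.Ok) {c : ℝ → Vec 2} (hc : Anch X.F2 X.bv X.B X.l c) (s t : ℝ) (w w' : Vec n) :
    X.gd.j (ib n (c s) + fb w) (ib n (c t) + fb w') = 0 := by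
  refine le_antisymm (le_of_forall_pos_le_add fun ε hε => ?_) (h.pre.j_nonneg _ _)
  rw [zero_add]
  have hl := h.gap.l_pos
  obtain ⟨v, hv, hd⟩ := hc.der
  obtain ⟨N, hN⟩ := exists_nat_ge ((|X.Cf| * n / (2 * ε) + 1 - (t - s)) / X.l)
  rw [div_le_iff₀ hl] at hN
  obtain ⟨m', m, -, h2, h3, -⟩ := Y3_loop h hc hv hd s t w w' hε (N := N) (by linarith)
  have h1 := h.pre.j_le (ib n (c s) + fb w) (ib n (c t) + fb w') m'
  have h7 : X.gd.F = X.F := rfl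
  rw [h7, h3] at h1
  linarith

theorem Y3_bv_ne (h : X.Ok) : X.bv ≠ 0 := by
  intro h0
  have h1 := X.β.ne_zero (Fin.castAdd n 0)
  rw [h.β0, h0] at h1
  exact h1 ((X3_ib n).map_zero)

theorem Y3_anc (h : X.Ok) {c : ℝ → Vec 2} (hc : Anch X.F2 X.bv X.B X.l c) :
    X.gd.Anc (ib n (c 0) + fb 0) := by
  intro ε hε
  have hl := h.gap.l_pos
  have hm := h.fins.mF_pos
  obtain ⟨v, hv, hd⟩ := hc.der
  have hcc : Continuous c := continuous_iff_continuousAt.2 fun t => (hd t).1.continuousAt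
  obtain ⟨κ, hκ⟩ : ∃ κ : ℝ → Vec n, κ = fun r => X.om (c r) (v r) := ⟨_, rfl⟩
  have hκc : Continuous κ := by
    rw [hκ]
    exact h.omc.comp (hcc.prodMk hv)
  have hκb : ∀ r, ‖κ r‖ ≤ 1 / (X.sg * X.mF) := fun r => by
    rw [hκ]
    exact Y3_om_le h (fun t => (hd t).2) r
  obtain ⟨N0, hN0⟩ := exists_nat_ge ((|X.Cf| * n / (2 * ε) + 1) / X.l)
  rw [div_le_iff₀ hl] at hN0
  have key : ∀ k : ℕ, ∃ (m' : Fin (1 + n) → ℤ) (m : Fin n → ℤ),
      lv X.gd.b m' = ib n (((N0 + k : ℕ) : ℝ) • X.bv) + fb (vz m) ∧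
      fd X.F (ib n (c 0) + fb 0) (ib n (c 0) + fb 0 + lv X.gd.b m') ≤
        ((N0 + k : ℕ) : ℝ) * X.l + inner ℝ X.p (vz m) + ε ∧
      X.gd.B (ib n (c 0) + fb 0 + lv X.gd.b m') - X.gd.B (ib n (c 0) + fb 0) =
        ((N0 + k : ℕ) : ℝ) * X.l + inner ℝ X.p (vz m) ∧
      ‖vz m - ∫ r in (0:ℝ)..(((N0 + k : ℕ) : ℝ) * X.l), κ r‖ ^ 2 ≤ n := by
    intro k
    have hk : (0 : ℝ) ≤ k * X.l := by positivity
    obtain ⟨m', m, h1, h2, h3, h4⟩ := Y3_loop h hc hv hd 0 0 (0 : Vec n) 0 hε (N := N0 + k) (by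
      push_cast
      linarith)
    refine ⟨m', m, h1, ?_, ?_, ?_⟩
    · rw [sub_self, zero_add, zero_add, sub_zero] at h2
      exact h2
    · rw [sub_self, zero_add, zero_add, sub_zero] at h3
      exact h3
    · rw [zero_add, zero_add, sub_zero] at h4
      rw [hκ]
      exact h4
  choose m' m k1 k2 k3 k4 using key
  obtain ⟨D, hD⟩ : ∃ D : ℕ → ℝ, D = fun k => ((N0 + k : ℕ) : ℝ) * X.l + inner ℝ X.p (vz (m k)) :=
    ⟨_, rfl⟩
  obtain ⟨f, hf⟩ : ∃ f : ℕ → ℝ, f = fun k =>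
      fd X.F (ib n (c 0) + fb 0) (ib n (c 0) + fb 0 + lv X.gd.b (m' k)) := ⟨_, rfl⟩
  have hDf : ∀ k, D k ≤ f k := fun k => by
    have h5 := h.pre.B_le_fd (ib n (c 0) + fb 0) (ib n (c 0) + fb 0 + lv X.gd.b (m' k))
    rw [k3 k] at h5
    rw [hD, hf]
    exact h5
  have hfD : ∀ k, f k ≤ D k + ε := fun k => by
    rw [hD, hf]
    exact k2 k
  -- increments
  have hsq : ∀ x : Vec n, ‖x‖ ^ 2 ≤ n → ‖x‖ ≤ Real.sqrt n := fun x hx => Real.le_sqrt_of_sq_le hx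
  obtain ⟨C1, hC1⟩ : ∃ C1, C1 = X.l + ‖X.p‖ * (2 * Real.sqrt n + 1 / (X.sg * X.mF) * X.l) := ⟨_, rfl⟩
  have hsgp := h.sg_pos
  have hC10 : 0 ≤ C1 := by rw [hC1]; positivity
  have hinc : ∀ k, D (k + 1) ≤ D k + C1 := fun k => by
    obtain ⟨a, ha⟩ : ∃ a, a = ((N0 + k : ℕ) : ℝ) * X.l := ⟨_, rfl⟩
    have ha' : ((N0 + (k + 1) : ℕ) : ℝ) * X.l = a + X.l := by
      rw [ha]
      push_cast
      ring
    have h1 := hsq _ (k4 k)
    have h2 := hsq _ (k4 (k + 1))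
    rw [← ha] at h1
    rw [ha'] at h2
    have h3 : (∫ r in (0:ℝ)..(a + X.l), κ r) - (∫ r in (0:ℝ)..a, κ r) = ∫ r in a..(a + X.l), κ r :=
      intervalIntegral.integral_interval_sub_left (hκc.intervalIntegrable _ _)
        (hκc.intervalIntegrable _ _)
    have h4 : ‖∫ r in a..(a + X.l), κ r‖ ≤ 1 / (X.sg * X.mF) * X.l := by
      have h5 := intervalIntegral.norm_integral_le_of_norm_le_const (a := a) (b := a + X.l)
        (f := κ) (C := 1 / (X.sg * X.mF)) fun r _ => hκb r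
      rwa [add_sub_cancel_left, abs_of_pos hl] at h5
    have h6 : ‖vz (m (k + 1)) - vz (m k)‖ ≤ 2 * Real.sqrt n + 1 / (X.sg * X.mF) * X.l := by
      have e : vz (m (k + 1)) - vz (m k) = (vz (m (k + 1)) - ∫ r in (0:ℝ)..(a + X.l), κ r) -
          (vz (m k) - ∫ r in (0:ℝ)..a, κ r) + ∫ r in a..(a + X.l), κ r := by
        rw [← h3]
        abel
      rw [e]
      refine (norm_add_le _ _).trans ?_
      have h7 := norm_sub_le (vz (m (k + 1)) - ∫ r in (0:ℝ)..(a + X.l), κ r)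
        (vz (m k) - ∫ r in (0:ℝ)..a, κ r)
      linarith
    have h8 : D (k + 1) - D k = X.l + inner ℝ X.p (vz (m (k + 1)) - vz (m k)) := by
      rw [hD]
      simp only
      rw [ha', ← ha, inner_sub_right]
      ring
    have h9 : inner ℝ X.p (vz (m (k + 1)) - vz (m k)) ≤
        ‖X.p‖ * (2 * Real.sqrt n + 1 / (X.sg * X.mF) * X.l) :=
      (real_inner_le_norm _ _).trans (mul_le_mul_of_nonneg_left h6 (norm_nonneg _))
    rw [hC1]
    linarith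
  -- the lengths tend to infinity
  have hbv : 0 < ‖X.bv‖ := norm_pos_iff.2 (Y3_bv_ne h)
  have hinf : ∀ T : ℝ, ∃ k, T ≤ D k := fun T => by
    obtain ⟨k, hk⟩ := exists_nat_ge ((T + ε) / (X.mF * ‖X.bv‖))
    rw [div_le_iff₀ (by positivity)] at hk
    refine ⟨k, ?_⟩
    have h1 := le_fd h.fins (ib n (c 0) + fb 0) (ib n (c 0) + fb 0 + lv X.gd.b (m' k))
    rw [add_sub_cancel_left] at h1
    have h2 : ((N0 + k : ℕ) : ℝ) * ‖X.bv‖ ≤ ‖lv X.gd.b (m' k)‖ := by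
      have h3 := norm_base_le (lv X.gd.b (m' k))
      rw [k1 k, base_add, base_ib, base_fb, add_zero, norm_smul, Real.norm_natCast, ← k1 k] at h3
      exact h3
    have h4 : (k : ℝ) ≤ ((N0 + k : ℕ) : ℝ) := by
      push_cast
      linarith [Nat.cast_nonneg (α := ℝ) N0]
    have h5 : (k : ℝ) * (X.mF * ‖X.bv‖) ≤ X.mF * ‖lv X.gd.b (m' k)‖ := by
      have h6 : (k : ℝ) * ‖X.bv‖ ≤ ‖lv X.gd.b (m' k)‖ :=
        (mul_le_mul_of_nonneg_right h4 hbv.le).trans h2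
      calc (k : ℝ) * (X.mF * ‖X.bv‖) = X.mF * ((k : ℝ) * ‖X.bv‖) := by ring
        _ ≤ _ := mul_le_mul_of_nonneg_left h6 hm.le
    have h7 := hfD k
    rw [hf] at h7
    simp only at h7
    linarith
  refine ⟨|D 0| + C1 + ε, fun T hT => ?_⟩
  classical
  obtain ⟨k, hk1, hk2⟩ : ∃ k, T ≤ D k ∧ D k ≤ T + (|D 0| + C1) := by
    have hex := hinf T
    refine ⟨Nat.find hex, Nat.find_spec hex, ?_⟩
    rcases Nat.eq_zero_or_pos (Nat.find hex) with h0 | h0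
    · rw [h0]
      have := le_abs_self (D 0)
      linarith
    · obtain ⟨j, hj⟩ := Nat.exists_eq_succ_of_ne_zero h0.ne'
      have h1 : ¬ T ≤ D j := Nat.find_min hex (by omega)
      rw [hj]
      have h2 := hinc j
      have h3 := abs_nonneg (D 0)
      rw [not_le] at h1
      show D (j + 1) ≤ _
      linarith
  refine ⟨m' k, ?_⟩
  have h1 := hDf k
  have h2 := hfD k
  have h3 := k3 k
  have h7 : X.gd.F = X.F := rfl
  have e1 : fd X.gd.F (ib n (c 0) + fb 0) (ib n (c 0) + fb 0 + lv X.gd.b (m' k)) = f k := by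
    rw [hf, h7]
  have e2 : X.gd.B (ib n (c 0) + fb 0 + lv X.gd.b (m' k)) - X.gd.B (ib n (c 0) + fb 0) = D k := by
    rw [h3, hD]
  rw [e1, e2]
  exact ⟨by linarith, by linarith, by linarith⟩

theorem Y3_anch1 (h : X.Ok) : Anch X.F2 X.bv X.B X.l (fun t => X.c1 t - X.gv) := by
  have h1 := h.gap.an1
  refine ⟨fun t => ?_, ?_, fun s t => ?_⟩
  · show X.c1 (t + X.l) - X.gv = X.c1 t - X.gv + X.bv
    rw [h1.per]
    abel
  · obtain ⟨v, hv, hd⟩ := h1.der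
    refine ⟨v, hv, fun t => ⟨(hd t).1.sub_const _, ?_⟩⟩
    have h2 := h.perg (X.c1 t - X.gv) (v t)
    rw [sub_add_cancel] at h2
    rw [← h2]
    exact (hd t).2
  · have h2 := h.gap.Bg (X.c1 t - X.gv)
    have h3 := h.gap.Bg (X.c1 s - X.gv)
    rw [sub_add_cancel] at h2 h3
    have h4 := h1.Bc s t
    show X.B (X.c1 t - X.gv) - X.B (X.c1 s - X.gv) = t - s
    linarith

theorem Y3_q0 : X.gd.q0 = ib n (X.c0 0) + fb 0 := by
  rw [X3_fb_zero, add_zero]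
  rfl

theorem Y3_q1 : X.gd.q1 = ib n (X.c1 0 - X.gv) + fb 0 := by
  rw [X3_fb_zero, add_zero, ib_sub]
  rfl

theorem YD.Ok.anc0 (h : X.Ok) : X.gd.Anc X.gd.q0 := by
  rw [Y3_q0]
  exact Y3_anc h h.gap.an0

theorem YD.Ok.anc1 (h : X.Ok) : X.gd.Anc X.gd.q1 := by
  have h1 := Y3_anc h (Y3_anch1 h)
  rw [Y3_q1]
  exact h1

theorem YD.Ok.zero0 (h : X.Ok) {x : Vec (2 + n)} (hx : X.Y x = 0) :
    X.gd.j x X.gd.q0 = 0 ∧ X.gd.j X.gd.q0 x = 0 := by
  have h1 : base x ∈ range X.c0 := by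
    rw [← h.gap.y0]
    exact hx
  obtain ⟨t, ht⟩ := h1
  have h2 : x = ib n (X.c0 t) + fb (fib x) := by
    rw [ht, ib_base_add]
  obtain ⟨ξ, hξ⟩ : ∃ ξ, ξ = fib x := ⟨_, rfl⟩
  rw [← hξ] at h2
  have h3 := h.drift h.gap.an0 t 0 ξ 0
  have h4 := h.drift h.gap.an0 0 t 0 ξ
  rw [Y3_q0, h2]
  exact ⟨h3, h4⟩

theorem YD.Ok.zero1 (h : X.Ok) {x : Vec (2 + n)} (hx : X.Y x = X.τ - 1) :
    X.gd.j x X.gd.q1 = 0 ∧ X.gd.j X.gd.q1 x = 0 := by
  have h0 : X.y (base x) = X.τ - 1 := hx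
  have h1 : base x + X.gv ∈ range X.c1 := by
    rw [← h.gap.y1]
    show X.y (base x + X.gv) = X.τ
    rw [h.gap.yg, h0]
    ring
  obtain ⟨t, ht⟩ := h1
  have h2 : x = ib n (X.c1 t - X.gv) + fb (fib x) := by
    rw [ht, add_sub_cancel_right, ib_base_add]
  obtain ⟨ξ, hξ⟩ : ∃ ξ, ξ = fib x := ⟨_, rfl⟩
  rw [← hξ] at h2
  have h3 := h.drift (Y3_anch1 h) t 0 ξ 0
  have h4 := h.drift (Y3_anch1 h) 0 t 0 ξ
  rw [Y3_q1, h2]
  exact ⟨h3, h4⟩

end EscG.X
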