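import Pool.Agent.EscG.X4
import Pool.Agent.EscV.Y2
import Pool.Agent.EscV.Y3
import Pool.Agent.EscG.C2

/-!
Project EscV, module Y4: passing of the levels of the anchors, with momentum (after `Pool.Agent.EscG.X4`).
-/

noncomputable section

namespace EscG.X

open MeasureTheory Set Filter Topology Esc EscF EscF.T EscG.T
open scoped ContDiff

variable {n : ℕ} {X : YD n}

theorem Y4_kg (h : X.Ok) (k : ℤ) : (k : ℝ) • X.gd.g ∈ X.gd.Lam := by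
  rw [Int.cast_smul_eq_zsmul]
  exact AddSubgroup.zsmul_mem _ h.g_mem k

theorem Y4_Y (h : X.Ok) (k : ℤ) (z : Vec (2 + n)) : X.Y (z - (k : ℝ) • X.gd.g) = X.Y z - k := by
  have h1 := h.Y_g (z - (k : ℝ) • X.gd.g) k
  rw [sub_add_cancel] at h1
  linarith

theorem YD.Ok.pass0 (h : X.Ok) (k : ℤ) {x x' : Vec (2 + n)}
    (hx : (X.Y x ≤ k ∧ k ≤ X.Y x') ∨ (X.Y x' ≤ k ∧ k ≤ X.Y x)) :
    X.gd.j x x' = X.gd.j x (X.gd.q0 + (k : ℝ) • X.gd.g) + X.gd.j (X.gd.q0 + (k : ℝ) • X.gd.g) x' := by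
  refine X4_pass h.pre h.Y_cont h.Y_lv (κ := k) (fun z hz => ?_) hx
  have h1 : X.Y (z - (k : ℝ) • X.gd.g) = 0 := by rw [Y4_Y h, hz, sub_self]
  obtain ⟨h2, h3⟩ := h.zero0 h1
  have h4 := h.pre.j_Lam (Y4_kg h k) (z - (k : ℝ) • X.gd.g) X.gd.q0
  have h5 := h.pre.j_Lam (Y4_kg h k) X.gd.q0 (z - (k : ℝ) • X.gd.g)
  rw [sub_add_cancel] at h4 h5
  exact ⟨h4.trans h2, h5.trans h3⟩

theorem YD.Ok.pass1 (h : X.Ok) (k : ℤ) {x x' : Vec (2 + n)}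
    (hx : (X.Y x ≤ k + X.τ - 1 ∧ k + X.τ - 1 ≤ X.Y x') ∨ (X.Y x' ≤ k + X.τ - 1 ∧ k + X.τ - 1 ≤ X.Y x)) :
    X.gd.j x x' = X.gd.j x (X.gd.q1 + (k : ℝ) • X.gd.g) + X.gd.j (X.gd.q1 + (k : ℝ) • X.gd.g) x' := by
  refine X4_pass h.pre h.Y_cont h.Y_lv (κ := k + X.τ - 1) (fun z hz => ?_) hx
  have h1 : X.Y (z - (k : ℝ) • X.gd.g) = X.τ - 1 := by rw [Y4_Y h, hz]; ring
  obtain ⟨h2, h3⟩ := h.zero1 h1
  have h4 := h.pre.j_Lam (Y4_kg h k) (z - (k : ℝ) • X.gd.g) X.gd.q1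
  have h5 := h.pre.j_Lam (Y4_kg h k) X.gd.q1 (z - (k : ℝ) • X.gd.g)
  rw [sub_add_cancel] at h4 h5
  exact ⟨h4.trans h2, h5.trans h3⟩

end EscG.X
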