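import Pool.Agent.EscG.A1
import Pool.Agent.EscG.C2
import Pool.Agent.EscG.X5
import Pool.Agent.EscV.Y2

set_option autoImplicit false

/-!
# Project EscV, module Y5: crossing a part of the gap costs, with momentum (after `Pool.Agent.EscG.X5`)

Copy of X5 (`X5_times`, `X5_times'`, `X5_int` are reused). `X.gd.B x = X.B (base x) + X.P x`, `h.ge : F2 ≤ F - P`, `h.low2 : m2 ‖v‖ ≤ F2`.
In `Y5_main`: `∫_0^1 F2 ≤ ∫_0^1 (F - P(u)) = ∫_0^1 F - (P (end) - P x)` (`Y2_P_traj`, `Y2_P_ii`, `Y2_ii`); `mF` is replaced by `m2` in the bound of the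
length between the crossing times.
-/

noncomputable section

namespace EscG.X

open MeasureTheory Set Filter Topology Esc EscF EscF.T EscG.T
open scoped ContDiff

variable {n : ℕ} {X : YD n}

lemma Y5_main (h : X.Ok) {η : ℝ} (hη : 0 < η) : ∃ e : ℝ, 0 < e ∧ ∀ (k : ℤ) (A B' : ℝ)
    (x x' : Vec (2 + n)), k + η ≤ A → A + η ≤ B' → B' ≤ k + X.τ - η →
    ((X.Y x ≤ A ∧ B' ≤ X.Y x') ∨ (X.Y x' ≤ A ∧ B' ≤ X.Y x)) → e ≤ X.gd.j x x' := by
  obtain ⟨θ, hθ, hst⟩ := h.gap.strict η hη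
  obtain ⟨δ, hδ, hy⟩ := h.y_uc hη
  have hmF : 0 < X.mF := h.fins.mF_pos
  have hm2 : 0 < X.m2 := h.m2_pos
  refine ⟨θ * (X.m2 * δ), by positivity, fun k A B' x x' h1 h2 h3 h4 => ?_⟩
  refine le_of_forall_pos_le_add fun ε hε => ?_
  obtain ⟨m, hm⟩ := GD.Pre.exists_j_lt h.pre x x' (half_pos hε)
  obtain ⟨u, hu, hend, _, hlen⟩ := exists_path_fd h.fins (half_pos hε) x (x' + lv X.gd.b m)
  obtain ⟨u', hu'⟩ : ∃ u' : ℝ → Vec 2, u' = fun s => base (u s) := ⟨_, rfl⟩
  have hA' : Adm u' := by rw [hu']; exact adm_base hu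
  obtain ⟨p, hp⟩ : ∃ p : ℝ → Vec 2, p = traj 0 (base x) u' := ⟨_, rfl⟩
  have hpb : ∀ t, p t = base (traj 0 x u t) := fun t => by rw [hp, hu', base_traj hu]
  have hp0 : p 0 = base x := by rw [hpb]; simp [traj]
  have hp1 : p 1 = base (x' + lv X.gd.b m) := by rw [hpb, hend]
  have hpc : Continuous p := by rw [hp]; exact traj_cont hA' _ _
  have hpab : ∀ a t, p t = p a + ∫ s in a..t, u' s := fun a t => by
    rw [hp, traj_split hA' 0 a (base x) t]
    rfl
  -- integrability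
  have hI2 : ∀ c d, IntervalIntegrable (fun t => X.F2 (p t) (u' t)) volume c d := fun c d => by
    have hcb : CB 0 (fun (x v : Vec 2) (_ : ℝ) => X.F2 x v) :=
      ⟨h.F2c.comp (continuous_fst.prodMk (continuous_fst.comp continuous_snd)), fun x v _ => by
        have := h.low2 x v
        have := mul_nonneg hm2.le (norm_nonneg v)
        linarith⟩
    rw [hp]
    exact hcb.ii hA' 0 (base x) c d
  have hI : ∀ c d, IntervalIntegrable (fun t => X.F (traj 0 x u t) (u t)) volume c d := fun c d => by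
    have hcb : CB 0 (fun (x v : Vec (2 + n)) (_ : ℝ) => X.F x v) :=
      ⟨h.fins.cont.comp (continuous_fst.prodMk (continuous_fst.comp continuous_snd)), fun x v _ => by
        have := h.fins.low x v
        have := mul_nonneg hmF.le (norm_nonneg v)
        linarith⟩
    exact hcb.ii hu 0 x c d
  -- crossing times
  obtain ⟨a, b, ha, hab, hb, hd, hband⟩ := X5_times' (φ := fun t => X.y (p t)) (h.gap.yc.comp hpc)
    (A := A) (B' := B') (by linarith) (by
      have e0 : X.y (p 0) = X.Y x := by rw [hp0]; rfl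
      have e1 : X.y (p 1) = X.Y x' := by rw [hp1, ← h.Y_lv x' m]; rfl
      rw [e0, e1]
      exact h4)
  -- the length between the crossing times
  have hlen2 : X.m2 * δ ≤ ∫ t in a..b, X.F2 (p t) (u' t) := by
    have e1 : δ ≤ ‖p b - p a‖ := by
      by_contra hcon
      push Not at hcon
      have := hy (p a) (p b) hcon.le
      rw [hd] at this
      linarith
    have e2 : ‖p b - p a‖ ≤ ∫ t in a..b, X.m2⁻¹ * X.F2 (p t) (u' t) := by
      rw [hpab a b, add_sub_cancel_left]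
      refine intervalIntegral.norm_integral_le_of_norm_le hab (ae_of_all _ fun t _ => ?_)
        ((hI2 a b).const_mul _)
      rw [le_inv_mul_iff₀ hm2]
      exact h.low2 _ _
    rw [intervalIntegral.integral_const_mul, ← div_eq_inv_mul, le_div_iff₀ hm2] at e2
    have e3 := mul_le_mul_of_nonneg_right e1 hm2.le
    linarith
  -- calibration before, between and after
  have c1 : X.B (p a) - X.B (p 0) ≤ ∫ t in (0:ℝ)..a, X.F2 (p t) (u' t) := by
    have := h.gap.cal (base x) u' hA' 0 a ha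
    rw [← hp] at this
    rw [hp0]
    exact this
  have c3 : X.B (p 1) - X.B (p b) ≤ ∫ t in b..(1:ℝ), X.F2 (p t) (u' t) := by
    have := h.gap.cal (p b) u' hA' b 1 hb
    have e : traj b (p b) u' = p := by
      funext t
      rw [hpab b t]
      rfl
    rw [e] at this
    exact this
  have c2 : X.B (p b) - X.B (p a) ≤ (1 - θ) * ∫ t in a..b, X.F2 (p t) (u' t) := by
    have e : ∀ t, traj a (p a + ((-k : ℤ) : ℝ) • X.gv) u' t = p t + ((-k : ℤ) : ℝ) • X.gv := fun t => by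
      rw [hpab a t]
      unfold traj
      abel
    have := hst (p a + ((-k : ℤ) : ℝ) • X.gv) u' hA' a b hab (fun t ht => by
      rw [e t, X5_int (f := X.y) h.gap.yg (-k) (p t)]
      have := hband t ht
      push_cast
      constructor <;> linarith [this.1, this.2])
    have eF : ∀ t, X.F2 (p t + ((-k : ℤ) : ℝ) • X.gv) (u' t) = X.F2 (p t) (u' t) := fun t => by
      have := X5_int (g := X.gv) (f := fun x => X.F2 x (u' t)) (c := 0) (fun x => by
        rw [add_zero]; exact h.perg x _) (-k) (p t)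
      simpa using this
    simp only [e, eF] at this
    rw [X5_int (f := X.B) h.gap.Bg (-k) (p b), X5_int (f := X.B) h.gap.Bg (-k) (p a)] at this
    linarith
  have hsum : (∫ t in (0:ℝ)..1, X.F2 (p t) (u' t)) = (∫ t in (0:ℝ)..a, X.F2 (p t) (u' t)) +
      (∫ t in a..b, X.F2 (p t) (u' t)) + ∫ t in b..(1:ℝ), X.F2 (p t) (u' t) := by
    rw [intervalIntegral.integral_add_adjacent_intervals (hI2 0 a) (hI2 a b),
      intervalIntegral.integral_add_adjacent_intervals (hI2 0 b) (hI2 b 1)]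
  have hmono : (∫ t in (0:ℝ)..1, X.F2 (p t) (u' t)) ≤
      (∫ t in (0:ℝ)..1, X.F (traj 0 x u t) (u t)) - (X.P (x' + lv X.gd.b m) - X.P x) := by
    have h5 : (∫ t in (0:ℝ)..1, X.F2 (p t) (u' t)) ≤
        ∫ t in (0:ℝ)..1, (X.F (traj 0 x u t) (u t) - X.P (u t)) := by
      refine intervalIntegral.integral_mono_on zero_le_one (hI2 0 1)
        ((hI 0 1).sub (Y2_P_ii hu 0 1)) fun t _ => ?_
      rw [hpb, hu']
      exact h.ge _ _
    rw [intervalIntegral.integral_sub (hI 0 1) (Y2_P_ii hu 0 1), ← Y2_P_traj hu 0 x 1, hend] at h5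
    exact h5
  have hBx : X.gd.B x = X.B (p 0) + X.P x := by rw [hp0]; rfl
  have hBx' : X.gd.B (x' + lv X.gd.b m) = X.B (p 1) + X.P (x' + lv X.gd.b m) := by rw [hp1]; rfl
  have hF : X.gd.F = X.F := rfl
  rw [hBx, hBx', hF] at hm
  have hθl := mul_le_mul_of_nonneg_left hlen2 hθ.le
  linarith

theorem YD.Ok.cross (h : X.Ok) {η : ℝ} (hη : 0 < η) : ∃ e : ℝ, 0 < e ∧ ∀ (k : ℤ) (x x' : Vec (2 + n)),
    (X.Y x ≤ k ∧ k + η ≤ X.Y x') ∨ (X.Y x' ≤ k ∧ k + η ≤ X.Y x) ∨
    (X.Y x ≤ k + X.τ - η ∧ k + X.τ ≤ X.Y x') ∨ (X.Y x' ≤ k + X.τ - η ∧ k + X.τ ≤ X.Y x) →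
    e ≤ X.gd.j x x' := by
  have hτ := h.gap.τ_pos
  obtain ⟨η1, h10, h11, h12⟩ : ∃ η1 : ℝ, 0 < η1 ∧ 2 * η1 ≤ η ∧ 4 * η1 ≤ X.τ :=
    ⟨min (η / 2) (X.τ / 4), lt_min (by linarith) (by linarith), by
      have := min_le_left (η / 2) (X.τ / 4); linarith, by
      have := min_le_right (η / 2) (X.τ / 4); linarith⟩
  obtain ⟨e, he, H⟩ := Y5_main h h10
  refine ⟨e, he, fun k x x' hx => ?_⟩
  rcases hx with hx | hx | hx | hx
  · exact H k (k + η1) (k + 2 * η1) x x' (by linarith) (by linarith) (by linarith)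
      (Or.inl ⟨by linarith [hx.1], by linarith [hx.2]⟩)
  · exact H k (k + η1) (k + 2 * η1) x x' (by linarith) (by linarith) (by linarith)
      (Or.inr ⟨by linarith [hx.1], by linarith [hx.2]⟩)
  · exact H k (k + X.τ - 2 * η1) (k + X.τ - η1) x x' (by linarith) (by linarith) (by linarith)
      (Or.inl ⟨by linarith [hx.1], by linarith [hx.2]⟩)
  · exact H k (k + X.τ - 2 * η1) (k + X.τ - η1) x x' (by linarith) (by linarith) (by linarith)
      (Or.inr ⟨by linarith [hx.1], by linarith [hx.2]⟩)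

end EscG.X
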