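import Pool.Agent.EscG.C2
import Pool.Agent.EscV.Y2
import Pool.Agent.EscV.Y3
import Pool.Agent.EscV.Y4
import Pool.Agent.EscV.Y5
import Pool.Agent.EscV.Y6

/-!
Project EscV, module Y7: round trips and gates, with momentum (after `Pool.Agent.EscG.X7`).
-/

noncomputable section

namespace EscG.X

open MeasureTheory Set Filter Topology Esc EscF EscF.T EscG.T
open scoped ContDiff

variable {n : ℕ} {X : YD n}

theorem Y7_Y_g1 (h : X.Ok) (x : Vec (2 + n)) : X.Y (x + X.gd.g) = X.Y x + 1 := by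
  have := h.Y_g x 1
  simpa using this

theorem Y7_p00 (h : X.Ok) {x x' : Vec (2 + n)}
    (hx : (X.Y x ≤ 0 ∧ 0 ≤ X.Y x') ∨ (X.Y x' ≤ 0 ∧ 0 ≤ X.Y x)) :
    X.gd.j x x' = X.gd.j x X.gd.q0 + X.gd.j X.gd.q0 x' := by
  have := h.pass0 0 (x := x) (x' := x') (by simpa using hx)
  simpa using this

theorem Y7_p01 (h : X.Ok) {x x' : Vec (2 + n)}
    (hx : (X.Y x ≤ 1 ∧ 1 ≤ X.Y x') ∨ (X.Y x' ≤ 1 ∧ 1 ≤ X.Y x)) :
    X.gd.j x x' = X.gd.j x (X.gd.q0 + X.gd.g) + X.gd.j (X.gd.q0 + X.gd.g) x' := by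
  have := h.pass0 1 (x := x) (x' := x') (by simpa using hx)
  simpa using this

theorem Y7_p10 (h : X.Ok) {x x' : Vec (2 + n)}
    (hx : (X.Y x ≤ X.τ - 1 ∧ X.τ - 1 ≤ X.Y x') ∨ (X.Y x' ≤ X.τ - 1 ∧ X.τ - 1 ≤ X.Y x)) :
    X.gd.j x x' = X.gd.j x X.gd.q1 + X.gd.j X.gd.q1 x' := by
  have e : ((0 : ℤ) : ℝ) + X.τ - 1 = X.τ - 1 := by push_cast; ring
  have := h.pass1 0 (x := x) (x' := x') (by rw [e]; exact hx)
  simpa using this

theorem Y7_p11 (h : X.Ok) {x x' : Vec (2 + n)}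
    (hx : (X.Y x ≤ X.τ ∧ X.τ ≤ X.Y x') ∨ (X.Y x' ≤ X.τ ∧ X.τ ≤ X.Y x)) :
    X.gd.j x x' = X.gd.j x (X.gd.q1 + X.gd.g) + X.gd.j (X.gd.q1 + X.gd.g) x' := by
  have e : ((1 : ℤ) : ℝ) + X.τ - 1 = X.τ := by push_cast; ring
  have := h.pass1 1 (x := x) (x' := x') (by rw [e]; exact hx)
  simpa using this

theorem Y7_P0 (h : X.Ok) {p : Vec (2 + n)} (hp : p ∈ X.gd.P0) : X.τ - 1 ≤ X.Y p ∧ X.Y p ≤ 0 := by
  have h1 := h.gap.τ_le
  rcases hp with rfl | hp
  · rw [h.Y_q0]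
    constructor <;> linarith
  · rw [mem_singleton_iff] at hp
    rw [hp, h.Y_q1]
    constructor <;> linarith

theorem YD.Ok.rt (h : X.Ok) : ∀ η : ℝ, 0 < η → ∃ e : ℝ, 0 < e ∧ ∀ w, η ≤ Metric.infDist w X.gd.Z →
    ∀ p ∈ X.gd.P0, ∀ p' ∈ X.gd.P0, X.gd.j p p' + e ≤ X.gd.j p w + X.gd.j w p' := by
  intro η hη
  obtain ⟨η', hη', hY⟩ := h.dist_Y hη
  obtain ⟨e, he, hc⟩ := h.cross hη'
  refine ⟨e, he, fun w hw p hp p' hp' => ?_⟩
  have hP := Y7_P0 h hp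
  have hP' := Y7_P0 h hp'
  have hτ := h.gap.τ_pos
  rcases hY w hw with h1 | h1
  · have e1 := Y7_p00 h (x := p) (x' := w) (Or.inl ⟨hP.2, by linarith⟩)
    have e2 := Y7_p00 h (x := w) (x' := p') (Or.inr ⟨hP'.2, by linarith⟩)
    have e3 := hc 0 X.gd.q0 w (Or.inl ⟨by rw [h.Y_q0]; simp, by push_cast; linarith⟩)
    have e4 := h.pre.j_tri p X.gd.q0 p'
    have e5 := h.pre.j_nonneg w X.gd.q0
    linarith
  · have e1 := Y7_p10 h (x := p) (x' := w) (Or.inr ⟨by linarith, hP.1⟩)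
    have e2 := Y7_p10 h (x := w) (x' := p') (Or.inl ⟨by linarith, hP'.1⟩)
    have e3 := hc (-1) X.gd.q1 w (Or.inr (Or.inr (Or.inr ⟨by push_cast; linarith,
      by rw [h.Y_q1]; push_cast; linarith⟩)))
    have e4 := h.pre.j_tri p X.gd.q1 p'
    have e5 := h.pre.j_nonneg w X.gd.q1
    linarith

theorem YD.Ok.gate (h : X.Ok) : ∀ η : ℝ, 0 < η → ∃ e : ℝ, 0 < e ∧ ∀ w ∈ X.gd.Mg η e, X.gd.Gt η e w := by
  intro η hη
  obtain ⟨η1, hη1, hO⟩ := h.Out_Y hη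
  obtain ⟨η2, hη2, hD⟩ := h.dist_Y hη
  have hm1 : min η1 η2 ≤ η1 := min_le_left _ _
  have hm2 : min η1 η2 ≤ η2 := min_le_right _ _
  obtain ⟨e0, he0, hc⟩ := h.cross (lt_min hη1 hη2)
  set μ := min η1 η2 with hμ
  have hμ0 : 0 < μ := lt_min hη1 hη2
  have hτ := h.gap.τ_pos
  have hτ1 := h.gap.τ_le
  have yq0 := h.Y_q0
  have yq1 := h.Y_q1
  have yq0' : X.Y (X.gd.q0 + X.gd.g) = 1 := by rw [Y7_Y_g1 h, yq0]; ring
  have yq1' : X.Y (X.gd.q1 + X.gd.g) = X.τ := by rw [Y7_Y_g1 h, yq1]; ring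
  -- the four kinds of crossings
  have c0 : ∀ x x', X.Y x ≤ 0 → μ ≤ X.Y x' → e0 ≤ X.gd.j x x' ∧ e0 ≤ X.gd.j x' x := fun x x' a b =>
    ⟨hc 0 x x' (Or.inl ⟨by simpa using a, by push_cast; linarith⟩),
      hc 0 x' x (Or.inr (Or.inl ⟨by simpa using a, by push_cast; linarith⟩))⟩
  have c1 : ∀ x x', X.Y x ≤ 1 → 1 + μ ≤ X.Y x' → e0 ≤ X.gd.j x x' ∧ e0 ≤ X.gd.j x' x := fun x x' a b =>
    ⟨hc 1 x x' (Or.inl ⟨by simpa using a, by push_cast; linarith⟩),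
      hc 1 x' x (Or.inr (Or.inl ⟨by simpa using a, by push_cast; linarith⟩))⟩
  have cm : ∀ x x', X.Y x ≤ X.τ - 1 - μ → X.τ - 1 ≤ X.Y x' → e0 ≤ X.gd.j x x' ∧ e0 ≤ X.gd.j x' x :=
    fun x x' a b =>
    ⟨hc (-1) x x' (Or.inr (Or.inr (Or.inl ⟨by push_cast; linarith, by push_cast; linarith⟩))),
      hc (-1) x' x (Or.inr (Or.inr (Or.inr ⟨by push_cast; linarith, by push_cast; linarith⟩)))⟩
  have ct : ∀ x x', X.Y x ≤ X.τ - μ → X.τ ≤ X.Y x' → e0 ≤ X.gd.j x x' ∧ e0 ≤ X.gd.j x' x :=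
    fun x x' a b =>
    ⟨hc 0 x x' (Or.inr (Or.inr (Or.inl ⟨by push_cast; linarith, by push_cast; linarith⟩))),
      hc 0 x' x (Or.inr (Or.inr (Or.inr ⟨by push_cast; linarith, by push_cast; linarith⟩)))⟩
  have hL : ∀ x x', X.gd.j (x + X.gd.g) (x' + X.gd.g) = X.gd.j x x' := fun x x' =>
    h.pre.j_Lam h.g_mem x x'
  have hn := h.pre.j_nonneg
  have ht := h.pre.j_tri
  have hU : X.gd.U = X.gd.j X.gd.q0 (X.gd.q1 + X.gd.g) := rfl
  refine ⟨e0 / 2, half_pos he0, fun w hw => ?_⟩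
  obtain ⟨hwO, hwU⟩ := hw
  obtain ⟨k, hk1, hk2⟩ := hO w hwO
  -- the height of `w`
  have hk : k = 0 := by
    by_contra hk0
    rcases lt_or_gt_of_ne hk0 with hk' | hk'
    · have hk3 : (k : ℝ) ≤ -1 := by exact_mod_cast Int.le_sub_one_of_lt hk'
      have a1 := Y7_p10 h (x := X.gd.q0) (x' := w) (Or.inr ⟨by linarith, by linarith⟩)
      have a2 := Y7_p00 h (x := w) (x' := X.gd.q1 + X.gd.g) (Or.inl ⟨by linarith, by linarith⟩)
      have a3 := (cm w X.gd.q1 (by linarith) (by linarith)).2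
      have a4 := hn X.gd.q0 X.gd.q1
      have a5 := hn w X.gd.q0
      linarith
    · have hk3 : (1 : ℝ) ≤ k := by exact_mod_cast hk'
      have a1 := Y7_p11 h (x := X.gd.q0) (x' := w) (Or.inl ⟨by linarith, by linarith⟩)
      have a2 := hn w (X.gd.q1 + X.gd.g)
      have a3 := (c1 (X.gd.q1 + X.gd.g) w (by linarith) (by linarith)).1
      linarith
  rw [hk] at hk1 hk2
  have hw1 : μ ≤ X.Y w := by push_cast at hk1; linarith
  have hw2 : X.Y w ≤ X.τ - μ := by push_cast at hk2; linarith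
  have hw3 : X.gd.U + e0 / 2 ≥ X.gd.j X.gd.q0 w + X.gd.j w (X.gd.q1 + X.gd.g) := hwU
  refine ⟨fun c hcZ => ?_, fun c hcZ => ?_, fun v hv hvJ a ha x hx => ?_,
    fun v hv hvJ a ha x hx => ?_⟩
  · -- ex0
    rcases hD c hcZ with h1 | h1
    · left
      have a1 := Y7_p00 h (x := X.gd.q1) (x' := c) (Or.inl ⟨by linarith, by linarith⟩)
      linarith
    · right
      have a1 := Y7_p10 h (x := c) (x' := w) (Or.inl ⟨by linarith, by linarith⟩)
      have a2 := Y7_p00 h (x := X.gd.q1) (x' := w) (Or.inl ⟨by linarith, by linarith⟩)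
      have a3 := (cm c X.gd.q1 (by linarith) (by linarith)).2
      have a4 := hn c X.gd.q1
      linarith
  · -- ex1
    have hYc : X.Y (c - X.gd.g) = X.Y c - 1 := by
      have := Y7_Y_g1 h (c - X.gd.g)
      rw [sub_add_cancel] at this
      linarith
    have h2 := hD (c - X.gd.g) hcZ
    rw [hYc] at h2
    have b1 := hL X.gd.q1 X.gd.q0
    rcases h2 with h1 | h1
    · right
      have a1 := Y7_p11 h (x := w) (x' := c) (Or.inl ⟨by linarith, by linarith⟩)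
      have a2 := Y7_p01 h (x := X.gd.q1 + X.gd.g) (x' := c) (Or.inl ⟨by linarith, by linarith⟩)
      have a3 := (c1 (X.gd.q0 + X.gd.g) c (by linarith) (by linarith)).1
      have a4 := hn c (X.gd.q0 + X.gd.g)
      linarith
    · left
      have a1 := Y7_p11 h (x := c) (x' := X.gd.q0 + X.gd.g) (Or.inl ⟨by linarith, by linarith⟩)
      linarith
  · -- no0
    obtain ⟨q, m, hvq, hYv⟩ := h.Y_Lam hv
    have hq0 : q ≠ 0 := by
      rintro rfl
      exact hvJ ⟨m, by rw [hvq]; simp⟩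
    have hA := Y7_P0 h ha
    have hX := Y7_P0 h hx
    have hYa := hYv a
    rcases lt_or_gt_of_ne hq0 with hq | hq
    · have hq3 : (q : ℝ) ≤ -1 := by exact_mod_cast Int.le_sub_one_of_lt hq
      have a1 := Y7_p10 h (x := x) (x' := a + v) (Or.inr ⟨by linarith, by linarith⟩)
      have a2 := Y7_p10 h (x := a + v) (x' := w) (Or.inl ⟨by linarith, by linarith⟩)
      have a3 := Y7_p00 h (x := X.gd.q1) (x' := w) (Or.inl ⟨by linarith, by linarith⟩)
      have a4 := ht x X.gd.q1 X.gd.q0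
      have a5 := (cm (a + v) X.gd.q1 (by linarith) (by linarith)).2
      have a6 := hn (a + v) X.gd.q1
      linarith
    · have hq3 : (1 : ℝ) ≤ q := by exact_mod_cast hq
      have a1 := Y7_p11 h (x := x) (x' := a + v) (Or.inl ⟨by linarith, by linarith⟩)
      have a2 := Y7_p11 h (x := a + v) (x' := w) (Or.inr ⟨by linarith, by linarith⟩)
      have a3 := Y7_p00 h (x := x) (x' := X.gd.q1 + X.gd.g) (Or.inl ⟨by linarith, by linarith⟩)
      have a4 := (ct w (X.gd.q1 + X.gd.g) hw2 (by linarith)).1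
      have a5 := (ct w (X.gd.q1 + X.gd.g) hw2 (by linarith)).2
      have a6 := hn (X.gd.q1 + X.gd.g) (a + v)
      have a7 := hn (a + v) (X.gd.q1 + X.gd.g)
      linarith
  · -- no1
    obtain ⟨q, m, hvq, hYv⟩ := h.Y_Lam hv
    have hq0 : q ≠ 0 := by
      rintro rfl
      exact hvJ ⟨m, by rw [hvq]; simp⟩
    have hA := Y7_P0 h ha
    have hX := Y7_P0 h hx
    have hYa := hYv a
    have hYag := Y7_Y_g1 h (a + v)
    rcases lt_or_gt_of_ne hq0 with hq | hq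
    · have hq3 : (q : ℝ) ≤ -1 := by exact_mod_cast Int.le_sub_one_of_lt hq
      have hYxg := Y7_Y_g1 h x
      have b1 := hL (a + v) x
      have b2 := hL X.gd.q1 x
      have a1 := Y7_p00 h (x := w) (x' := a + v + X.gd.g) (Or.inr ⟨by linarith, by linarith⟩)
      have a2 := Y7_p00 h (x := a + v + X.gd.g) (x' := x + X.gd.g) (Or.inl ⟨by linarith, by linarith⟩)
      have a3 := Y7_p11 h (x := X.gd.q0) (x' := x + X.gd.g) (Or.inl ⟨by linarith, by linarith⟩)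
      have a4 := (c0 X.gd.q0 w (by linarith) hw1).1
      have a5 := (c0 X.gd.q0 w (by linarith) hw1).2
      have a6 := hn X.gd.q0 (a + v + X.gd.g)
      have a7 := hn (a + v + X.gd.g) X.gd.q0
      linarith
    · have hq3 : (1 : ℝ) ≤ q := by exact_mod_cast hq
      have b1 := hL X.gd.q1 X.gd.q0
      have b2 := hL X.gd.q0 (a + v)
      have a1 := Y7_p11 h (x := w) (x' := a + v + X.gd.g) (Or.inl ⟨by linarith, by linarith⟩)
      have a2 := Y7_p01 h (x := X.gd.q1 + X.gd.g) (x' := a + v + X.gd.g)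
        (Or.inl ⟨by linarith, by linarith⟩)
      have a3 := Y7_p00 h (x := a + v) (x' := x) (Or.inr ⟨by linarith, by linarith⟩)
      have a4 := (c0 X.gd.q0 (a + v) (by linarith) (by linarith)).1
      have a5 := hn (a + v) X.gd.q0
      have a6 := ht X.gd.q1 X.gd.q0 x
      linarith

theorem YD.Ok.ok (h : X.Ok) : X.gd.Ok where
  li := h.pre.li
  bβ := h.pre.bβ
  fins := h.pre.fins
  cal := h.pre.cal
  Bper := h.pre.Bper
  Z_closed := h.Z_closed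
  Z_J := h.Z_J
  Z_cpt := h.Z_cpt
  Z_disj := h.Z_disj
  q0_mem := by
    have := h.gap.τ_le
    show X.τ - 1 ≤ X.Y X.gd.q0 ∧ X.Y X.gd.q0 ≤ 0
    rw [h.Y_q0]
    constructor <;> linarith
  q1_mem := by
    have := h.gap.τ_le
    show X.τ - 1 ≤ X.Y X.gd.q1 ∧ X.Y X.gd.q1 ≤ 0
    rw [h.Y_q1]
    constructor <;> linarith
  anc0 := h.anc0
  anc1 := h.anc1
  front := by
    intro z hz
    rcases h.frontier_Z hz with h1 | h1
    · exact ⟨X.gd.q0, Or.inl rfl, by linarith [(h.zero0 h1).1, (h.zero0 h1).2]⟩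
    · exact ⟨X.gd.q1, Or.inr rfl, by linarith [(h.zero1 h1).1, (h.zero1 h1).2]⟩
  strict := h.strict
  g_mem := h.g_mem
  g_not := h.g_not
  rt := h.rt
  gate := h.gate

end EscG.X
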