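import Pool.Agent.EscV.V6
import Pool.Agent.EscV.V8
import Pool.Agent.EscV.Y7
import Pool.Agent.EscV.Fn8
import Pool.Agent.EscG.O8
import Pool.Agent.EscV.V13

set_option autoImplicit false

/-!
# Project EscV, module V9: from a reduced metric of non constant displacement to the residual set

`V9_finsler`: `V6_randers` with `S x = (1 - kap p x) • g x`, `b x = - ⟪p, A x ·⟫` (`√(1 - κ) √(g v v) = √((1 - κ) g v v)`).
`V9_met`: `nrm` is a Finsler metric on `𝕋^(2+n)` in the sense of `T.IsFinsler` (continuity, periodicity, homogeneity, positivity).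
`V9_res`: `V13_res` with `F = nrm`, `F2 = red p`, `om = K.om p`; `exists_gap2N` (Fn8) gives the gap data, `V8_ge`, `V8_le` the estimates, and
`⟪p, w⟫ < nrm x (fb w)` for `w ≠ 0` follows from `⟪p, fib v⟫ ≤ nrm x v / 2`; `nrm ^ 2 = met`.
-/

noncomputable section

namespace EscG.U

open Filter Topology Set EscF.T EscG.T EscG.X
open scoped ContDiff

variable {n : ℕ} {K : KK n} {k : ℕ∞}

private theorem V9_root {s : ℝ} (hs : s ≤ 1 / 2) : 1 / 2 ≤ √(1 - s) := by
  apply Real.le_sqrt_of_sq_le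
  norm_num
  linarith

private theorem V9_metnn (hK : K.Ok k) (x v : Vec (2 + n)) : 0 ≤ K.met x v v :=
  add_nonneg (X8_nonneg (hK.hg _) _) (X8_nonneg (hK.hh _) _)

theorem V9_finsler (hk : 2 ≤ k) (hK : K.Ok k) {p : Vec n} (h1 : ∀ x, K.kap p x ≤ 1 / 2)
    (h2 : ∀ x v, |(inner ℝ p (K.A x v) : ℝ)| ≤ √(K.g x v v) / 4) : IsFinsler2 (K.red p) := by
  have hk2 : ((2 : ℕ∞) : WithTop ℕ∞) ≤ (k : WithTop ℕ∞) := WithTop.coe_le_coe.2 hk
  have sg : ContDiff ℝ 2 K.g := hK.sg.of_le hk2
  have sA : ContDiff ℝ 2 K.A := hK.sA.of_le hk2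
  have sJ : ContDiff ℝ 2 K.J := hK.sJ.of_le hk2
  have skap : ContDiff ℝ 2 (K.kap p) := by
    unfold KK.kap
    exact contDiff_const.inner ℝ (sJ.clm_apply contDiff_const)
  have sS : ContDiff ℝ 2 (fun x => (1 - K.kap p x) • K.g x) := by
    refine contDiff_clm_apply_iff.2 fun v => contDiff_clm_apply_iff.2 fun w => ?_
    exact (contDiff_const.sub skap).mul ((sg.clm_apply contDiff_const).clm_apply contDiff_const)
  have sb : ContDiff ℝ 2 (fun x => -((innerSL ℝ p).comp (K.A x))) :=
    (contDiff_const.clm_comp sA).neg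
  have hkp : ∀ (m : Fin 2 → ℤ) x, K.kap p (x + vz m) = K.kap p x := by
    intro m x
    unfold KK.kap
    rw [hK.pJ]
  have e : K.red p = fun x v => √(((1 - K.kap p x) • K.g x) v v) + (-((innerSL ℝ p).comp (K.A x))) v := by
    funext x v
    have e1 : ((1 - K.kap p x) • K.g x) v v = (1 - K.kap p x) * K.g x v v := rfl
    have e2 : (-((innerSL ℝ p).comp (K.A x))) v = -(inner ℝ p (K.A x v)) := rfl
    rw [e1, e2, Real.sqrt_mul (by linarith [h1 x])]
    unfold KK.red
    ring
  rw [e]
  refine V6_randers (S := fun x => (1 - K.kap p x) • K.g x) (b := fun x => -((innerSL ℝ p).comp (K.A x)))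
    sS sb (fun x => ⟨fun v w => ?_, fun v hv => ?_⟩) (fun m x => ?_) (fun m x => ?_) (fun x v hv => ?_)
  · show (1 - K.kap p x) * K.g x v w = (1 - K.kap p x) * K.g x w v
    rw [(hK.hg x).1]
  · show 0 < (1 - K.kap p x) * K.g x v v
    exact mul_pos (by linarith [h1 x]) ((hK.hg x).2 v hv)
  · show (1 - K.kap p (x + vz m)) • K.g (x + vz m) = (1 - K.kap p x) • K.g x
    rw [hkp, hK.pg]
  · show -((innerSL ℝ p).comp (K.A (x + vz m))) = -((innerSL ℝ p).comp (K.A x))
    rw [hK.pA]
  · show |-(inner ℝ p (K.A x v))| < √((1 - K.kap p x) * K.g x v v)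
    rw [abs_neg, Real.sqrt_mul (by linarith [h1 x])]
    have e1 := V9_root (h1 x)
    have e3 : 0 < √(K.g x v v) := Real.sqrt_pos.2 ((hK.hg x).2 v hv)
    have e4 : 1 / 2 * √(K.g x v v) ≤ √(1 - K.kap p x) * √(K.g x v v) :=
      mul_le_mul_of_nonneg_right e1 e3.le
    have e5 := h2 x v
    linarith

theorem V9_met (hK : K.Ok k) : T.IsFinsler K.nrm := by
  refine ⟨?_, fun m x v => ?_, fun x v c hc => ?_, fun x v hv => ?_⟩
  · have hb1 : Continuous (fun p : Vec (2 + n) × Vec (2 + n) => base p.1) := X8_base_cont.comp continuous_fst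
    have hb2 : Continuous (fun p : Vec (2 + n) × Vec (2 + n) => base p.2) := X8_base_cont.comp continuous_snd
    have hf0 : Continuous (fun p : Vec (2 + n) × Vec (2 + n) => fib p.2) := X8_fib_cont.comp continuous_snd
    have hf2 : Continuous (fun p : Vec (2 + n) × Vec (2 + n) => fib p.2 - K.A (base p.1) (base p.2)) :=
      hf0.sub ((hK.sA.continuous.comp hb1).clm_apply hb2)
    have hg2 : Continuous (fun p : Vec (2 + n) × Vec (2 + n) => K.g (base p.1) (base p.2) (base p.2)) :=
      ((hK.sg.continuous.comp hb1).clm_apply hb2).clm_apply hb2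
    have hh2 : Continuous (fun p : Vec (2 + n) × Vec (2 + n) => K.h (base p.1)
        (fib p.2 - K.A (base p.1) (base p.2)) (fib p.2 - K.A (base p.1) (base p.2))) :=
      ((hK.sh.continuous.comp hb1).clm_apply hf2).clm_apply hf2
    exact (hg2.add hh2).sqrt
  · have e1 : K.met (x + vz m) v v = K.met x v v := by
      unfold KK.met
      rw [X8_base_vz, hK.pg, hK.ph, hK.pA]
    show √(K.met (x + vz m) v v) = √(K.met x v v)
    rw [e1]
  · have e1 : K.met x (c • v) (c • v) = c ^ 2 * K.met x v v := by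
      unfold KK.met
      have e2 : fib (c • v) - K.A (base x) (base (c • v)) = c • (fib v - K.A (base x) (base v)) := by
        rw [X8_base_smul, X8_fib_smul, map_smul, smul_sub]
      rw [e2, X8_base_smul]
      simp only [map_smul, _root_.smul_apply, smul_eq_mul]
      ring
    show √(K.met x (c • v) (c • v)) = c * √(K.met x v v)
    rw [e1, Real.sqrt_mul (sq_nonneg c), Real.sqrt_sq hc]
  · refine Real.sqrt_pos.2 ?_
    unfold KK.met
    have e1 := X8_nonneg (hK.hg (base x)) (base v)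
    have e2 := X8_nonneg (hK.hh (base x)) (fib v - K.A (base x) (base v))
    by_cases hb : base v = 0
    · have hf : fib v - K.A (base x) (base v) ≠ 0 := by
        intro hf
        rw [hb, map_zero, sub_zero] at hf
        exact hv (X8_zero hb hf)
      exact add_pos_of_nonneg_of_pos e1 ((hK.hh (base x)).2 _ hf)
    · exact add_pos_of_pos_of_nonneg ((hK.hg (base x)).2 _ hb) e2

/-- residual set if the reduced metric of a small momentum has non constant displacement -/
theorem V9_res (hk : 2 ≤ k) (hK : K.Ok k) {p : Vec n} (h0 : ∀ x, 0 ≤ K.kap p x ∧ K.kap p x ≤ 1 / 2)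
    (h1 : ∀ x v, |(inner ℝ p (K.A x v) : ℝ)| ≤ √(K.g x v v) / 4)
    (h2 : ∀ x v : Vec (2 + n), inner ℝ p (fib v) ≤ K.nrm x v / 2)
    (hd : HasNonconstantDisplacement (K.red p)) {L : Lag (2 + n)}
    (hL : IsNear (fun x v => K.met x v v / 2) L) :
    {f : Pot (2 + n) k | HasOrbitToInfinity (addPot L f.toFun)} ∈ residual (Pot (2 + n) k) := by
  have hk0 : ∀ x, K.kap p x ≤ 1 / 2 := fun x => (h0 x).2
  have hF2 : IsFinsler2 (K.red p) := V9_finsler hk hK hk0 h1
  have hF : T.IsFinsler K.nrm := V9_met hK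
  obtain ⟨C, hC⟩ := V8_le hK hk0
  have e : (fun x v : Vec (2 + n) => K.nrm x v ^ 2 / 2) = fun x v => K.met x v v / 2 := by
    funext x v
    unfold KK.nrm
    rw [Real.sq_sqrt (V9_metnn hK x v)]
  have hL' : IsNear (fun x v => K.nrm x v ^ 2 / 2) L := by rw [e]; exact hL
  have hp : ∀ (x : Vec (2 + n)) (w : Vec n), w ≠ 0 → inner ℝ p w < K.nrm x (fb w) := by
    intro x w hw
    have e1 := h2 x (fb w)
    rw [fib_fb] at e1
    have e2 : (fb w : Vec (2 + n)) ≠ 0 := by
      intro h
      apply hw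
      have e3 := congrArg fib h
      rw [fib_fb] at e3
      rw [e3]
      ext i
      simp [fib]
    have e4 := hF.pos x (fb w) e2
    linarith
  exact V13_res hk hF hF2.isFinsler (exists_gap2N hF2 hd) hp (V8_om_cont hK hk0)
    (fun x v => V8_ge hK hk0 x v) hC hL'

end EscG.U
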