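import Pool.Agent.EscV.V5
import Pool.Agent.EscV.V9
import Pool.Agent.EscV.V11

set_option autoImplicit false

/-!
# Project EscV, module V12: final theorem for invariant metrics

`V12_near`: as `Pr2_near`. `V12_mech`: `V5_data`, `V8_small`; if some `‖p‖ ≤ η` has non constant displacement: `V9_res`; otherwise `V11_rigid` and
`Pr2_flat_case`. `V12_result`: as `result_product` in Pr3.lean (`Pr3_shift`).
-/

noncomputable section

namespace EscG.U

open Filter Topology Set EscF.T EscG.T EscG.X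
open scoped ContDiff

variable {n : ℕ} {k : ℕ∞}

/-- the continuous bilinear maps of a metric -/
def V12_G {N : ℕ} {g : Vec N → Vec N → Vec N → ℝ} (hg : IsRiemannian k g) (x : Vec N) : Vec N →L[ℝ] Vec N →L[ℝ] ℝ :=
  toQ (g x) (hg.scalar x)

theorem V12_smooth {N : ℕ} {g : Vec N → Vec N → Vec N → ℝ} (hg : IsRiemannian k g) :
    ContDiff ℝ k (V12_G hg) :=
  contDiff_clm_apply_iff.2 fun v => contDiff_clm_apply_iff.2 fun w => hg.smooth v w

theorem V12_scalar {N : ℕ} {g : Vec N → Vec N → Vec N → ℝ} (hg : IsRiemannian k g) (x : Vec N) :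
    T.IsScalarProduct (V12_G hg x) :=
  toQ_scalar _

theorem V12_per {N : ℕ} {g : Vec N → Vec N → Vec N → ℝ} (hg : IsRiemannian k g) (m : Fin N → ℤ)
    (x : Vec N) : V12_G hg (x + vz m) = V12_G hg x := by
  ext v w
  show g (x + vz m) v w = g x v w
  rw [hg.periodic]

/-- a continuous periodic family of scalar products is uniformly bounded below -/
theorem V12_low {N : ℕ} {G : Vec N → Vec N →L[ℝ] Vec N →L[ℝ] ℝ} (hc : Continuous G)
    (hs : ∀ x, T.IsScalarProduct (G x)) (hp : ∀ (m : Fin N → ℤ) x, G (x + vz m) = G x) :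
    ∃ c : ℝ, 0 < c ∧ ∀ x w, c * ‖w‖ ^ 2 ≤ G x w w := by
  have : CompactSpace (Metric.sphere (0 : Vec N) 1) :=
    isCompact_iff_compactSpace.1 (isCompact_sphere _ _)
  have hne : ∀ w : Metric.sphere (0 : Vec N) 1, (w : Vec N) ≠ 0 := fun w h => by
    have h1 := mem_sphere_zero_iff_norm.1 w.2
    rw [h, norm_zero] at h1
    exact zero_ne_one h1
  have hpos : ∀ x (w : Metric.sphere (0 : Vec N) 1), 0 < G x w w := fun x w => (hs x).2 _ (hne w)
  let F : C(Vec N × Metric.sphere (0 : Vec N) 1, ℝ) :=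
    ⟨fun q => (G q.1 q.2 q.2)⁻¹, by
      have h1 : Continuous fun q : Vec N × Metric.sphere (0 : Vec N) 1 => (q.2 : Vec N) :=
        continuous_subtype_val.comp continuous_snd
      have h2 : Continuous fun q : Vec N × Metric.sphere (0 : Vec N) 1 => G q.1 q.2 q.2 :=
        ((hc.comp continuous_fst).clm_apply h1).clm_apply h1
      exact h2.inv₀ fun q => (hpos q.1 q.2).ne'⟩
  obtain ⟨C, hC⟩ := O7_bdd (Φ := fun p : Vec N × ℝ => F.curry p.1)
    (F.curry.continuous.comp continuous_fst) (fun m l x t => by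
      ext w
      show (G (x + vz m) w w)⁻¹ = (G x w w)⁻¹
      rw [hp])
  have hM : 0 < max C 1 := lt_max_of_lt_right one_pos
  refine ⟨(max C 1)⁻¹, inv_pos.2 hM, fun x w => ?_⟩
  by_cases hw : w = 0
  · simp [hw]
  · have hw' : 0 < ‖w‖ := norm_pos_iff.2 hw
    have hu : ‖‖w‖⁻¹ • w‖ = 1 := by
      rw [norm_smul, norm_inv, norm_norm, inv_mul_cancel₀ hw'.ne']
    have h1 : ‖F.curry x ⟨‖w‖⁻¹ • w, mem_sphere_zero_iff_norm.2 hu⟩‖ ≤ C :=
      ((F.curry x).norm_coe_le_norm _).trans (hC (x, 0))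
    have h2 : F.curry x ⟨‖w‖⁻¹ • w, mem_sphere_zero_iff_norm.2 hu⟩ =
        (G x (‖w‖⁻¹ • w) (‖w‖⁻¹ • w))⁻¹ := rfl
    have h3 : 0 < G x (‖w‖⁻¹ • w) (‖w‖⁻¹ • w) :=
      hpos x ⟨‖w‖⁻¹ • w, mem_sphere_zero_iff_norm.2 hu⟩
    rw [h2, Real.norm_of_nonneg (inv_nonneg.2 h3.le)] at h1
    have h4 : (max C 1)⁻¹ ≤ G x (‖w‖⁻¹ • w) (‖w‖⁻¹ • w) := by
      rw [inv_le_comm₀ hM h3]
      exact h1.trans (le_max_left _ _)
    have h5 : G x (‖w‖⁻¹ • w) (‖w‖⁻¹ • w) = ‖w‖⁻¹ ^ 2 * G x w w := by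
      rw [map_smul, map_smul, _root_.smul_apply, smul_eq_mul, smul_eq_mul]
      ring
    rw [h5] at h4
    calc (max C 1)⁻¹ * ‖w‖ ^ 2 ≤ ‖w‖⁻¹ ^ 2 * G x w w * ‖w‖ ^ 2 :=
          mul_le_mul_of_nonneg_right h4 (sq_nonneg _)
      _ = G x w w := by
          field_simp

theorem V12_near {N : ℕ} (hk : 2 ≤ k) {g : Vec N → Vec N → Vec N → ℝ} (hg : IsRiemannian k g) (V : Pot N k) :
    IsNear (fun x v => g x v v / 2) (U.mech g V) := by
  have hk2 : (((2 : ℕ∞)) : WithTop ℕ∞) ≤ (k : WithTop ℕ∞) := WithTop.coe_le_coe.2 hk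
  have hV : ContDiff ℝ 2 V.toFun := V.contDiff.of_le hk2
  have hGs : ContDiff ℝ 2 (V12_G hg) := (V12_smooth hg).of_le hk2
  refine ⟨?_, ?_, ?_, ?_, ?_⟩
  · have h2 : ContDiff ℝ 2 (fun q : Vec N × Vec N × ℝ => V12_G hg q.1 q.2.1 q.2.1) :=
      ((hGs.comp contDiff_fst).clm_apply (contDiff_fst.comp contDiff_snd)).clm_apply
        (contDiff_fst.comp contDiff_snd)
    have h3 : ContDiff ℝ 2 (fun q : Vec N × Vec N × ℝ => V.toFun (q.1, q.2.2)) :=
      hV.comp (contDiff_fst.prodMk (contDiff_snd.comp contDiff_snd))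
    exact (h2.div_const 2).add h3
  · intro m l x v t
    show g (x + vz m) v v / 2 + V.toFun (x + vz m, t + l) = _
    rw [hg.periodic, V.periodic]
    rfl
  · obtain ⟨c, hc, hl⟩ := V12_low hGs.continuous (V12_scalar hg) (V12_per hg)
    refine ⟨c, hc, fun x v t w => ?_⟩
    have h1 : fderiv ℝ (fun u => U.mech g V (x, u, t)) = fun v => V12_G hg x v := by
      funext v
      exact ((O6_hasFDeriv (V12_scalar hg x).1 v).add_const (V.toFun (x, t))).fderiv
    rw [iteratedFDeriv_two_apply, h1]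
    have h3 : HasFDerivAt (fun v : Vec N => V12_G hg x v) (V12_G hg x) v :=
      (V12_G hg x).hasFDerivAt
    rw [h3.fderiv]
    have h4 := hl x w
    simpa using h4
  · obtain ⟨C, hC⟩ := O7_bdd V.contDiff.continuous V.periodic
    refine ⟨C, fun x v t => ?_⟩
    have e : U.mech g V (x, v, t) - g x v v / 2 = V.toFun (x, t) := by
      unfold U.mech
      ring
    rw [e]
    exact hC (x, t)
  · have hd : Continuous fun p : Vec N × ℝ => fderiv ℝ V.toFun p (0, 1) :=
      (hV.continuous_fderiv (by norm_num)).clm_apply continuous_const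
    obtain ⟨C, hC⟩ := O7_bdd hd (fun m l x t => by
      have h1 : (fun p : Vec N × ℝ => V.toFun (p + (vz m, (l:ℝ)))) = V.toFun := by
        funext p
        exact V.periodic m l p.1 p.2
      have h2 := fderiv_comp_add_right (𝕜 := ℝ) (f := V.toFun) (x := (x, t)) (vz m, (l:ℝ))
      rw [h1] at h2
      rw [h2]
      rfl)
    refine ⟨C, fun x v t => ?_⟩
    have h3 : HasDerivAt (fun s => U.mech g V (x, v, s)) (fderiv ℝ V.toFun (x, t) (0, 1)) t := by
      have h4 : HasFDerivAt V.toFun (fderiv ℝ V.toFun (x, t)) (x, t) :=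
        ((hV.differentiable (by norm_num)) (x, t)).hasFDerivAt
      have h5 : HasDerivAt (fun s : ℝ => (x, s)) ((0 : Vec N), (1:ℝ)) t :=
        (hasDerivAt_const t x).prodMk (hasDerivAt_id t)
      exact (h4.comp_hasDerivAt t h5).const_add (g x v v / 2)
    rw [h3.deriv]
    exact hC (x, t)

theorem V12_mech (hk : 2 ≤ k) {g : Vec (2 + n) → Vec (2 + n) → Vec (2 + n) → ℝ} (hg : IsRiemannian k g)
    (hinv : ∀ (y : Vec n) x, g (x + fb y) = g x) (V : Pot (2 + n) k) :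
    {f : Pot (2 + n) k | HasOrbitToInfinity (addPot (mech g V) f.toFun)} ∈ residual (Pot (2 + n) k) := by
  have hk2 : (((2 : ℕ∞)) : WithTop ℕ∞) ≤ (k : WithTop ℕ∞) := WithTop.coe_le_coe.2 hk
  obtain ⟨K, hK, hme⟩ := V5_data hg hinv
  obtain ⟨η, hη, hs⟩ := V8_small hK
  by_cases hd : ∃ p : Vec n, ‖p‖ ≤ η ∧ HasNonconstantDisplacement (K.red p)
  · obtain ⟨p, hp, hd⟩ := hd
    obtain ⟨h0, h1, h2⟩ := hs p hp
    refine V9_res hk hK h0 h1 h2 hd ?_
    have e : (fun x v => K.met x v v / 2) = fun x v => g x v v / 2 := by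
      funext x v
      rw [hme]
    rw [e]
    exact V12_near hk hg V
  · obtain ⟨q, Φ, Ψ, hq, hT, hiso⟩ := V11_rigid hk hK hη fun p hp h => hd ⟨p, hp, h⟩
    exact Pr2_flat_case (Nat.le_add_right 2 n) hk (G := V12_G hg) ((V12_smooth hg).of_le hk2) hq hT
      (fun x v w => (hme x v w).trans (hiso x v w)) V

theorem V12_result (hk : 2 ≤ k) {g : Vec (2 + n) → Vec (2 + n) → Vec (2 + n) → ℝ} (hg : IsRiemannian k g)
    (hinv : ∀ (y : Vec n) x, g (x + fb y) = g x) (V : Pot (2 + n) k) {L : Lag (2 + n)}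
    (hL : IsMechAtInfinity g V L) :
    {f : Pot (2 + n) k | HasOrbitToInfinity (addPot L f.toFun)} ∈ residual (Pot (2 + n) k) ∧
      Dense {f : Pot (2 + n) k | HasOrbitToInfinity (addPot L f.toFun)} := by
  have := baire (2 + n) k
  refine (fun h => ⟨h, dense_of_mem_residual h⟩) ?_
  refine mem_of_superset (V12_mech hk hg hinv V) fun f hf => ?_
  obtain ⟨R, hR⟩ := hL
  have hk2 : (((2 : ℕ∞)) : WithTop ℕ∞) ≤ (k : WithTop ℕ∞) := WithTop.coe_le_coe.2 hk
  have hn := V12_near hk hg V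
  have hf2 : ContDiff ℝ 2 (fun q : Vec (2 + n) × Vec (2 + n) × ℝ => f.toFun (q.1, q.2.2)) :=
    (f.contDiff.of_le hk2).comp (contDiff_fst.prodMk (contDiff_snd.comp contDiff_snd))
  refine Pr3_shift (L0 := addPot (mech g V) f.toFun) (hn.smooth.add hf2)
    (fun l x v t => ?_) (R := R) (fun x v t hv => ?_) hf
  · have h1 := hn.periodic 0 l x v t
    have h2 := f.periodic 0 l x t
    have h3 : vz (0 : Fin (2 + n) → ℤ) = 0 := by
      ext i
      simp [vz]
    rw [h3, add_zero] at h1 h2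
    show U.mech g V (x, v, t + l) + f.toFun (x, t + l) = _
    rw [h1, h2]
    rfl
  · show L (x, v, t) + _ = mech g V (x, v, t) + _
    rw [hR x v t hv]

end EscG.U
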