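import Pool.Agent.EscV.VDefs

set_option autoImplicit false

/-!
# Project EscV, module V5: the data of an invariant metric

`G x := toQ (g x) _` (bilinear, as `HFinal_G` in EscG/HFinal.lean, here on `Vec (2 + n)`), of class `C^k`. For `x : Vec 2` work at `ib n x`.
`h x w w' = G (ib x) (fb w) (fb w')`. The operator `H x : Vec n →L[ℝ] Vec n` with `⟪H x w, w'⟫ = h x w w'` (`InnerProductSpace.toDual.symm`, or finite sums over the
standard basis) is injective, hence invertible, of class `C^k`; `J x = (H x)⁻¹` (`ContinuousLinearMap.inverse`, `contDiffAt_map_inverse`, or `Ring.inverse`) of class `C^k`.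
`A x a = - J x (G (ib x) (ib a) (fb ·))` (the vector `b` with `⟪b, w⟫ = G (ib x) (ib a) (fb w)`), so that `G ((a, A a), (0, w)) = 0`;
`g x a a' = G (ib x) (ib a + fb (A x a)) (ib a' + fb (A x a'))`. Invariance: `g x = g (ib (base x))` as `x = ib (base x) + fb (fib x)`.
-/

noncomputable section

namespace EscG.U

open Filter Topology Set EscF.T EscG.T EscG.X
open scoped ContDiff

variable {n : ℕ}

/-- the embedding of the base -/
def V5_i (n : ℕ) : Vec 2 →L[ℝ] Vec (2 + n) := LinearMap.toContinuousLinearMap (X1_ibL n)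

/-- the embedding of the fibre -/
def V5_f (n : ℕ) : Vec n →L[ℝ] Vec (2 + n) := LinearMap.toContinuousLinearMap (X1_fbL n)

theorem V5_i_apply (x : Vec 2) : V5_i n x = ib n x := rfl

theorem V5_f_apply (x : Vec n) : V5_f n x = fb x := rfl

/-- the vector of a linear form -/
def V5_D (n : ℕ) : (Vec n →L[ℝ] ℝ) →L[ℝ] Vec n :=
  LinearMap.toContinuousLinearMap
    { toFun := fun φ => ∑ j, φ (EuclideanSpace.single j (1:ℝ)) • EuclideanSpace.single j (1:ℝ)
      map_add' := fun φ ψ => by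
        rw [← Finset.sum_add_distrib]
        exact Finset.sum_congr rfl fun j _ => by rw [_root_.add_apply, add_smul]
      map_smul' := fun c φ => by
        rw [RingHom.id_apply, Finset.smul_sum]
        exact Finset.sum_congr rfl fun j _ => by
          rw [_root_.smul_apply, smul_assoc] }

theorem V5_D_inner (φ : Vec n →L[ℝ] ℝ) (w : Vec n) : inner ℝ (V5_D n φ) w = φ w := by
  show inner ℝ (∑ j, φ (EuclideanSpace.single j (1:ℝ)) • EuclideanSpace.single j (1:ℝ)) w = φ w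
  rw [sum_inner]
  conv_rhs => rw [← X1_sum_single w, map_sum]
  refine Finset.sum_congr rfl fun j _ => ?_
  rw [inner_smul_left, EuclideanSpace.inner_single_left, map_smul]
  simp [mul_comm]

/-- a bilinear form on the product -/
abbrev V5_B (n : ℕ) := Vec (2 + n) →L[ℝ] Vec (2 + n) →L[ℝ] ℝ

/-- the form on the fibre -/
def V5_h (Q : V5_B n) : Vec n →L[ℝ] Vec n →L[ℝ] ℝ := Q.bilinearComp (V5_f n) (V5_f n)

/-- the operator of the form on the fibre -/
def V5_H (Q : V5_B n) : Vec n →L[ℝ] Vec n := (V5_D n).comp (V5_h Q)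

/-- its inverse -/
def V5_J (Q : V5_B n) : Vec n →L[ℝ] Vec n := ContinuousLinearMap.inverse (V5_H Q)

/-- the mixed part -/
def V5_M (Q : V5_B n) : Vec 2 →L[ℝ] Vec n →L[ℝ] ℝ := Q.bilinearComp (V5_i n) (V5_f n)

/-- the connection -/
def V5_A (Q : V5_B n) : Vec 2 →L[ℝ] Vec n := -((V5_J Q).comp ((V5_D n).comp (V5_M Q)))

/-- the horizontal lift -/
def V5_L (Q : V5_B n) : Vec 2 →L[ℝ] Vec (2 + n) := V5_i n + (V5_f n).comp (V5_A Q)

/-- the form on the horizontal planes -/
def V5_g (Q : V5_B n) : Vec 2 →L[ℝ] Vec 2 →L[ℝ] ℝ := Q.bilinearComp (V5_L Q) (V5_L Q)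

theorem V5_H_inner (Q : V5_B n) (w w' : Vec n) : inner ℝ (V5_H Q w) w' = V5_h Q w w' :=
  V5_D_inner _ _

theorem V5_h_scalar {Q : V5_B n} (hQ : T.IsScalarProduct Q) : T.IsScalarProduct (V5_h Q) := by
  refine ⟨fun v w => hQ.1 _ _, fun v hv => hQ.2 _ fun h => hv ?_⟩
  have h2 : fib (fb v) = fib (0 : Vec (2 + n)) := congrArg fib h
  rw [fib_fb] at h2
  rw [h2]
  ext j
  rfl

/-- the operator is invertible -/
theorem V5_equiv {Q : V5_B n} (hQ : T.IsScalarProduct Q) :
    ∃ e : Vec n ≃L[ℝ] Vec n, (e : Vec n →L[ℝ] Vec n) = V5_H Q := by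
  have hinj : Function.Injective (V5_H Q : Vec n →ₗ[ℝ] Vec n) := by
    refine (injective_iff_map_eq_zero _).2 fun w hw => ?_
    by_contra h
    have h1 := (V5_h_scalar hQ).2 w h
    have h2 := V5_H_inner Q w w
    have h3 : V5_H Q w = 0 := hw
    rw [h3, inner_zero_left] at h2
    linarith
  refine ⟨(LinearEquiv.ofInjectiveEndo _ hinj).toContinuousLinearEquiv, ?_⟩
  ext1 w
  rfl

theorem V5_HJ {Q : V5_B n} (hQ : T.IsScalarProduct Q) (p : Vec n) : V5_H Q (V5_J Q p) = p := by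
  obtain ⟨e, he⟩ := V5_equiv hQ
  unfold V5_J
  rw [← he, ContinuousLinearMap.inverse_equiv]
  exact e.apply_symm_apply p

theorem V5_hJ {Q : V5_B n} (hQ : T.IsScalarProduct Q) (p w : Vec n) :
    V5_h Q (V5_J Q p) w = inner ℝ p w := by
  rw [← V5_H_inner, V5_HJ hQ]

theorem V5_L_apply (Q : V5_B n) (a : Vec 2) : V5_L Q a = ib n a + fb (V5_A Q a) := rfl

/-- the horizontal planes are orthogonal to the fibres -/
theorem V5_orth {Q : V5_B n} (hQ : T.IsScalarProduct Q) (a : Vec 2) (w : Vec n) :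
    Q (V5_L Q a) (fb w) = 0 := by
  have h1 : V5_h Q (V5_A Q a) w = -(Q (ib n a) (fb w)) := by
    show V5_h Q (-(V5_J Q (V5_D n (V5_M Q a)))) w = _
    rw [map_neg, _root_.neg_apply, V5_hJ hQ, V5_D_inner]
    rfl
  have h2 : V5_h Q (V5_A Q a) w = Q (fb (V5_A Q a)) (fb w) := rfl
  rw [V5_L_apply, map_add, _root_.add_apply, ← h2, h1]
  ring

theorem V5_g_scalar {Q : V5_B n} (hQ : T.IsScalarProduct Q) : T.IsScalarProduct (V5_g Q) := by
  refine ⟨fun v w => hQ.1 _ _, fun v hv => hQ.2 _ fun h => hv ?_⟩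
  have h2 : base (V5_L Q v) = base (0 : Vec (2 + n)) := congrArg base h
  rw [V5_L_apply, base_add, base_ib, base_fb, add_zero] at h2
  rw [h2]
  ext j
  rfl

/-- the decomposition of the metric -/
theorem V5_split {Q : V5_B n} (hQ : T.IsScalarProduct Q) (v w : Vec (2 + n)) :
    Q v w = V5_g Q (base v) (base w) +
      V5_h Q (fib v - V5_A Q (base v)) (fib w - V5_A Q (base w)) := by
  have key : ∀ u : Vec (2 + n), u = V5_L Q (base u) + fb (fib u - V5_A Q (base u)) := by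
    intro u
    rw [V5_L_apply, fb_sub]
    conv_lhs => rw [← ib_base_add u]
    abel
  have h1 : Q (V5_L Q (base v)) (fb (fib w - V5_A Q (base w))) = 0 := V5_orth hQ _ _
  have h2 : Q (fb (fib v - V5_A Q (base v))) (V5_L Q (base w)) = 0 := by
    rw [hQ.1]
    exact V5_orth hQ _ _
  have h3 : V5_g Q (base v) (base w) = Q (V5_L Q (base v)) (V5_L Q (base w)) := rfl
  have h4 : V5_h Q (fib v - V5_A Q (base v)) (fib w - V5_A Q (base w)) =
      Q (fb (fib v - V5_A Q (base v))) (fb (fib w - V5_A Q (base w))) := rfl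
  rw [h3, h4]
  conv_lhs => rw [key v, key w]
  simp only [map_add, _root_.add_apply, h1, h2]
  ring

/-! ### regularity -/

variable {k : ℕ∞}

theorem V5_h_smooth {Q : Vec 2 → V5_B n} (hQ : ContDiff ℝ k Q) : ContDiff ℝ k fun x => V5_h (Q x) :=
  contDiff_clm_apply_iff.2 fun _ => contDiff_clm_apply_iff.2 fun _ =>
    (hQ.clm_apply contDiff_const).clm_apply contDiff_const

theorem V5_M_smooth {Q : Vec 2 → V5_B n} (hQ : ContDiff ℝ k Q) : ContDiff ℝ k fun x => V5_M (Q x) :=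
  contDiff_clm_apply_iff.2 fun _ => contDiff_clm_apply_iff.2 fun _ =>
    (hQ.clm_apply contDiff_const).clm_apply contDiff_const

theorem V5_H_smooth {Q : Vec 2 → V5_B n} (hQ : ContDiff ℝ k Q) : ContDiff ℝ k fun x => V5_H (Q x) :=
  contDiff_const.clm_comp (V5_h_smooth hQ)

theorem V5_J_smooth {Q : Vec 2 → V5_B n} (hQ : ContDiff ℝ k Q) (hs : ∀ x, T.IsScalarProduct (Q x)) :
    ContDiff ℝ k fun x => V5_J (Q x) := by
  rw [contDiff_iff_contDiffAt]
  intro x
  obtain ⟨e, he⟩ := V5_equiv (hs x)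
  have h1 : ContDiffAt ℝ k (ContinuousLinearMap.inverse : (Vec n →L[ℝ] Vec n) → Vec n →L[ℝ] Vec n)
      (V5_H (Q x)) := by
    rw [← he]
    exact contDiffAt_map_inverse e
  exact h1.comp x (V5_H_smooth hQ).contDiffAt

theorem V5_A_smooth {Q : Vec 2 → V5_B n} (hQ : ContDiff ℝ k Q) (hs : ∀ x, T.IsScalarProduct (Q x)) :
    ContDiff ℝ k fun x => V5_A (Q x) :=
  ((V5_J_smooth hQ hs).clm_comp (contDiff_const.clm_comp (V5_M_smooth hQ))).neg

theorem V5_L_smooth {Q : Vec 2 → V5_B n} (hQ : ContDiff ℝ k Q) (hs : ∀ x, T.IsScalarProduct (Q x)) :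
    ContDiff ℝ k fun x => V5_L (Q x) :=
  contDiff_const.add (contDiff_const.clm_comp (V5_A_smooth hQ hs))

theorem V5_g_smooth {Q : Vec 2 → V5_B n} (hQ : ContDiff ℝ k Q) (hs : ∀ x, T.IsScalarProduct (Q x)) :
    ContDiff ℝ k fun x => V5_g (Q x) :=
  contDiff_clm_apply_iff.2 fun _ => contDiff_clm_apply_iff.2 fun _ =>
    (hQ.clm_apply ((V5_L_smooth hQ hs).clm_apply contDiff_const)).clm_apply
      ((V5_L_smooth hQ hs).clm_apply contDiff_const)

/-! ### the data -/

theorem V5_vz (m : Fin 2 → ℤ) : ib n (vz m) = vz (Fin.addCases m (fun _ => 0)) := by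
  refine X1_ext (fun i => ?_) (fun j => ?_)
  · rw [X1_ib_l]
    simp [vz]
  · rw [X1_ib_r]
    simp [vz]

theorem V5_data {n : ℕ} {k : ℕ∞} {g : Vec (2 + n) → Vec (2 + n) → Vec (2 + n) → ℝ} (hg : IsRiemannian k g)
    (hinv : ∀ (y : Vec n) x, g (x + fb y) = g x) :
    ∃ K : KK n, K.Ok k ∧ ∀ x v w, g x v w = K.met x v w := by
  set Q : Vec 2 → V5_B n := fun x => toQ (g (ib n x)) (hg.scalar _) with hQdef
  have hQa : ∀ x v w, Q x v w = g (ib n x) v w := fun x v w => rfl
  have hQs : ContDiff ℝ k Q := by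
    refine contDiff_clm_apply_iff.2 fun v => contDiff_clm_apply_iff.2 fun w => ?_
    exact (hg.smooth v w).comp (V5_i n).contDiff
  have hs : ∀ x, T.IsScalarProduct (Q x) := fun x => toQ_scalar _
  have hp : ∀ (m : Fin 2 → ℤ) x, Q (x + vz m) = Q x := by
    intro m x
    ext v w
    show g (ib n (x + vz m)) v w = g (ib n x) v w
    rw [ib_add, V5_vz, hg.periodic]
  refine ⟨⟨fun x => V5_g (Q x), fun x => V5_h (Q x), fun x => V5_A (Q x), fun x => V5_J (Q x)⟩,
    ⟨V5_g_smooth hQs hs, V5_h_smooth hQs, V5_A_smooth hQs hs, V5_J_smooth hQs hs, ?_, ?_, ?_, ?_,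
      fun x => V5_g_scalar (hs x), fun x => V5_h_scalar (hs x), fun x p w => V5_hJ (hs x) p w⟩, ?_⟩
  · intro m x
    show V5_g (Q (x + vz m)) = V5_g (Q x)
    rw [hp]
  · intro m x
    show V5_h (Q (x + vz m)) = V5_h (Q x)
    rw [hp]
  · intro m x
    show V5_A (Q (x + vz m)) = V5_A (Q x)
    rw [hp]
  · intro m x
    show V5_J (Q (x + vz m)) = V5_J (Q x)
    rw [hp]
  · intro x v w
    have h1 : g x = g (ib n (base x)) := by
      conv_lhs => rw [← ib_base_add x]
      exact hinv _ _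
    rw [h1, ← hQa]
    exact V5_split (hs _) v w

end EscG.U
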