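import Pool.Agent.EscV.VDefs
import Pool.Agent.EscV.Fn8

set_option autoImplicit false

/-!
# Project EscV, module V6: Randers metrics are Finsler metrics

`F x v = √(S x v v) + b x v`, `|b x v| < √(S x v v)` for `v ≠ 0`. Convexity: for `v ≠ 0` put `α = √(S v v)`; `(F²)'' (w,w) = 2 (F α''(w,w) + (F' w)²)`,
`α''(w,w) = (S v v * S w w - (S v w)²) / α³ ≥ 0` (Cauchy-Schwarz), `F > 0`. If `w` is not a multiple of `v`, then `α''(w,w) > 0`; if `w = c v`, then
`F' w = c F ≠ 0`. Smoothness: `S x v v > 0` off the zero section, `ContDiffAt.sqrt`.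
-/

noncomputable section

namespace EscG.U

open Filter Topology Set EscF.T EscG.T EscG.X
open scoped ContDiff

section

variable {E : Type*} [NormedAddCommGroup E] [NormedSpace ℝ E]

/-- the derivative of `F²` -/
private theorem V6_fderiv {Q : E →L[ℝ] E →L[ℝ] ℝ} {β : E →L[ℝ] ℝ} (hs : ∀ v w, Q v w = Q w v) {z : E}
    (hz : 0 < Q z z) (w : E) :
    fderiv ℝ (fun z => (√(Q z z) + β z) ^ 2) z w = 2 * (√(Q z z) + β z) * (Q z w / √(Q z z) + β w) := by
  have h1 : HasFDerivAt (fun z => Q z z) (Q z + Q.flip z) z := by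
    have h := (Q.hasFDerivAt (x := z)).clm_apply (hasFDerivAt_id z)
    refine h.congr_fderiv ?_
    ext y
    simp
  have h2 := (h1.sqrt hz.ne').add (β.hasFDerivAt (x := z))
  have h3 := h2.pow 2
  rw [HasFDerivAt.fderiv (f := fun z => (√(Q z z) + β z) ^ 2) h3]
  have hq : √(Q z z) ≠ 0 := (Real.sqrt_pos.2 hz).ne'
  simp [hs w z]
  field_simp
  ring

private theorem V6_conv {Q : E →L[ℝ] E →L[ℝ] ℝ} {β : E →L[ℝ] ℝ} (hs : ∀ v w, Q v w = Q w v)
    (hp : ∀ v, v ≠ 0 → 0 < Q v v) (hlt : ∀ v, v ≠ 0 → |β v| < √(Q v v)) {v w : E} (hv : v ≠ 0)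
    (hw : w ≠ 0) : 0 < fderiv ℝ (fderiv ℝ (fun z => (√(Q z z) + β z) ^ 2)) v w w := by
  have hA : 0 < Q v v := hp v hv
  set A := Q v v with hAdef
  set B := Q v w with hBdef
  set C := Q w w with hCdef
  set s := √A with hsdef
  have hspos : 0 < s := Real.sqrt_pos.2 hA
  have hss : s * s = A := Real.mul_self_sqrt hA.le
  have hF : 0 < s + β v := by
    have := (abs_lt.1 (hlt v hv)).1
    rw [← hAdef, ← hsdef] at this
    linarith
  -- the function is of class `C²` near `v`
  have hc : ContDiffAt ℝ 2 (fun z => (√(Q z z) + β z) ^ 2) v := by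
    have h1 : ContDiffAt ℝ 2 (fun z => Q z z) v := (Q.contDiff.clm_apply contDiff_id).contDiffAt
    exact ((h1.sqrt hA.ne').add β.contDiff.contDiffAt).pow 2
  have hd : DifferentiableAt ℝ (fderiv ℝ (fun z => (√(Q z z) + β z) ^ 2)) v := by
    have h1 : ContDiffAt ℝ 1 (fderiv ℝ (fun z => (√(Q z z) + β z) ^ 2)) v :=
      hc.fderiv_right (by norm_num)
    exact h1.differentiableAt (by norm_num)
  have hline : HasDerivAt (fun t : ℝ => v + t • w) w 0 := by
    have h1 := ((hasDerivAt_id (0 : ℝ)).smul_const w).const_add v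
    simpa using h1
  have hd' : HasFDerivAt (fderiv ℝ (fun z => (√(Q z z) + β z) ^ 2))
      (fderiv ℝ (fderiv ℝ (fun z => (√(Q z z) + β z) ^ 2)) v) (v + (0 : ℝ) • w) := by
    rw [zero_smul, add_zero]
    exact hd.hasFDerivAt
  have h1 : HasDerivAt (fun t : ℝ => fderiv ℝ (fun z => (√(Q z z) + β z) ^ 2) (v + t • w) w)
      (fderiv ℝ (fderiv ℝ (fun z => (√(Q z z) + β z) ^ 2)) v w w) 0 := by
    have h2 := hd'.comp_hasDerivAt (0 : ℝ) hline
    have h3 := h2.clm_apply (hasDerivAt_const (0 : ℝ) w)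
    simpa using h3
  -- explicit form
  have hQ : ∀ t : ℝ, Q (v + t • w) (v + t • w) = A + 2 * B * t + C * t ^ 2 := by
    intro t
    simp only [map_add, map_smul, add_apply, smul_apply, smul_eq_mul,
      hs w v]
    rw [← hAdef, ← hBdef, ← hCdef]
    ring
  have hne : ∀ᶠ t in 𝓝 (0 : ℝ), 0 < A + 2 * B * t + C * t ^ 2 := by
    have hcont : Continuous (fun t : ℝ => A + 2 * B * t + C * t ^ 2) := by fun_prop
    refine hcont.continuousAt.eventually (lt_mem_nhds ?_)
    simpa using hA
  have h2 : (fun t : ℝ => fderiv ℝ (fun z => (√(Q z z) + β z) ^ 2) (v + t • w) w) =ᶠ[𝓝 0]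
      fun t : ℝ => 2 * (√(A + 2 * B * t + C * t ^ 2) + (β v + t * β w)) *
        ((B + C * t) / √(A + 2 * B * t + C * t ^ 2) + β w) := by
    filter_upwards [hne] with t ht
    rw [V6_fderiv hs (by rw [hQ]; exact ht), hQ]
    have e1 : Q (v + t • w) w = B + C * t := by
      simp only [map_add, map_smul, add_apply, smul_apply, smul_eq_mul]
      rw [← hBdef, ← hCdef]
      ring
    rw [e1]
    simp only [map_add, map_smul, smul_eq_mul]
  have h3 := h1.congr_of_eventuallyEq h2.symm
  -- the derivative of the explicit form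
  have hq : HasDerivAt (fun t : ℝ => A + 2 * B * t + C * t ^ 2) (2 * B) 0 := by
    have h4 := (((hasDerivAt_id (0 : ℝ)).const_mul (2 * B)).const_add A).add
      (((hasDerivAt_id (0 : ℝ)).pow 2).const_mul C)
    have h5 : HasDerivAt (fun t : ℝ => A + 2 * B * t + C * t ^ 2) _ 0 := h4
    refine h5.congr_deriv ?_
    simp
  have hq0 : A + 2 * B * (0 : ℝ) + C * (0 : ℝ) ^ 2 = A := by ring
  have hsq : HasDerivAt (fun t : ℝ => √(A + 2 * B * t + C * t ^ 2)) (B / s) 0 := by
    have h4 := hq.sqrt (by rw [hq0]; exact hA.ne')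
    refine h4.congr_deriv ?_
    rw [hq0, ← hsdef]
    field_simp
  have hb : HasDerivAt (fun t : ℝ => β v + t * β w) (β w) 0 := by
    have h4 := ((hasDerivAt_id (0 : ℝ)).mul_const (β w)).const_add (β v)
    have h5 : HasDerivAt (fun t : ℝ => β v + t * β w) _ 0 := h4
    exact h5.congr_deriv (one_mul _)
  have hn : HasDerivAt (fun t : ℝ => B + C * t) C 0 := by
    have h4 := ((hasDerivAt_id (0 : ℝ)).const_mul C).const_add B
    have h5 : HasDerivAt (fun t : ℝ => B + C * t) _ 0 := h4
    exact h5.congr_deriv (mul_one _)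
  have hfrac := hn.div hsq (by rw [hq0]; exact hspos.ne')
  have hall : HasDerivAt (fun t : ℝ => 2 * (√(A + 2 * B * t + C * t ^ 2) + (β v + t * β w)) *
        ((B + C * t) / √(A + 2 * B * t + C * t ^ 2) + β w))
        (2 * (B / s + β w) * (B / s + β w) + 2 * (s + β v) * ((C * s - B * (B / s)) / s ^ 2)) 0 := by
    have h5 : HasDerivAt (fun t : ℝ => 2 * (√(A + 2 * B * t + C * t ^ 2) + (β v + t * β w)) *
        ((B + C * t) / √(A + 2 * B * t + C * t ^ 2) + β w)) _ 0 :=
      ((hsq.add hb).const_mul 2).mul (hfrac.add_const (β w))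
    refine h5.congr_deriv ?_
    simp only [Pi.add_apply, mul_zero, add_zero, zero_mul, ne_eq, OfNat.ofNat_ne_zero,
      not_false_eq_true, zero_pow, ← hsdef]
  have huniq := h3.unique hall
  rw [huniq]
  -- Cauchy-Schwarz
  set u := w - (B / A) • v with hu
  have hQu : Q u u = C - B ^ 2 / A := by
    rw [hu]
    simp only [map_sub, map_smul, sub_apply, smul_apply, smul_eq_mul, hs w v]
    rw [← hAdef, ← hBdef, ← hCdef]
    field_simp
    ring
  have hpos : 0 < (B / s + β w) ^ 2 ∨ 0 < C * s - B * (B / s) := by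
    by_cases h0 : u = 0
    · left
      have hwv : w = (B / A) • v := sub_eq_zero.1 h0
      have hBA : B / A ≠ 0 := by
        intro h
        rw [h, zero_smul] at hwv
        exact hw hwv
      have e1 : B / s + β w = (B / A) * (s + β v) := by
        have e2 : β w = (B / A) * β v := by
          conv_lhs => rw [hwv]
          rw [map_smul, smul_eq_mul]
        rw [e2, mul_add]
        congr 1
        rw [← hss]
        field_simp
      rw [e1]
      exact pow_pos (abs_pos.2 (mul_ne_zero hBA hF.ne')) 2 |>.trans_eq (sq_abs _)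
    · right
      have h4 := hp u h0
      rw [hQu] at h4
      have e1 : C * s - B * (B / s) = s * (C - B ^ 2 / A) := by
        rw [← hss]
        field_simp
      rw [e1]
      exact mul_pos hspos h4
  have hnn : 0 ≤ C * s - B * (B / s) := by
    by_cases h0 : u = 0
    · have h4 : Q u u = 0 := by rw [h0]; simp
      rw [hQu] at h4
      have e1 : C * s - B * (B / s) = s * (C - B ^ 2 / A) := by
        rw [← hss]
        field_simp
      rw [e1, h4, mul_zero]
    · have h4 := hp u h0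
      rw [hQu] at h4
      have e1 : C * s - B * (B / s) = s * (C - B ^ 2 / A) := by
        rw [← hss]
        field_simp
      rw [e1]
      exact (mul_pos hspos h4).le
  have hfin : 2 * (B / s + β w) * (B / s + β w) + 2 * (s + β v) * ((C * s - B * (B / s)) / s ^ 2) =
      2 * (B / s + β w) ^ 2 + 2 * (s + β v) * ((C * s - B * (B / s)) / s ^ 2) := by ring
  rw [hfin]
  have hs2 : 0 < s ^ 2 := by positivity
  rcases hpos with h4 | h4
  · have h5 : 0 ≤ 2 * (s + β v) * ((C * s - B * (B / s)) / s ^ 2) :=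
      mul_nonneg (by linarith) (div_nonneg hnn hs2.le)
    linarith
  · have h5 : 0 < 2 * (s + β v) * ((C * s - B * (B / s)) / s ^ 2) :=
      mul_pos (by linarith) (div_pos h4 hs2)
    have h6 := sq_nonneg (B / s + β w)
    linarith

end

theorem V6_randers {S : Vec 2 → Vec 2 →L[ℝ] Vec 2 →L[ℝ] ℝ} {b : Vec 2 → Vec 2 →L[ℝ] ℝ} (hS : ContDiff ℝ 2 S)
    (hb : ContDiff ℝ 2 b) (hp : ∀ x, T.IsScalarProduct (S x))
    (hSp : ∀ (m : Fin 2 → ℤ) x, S (x + vz m) = S x) (hbp : ∀ (m : Fin 2 → ℤ) x, b (x + vz m) = b x)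
    (hlt : ∀ x v, v ≠ 0 → |b x v| < √(S x v v)) :
    IsFinsler2 (fun x v => √(S x v v) + b x v) where
  smooth := by
    intro q hq
    have hq' : 0 < S q.1 q.2 q.2 := (hp q.1).2 q.2 hq
    have h1 : ContDiff ℝ 2 (fun q : Vec 2 × Vec 2 => S q.1 q.2 q.2) :=
      ((hS.comp contDiff_fst).clm_apply contDiff_snd).clm_apply contDiff_snd
    have h2 : ContDiff ℝ 2 (fun q : Vec 2 × Vec 2 => b q.1 q.2) :=
      (hb.comp contDiff_fst).clm_apply contDiff_snd
    exact ((h1.contDiffAt.sqrt hq'.ne').add h2.contDiffAt).contDiffWithinAt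
  pos x v hv := by
    have h1 := (abs_lt.1 (hlt x v hv)).1
    show 0 < √(S x v v) + b x v
    linarith
  hom x v c hc := by
    show √(S x (c • v) (c • v)) + b x (c • v) = c * (√(S x v v) + b x v)
    have e : S x (c • v) (c • v) = c ^ 2 * S x v v := by
      simp only [map_smul, smul_apply, smul_eq_mul]
      ring
    rw [e, Real.sqrt_mul (sq_nonneg c), Real.sqrt_sq hc, map_smul, smul_eq_mul]
    ring
  per m x v := by
    show √(S (x + vz m) v v) + b (x + vz m) v = √(S x v v) + b x v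
    rw [hSp, hbp]
  conv x v w hv hw := V6_conv (hp x).1 (hp x).2 (hlt x) hv hw

end EscG.U
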