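import Pool.Agent.EscG.PrDefs

/-!
Definition for the final statement of project EscV about metrics of `𝕋² × 𝕋ⁿ` which are invariant under the
translations of `𝕋ⁿ`.
-/

namespace EscG.U

open Filter Topology Set EscF.T EscG.T

variable {n : ℕ}

/-- The metric `G` of `𝕋² × 𝕋ⁿ` is invariant under the translations of `𝕋ⁿ`: it depends only on the projection
of the point to `𝕋²`. -/
def IsFibreInvariant (G : Vec (2 + n) → Vec (2 + n) → Vec (2 + n) → ℝ) : Prop :=
  ∀ x y : Vec (2 + n), base x = base y → G x = G y

end EscG.U
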