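import Pool.Agent.EscV.V12
import Pool.Agent.EscV.WDefs

/-!
Project EscV: final theorem for metrics of `𝕋² × 𝕋ⁿ` which are invariant under the translations of `𝕋ⁿ`.
-/

namespace EscG.U

open Filter Topology Set EscF.T EscG.T

theorem result_invariant {n : ℕ} {k : ℕ∞} (hk : 2 ≤ k) {G : Vec (2 + n) → Vec (2 + n) → Vec (2 + n) → ℝ}
    (hG : IsRiemannian k G) (hinv : IsFibreInvariant G) (V : Pot (2 + n) k) {L : Lag (2 + n)}
    (hL : IsMechAtInfinity G V L) :
    {f : Pot (2 + n) k | HasOrbitToInfinity (addPot L f.toFun)} ∈ residual (Pot (2 + n) k) ∧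
      Dense {f : Pot (2 + n) k | HasOrbitToInfinity (addPot L f.toFun)} :=
  V12_result hk hG (fun y x => hinv _ _ (by
    rw [EscG.X.base_add, EscG.X.base_fb, add_zero])) V hL

end EscG.U
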